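import Pool.Agent.MRZ.Fejer

/-!
# SMC.EquiF: a general equidistribution lemma (Fejér kernels)

PROOF. Notation `e(x) = exp(2πix)`, `F_N(x) = fej N (2πx) = ∑_{|h|<N} (1-|h|/N) e(hx) ≥ 0`. Let `N = n²`, `δ = 1/(6n)`,
`P(z) = z + ∑_{|h|<N} (1-|h|/N) sin(2πhz)/(2πh)`, a primitive of `F_N`: monotone, `P(z+1) = P(z)+1`,
`|P(z) - 1/2| ≤ 1/(4Nz)` for `0 < z ≤ 1/2`. For `0 ≤ θ ≤ 1` put `g(x) = P(x) - P(x-θ) ∈ [0,1]`, a trigonometric
polynomial of degree `< N` with mean value `θ` and all coefficients of absolute value `≤ 1`, and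
`|1[fract x < θ] - g(x)| ≤ 3/n + (2/n) (F_n(x) + F_n(x - θ))`. Telescope, integrate over `[a,b]`.
-/

namespace SMC

open MeasureTheory

namespace EquiFAux

open Pool.MRZ Finset

/-- primitive of the Fejér kernel -/
noncomputable def P (N : ℕ) (z : ℝ) : ℝ :=
  z + ∑ h ∈ Finset.Ioo (-(N : ℤ)) N,
    (1 - |(h : ℝ)| / N) * (Real.sin (2 * Real.pi * h * z) / (2 * Real.pi * h))

lemma hasDerivAt_P {N : ℕ} (hN : 1 ≤ N) (z : ℝ) :
    HasDerivAt (P N) (fej N (2 * Real.pi * z)) z := by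
  have h1 : HasDerivAt (fun z : ℝ => ∑ h ∈ Finset.Ioo (-(N : ℤ)) N,
      (1 - |(h : ℝ)| / N) * (Real.sin (2 * Real.pi * h * z) / (2 * Real.pi * h)))
      (∑ h ∈ Finset.Ioo (-(N : ℤ)) N,
        (1 - |(h : ℝ)| / N) * (if h = 0 then 0 else Real.cos (h * (2 * Real.pi * z)))) z := by
    apply HasDerivAt.fun_sum
    intro h _
    apply HasDerivAt.const_mul
    by_cases h0 : h = 0
    · subst h0
      simp only [Int.cast_zero, mul_zero, div_zero, if_true]
      exact hasDerivAt_const _ _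
    · rw [if_neg h0]
      have h0' : (2 * Real.pi * (h : ℝ)) ≠ 0 := by
        have : (h : ℝ) ≠ 0 := by exact_mod_cast h0
        have := Real.pi_pos.ne'
        positivity
      have h2 : HasDerivAt (fun z : ℝ => 2 * Real.pi * h * z) (2 * Real.pi * h) z := by
        simpa using (hasDerivAt_id z).const_mul (2 * Real.pi * (h : ℝ))
      have h3 := (h2.sin).div_const (2 * Real.pi * (h : ℝ))
      have h4 : Real.cos (2 * Real.pi * h * z) * (2 * Real.pi * h) / (2 * Real.pi * h)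
          = Real.cos (h * (2 * Real.pi * z)) := by
        rw [mul_div_assoc, div_self h0', mul_one]
        congr 1
        ring
      rw [h4] at h3
      exact h3
  have h5 := (hasDerivAt_id z).add h1
  have h6 : (1 : ℝ) + ∑ h ∈ Finset.Ioo (-(N : ℤ)) N,
        (1 - |(h : ℝ)| / N) * (if h = 0 then 0 else Real.cos (h * (2 * Real.pi * z)))
      = fej N (2 * Real.pi * z) := by
    have h7 : (1 : ℝ) = ∑ h ∈ Finset.Ioo (-(N : ℤ)) N, (if h = 0 then (1 : ℝ) else 0) := by
      rw [Finset.sum_ite_eq', if_pos]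
      rw [Finset.mem_Ioo]
      omega
    have h8 : (1 : ℝ) + ∑ h ∈ Finset.Ioo (-(N : ℤ)) N,
        (1 - |(h : ℝ)| / N) * (if h = 0 then 0 else Real.cos (h * (2 * Real.pi * z)))
        = ∑ h ∈ Finset.Ioo (-(N : ℤ)) N, (if h = 0 then (1 : ℝ) else 0) +
        ∑ h ∈ Finset.Ioo (-(N : ℤ)) N,
        (1 - |(h : ℝ)| / N) * (if h = 0 then 0 else Real.cos (h * (2 * Real.pi * z))) := by
      rw [← h7]
    rw [h8, fej, ← Finset.sum_add_distrib]
    refine Finset.sum_congr rfl fun h _ => ?_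
    by_cases h0 : h = 0
    · subst h0; simp
    · rw [if_neg h0, if_neg h0]; ring
  rw [h6] at h5
  exact h5

lemma P_mono {N : ℕ} (hN : 1 ≤ N) : Monotone (P N) :=
  monotone_of_deriv_nonneg (fun z => (hasDerivAt_P hN z).differentiableAt)
    (fun z => by rw [(hasDerivAt_P hN z).deriv]; exact fej_nonneg _ _)

lemma P_cont {N : ℕ} (hN : 1 ≤ N) : Continuous (P N) := by
  have : Differentiable ℝ (P N) := fun z => (hasDerivAt_P hN z).differentiableAt
  exact this.continuous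

lemma P_add_int (N : ℕ) (z : ℝ) (k : ℤ) : P N (z + k) = P N z + k := by
  unfold P
  have h1 : ∀ h ∈ Finset.Ioo (-(N : ℤ)) N,
      (1 - |(h : ℝ)| / N) * (Real.sin (2 * Real.pi * h * (z + k)) / (2 * Real.pi * h))
      = (1 - |(h : ℝ)| / N) * (Real.sin (2 * Real.pi * h * z) / (2 * Real.pi * h)) := by
    intro h _
    have : (2 * Real.pi * h * (z + k) : ℝ) = 2 * Real.pi * h * z + ((h * k : ℤ) : ℝ) * (2 * Real.pi) := by
      push_cast; ring
    rw [this, Real.sin_add_int_mul_two_pi]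
  rw [Finset.sum_congr rfl h1]
  ring

lemma P_neg (N : ℕ) (z : ℝ) : P N (-z) = - P N z := by
  unfold P
  have h1 : ∀ h ∈ Finset.Ioo (-(N : ℤ)) N,
      (1 - |(h : ℝ)| / N) * (Real.sin (2 * Real.pi * h * (-z)) / (2 * Real.pi * h))
      = - ((1 - |(h : ℝ)| / N) * (Real.sin (2 * Real.pi * h * z) / (2 * Real.pi * h))) := by
    intro h _
    rw [mul_neg, Real.sin_neg]
    ring
  rw [Finset.sum_congr rfl h1, Finset.sum_neg_distrib]
  ring

lemma P_half (N : ℕ) : P N (1 / 2) = 1 / 2 := by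
  have h1 := P_add_int N (-(1 / 2)) 1
  rw [P_neg] at h1
  have h2 : (-(1 / 2 : ℝ) + ((1 : ℤ) : ℝ)) = 1 / 2 := by push_cast; norm_num
  rw [h2] at h1
  push_cast at h1
  linarith

lemma P_lower {N : ℕ} (hN : 1 ≤ N) {z : ℝ} (h0 : 0 < z) (h1 : z ≤ 1 / 2) :
    1 / 2 - 1 / (4 * N * z) ≤ P N z := by
  have hN' : (0 : ℝ) < N := by exact_mod_cast hN
  have hanti : AntitoneOn (fun t : ℝ => P N t + 1 / (4 * N * t)) (Set.Icc z (1 / 2)) := by
    apply antitoneOn_of_deriv_nonpos (convex_Icc _ _)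
    · intro t ht
      have ht0 : 0 < t := lt_of_lt_of_le h0 ht.1
      apply ContinuousAt.continuousWithinAt
      apply ContinuousAt.add (P_cont hN).continuousAt
      apply ContinuousAt.div continuousAt_const (by fun_prop)
      positivity
    · intro t ht
      rw [interior_Icc] at ht
      have ht0 : 0 < t := h0.trans ht.1
      apply DifferentiableAt.differentiableWithinAt
      apply DifferentiableAt.add (hasDerivAt_P hN t).differentiableAt
      apply DifferentiableAt.div (differentiableAt_const _) (by fun_prop)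
      positivity
    · intro t ht
      rw [interior_Icc] at ht
      have ht0 : 0 < t := h0.trans ht.1
      have hd : HasDerivAt (fun t : ℝ => 1 / (4 * N * t)) (-(1 / (4 * N * t ^ 2))) t := by
        have h2 : HasDerivAt (fun t : ℝ => 4 * N * t) (4 * N) t := by
          simpa using (hasDerivAt_id t).const_mul (4 * (N : ℝ))
        have h3 := h2.inv (by positivity)
        have h4 : -(4 * (N : ℝ)) / (4 * N * t) ^ 2 = -(1 / (4 * N * t ^ 2)) := by
          field_simp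
        rw [h4] at h3
        have h5 : HasDerivAt (fun t : ℝ => (4 * (N : ℝ) * t)⁻¹) (-(1 / (4 * N * t ^ 2))) t := h3
        simp only [one_div] at h5 ⊢
        exact h5
      rw [((hasDerivAt_P hN t).fun_add hd).deriv]
      have hb := fej_le_inv hN (θ := 2 * Real.pi * t) (by positivity) (by
        rw [abs_of_pos (by positivity)]
        have := ht.2.le
        nlinarith [Real.pi_pos])
      have h5 : Real.pi ^ 2 / (N * (2 * Real.pi * t) ^ 2) = 1 / (4 * N * t ^ 2) := by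
        have := Real.pi_pos
        field_simp
        ring
      rw [h5] at hb
      linarith
  have h2 := hanti (Set.left_mem_Icc.mpr h1) (Set.right_mem_Icc.mpr h1) h1
  simp only at h2
  rw [P_half] at h2
  have h3 : 0 ≤ 1 / (4 * (N : ℝ) * (1 / 2)) := by positivity
  linarith

/-- the basic approximation of the primitive by the floor function -/
lemma P_approx {n : ℕ} (hn : 1 ≤ n) {z : ℝ} (h1 : 1 / (6 * n) ≤ Int.fract z)
    (h2 : Int.fract z ≤ 1 - 1 / (6 * n)) : |P (n ^ 2) z - (⌊z⌋ + 1 / 2)| ≤ 3 / 2 / n := by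
  have hn' : (0 : ℝ) < n := by exact_mod_cast hn
  have hN : 1 ≤ n ^ 2 := Nat.one_le_pow _ _ hn
  set u := Int.fract z with hu
  have hz : z = u + ⌊z⌋ := (Int.fract_add_floor z).symm
  have hP : P (n ^ 2) z = P (n ^ 2) u + ⌊z⌋ := by
    conv_lhs => rw [hz]
    rw [P_add_int]
  have hmain : |P (n ^ 2) u - 1 / 2| ≤ 3 / 2 / n := by
    have key : ∀ v : ℝ, 1 / (6 * n) ≤ v → v ≤ 1 / 2 → |P (n ^ 2) v - 1 / 2| ≤ 3 / 2 / n := by
      intro v hv1 hv2
      have hv0 : 0 < v := lt_of_lt_of_le (by positivity) hv1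
      have h3 := P_lower hN hv0 hv2
      have h4 : P (n ^ 2) v ≤ 1 / 2 := by
        rw [← P_half (n ^ 2)]
        exact P_mono hN hv2
      have h5 : 1 / (4 * ((n ^ 2 : ℕ) : ℝ) * v) ≤ 3 / 2 / n := by
        push_cast
        rw [div_le_div_iff₀ (by positivity) (by positivity)]
        rw [div_le_iff₀ (by positivity)] at hv1
        nlinarith
      rw [abs_le]
      constructor
      · linarith
      · have : 0 ≤ 3 / 2 / (n : ℝ) := by positivity
        linarith
    rcases le_total u (1 / 2) with hle | hle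
    · exact key u h1 hle
    · have h3 := key (1 - u) (by linarith) (by linarith)
      have h4 : P (n ^ 2) (1 - u) = 1 - P (n ^ 2) u := by
        have h5 := P_add_int (n ^ 2) (-u) 1
        rw [P_neg] at h5
        push_cast at h5
        rw [show (1 - u : ℝ) = -u + 1 by ring, h5]
        ring
      rw [h4] at h3
      rw [show (1 - P (n ^ 2) u - 1 / 2 : ℝ) = -(P (n ^ 2) u - 1 / 2) by ring, abs_neg] at h3
      exact h3
  rw [hP, show (P (n ^ 2) u + ⌊z⌋ - (⌊z⌋ + 1 / 2) : ℝ) = P (n ^ 2) u - 1 / 2 by ring]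
  exact hmain

lemma fej_zero_arg {n : ℕ} (hn : 1 ≤ n) : fej n 0 = n := by
  have hn' : (0 : ℝ) < n := by exact_mod_cast hn
  have h1 := FejA.mul_fej n 0
  have h2 : FejA.cs n 0 = n := by simp [FejA.cs]
  have h3 : FejA.sn n 0 = 0 := by simp [FejA.sn]
  rw [h2, h3] at h1
  have h4 : (n : ℝ) * fej n 0 = n * n := by rw [h1]; ring
  exact mul_left_cancel₀ hn'.ne' h4

lemma fej_lower_small {n : ℕ} (hn : 1 ≤ n) {x : ℝ} (hx : |x| ≤ 1 / (6 * n)) :
    (n : ℝ) / 2 ≤ fej n (2 * Real.pi * x) := by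
  have hn' : (0 : ℝ) < n := by exact_mod_cast hn
  have h1 : (n : ℝ) / 2 = ∑ t ∈ Finset.Ioo (-(n : ℤ)) n, (1 - |(t : ℝ)| / n) * (1 / 2) := by
    have h2 := fej_zero_arg hn
    unfold fej at h2
    simp only [mul_zero, Real.cos_zero, mul_one] at h2
    rw [← Finset.sum_mul, h2]
    ring
  rw [h1, fej]
  apply Finset.sum_le_sum
  intro t ht
  rw [Finset.mem_Ioo] at ht
  have ht1 : |(t : ℝ)| ≤ n := by
    rw [abs_le]
    constructor
    · have : (-(n : ℤ)) ≤ t := ht.1.le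
      exact_mod_cast this
    · have : t ≤ (n : ℤ) := ht.2.le
      exact_mod_cast this
  apply mul_le_mul_of_nonneg_left
  · have h3 : |(t : ℝ) * (2 * Real.pi * x)| ≤ Real.pi / 3 := by
      rw [abs_mul, abs_mul, abs_of_pos (by positivity : (0 : ℝ) < 2 * Real.pi)]
      have h4 : |(t : ℝ)| * |x| ≤ n * (1 / (6 * n)) :=
        mul_le_mul ht1 hx (abs_nonneg _) hn'.le
      have h5 : (n : ℝ) * (1 / (6 * n)) = 1 / 6 := by field_simp
      rw [h5] at h4
      calc |(t : ℝ)| * (2 * Real.pi * |x|) = 2 * Real.pi * (|(t : ℝ)| * |x|) := by ring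
        _ ≤ 2 * Real.pi * (1 / 6) := by
          apply mul_le_mul_of_nonneg_left h4; positivity
        _ = Real.pi / 3 := by ring
    rw [← Real.cos_abs, ← Real.cos_pi_div_three]
    apply Real.cos_le_cos_of_nonneg_of_le_pi (abs_nonneg _) _ h3
    linarith [Real.pi_pos]
  · rw [sub_nonneg, div_le_one hn']
    exact ht1

/-- if `x` is near an integer then the kernel is large -/
lemma fej_lower {n : ℕ} (hn : 1 ≤ n) {x : ℝ}
    (hx : ¬ (1 / (6 * n) ≤ Int.fract x ∧ Int.fract x ≤ 1 - 1 / (6 * n))) :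
    (n : ℝ) / 2 ≤ fej n (2 * Real.pi * x) := by
  have hn' : (0 : ℝ) < n := by exact_mod_cast hn
  rw [not_and_or, not_le, not_le] at hx
  rcases hx with hx | hx
  · have h1 := fej_lower_small hn (x := Int.fract x) (by
      rw [abs_of_nonneg (Int.fract_nonneg x)]; exact hx.le)
    have h2 : (2 * Real.pi * x : ℝ) = 2 * Real.pi * Int.fract x + 2 * Real.pi * (⌊x⌋ : ℤ) := by
      rw [← mul_add, Int.fract_add_floor]
    rw [h2, fej_add_two_pi]
    exact h1
  · have h1 := fej_lower_small hn (x := Int.fract x - 1) (by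
      rw [abs_sub_comm, abs_of_nonneg (by linarith [Int.fract_lt_one x])]; linarith)
    have h2 : (2 * Real.pi * x : ℝ) = 2 * Real.pi * (Int.fract x - 1) +
        2 * Real.pi * ((⌊x⌋ + 1 : ℤ) : ℝ) := by
      push_cast
      rw [← mul_add]
      congr 1
      linarith [Int.fract_add_floor x]
    rw [h2, fej_add_two_pi]
    exact h1

/-- the smoothed indicator function -/
noncomputable def g (N : ℕ) (θ x : ℝ) : ℝ := P N x - P N (x - θ)

lemma g_nonneg {N : ℕ} (hN : 1 ≤ N) {θ : ℝ} (h0 : 0 ≤ θ) (x : ℝ) : 0 ≤ g N θ x := by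
  unfold g
  have := P_mono hN (show x - θ ≤ x by linarith)
  linarith

lemma g_le_one {N : ℕ} (hN : 1 ≤ N) {θ : ℝ} (h1 : θ ≤ 1) (x : ℝ) : g N θ x ≤ 1 := by
  unfold g
  have h2 := P_mono hN (show x - 1 ≤ x - θ by linarith)
  have h3 := P_add_int N (x - 1) 1
  push_cast at h3
  rw [sub_add_cancel] at h3
  linarith

lemma g_meas {N : ℕ} (hN : 1 ≤ N) (θ : ℝ) : Measurable (g N θ) := by
  have := P_cont hN
  have h : Continuous (g N θ) := by unfold g; fun_prop
  exact h.measurable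

/-- indicator of `fract x < θ` -/
noncomputable def ind (θ x : ℝ) : ℝ := if Int.fract x < θ then 1 else 0

lemma ind_nonneg (θ x : ℝ) : 0 ≤ ind θ x := by unfold ind; split_ifs <;> norm_num

lemma ind_le_one (θ x : ℝ) : ind θ x ≤ 1 := by unfold ind; split_ifs <;> norm_num

lemma ind_meas (θ : ℝ) : Measurable (ind θ) := by
  unfold ind
  exact Measurable.ite (measurableSet_lt measurable_fract measurable_const) measurable_const
    measurable_const

lemma ind_eq {θ : ℝ} (h0 : 0 ≤ θ) (h1 : θ ≤ 1) (x : ℝ) :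
    ind θ x = (⌊x⌋ : ℝ) - ⌊x - θ⌋ := by
  have hx := Int.fract_add_floor x
  have hx0 := Int.fract_nonneg x
  have hx1 := Int.fract_lt_one x
  unfold ind
  split_ifs with h
  · have : ⌊x - θ⌋ = ⌊x⌋ - 1 := by
      rw [Int.floor_eq_iff]
      push_cast
      constructor <;> linarith
    rw [this]
    push_cast
    ring
  · have : ⌊x - θ⌋ = ⌊x⌋ := by
      rw [Int.floor_eq_iff]
      push_cast
      constructor <;> linarith
    rw [this]
    ring

lemma ind_sub_g {n : ℕ} (hn : 1 ≤ n) {θ : ℝ} (h0 : 0 ≤ θ) (h1 : θ ≤ 1) (x : ℝ) :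
    |ind θ x - g (n ^ 2) θ x| ≤ 3 / n + 2 / n * (fej n (2 * Real.pi * x) +
      fej n (2 * Real.pi * (x - θ))) := by
  have hn' : (0 : ℝ) < n := by exact_mod_cast hn
  have hN : 1 ≤ n ^ 2 := Nat.one_le_pow _ _ hn
  have hF1 := fej_nonneg n (2 * Real.pi * x)
  have hF2 := fej_nonneg n (2 * Real.pi * (x - θ))
  have htriv : |ind θ x - g (n ^ 2) θ x| ≤ 1 := by
    rw [abs_le]
    constructor <;>
      linarith [ind_nonneg θ x, ind_le_one θ x, g_nonneg hN h0 x, g_le_one hN h1 x]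
  have h3n : 0 ≤ 3 / (n : ℝ) := by positivity
  by_cases hx : 1 / (6 * n) ≤ Int.fract x ∧ Int.fract x ≤ 1 - 1 / (6 * (n : ℝ))
  · by_cases hy : 1 / (6 * n) ≤ Int.fract (x - θ) ∧ Int.fract (x - θ) ≤ 1 - 1 / (6 * (n : ℝ))
    · have h2 := P_approx hn hx.1 hx.2
      have h3 := P_approx hn hy.1 hy.2
      rw [ind_eq h0 h1 x]
      unfold g
      have h4 : |(⌊x⌋ : ℝ) - ⌊x - θ⌋ - (P (n ^ 2) x - P (n ^ 2) (x - θ))| ≤ 3 / n := by
        rw [abs_le] at h2 h3 ⊢
        have h5 : 3 / (n : ℝ) = 3 / 2 / n + 3 / 2 / n := by ring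
        constructor <;> linarith [h2.1, h2.2, h3.1, h3.2]
      have h5 : 0 ≤ 2 / n * (fej n (2 * Real.pi * x) + fej n (2 * Real.pi * (x - θ))) := by
        positivity
      linarith
    · have h2 := fej_lower hn hy
      have h3 : 1 ≤ 2 / n * (fej n (2 * Real.pi * x) + fej n (2 * Real.pi * (x - θ))) := by
        calc (1 : ℝ) = 2 / n * (n / 2) := by field_simp
          _ ≤ _ := by
            apply mul_le_mul_of_nonneg_left _ (by positivity)
            linarith
      linarith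
  · have h2 := fej_lower hn hx
    have h3 : 1 ≤ 2 / n * (fej n (2 * Real.pi * x) + fej n (2 * Real.pi * (x - θ))) := by
      calc (1 : ℝ) = 2 / n * (n / 2) := by field_simp
        _ ≤ _ := by
          apply mul_le_mul_of_nonneg_left _ (by positivity)
          linarith
    linarith

/-- the exponential function `e(x)` -/
noncomputable def e (x : ℝ) : ℂ := Complex.exp (2 * Real.pi * Complex.I * (x : ℂ))

lemma e_norm (x : ℝ) : ‖e x‖ = 1 := by
  unfold e
  rw [show (2 * Real.pi * Complex.I * (x : ℂ) : ℂ) = ((2 * Real.pi * x : ℝ) : ℂ) * Complex.I by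
    push_cast; ring]
  exact Complex.norm_exp_ofReal_mul_I _

lemma e_add (x y : ℝ) : e (x + y) = e x * e y := by
  unfold e
  rw [← Complex.exp_add]
  congr 1
  push_cast
  ring

lemma e_sum {ι : Type*} (s : Finset ι) (f : ι → ℝ) : e (∑ i ∈ s, f i) = ∏ i ∈ s, e (f i) := by
  classical
  induction s using Finset.induction_on with
  | empty => simp [e]
  | insert a s ha ih => rw [Finset.sum_insert ha, Finset.prod_insert ha, e_add, ih]

lemma e_cont : Continuous e := by unfold e; fun_prop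

lemma e_eq (x : ℝ) : e x = ((Real.cos (2 * Real.pi * x) : ℝ) : ℂ) +
    ((Real.sin (2 * Real.pi * x) : ℝ) : ℂ) * Complex.I := by
  unfold e
  rw [show (2 * Real.pi * Complex.I * (x : ℂ) : ℂ) = ((2 * Real.pi * x : ℝ) : ℂ) * Complex.I by
    push_cast; ring, Complex.exp_mul_I, ← Complex.ofReal_cos, ← Complex.ofReal_sin]

/-- Fourier coefficients of `g` -/
noncomputable def c (N : ℕ) (θ : ℝ) (h : ℤ) : ℂ :=
  if h = 0 then (θ : ℂ) else
    ((1 - |(h : ℝ)| / N : ℝ) : ℂ) * ((1 - e (-(h * θ))) / (2 * Real.pi * h * Complex.I))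

lemma c_norm {N : ℕ} {θ : ℝ} (h0 : 0 ≤ θ) (h1 : θ ≤ 1) {h : ℤ} (hh : h ∈ Finset.Ioo (-(N : ℤ)) N) :
    ‖c N θ h‖ ≤ 1 := by
  unfold c
  split_ifs with hz
  · rw [Complex.norm_real, Real.norm_eq_abs, abs_of_nonneg h0]
    exact h1
  · rw [Finset.mem_Ioo] at hh
    have hN : (0 : ℝ) < N := by
      have : (0 : ℤ) < N := by omega
      exact_mod_cast this
    have ht1 : |(h : ℝ)| ≤ N := by
      rw [abs_le]
      constructor
      · have : (-(N : ℤ)) ≤ h := hh.1.le
        exact_mod_cast this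
      · have : h ≤ (N : ℤ) := hh.2.le
        exact_mod_cast this
    have hh1 : 1 ≤ |(h : ℝ)| := by
      have : 1 ≤ |h| := Int.one_le_abs hz
      exact_mod_cast this
    rw [norm_mul, norm_div]
    have h2 : ‖((1 - |(h : ℝ)| / N : ℝ) : ℂ)‖ ≤ 1 := by
      rw [Complex.norm_real, Real.norm_eq_abs, abs_le]
      have h3 : |(h : ℝ)| / N ≤ 1 := by rw [div_le_one hN]; exact ht1
      have h4 : 0 ≤ |(h : ℝ)| / N := by positivity
      constructor <;> linarith
    have h3 : ‖1 - e (-(h * θ))‖ ≤ 2 := by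
      refine (norm_sub_le _ _).trans ?_
      rw [e_norm, norm_one]
      norm_num
    have h4 : ‖(2 * Real.pi * h * Complex.I : ℂ)‖ = 2 * Real.pi * |(h : ℝ)| := by
      rw [norm_mul, norm_mul, norm_mul, Complex.norm_I, Complex.norm_real, Complex.norm_intCast]
      simp [abs_of_pos Real.pi_pos]
    have h5 : ‖1 - e (-(h * θ))‖ / ‖(2 * Real.pi * h * Complex.I : ℂ)‖ ≤ 1 := by
      rw [h4, div_le_one (by have := Real.pi_pos; positivity)]
      have := Real.pi_gt_three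
      nlinarith
    calc _ ≤ (1 : ℝ) * 1 := mul_le_mul h2 h5 (by positivity) (by norm_num)
      _ = 1 := one_mul 1

lemma g_eq_sum {N : ℕ} (hN : 1 ≤ N) (θ x : ℝ) :
    ((g N θ x : ℝ) : ℂ) = ∑ h ∈ Finset.Ioo (-(N : ℤ)) N, c N θ h * e (h * x) := by
  have key : ∀ z : ℝ, ((∑ h ∈ Finset.Ioo (-(N : ℤ)) N,
      (1 - |(h : ℝ)| / N) * (Real.sin (2 * Real.pi * h * z) / (2 * Real.pi * h)) : ℝ) : ℂ)
      = ∑ h ∈ Finset.Ioo (-(N : ℤ)) N,
        ((1 - |(h : ℝ)| / N : ℝ) : ℂ) * (e (h * z) / (2 * Real.pi * h * Complex.I)) := by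
    intro z
    have hodd : ∑ h ∈ Finset.Ioo (-(N : ℤ)) N,
        (1 - |(h : ℝ)| / N) * (Real.cos (2 * Real.pi * (h * z)) / (2 * Real.pi * h)) = 0 := by
      have h : ∑ h ∈ Finset.Ioo (-(N : ℤ)) N,
          (1 - |(h : ℝ)| / N) * (Real.cos (2 * Real.pi * (h * z)) / (2 * Real.pi * h))
          = ∑ h ∈ Finset.Ioo (-(N : ℤ)) N,
          -((1 - |(h : ℝ)| / N) * (Real.cos (2 * Real.pi * (h * z)) / (2 * Real.pi * h))) := by
        refine Finset.sum_nbij' (fun t => -t) (fun t => -t) ?_ ?_ ?_ ?_ ?_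
        · intro t ht
          rw [Finset.mem_Ioo] at ht ⊢
          omega
        · intro t ht
          rw [Finset.mem_Ioo] at ht ⊢
          omega
        · intro t _; exact neg_neg t
        · intro t _; exact neg_neg t
        · intro t _
          push_cast
          rw [abs_neg, show (2 * Real.pi * (-(t : ℝ) * z)) = -(2 * Real.pi * (t * z)) by ring,
            Real.cos_neg, mul_neg (2 * Real.pi), div_neg]
          ring
      rw [Finset.sum_neg_distrib] at h
      linarith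
    have h1 : ∀ h ∈ Finset.Ioo (-(N : ℤ)) N,
        ((1 - |(h : ℝ)| / N : ℝ) : ℂ) * (e (h * z) / (2 * Real.pi * h * Complex.I))
        = (((1 - |(h : ℝ)| / N) * (Real.sin (2 * Real.pi * h * z) / (2 * Real.pi * h)) : ℝ) : ℂ)
          - (((1 - |(h : ℝ)| / N) * (Real.cos (2 * Real.pi * (h * z)) / (2 * Real.pi * h)) : ℝ) : ℂ)
            * Complex.I := by
      intro h _
      by_cases h0 : h = 0
      · subst h0; simp
      · have h0' : (h : ℂ) ≠ 0 := by exact_mod_cast h0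
        have hpi : (Real.pi : ℂ) ≠ 0 := by exact_mod_cast Real.pi_pos.ne'
        rw [e_eq, show (2 * Real.pi * (h : ℝ) * z) = 2 * Real.pi * (h * z) by ring]
        push_cast
        have hI : Complex.I ≠ 0 := Complex.I_ne_zero
        field_simp
        ring_nf
        rw [Complex.I_sq]
        ring
    rw [Finset.sum_congr rfl h1, Finset.sum_sub_distrib, ← Finset.sum_mul, ← Complex.ofReal_sum,
      ← Complex.ofReal_sum, hodd]
    simp
  unfold g P
  have h2 : ((x + ∑ h ∈ Finset.Ioo (-(N : ℤ)) N,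
        (1 - |(h : ℝ)| / N) * (Real.sin (2 * Real.pi * h * x) / (2 * Real.pi * h)) -
      (x - θ + ∑ h ∈ Finset.Ioo (-(N : ℤ)) N,
        (1 - |(h : ℝ)| / N) * (Real.sin (2 * Real.pi * h * (x - θ)) / (2 * Real.pi * h))) : ℝ) : ℂ)
      = (θ : ℂ) + (((∑ h ∈ Finset.Ioo (-(N : ℤ)) N,
        (1 - |(h : ℝ)| / N) * (Real.sin (2 * Real.pi * h * x) / (2 * Real.pi * h)) : ℝ) : ℂ) -
      ((∑ h ∈ Finset.Ioo (-(N : ℤ)) N,
        (1 - |(h : ℝ)| / N) * (Real.sin (2 * Real.pi * h * (x - θ)) / (2 * Real.pi * h)) : ℝ) : ℂ)) := by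
    push_cast
    ring
  rw [h2, key, key, ← Finset.sum_sub_distrib]
  have h3 : (θ : ℂ) = ∑ h ∈ Finset.Ioo (-(N : ℤ)) N, (if h = 0 then (θ : ℂ) else 0) := by
    rw [Finset.sum_ite_eq', if_pos]
    rw [Finset.mem_Ioo]
    omega
  conv_lhs => rw [h3]
  rw [← Finset.sum_add_distrib]
  refine Finset.sum_congr rfl fun h _ => ?_
  unfold c
  by_cases h0 : h = 0
  · subst h0
    simp [e]
  · rw [if_neg h0, if_neg h0]
    have h4 : e (h * (x - θ)) = e (-(h * θ)) * e (h * x) := by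
      rw [← e_add]
      congr 1
      ring
    rw [h4]
    ring

lemma abs_prod_sub_prod {ι : Type*} (s : Finset ι) (u v : ι → ℝ) (hu0 : ∀ i, 0 ≤ u i)
    (hu1 : ∀ i, u i ≤ 1) (hv0 : ∀ i, 0 ≤ v i) (hv1 : ∀ i, v i ≤ 1) :
    |∏ i ∈ s, u i - ∏ i ∈ s, v i| ≤ ∑ i ∈ s, |u i - v i| := by
  classical
  induction s using Finset.induction_on with
  | empty => simp
  | insert a s ha ih =>
    rw [Finset.prod_insert ha, Finset.prod_insert ha, Finset.sum_insert ha]
    have h1 : u a * ∏ i ∈ s, u i - v a * ∏ i ∈ s, v i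
        = (u a - v a) * ∏ i ∈ s, u i + v a * (∏ i ∈ s, u i - ∏ i ∈ s, v i) := by ring
    rw [h1]
    refine (abs_add_le _ _).trans ?_
    rw [abs_mul, abs_mul]
    have h2 : |∏ i ∈ s, u i| ≤ 1 := by
      rw [abs_of_nonneg (Finset.prod_nonneg fun i _ => hu0 i)]
      exact Finset.prod_le_one (fun i _ => hu0 i) (fun i _ => hu1 i)
    have h3 : |v a| ≤ 1 := by rw [abs_of_nonneg (hv0 a)]; exact hv1 a
    have h4 : |u a - v a| * |∏ i ∈ s, u i| ≤ |u a - v a| :=
      mul_le_of_le_one_right (abs_nonneg _) h2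
    have h5 : |v a| * |∏ i ∈ s, u i - ∏ i ∈ s, v i| ≤ |∏ i ∈ s, u i - ∏ i ∈ s, v i| :=
      mul_le_of_le_one_left (abs_nonneg _) h3
    linarith

lemma bdd_int {E : Type*} [NormedAddCommGroup E] {F : ℝ → E} (hF : StronglyMeasurable F) {C : ℝ}
    (hC : ∀ t, ‖F t‖ ≤ C) (a b : ℝ) : IntervalIntegrable F volume a b :=
  (intervalIntegrable_const (c := C)).mono_fun' hF.aestronglyMeasurable
    (Filter.Eventually.of_forall hC)

lemma vol_eq {r : ℕ} {a b : ℝ} (hab : a ≤ b) (f : Fin r → ℝ → ℝ) (θ : Fin r → ℝ)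
    (hf : ∀ i, Measurable (f i)) :
    (volume {t : ℝ | t ∈ Set.Icc a b ∧ ∀ i, Int.fract (f i t) < θ i}).toReal =
      ∫ t in a..b, ∏ i, ind (θ i) (f i t) := by
  have hS : MeasurableSet {t : ℝ | ∀ i, Int.fract (f i t) < θ i} := by
    rw [Set.ofPred_forall]
    exact MeasurableSet.iInter fun i =>
      measurableSet_lt (measurable_fract.comp (hf i)) measurable_const
  have h1 : ∀ t, ∏ i, ind (θ i) (f i t) =
      Set.indicator {t : ℝ | ∀ i, Int.fract (f i t) < θ i} (fun _ => (1 : ℝ)) t := by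
    intro t
    by_cases h : ∀ i, Int.fract (f i t) < θ i
    · rw [Set.indicator_of_mem (show t ∈ {t : ℝ | ∀ i, Int.fract (f i t) < θ i} from h)]
      apply Finset.prod_eq_one
      intro i _
      simp [ind, h i]
    · rw [Set.indicator_of_notMem (show t ∉ {t : ℝ | ∀ i, Int.fract (f i t) < θ i} from h)]
      push Not at h
      obtain ⟨i, hi⟩ := h
      exact Finset.prod_eq_zero (Finset.mem_univ i) (by simp [ind, not_lt.mpr hi])
  simp_rw [h1]
  rw [intervalIntegral.integral_of_le hab, ← integral_Icc_eq_integral_Ioc,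
    setIntegral_indicator hS, setIntegral_const, smul_eq_mul, mul_one, Measure.real]
  rfl

section main

variable {r n : ℕ} {a b ω : ℝ} {f : Fin r → ℝ → ℝ} {θ : Fin r → ℝ}

lemma meas_lin (hf : ∀ i, Measurable (f i)) (p : Fin r → ℤ) :
    Measurable (fun t => ∑ i, (p i : ℝ) * f i t) :=
  Finset.measurable_sum _ fun i _ => (hf i).const_mul _

lemma int_e (hf : ∀ i, Measurable (f i)) (p : Fin r → ℤ) :
    IntervalIntegrable (fun t => e (∑ i, (p i : ℝ) * f i t)) volume a b :=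
  bdd_int (e_cont.measurable.comp (meas_lin hf p)).stronglyMeasurable
    (fun _ => (e_norm _).le) a b

lemma card_Ioo (N : ℕ) : ((Finset.Ioo (-(N : ℤ)) N).card : ℝ) ≤ 2 * N := by
  rw [Int.card_Ioo]
  have : ((N : ℤ) - -(N : ℤ) - 1).toNat ≤ 2 * N := by omega
  exact_mod_cast this

lemma abs_le_of_mem {N : ℕ} {h : ℤ} (hh : h ∈ Finset.Ioo (-(N : ℤ)) N) : |(h : ℝ)| ≤ N := by
  rw [Finset.mem_Ioo] at hh
  rw [abs_le]
  constructor
  · have : (-(N : ℤ)) ≤ h := hh.1.le
    exact_mod_cast this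
  · have : h ≤ (N : ℤ) := hh.2.le
    exact_mod_cast this

lemma int_prod_g (hn : 1 ≤ n) (hω : 0 ≤ ω) (hf : ∀ i, Measurable (f i))
    (h0 : ∀ i, 0 ≤ θ i) (h1 : ∀ i, θ i ≤ 1)
    (hE : ∀ h : Fin r → ℤ, h ≠ 0 → (∀ i, |(h i : ℝ)| ≤ (n : ℝ) ^ 2) →
      ‖∫ t in a..b, e (∑ i, (h i : ℝ) * f i t)‖ ≤ ω) :
    |(∫ t in a..b, ∏ i, g (n ^ 2) (θ i) (f i t)) - (b - a) * ∏ i, θ i| ≤
      (2 * (n : ℝ) ^ 2) ^ r * ω := by
  classical
  have hN : 1 ≤ n ^ 2 := Nat.one_le_pow _ _ hn
  set J := Finset.Ioo (-((n ^ 2 : ℕ) : ℤ)) ((n ^ 2 : ℕ) : ℤ) with hJ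
  have hexp : ((∫ t in a..b, ∏ i, g (n ^ 2) (θ i) (f i t) : ℝ) : ℂ) =
      ∑ p ∈ Fintype.piFinset (fun _ : Fin r => J), (∏ i, c (n ^ 2) (θ i) (p i)) *
        ∫ t in a..b, e (∑ i, (p i : ℝ) * f i t) := by
    rw [← intervalIntegral.integral_ofReal]
    have h2 : ∀ t : ℝ, ((∏ i, g (n ^ 2) (θ i) (f i t) : ℝ) : ℂ) =
        ∑ p ∈ Fintype.piFinset (fun _ : Fin r => J), (∏ i, c (n ^ 2) (θ i) (p i)) *
          e (∑ i, (p i : ℝ) * f i t) := by
      intro t
      rw [Complex.ofReal_prod]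
      simp_rw [g_eq_sum hN]
      rw [Finset.prod_univ_sum]
      refine Finset.sum_congr rfl fun p _ => ?_
      rw [Finset.prod_mul_distrib, e_sum]
    simp_rw [h2]
    rw [intervalIntegral.integral_finsetSum]
    · refine Finset.sum_congr rfl fun p _ => ?_
      rw [intervalIntegral.integral_const_mul]
    · intro p _
      exact (int_e hf p).const_mul _
  have hmem0 : (0 : Fin r → ℤ) ∈ Fintype.piFinset (fun _ : Fin r => J) := by
    rw [Fintype.mem_piFinset]
    intro i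
    rw [hJ, Finset.mem_Ioo]
    simp only [Pi.zero_apply]
    omega
  rw [← Finset.add_sum_erase _ _ hmem0] at hexp
  have hterm0 : (∏ i, c (n ^ 2) (θ i) ((0 : Fin r → ℤ) i)) *
        ∫ t in a..b, e (∑ i, ((0 : Fin r → ℤ) i : ℝ) * f i t)
      = (((b - a) * ∏ i, θ i : ℝ) : ℂ) := by
    simp [c, e]
    ring
  rw [hterm0] at hexp
  have hsub : (((∫ t in a..b, ∏ i, g (n ^ 2) (θ i) (f i t)) - (b - a) * ∏ i, θ i : ℝ) : ℂ)
      = ∑ p ∈ (Fintype.piFinset (fun _ : Fin r => J)).erase 0, (∏ i, c (n ^ 2) (θ i) (p i)) *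
        ∫ t in a..b, e (∑ i, (p i : ℝ) * f i t) := by
    rw [Complex.ofReal_sub, hexp]
    ring
  rw [← Real.norm_eq_abs, ← Complex.norm_real, hsub]
  refine (norm_sum_le _ _).trans ?_
  have hb : ∀ p ∈ (Fintype.piFinset (fun _ : Fin r => J)).erase 0,
      ‖(∏ i, c (n ^ 2) (θ i) (p i)) * ∫ t in a..b, e (∑ i, (p i : ℝ) * f i t)‖ ≤ ω := by
    intro p hp
    rw [Finset.mem_erase, Fintype.mem_piFinset] at hp
    rw [norm_mul, norm_prod]
    have h3 : ∏ i, ‖c (n ^ 2) (θ i) (p i)‖ ≤ 1 :=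
      Finset.prod_le_one (fun i _ => norm_nonneg _) (fun i _ => c_norm (h0 i) (h1 i) (hp.2 i))
    have h4 := hE p hp.1 (fun i => by
      have := abs_le_of_mem (hp.2 i)
      push_cast at this
      exact this)
    calc _ ≤ 1 * ω := mul_le_mul h3 h4 (norm_nonneg _) (by norm_num)
      _ = ω := one_mul ω
  refine (Finset.sum_le_sum hb).trans ?_
  rw [Finset.sum_const, nsmul_eq_mul]
  apply mul_le_mul_of_nonneg_right _ hω
  have h5 : (((Fintype.piFinset (fun _ : Fin r => J)).erase 0).card : ℝ) ≤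
      ((Fintype.piFinset (fun _ : Fin r => J)).card : ℝ) := by
    exact_mod_cast Finset.card_le_card (Finset.erase_subset _ _)
  refine h5.trans ?_
  rw [Fintype.card_piFinset, Finset.prod_const, Finset.card_univ, Fintype.card_fin]
  push_cast
  apply pow_le_pow_left₀ (by positivity)
  have := card_Ioo (n ^ 2)
  push_cast at this
  rw [hJ]
  push_cast
  exact this

lemma int_fej (hn : 1 ≤ n) (hab : a ≤ b) (hω : 0 ≤ ω) (hf : ∀ i, Measurable (f i))
    (hE : ∀ h : Fin r → ℤ, h ≠ 0 → (∀ i, |(h i : ℝ)| ≤ (n : ℝ) ^ 2) →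
      ‖∫ t in a..b, e (∑ i, (h i : ℝ) * f i t)‖ ≤ ω) (i : Fin r) (τ : ℝ) :
    (∫ t in a..b, fej n (2 * Real.pi * (f i t - τ))) ≤ (b - a) + 2 * n * ω := by
  classical
  have hn' : (1 : ℝ) ≤ n := by exact_mod_cast hn
  have hn0 : (0 : ℝ) < n := by linarith
  set J := Finset.Ioo (-(n : ℤ)) (n : ℤ) with hJ
  have hsingle : ∀ (h : ℤ) (t : ℝ), (h : ℝ) * f i t =
      ∑ j, ((Pi.single i h : Fin r → ℤ) j : ℝ) * f j t := by
    intro h t
    rw [Finset.sum_eq_single i]
    · rw [Pi.single_eq_same]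
    · intro j _ hj
      rw [Pi.single_eq_of_ne hj]
      simp
    · intro h; exact absurd (Finset.mem_univ i) h
  have hint : ∀ h : ℤ, IntervalIntegrable (fun t => e (h * f i t)) volume a b := by
    intro h
    simp_rw [hsingle h]
    exact int_e hf _
  have hexp : ((∫ t in a..b, fej n (2 * Real.pi * (f i t - τ)) : ℝ) : ℂ) =
      ∑ h ∈ J, (((1 - |(h : ℝ)| / n : ℝ) : ℂ) * e (-(h * τ))) * ∫ t in a..b, e (h * f i t) := by
    rw [← intervalIntegral.integral_ofReal]
    have h2 : ∀ t : ℝ, ((fej n (2 * Real.pi * (f i t - τ)) : ℝ) : ℂ) =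
        ∑ h ∈ J, (((1 - |(h : ℝ)| / n : ℝ) : ℂ) * e (-(h * τ))) * e (h * f i t) := by
      intro t
      rw [fej_eq_sum_exp]
      refine Finset.sum_congr rfl fun h _ => ?_
      have h9 : Complex.exp (((h * (2 * Real.pi * (f i t - τ)) : ℝ) : ℂ) * Complex.I) =
          e (-(h * τ)) * e (h * f i t) := by
        rw [← e_add]
        unfold e
        congr 1
        push_cast
        ring
      rw [h9, mul_assoc]
    simp_rw [h2]
    rw [intervalIntegral.integral_finsetSum]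
    · refine Finset.sum_congr rfl fun p _ => ?_
      rw [intervalIntegral.integral_const_mul]
    · intro p _
      exact (hint p).const_mul _
  have hmem0 : (0 : ℤ) ∈ J := by
    rw [hJ, Finset.mem_Ioo]
    omega
  rw [← Finset.add_sum_erase _ _ hmem0] at hexp
  have hterm0 : (((1 - |((0 : ℤ) : ℝ)| / n : ℝ) : ℂ) * e (-(((0 : ℤ) : ℝ) * τ))) *
      ∫ t in a..b, e (((0 : ℤ) : ℝ) * f i t) = ((b - a : ℝ) : ℂ) := by
    simp [e]
  rw [hterm0] at hexp
  have h3 : (∫ t in a..b, fej n (2 * Real.pi * (f i t - τ))) ≤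
      ‖((∫ t in a..b, fej n (2 * Real.pi * (f i t - τ)) : ℝ) : ℂ)‖ := by
    rw [Complex.norm_real]
    exact le_abs_self _
  refine h3.trans ?_
  rw [hexp]
  refine (norm_add_le _ _).trans ?_
  have h4 : ‖((b - a : ℝ) : ℂ)‖ = b - a := by
    rw [Complex.norm_real, Real.norm_eq_abs, abs_of_nonneg (by linarith)]
  rw [h4]
  have hb : ∀ h ∈ J.erase 0,
      ‖(((1 - |(h : ℝ)| / n : ℝ) : ℂ) * e (-(h * τ))) * ∫ t in a..b, e (h * f i t)‖ ≤ ω := by
    intro h hh
    rw [Finset.mem_erase] at hh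
    have ht1 : |(h : ℝ)| ≤ n := abs_le_of_mem hh.2
    rw [norm_mul, norm_mul, e_norm, mul_one, Complex.norm_real, Real.norm_eq_abs]
    have h5 : |1 - |(h : ℝ)| / (n : ℝ)| ≤ 1 := by
      rw [abs_le]
      have h3 : |(h : ℝ)| / n ≤ 1 := by rw [div_le_one hn0]; exact ht1
      have h4 : 0 ≤ |(h : ℝ)| / n := by positivity
      constructor <;> linarith
    have h6 := hE (Pi.single i h) (by
      intro hz
      apply hh.1
      have := congrFun hz i
      rw [Pi.single_eq_same] at this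
      exact this) (fun j => by
      by_cases hj : j = i
      · subst hj
        rw [Pi.single_eq_same]
        nlinarith
      · rw [Pi.single_eq_of_ne hj]
        simp)
    simp_rw [← hsingle h] at h6
    calc _ ≤ 1 * ω := mul_le_mul h5 h6 (norm_nonneg _) (by norm_num)
      _ = ω := one_mul ω
  have h7 : ‖∑ h ∈ J.erase 0, (((1 - |(h : ℝ)| / n : ℝ) : ℂ) * e (-(h * τ))) *
      ∫ t in a..b, e (h * f i t)‖ ≤ 2 * n * ω := by
    refine (norm_sum_le _ _).trans ?_
    refine (Finset.sum_le_sum hb).trans ?_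
    rw [Finset.sum_const, nsmul_eq_mul]
    apply mul_le_mul_of_nonneg_right _ hω
    refine le_trans ?_ (card_Ioo n)
    exact_mod_cast Finset.card_le_card (Finset.erase_subset _ _)
  linarith

lemma fej_cont (n : ℕ) : Continuous (fej n) := by
  unfold fej
  fun_prop

lemma int_fej_int (hf : ∀ i, Measurable (f i)) (i : Fin r) (τ : ℝ) :
    IntervalIntegrable (fun t => fej n (2 * Real.pi * (f i t - τ))) volume a b := by
  have hm : Measurable (fun t => fej n (2 * Real.pi * (f i t - τ))) :=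
    (fej_cont n).measurable.comp (((hf i).sub_const τ).const_mul _)
  exact bdd_int hm.stronglyMeasurable (C := n) (fun t => by
    rw [Real.norm_eq_abs, abs_of_nonneg (fej_nonneg _ _)]
    exact fej_le _ _) a b

lemma int_diff (hn : 1 ≤ n) (hab : a ≤ b) (hω : 0 ≤ ω) (hf : ∀ i, Measurable (f i))
    (h0 : ∀ i, 0 ≤ θ i) (h1 : ∀ i, θ i ≤ 1)
    (hE : ∀ h : Fin r → ℤ, h ≠ 0 → (∀ i, |(h i : ℝ)| ≤ (n : ℝ) ^ 2) →
      ‖∫ t in a..b, e (∑ i, (h i : ℝ) * f i t)‖ ≤ ω) :
    |(∫ t in a..b, ∏ i, ind (θ i) (f i t)) - ∫ t in a..b, ∏ i, g (n ^ 2) (θ i) (f i t)| ≤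
      r * (7 * ((b - a) / n) + 8 * ω) := by
  have hN : 1 ≤ n ^ 2 := Nat.one_le_pow _ _ hn
  have hn' : (1 : ℝ) ≤ n := by exact_mod_cast hn
  have hn0 : (0 : ℝ) < n := by linarith
  have hI1 : IntervalIntegrable (fun t => ∏ i, ind (θ i) (f i t)) volume a b := by
    have hm : Measurable (fun t => ∏ i, ind (θ i) (f i t)) :=
      Finset.measurable_prod _ fun i _ => (ind_meas _).comp (hf i)
    refine bdd_int hm.stronglyMeasurable (C := 1) (fun t => ?_) a b
    rw [Real.norm_eq_abs, abs_of_nonneg (Finset.prod_nonneg fun i _ => ind_nonneg _ _)]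
    exact Finset.prod_le_one (fun i _ => ind_nonneg _ _) (fun i _ => ind_le_one _ _)
  have hI2 : IntervalIntegrable (fun t => ∏ i, g (n ^ 2) (θ i) (f i t)) volume a b := by
    have hm : Measurable (fun t => ∏ i, g (n ^ 2) (θ i) (f i t)) :=
      Finset.measurable_prod _ fun i _ => (g_meas hN _).comp (hf i)
    refine bdd_int hm.stronglyMeasurable (C := 1) (fun t => ?_) a b
    rw [Real.norm_eq_abs, abs_of_nonneg (Finset.prod_nonneg fun i _ => g_nonneg hN (h0 i) _)]
    exact Finset.prod_le_one (fun i _ => g_nonneg hN (h0 i) _) (fun i _ => g_le_one hN (h1 i) _)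
  rw [← intervalIntegral.integral_sub hI1 hI2]
  have hI3 : ∀ i : Fin r, IntervalIntegrable (fun t => 3 / (n : ℝ) +
      2 / n * (fej n (2 * Real.pi * (f i t - 0)) + fej n (2 * Real.pi * (f i t - θ i))))
      volume a b := by
    intro i
    exact intervalIntegrable_const.add (((int_fej_int hf i 0).add (int_fej_int hf i (θ i))).const_mul _)
  have hpt : ∀ t : ℝ, ‖∏ i, ind (θ i) (f i t) - ∏ i, g (n ^ 2) (θ i) (f i t)‖ ≤
      ∑ i, (3 / (n : ℝ) +
      2 / n * (fej n (2 * Real.pi * (f i t - 0)) + fej n (2 * Real.pi * (f i t - θ i)))) := by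
    intro t
    rw [Real.norm_eq_abs]
    refine (abs_prod_sub_prod _ _ _ (fun i => ind_nonneg _ _) (fun i => ind_le_one _ _)
      (fun i => g_nonneg hN (h0 i) _) (fun i => g_le_one hN (h1 i) _)).trans ?_
    apply Finset.sum_le_sum
    intro i _
    rw [sub_zero]
    exact ind_sub_g hn (h0 i) (h1 i) _
  rw [← Real.norm_eq_abs]
  refine (intervalIntegral.norm_integral_le_of_norm_le hab
    (Filter.Eventually.of_forall fun t _ => hpt t) ?_).trans ?_
  · have h4 := IntervalIntegrable.sum Finset.univ (fun i _ => hI3 i)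
    rw [Finset.sum_fn] at h4
    exact h4
  · rw [intervalIntegral.integral_finsetSum (fun i _ => hI3 i)]
    have hb : ∀ i ∈ (Finset.univ : Finset (Fin r)), (∫ t in a..b, (3 / (n : ℝ) +
      2 / n * (fej n (2 * Real.pi * (f i t - 0)) + fej n (2 * Real.pi * (f i t - θ i))))) ≤
      7 * ((b - a) / n) + 8 * ω := by
      intro i _
      rw [intervalIntegral.integral_add intervalIntegrable_const
        (((int_fej_int hf i 0).add (int_fej_int hf i (θ i))).const_mul _),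
        intervalIntegral.integral_const_mul,
        intervalIntegral.integral_add (int_fej_int hf i 0) (int_fej_int hf i (θ i)),
        intervalIntegral.integral_const, smul_eq_mul]
      have h5 := int_fej hn hab hω hf hE i 0
      have h6 := int_fej hn hab hω hf hE i (θ i)
      have h7 : 2 / (n : ℝ) * ((∫ t in a..b, fej n (2 * Real.pi * (f i t - 0))) +
          ∫ t in a..b, fej n (2 * Real.pi * (f i t - θ i))) ≤
          2 / n * (((b - a) + 2 * n * ω) + ((b - a) + 2 * n * ω)) := by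
        apply mul_le_mul_of_nonneg_left _ (by positivity)
        linarith
      have h8 : 2 / (n : ℝ) * (((b - a) + 2 * n * ω) + ((b - a) + 2 * n * ω))
          = 4 * ((b - a) / n) + 8 * ω := by
        field_simp
        ring
      have h9 : (b - a) * (3 / (n : ℝ)) = 3 * ((b - a) / n) := by ring
      rw [h9]
      linarith
    refine (Finset.sum_le_sum hb).trans ?_
    rw [Finset.sum_const, Finset.card_univ, Fintype.card_fin, nsmul_eq_mul]

end main

end EquiFAux

open EquiFAux in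
theorem equi_fejer (r : ℕ) : ∃ C : ℝ, 1 ≤ C ∧ ∀ (n : ℕ) (a b ω : ℝ) (f : Fin r → ℝ → ℝ) (θ : Fin r → ℝ), 1 ≤ n →
    a ≤ b → 0 ≤ ω → (∀ i, Measurable (f i)) → (∀ i, 0 ≤ θ i) → (∀ i, θ i ≤ 1) →
    (∀ h : Fin r → ℤ, h ≠ 0 → (∀ i, |(h i : ℝ)| ≤ (n : ℝ) ^ 2) →
      ‖∫ t in a..b, Complex.exp (2 * Real.pi * Complex.I * ((∑ i, (h i : ℝ) * f i t : ℝ) : ℂ))‖ ≤ ω) →
    |(volume {t : ℝ | t ∈ Set.Icc a b ∧ ∀ i, Int.fract (f i t) < θ i}).toReal - (b - a) * ∏ i, θ i| ≤
      C * ((b - a) / n + (n : ℝ) ^ (2 * r) * ω) := by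
  refine ⟨8 * r + 2 ^ r, ?_, ?_⟩
  · have h1 : (1 : ℝ) ≤ 2 ^ r := one_le_pow₀ (by norm_num)
    have h2 : (0 : ℝ) ≤ r := Nat.cast_nonneg r
    linarith
  intro n a b ω f θ hn hab hω hf h0 h1 hE
  have hn' : (1 : ℝ) ≤ n := by exact_mod_cast hn
  rw [vol_eq hab f θ hf]
  have hA := int_diff (θ := θ) hn hab hω hf h0 h1 hE
  have hB := int_prod_g (θ := θ) hn hω hf h0 h1 hE
  have hC : |(∫ t in a..b, ∏ i, ind (θ i) (f i t)) - (b - a) * ∏ i, θ i| ≤
      r * (7 * ((b - a) / n) + 8 * ω) + (2 * (n : ℝ) ^ 2) ^ r * ω := by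
    refine (abs_sub_le _ (∫ t in a..b, ∏ i, EquiFAux.g (n ^ 2) (θ i) (f i t)) _).trans ?_
    linarith
  refine hC.trans ?_
  have hp : (2 * (n : ℝ) ^ 2) ^ r = 2 ^ r * (n : ℝ) ^ (2 * r) := by
    rw [mul_pow, ← pow_mul]
  rw [hp]
  have h3 : ω ≤ (n : ℝ) ^ (2 * r) * ω := by
    have : (1 : ℝ) ≤ (n : ℝ) ^ (2 * r) := one_le_pow₀ hn'
    nlinarith
  have h4 : 0 ≤ (b - a) / (n : ℝ) := by
    apply div_nonneg <;> linarith
  have h5 : (0 : ℝ) ≤ r := Nat.cast_nonneg r
  have h6 : (0 : ℝ) ≤ 2 ^ r := by positivity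
  have h7 : (r : ℝ) * ω ≤ r * ((n : ℝ) ^ (2 * r) * ω) := mul_le_mul_of_nonneg_left h3 h5
  have h8 : 0 ≤ (r : ℝ) * ((b - a) / n) := by positivity
  have h9 : 0 ≤ (2 : ℝ) ^ r * ((b - a) / n) := by positivity
  nlinarith

end SMC
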