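import Pool.Agent.SMC.Defs

/-!
# SMC.CardNE: few pairs are not in general position

PROOF. See `Pool/Agent/MCC/ExcP.lean` (the same for `X = 2^r`, `m, m' ∈ (X, 2X]`). A pair which is not `NE` has `u, v ∈ [1, X^η]` with
`|u m - v m'| < X^(1-5η)`; given `u`, `v`, `m` the number `m'` lies in an interval of length `2X^(1-5η)`, so there are at most
`X^η X^η (κ2 X + 1) (2X^(1-5η) + 2) ≤ X^(2-η)` pairs for large `X`.
-/

namespace SMC

open Filter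

private theorem card_ne_fiber (S : Finset ℕ) (v : ℕ) (hv : 1 ≤ v) (c δ : ℝ) (hδ : 0 ≤ δ)
    (h : ∀ m ∈ S, |c - (v : ℝ) * m| < δ) : (S.card : ℝ) ≤ 2 * δ + 1 := by
  rcases S.eq_empty_or_nonempty with rfl | hS
  · rw [Finset.card_empty, Nat.cast_zero]
    linarith
  · have hsub : S ⊆ Finset.Icc (S.min' hS) (S.max' hS) := fun m hm =>
      Finset.mem_Icc.mpr ⟨S.min'_le m hm, S.le_max' m hm⟩
    have h1 := Finset.card_le_card hsub
    rw [Nat.card_Icc] at h1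
    have hmin := h _ (S.min'_mem hS)
    have hmax := h _ (S.max'_mem hS)
    have hle : S.min' hS ≤ S.max' hS := S.min'_le _ (S.max'_mem hS)
    have h2 : (S.card : ℝ) ≤ (S.max' hS : ℝ) + 1 - (S.min' hS : ℝ) := by
      have h3 : S.card + S.min' hS ≤ S.max' hS + 1 := by omega
      have h4 : (S.card : ℝ) + (S.min' hS : ℝ) ≤ (S.max' hS : ℝ) + 1 := by exact_mod_cast h3
      linarith
    rw [abs_lt] at hmin hmax
    have h5 : (v : ℝ) * ((S.max' hS : ℝ) - (S.min' hS : ℝ)) < 2 * δ := by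
      rw [mul_sub]
      linarith [hmin.1, hmin.2, hmax.1, hmax.2]
    have h6 : (0 : ℝ) ≤ (S.max' hS : ℝ) - (S.min' hS : ℝ) := by
      have : ((S.min' hS : ℕ) : ℝ) ≤ ((S.max' hS : ℕ) : ℝ) := by exact_mod_cast hle
      linarith
    have h7 : (1 : ℝ) ≤ v := by exact_mod_cast hv
    have h8 : (S.max' hS : ℝ) - (S.min' hS : ℝ) ≤
        (v : ℝ) * ((S.max' hS : ℝ) - (S.min' hS : ℝ)) := by nlinarith
    linarith

open Classical in
theorem card_ne {η κ2 : ℝ} (hη : 0 < η) (hη1 : η ≤ 1 / 40) : ∃ X0 : ℝ, ∀ X : ℝ, X0 ≤ X →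
    ((((Finset.Icc 1 ⌊κ2 * X⌋₊) ×ˢ (Finset.Icc 1 ⌊κ2 * X⌋₊)).filter
      fun x : ℕ × ℕ => ¬ MCC.NE X η x.1 x.2).card : ℝ) ≤ X ^ (2 - η) := by
  refine ⟨max 1 ((3 * |κ2| + 1) ^ (1 / (2 * η))), fun X hX => ?_⟩
  have hX1 : 1 ≤ X := le_trans (le_max_left _ _) hX
  have hX0 : 0 < X := by linarith
  have hκ0 : 0 ≤ |κ2| := abs_nonneg _
  have hXη : 3 * |κ2| ≤ X ^ (2 * η) := by
    have h1 : (3 * |κ2| + 1) ^ (1 / (2 * η)) ≤ X := le_trans (le_max_right _ _) hX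
    have h2 : ((3 * |κ2| + 1) ^ (1 / (2 * η))) ^ (2 * η) ≤ X ^ (2 * η) :=
      Real.rpow_le_rpow (by positivity) h1 (by positivity)
    rw [← Real.rpow_mul (by positivity), one_div_mul_cancel (by positivity), Real.rpow_one] at h2
    linarith
  set M : ℕ := ⌊X ^ η⌋₊ with hM
  set P : Finset ℕ := Finset.Icc 1 ⌊κ2 * X⌋₊ with hP
  have hPc : (P.card : ℝ) ≤ |κ2| * X := by
    rw [hP, Nat.card_Icc, Nat.add_sub_cancel]
    have h1 : ⌊κ2 * X⌋₊ ≤ ⌊|κ2| * X⌋₊ :=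
      Nat.floor_mono (mul_le_mul_of_nonneg_right (le_abs_self _) hX0.le)
    have h2 : (⌊|κ2| * X⌋₊ : ℝ) ≤ |κ2| * X := Nat.floor_le (by positivity)
    have h3 : (⌊κ2 * X⌋₊ : ℝ) ≤ (⌊|κ2| * X⌋₊ : ℝ) := by exact_mod_cast h1
    linarith
  set δ : ℝ := X ^ (1 - 5 * η) with hδ
  have hδ0 : 0 < δ := Real.rpow_pos_of_pos hX0 _
  have hδ1 : 1 ≤ δ := Real.one_le_rpow hX1 (by linarith)
  set F : ℕ × ℕ × ℕ → Finset (ℕ × ℕ) := fun t =>
    (P.filter fun m : ℕ => |((t.1 : ℝ) * t.2.2) - (t.2.1 : ℝ) * m| < δ).image fun m => (t.2.2, m)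
    with hF
  have hsub : ((P ×ˢ P).filter fun x : ℕ × ℕ => ¬ MCC.NE X η x.1 x.2) ⊆
      ((Finset.Icc 1 M) ×ˢ ((Finset.Icc 1 M) ×ˢ P)).biUnion F := by
    rintro ⟨p, p'⟩ hx
    rw [Finset.mem_filter, Finset.mem_product] at hx
    obtain ⟨⟨hp, hp'⟩, hn⟩ := hx
    unfold MCC.NE at hn
    push Not at hn
    obtain ⟨u, v, hu, hv, hu1, hv1, hlt⟩ := hn
    rw [Finset.mem_biUnion]
    refine ⟨(u, v, p), ?_, ?_⟩
    · rw [Finset.mem_product, Finset.mem_product, Finset.mem_Icc, Finset.mem_Icc]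
      exact ⟨⟨hu, Nat.le_floor hu1⟩, ⟨hv, Nat.le_floor hv1⟩, hp⟩
    · rw [hF, Finset.mem_image]
      exact ⟨p', Finset.mem_filter.mpr ⟨hp', hlt⟩, rfl⟩
  have hcard : ∀ t ∈ (Finset.Icc 1 M) ×ˢ ((Finset.Icc 1 M) ×ˢ P),
      ((F t).card : ℝ) ≤ 2 * δ + 1 := by
    rintro ⟨u, v, p⟩ ht
    rw [Finset.mem_product, Finset.mem_product, Finset.mem_Icc, Finset.mem_Icc] at ht
    have h1 : ((F (u, v, p)).card : ℝ) ≤
        ((P.filter fun m : ℕ => |((u : ℝ) * p) - (v : ℝ) * m| < δ).card : ℝ) :=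
      Nat.cast_le.mpr Finset.card_image_le
    refine h1.trans (card_ne_fiber _ v ht.2.1.1 ((u : ℝ) * p) δ hδ0.le ?_)
    intro m hm
    exact (Finset.mem_filter.mp hm).2
  have h1 : ((((P ×ˢ P).filter fun x : ℕ × ℕ => ¬ MCC.NE X η x.1 x.2).card : ℕ) : ℝ) ≤
      (M : ℝ) * ((M : ℝ) * (P.card : ℝ)) * (2 * δ + 1) := by
    calc ((((P ×ˢ P).filter fun x : ℕ × ℕ => ¬ MCC.NE X η x.1 x.2).card : ℕ) : ℝ)
        ≤ ((((Finset.Icc 1 M) ×ˢ ((Finset.Icc 1 M) ×ˢ P)).biUnion F).card : ℝ) := by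
          exact_mod_cast Finset.card_le_card hsub
      _ ≤ ∑ t ∈ (Finset.Icc 1 M) ×ˢ ((Finset.Icc 1 M) ×ˢ P), ((F t).card : ℝ) := by
          exact_mod_cast Finset.card_biUnion_le
      _ ≤ ∑ t ∈ (Finset.Icc 1 M) ×ˢ ((Finset.Icc 1 M) ×ˢ P), (2 * δ + 1) :=
          Finset.sum_le_sum hcard
      _ = (M : ℝ) * ((M : ℝ) * (P.card : ℝ)) * (2 * δ + 1) := by
          rw [Finset.sum_const, Finset.card_product, Finset.card_product, Nat.card_Icc,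
            nsmul_eq_mul, Nat.add_sub_cancel]
          push_cast
          rfl
  have hMη : (M : ℝ) ≤ X ^ η := Nat.floor_le (by positivity)
  have hM0 : (0 : ℝ) ≤ M := Nat.cast_nonneg _
  have hA0 : 0 < X ^ η := by positivity
  refine h1.trans ?_
  have e1 : (M : ℝ) * ((M : ℝ) * (P.card : ℝ)) * (2 * δ + 1) ≤
      (X ^ η * (X ^ η * (|κ2| * X))) * (3 * δ) := by
    have h2 : (M : ℝ) * ((M : ℝ) * (P.card : ℝ)) ≤ X ^ η * (X ^ η * (|κ2| * X)) := by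
      apply mul_le_mul hMη _ (by positivity) hA0.le
      exact mul_le_mul hMη hPc (by positivity) hA0.le
    apply mul_le_mul h2 (by linarith) (by positivity) (by positivity)
  refine e1.trans ?_
  have e2 : (X ^ η * (X ^ η * (|κ2| * X))) * (3 * δ) = 3 * |κ2| * X ^ (2 - 3 * η) := by
    have : X ^ (2 - 3 * η) = X ^ η * X ^ η * X * X ^ (1 - 5 * η) := by
      have h3 : X ^ η * X ^ η * X * X ^ (1 - 5 * η) = X ^ (η + η + 1 + (1 - 5 * η)) := by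
        rw [Real.rpow_add hX0, Real.rpow_add hX0, Real.rpow_add hX0, Real.rpow_one]
      rw [h3]
      congr 1
      ring
    rw [this, hδ]
    ring
  rw [e2]
  have e3 : X ^ (2 - η) = X ^ (2 * η) * X ^ (2 - 3 * η) := by
    rw [← Real.rpow_add hX0]
    congr 1
    ring
  rw [e3]
  exact mul_le_mul_of_nonneg_right hXη (by positivity)

end SMC
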