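import Pool.Agent.SMC.GMean

/-!
# SMC.GaussS: the prime number theorem with `n^(-iτ)` and a Gaussian weight of width `σ ≤ 1`

PROOF. For `σ = 1` this is `VKZ.prime_gauss` (`gp 1 w τ = VKZ.gs Λ w τ`). Let `σ < 1` and `a = 1/σ² - 1 > 0`. Then
`exp(-x²/(2σ²)) = exp(-x²/2) exp(-a x²/2)` and `exp(-a x²/2) = (2πa)^(-1/2) ∫ exp(-ξ²/(2a)) exp(iξx) dξ`
(`fourierIntegral_gaussian`), so with `x = log n - w` (Fubini/`integral_tsum`, absolutely convergent by `gp_sum`)
`gp σ w τ = (2πa)^(-1/2) ∫ exp(-ξ²/(2a)) exp(-iξw) gs Λ w (τ - ξ) dξ`. The same formula holds for the main terms: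
`gm σ w τ = (2πa)^(-1/2) ∫ exp(-ξ²/(2a)) exp(-iξw) gm 1 w (τ - ξ) dξ` (the convolution of two Gaussians of variances `a` and
`1` is the one of variance `1/σ²`; `e^(-iξw) e^(-i(τ-ξ)w) = e^(-iτw)`). Subtract: for `|ξ| ≤ exp w` we have
`|τ - ξ| ≤ exp(Kw) + exp w ≤ exp((|K|+2)w)` and `VKZ.prime_gauss (|K|+2) (|A|+1)` bounds the difference by `w^(-|A|-1)`; for
`|ξ| > exp w` both terms are at most `C (1+w)^6` (`gp_sum` with `σ = 1`), and
`(2πa)^(-1/2) ∫_{|ξ| > exp w} exp(-ξ²/(2a)) dξ ≤ √2 exp(-exp(2w)/(4a))` (`exp(-ξ²/(2a)) ≤ exp(-exp(2w)/(4a)) exp(-ξ²/(4a))`), smaller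
than any power of `w`. For large `w` the sum is at most `w^(-A)`.
-/

namespace SMC

open MeasureTheory ArithmeticFunction

/-- The Gaussian density of variance `a`. -/
private noncomputable def GaussS_k (a ξ : ℝ) : ℝ :=
  (Real.sqrt (2 * Real.pi * a))⁻¹ * Real.exp (-ξ ^ 2 / (2 * a))

private theorem GaussS_k_nonneg (a ξ : ℝ) : 0 ≤ GaussS_k a ξ := by
  unfold GaussS_k
  positivity

private theorem GaussS_k_cont (a : ℝ) : Continuous (GaussS_k a) := by
  unfold GaussS_k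
  fun_prop

private theorem GaussS_k_int {a : ℝ} (ha : 0 < a) : Integrable (GaussS_k a) := by
  have h := integrable_exp_neg_mul_sq (b := 1 / (2 * a)) (by positivity)
  refine (h.const_mul (Real.sqrt (2 * Real.pi * a))⁻¹).congr
    (Filter.Eventually.of_forall fun ξ => ?_)
  simp only [GaussS_k]
  congr 2
  ring

private theorem GaussS_k_one {a : ℝ} (ha : 0 < a) : ∫ ξ, GaussS_k a ξ = 1 := by
  have h := integral_gaussian (1 / (2 * a))
  have h1 : ∀ ξ : ℝ, GaussS_k a ξ =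
      (Real.sqrt (2 * Real.pi * a))⁻¹ * Real.exp (-(1 / (2 * a)) * ξ ^ 2) := by
    intro ξ
    simp only [GaussS_k]
    congr 2
    ring
  simp_rw [h1]
  rw [integral_const_mul, h]
  have h2 : Real.pi / (1 / (2 * a)) = 2 * Real.pi * a := by
    field_simp
  rw [h2]
  have h3 : 0 < Real.sqrt (2 * Real.pi * a) := Real.sqrt_pos.2 (by positivity)
  exact inv_mul_cancel₀ h3.ne'

private theorem GaussS_quad {b : ℝ} (hb : 0 < b) (c d : ℂ) :
    ∫ ξ : ℝ, Complex.exp (-(b : ℂ) * (ξ : ℂ) ^ 2 + c * ξ + d) =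
      ((Real.sqrt (Real.pi / b) : ℝ) : ℂ) * Complex.exp (d + c ^ 2 / (4 * b)) := by
  have hb' : (-(b : ℂ)).re < 0 := by
    simpa using hb
  rw [integral_cexp_quadratic hb']
  have h1 : ((Real.pi : ℂ) / -(-(b : ℂ))) ^ (1 / 2 : ℂ) =
      ((Real.sqrt (Real.pi / b) : ℝ) : ℂ) := by
    rw [Real.sqrt_eq_rpow, Complex.ofReal_cpow (by positivity)]
    congr 1
    · push_cast
      ring
    · push_cast
      ring
  rw [h1]
  congr 2
  have hb0 : (b : ℂ) ≠ 0 := by exact_mod_cast hb.ne'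
  field_simp
  ring

/-- The Fourier transform of the density. -/
private theorem GaussS_four {a : ℝ} (ha : 0 < a) (x : ℝ) :
    ∫ ξ : ℝ, (GaussS_k a ξ : ℂ) * Complex.exp (ξ * x * Complex.I) =
      ((Real.exp (-a * x ^ 2 / 2) : ℝ) : ℂ) := by
  have h1 : ∀ ξ : ℝ, (GaussS_k a ξ : ℂ) * Complex.exp (ξ * x * Complex.I) =
      (((Real.sqrt (2 * Real.pi * a))⁻¹ : ℝ) : ℂ) *
        Complex.exp (-((1 / (2 * a) : ℝ) : ℂ) * (ξ : ℂ) ^ 2 + (x * Complex.I) * ξ + 0) := by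
    intro ξ
    simp only [GaussS_k]
    rw [Complex.ofReal_mul, mul_assoc, Complex.ofReal_exp, ← Complex.exp_add]
    congr 2
    push_cast
    ring
  simp_rw [h1]
  rw [integral_const_mul, GaussS_quad (by positivity), ← mul_assoc]
  have h2 : Real.pi / (1 / (2 * a)) = 2 * Real.pi * a := by
    field_simp
  rw [h2]
  have h3 : 0 < Real.sqrt (2 * Real.pi * a) := Real.sqrt_pos.2 (by positivity)
  rw [← Complex.ofReal_mul, inv_mul_cancel₀ h3.ne', Complex.ofReal_one, one_mul,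
    Complex.ofReal_exp]
  congr 1
  have hI : Complex.I ^ 2 = -1 := Complex.I_sq
  have ha0 : (a : ℂ) ≠ 0 := by exact_mod_cast ha.ne'
  push_cast
  rw [mul_pow, hI]
  field_simp
  ring

/-- The convolution of the main terms. -/
private theorem GaussS_gm {σ : ℝ} (hσ : 0 < σ) (hσ1 : σ < 1) (w τ : ℝ) :
    ∫ ξ : ℝ, (GaussS_k (1 / σ ^ 2 - 1) ξ : ℂ) * Complex.exp (-(ξ * w * Complex.I)) *
      gm 1 w (τ - ξ) = gm σ w τ := by
  obtain ⟨a, ha⟩ : ∃ a : ℝ, a = 1 / σ ^ 2 - 1 := ⟨_, rfl⟩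
  have hs : σ ^ 2 = 1 / (1 + a) := by
    rw [ha]
    field_simp
    ring
  have ha0 : 0 < a := by
    rw [ha]
    have : 1 < 1 / σ ^ 2 := by
      rw [lt_div_iff₀ (by positivity)]
      nlinarith
    linarith
  rw [← ha]
  obtain ⟨b, hb⟩ : ∃ b : ℝ, b = (1 + a) / (2 * a) := ⟨_, rfl⟩
  have hb0 : 0 < b := by rw [hb]; positivity
  have hac : (a : ℂ) ≠ 0 := by exact_mod_cast ha0.ne'
  have h1 : ∀ ξ : ℝ, (GaussS_k a ξ : ℂ) * Complex.exp (-(ξ * w * Complex.I)) *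
      gm 1 w (τ - ξ) =
      (((Real.sqrt (2 * Real.pi * a))⁻¹ * Real.sqrt (2 * Real.pi) : ℝ) : ℂ) *
        Complex.exp (-(b : ℂ) * (ξ : ℂ) ^ 2 + τ * ξ +
          (-(τ : ℂ) ^ 2 / 2 - τ * w * Complex.I)) := by
    intro ξ
    simp only [GaussS_k, gm]
    have e : (((Real.sqrt (2 * Real.pi * a))⁻¹ * Real.exp (-ξ ^ 2 / (2 * a)) : ℝ) : ℂ) *
        Complex.exp (-(ξ * w * Complex.I)) *
        (((Real.sqrt (2 * Real.pi) * 1 * Real.exp (-(1 ^ 2 * (τ - ξ) ^ 2) / 2) : ℝ) : ℂ) *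
        Complex.exp (-(((τ - ξ : ℝ) : ℂ) * w * Complex.I))) =
        (((Real.sqrt (2 * Real.pi * a))⁻¹ * Real.sqrt (2 * Real.pi) : ℝ) : ℂ) *
        (Complex.exp (((-ξ ^ 2 / (2 * a) : ℝ) : ℂ)) * Complex.exp (-(ξ * w * Complex.I)) *
        Complex.exp (((-(1 ^ 2 * (τ - ξ) ^ 2) / 2 : ℝ) : ℂ)) *
        Complex.exp (-(((τ - ξ : ℝ) : ℂ) * w * Complex.I))) := by
      rw [Complex.ofReal_mul, Complex.ofReal_mul, Complex.ofReal_mul, Complex.ofReal_mul,
        Complex.ofReal_exp, Complex.ofReal_exp, Complex.ofReal_one]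
      ring
    rw [e, ← Complex.exp_add, ← Complex.exp_add, ← Complex.exp_add]
    congr 2
    rw [hb]
    push_cast
    field_simp
    ring
  simp_rw [h1]
  rw [integral_const_mul, GaussS_quad hb0, ← mul_assoc, ← Complex.ofReal_mul]
  unfold gm
  have h2 : (Real.sqrt (2 * Real.pi * a))⁻¹ * Real.sqrt (2 * Real.pi) *
      Real.sqrt (Real.pi / b) = Real.sqrt (2 * Real.pi) * σ := by
    have e1 : Real.pi / b = (2 * Real.pi * a) * σ ^ 2 := by
      rw [hb, hs]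
      field_simp
    have h3 : 0 < Real.sqrt (2 * Real.pi * a) := Real.sqrt_pos.2 (by positivity)
    have e2 : Real.sqrt (2 * Real.pi * a * σ ^ 2) = Real.sqrt (2 * Real.pi * a) * σ := by
      rw [Real.sqrt_mul (show (0 : ℝ) ≤ 2 * Real.pi * a by positivity) (σ ^ 2),
        Real.sqrt_sq hσ.le]
    rw [e1, e2]
    calc (Real.sqrt (2 * Real.pi * a))⁻¹ * Real.sqrt (2 * Real.pi) *
        (Real.sqrt (2 * Real.pi * a) * σ) =
        ((Real.sqrt (2 * Real.pi * a))⁻¹ * Real.sqrt (2 * Real.pi * a)) *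
          (Real.sqrt (2 * Real.pi) * σ) := by ring
      _ = _ := by rw [inv_mul_cancel₀ h3.ne', one_mul]
  have e5 : (((Real.sqrt (2 * Real.pi) * σ * Real.exp (-(σ ^ 2 * τ ^ 2) / 2) : ℝ) : ℂ) *
      Complex.exp (-((τ : ℂ) * (w : ℂ) * Complex.I))) =
      ((Real.sqrt (2 * Real.pi) * σ : ℝ) : ℂ) *
      Complex.exp (((-(σ ^ 2 * τ ^ 2) / 2 : ℝ) : ℂ) + -((τ : ℂ) * (w : ℂ) * Complex.I)) := by
    rw [Complex.exp_add, ← Complex.ofReal_exp,
      Complex.ofReal_mul (Real.sqrt (2 * Real.pi) * σ) _, mul_assoc]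
  rw [h2, e5]
  congr 2
  have hsc : ((σ : ℂ)) ^ 2 = 1 / (1 + a) := by
    have := congrArg (fun x : ℝ => (x : ℂ)) hs
    push_cast at this
    exact this
  have ha1 : (1 + (a : ℂ)) ≠ 0 := by
    have : (1 : ℝ) + a ≠ 0 := by positivity
    exact_mod_cast this
  push_cast
  rw [hsc, hb]
  push_cast
  field_simp
  ring

private theorem GaussS_norm_I (y : ℝ) : ‖Complex.exp (y * Complex.I)‖ = 1 :=
  Complex.norm_exp_ofReal_mul_I y

private theorem GaussS_cpow {n : ℕ} (hn : n ≠ 0) (τ ξ : ℝ) :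
    (n : ℂ) ^ (-(1 + ((τ - ξ : ℝ) : ℂ) * Complex.I)) =
      (n : ℂ) ^ (-(1 + τ * Complex.I)) * Complex.exp (ξ * Real.log n * Complex.I) := by
  have hn0 : (n : ℂ) ≠ 0 := by exact_mod_cast hn
  have h1 : (-(1 + ((τ - ξ : ℝ) : ℂ) * Complex.I)) =
      (-(1 + τ * Complex.I)) + ξ * Complex.I := by
    push_cast
    ring
  rw [h1, Complex.cpow_add _ _ hn0]
  congr 1
  rw [Complex.cpow_def_of_ne_zero hn0, ← Complex.natCast_log]
  congr 1
  ring

private theorem GaussS_norm_cpow {n : ℕ} (hn : n ≠ 0) (τ : ℝ) :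
    ‖(n : ℂ) ^ (-(1 + τ * Complex.I))‖ = 1 / n := by
  have hn0 : 0 < (n : ℝ) := by exact_mod_cast Nat.pos_of_ne_zero hn
  rw [← Complex.ofReal_natCast, Complex.norm_cpow_eq_rpow_re_of_pos hn0]
  simp [Real.rpow_neg_one]

/-- The convolution formula for `gp`. -/
private theorem GaussS_gp {σ : ℝ} (hσ : 0 < σ) (hσ1 : σ < 1) {w : ℝ} (hw : 1 ≤ w) (τ : ℝ) :
    ∫ ξ : ℝ, (GaussS_k (1 / σ ^ 2 - 1) ξ : ℂ) * Complex.exp (-(ξ * w * Complex.I)) *
      gp 1 w (τ - ξ) = gp σ w τ := by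
  obtain ⟨a, ha⟩ : ∃ a : ℝ, a = 1 / σ ^ 2 - 1 := ⟨_, rfl⟩
  have ha0 : 0 < a := by
    rw [ha]
    have : 1 < 1 / σ ^ 2 := by
      rw [lt_div_iff₀ (by positivity)]
      nlinarith
    linarith
  rw [← ha]
  obtain ⟨C, hC, hgs⟩ := gp_sum
  obtain ⟨hsum, -, -⟩ := hgs 1 w one_pos le_rfl hw
  obtain ⟨F, hF⟩ : ∃ F : ℕ → ℝ → ℂ, F = fun n ξ =>
      (((vonMangoldt n : ℝ) : ℂ) * (n : ℂ) ^ (-(1 + τ * Complex.I)) *
        ((Real.exp (-(Real.log n - w) ^ 2 / (2 * 1 ^ 2)) : ℝ) : ℂ)) *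
        ((GaussS_k a ξ : ℂ) * Complex.exp (ξ * ((Real.log n - w : ℝ) : ℂ) * Complex.I)) :=
    ⟨_, rfl⟩
  have hnorm : ∀ (n : ℕ) (ξ : ℝ), ‖F n ξ‖ =
      tw n * Real.exp (-(Real.log n - w) ^ 2 / (2 * 1 ^ 2)) * GaussS_k a ξ := by
    intro n ξ
    rw [hF]
    simp only
    rcases Nat.eq_zero_or_pos n with rfl | hn
    · simp [tw]
    · have e1 : ‖Complex.exp (ξ * ((Real.log n - w : ℝ) : ℂ) * Complex.I)‖ = 1 := by
        rw [← Complex.ofReal_mul]
        exact GaussS_norm_I _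
      rw [norm_mul, norm_mul, norm_mul, norm_mul, e1, GaussS_norm_cpow hn.ne', Complex.norm_real,
        Complex.norm_real, Complex.norm_real, Real.norm_of_nonneg vonMangoldt_nonneg,
        Real.norm_of_nonneg (Real.exp_pos _).le, Real.norm_of_nonneg (GaussS_k_nonneg a ξ)]
      unfold tw
      ring
  have hcont : ∀ n : ℕ, Continuous (F n) := by
    intro n
    rw [hF]
    have := GaussS_k_cont a
    fun_prop
  have hint : ∀ n : ℕ, Integrable (F n) := by
    intro n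
    refine Integrable.mono' ((GaussS_k_int ha0).const_mul
      (tw n * Real.exp (-(Real.log n - w) ^ 2 / (2 * 1 ^ 2)))) (hcont n).aestronglyMeasurable
      (Filter.Eventually.of_forall fun ξ => ?_)
    exact (hnorm n ξ).le
  have hs : Summable fun n : ℕ => ∫ ξ : ℝ, ‖F n ξ‖ := by
    refine hsum.congr fun n => ?_
    simp_rw [hnorm]
    rw [integral_const_mul, GaussS_k_one ha0, mul_one]
  have h := hasSum_integral_of_summable_integral_norm hint hs
  have h1 : ∀ ξ : ℝ, (GaussS_k a ξ : ℂ) * Complex.exp (-(ξ * w * Complex.I)) *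
      gp 1 w (τ - ξ) = ∑' n : ℕ, F n ξ := by
    intro ξ
    unfold gp
    rw [← tsum_mul_left]
    refine tsum_congr fun n => ?_
    rw [hF]
    simp only
    rcases Nat.eq_zero_or_pos n with rfl | hn
    · simp
    · rw [GaussS_cpow hn.ne']
      have e : Complex.exp (ξ * ((Real.log n - w : ℝ) : ℂ) * Complex.I) =
          Complex.exp (-(ξ * w * Complex.I)) * Complex.exp (ξ * Real.log n * Complex.I) := by
        rw [← Complex.exp_add]
        congr 1
        push_cast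
        ring
      rw [e]
      ring
  simp_rw [h1]
  rw [← h.tsum_eq]
  unfold gp
  refine tsum_congr fun n => ?_
  rw [hF]
  simp only
  rw [integral_const_mul, GaussS_four ha0, mul_assoc, ← Complex.ofReal_mul, ← Real.exp_add]
  congr 3
  rw [ha]
  field_simp
  ring

private theorem GaussS_norm_gm (w τ : ℝ) : ‖gm 1 w τ‖ ≤ 3 := by
  unfold gm
  have e1 : ‖Complex.exp (-(τ * w * Complex.I))‖ = 1 := by
    have : -((τ : ℂ) * w * Complex.I) = ((-(τ * w) : ℝ) : ℂ) * Complex.I := by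
      push_cast
      ring
    rw [this]
    exact GaussS_norm_I _
  rw [norm_mul, e1, mul_one, Complex.norm_real, Real.norm_of_nonneg (by positivity), mul_one]
  have h1 : Real.sqrt (2 * Real.pi) ≤ 3 := by
    rw [Real.sqrt_le_left (by norm_num)]
    have := Real.pi_lt_d2
    linarith
  have h2 : Real.exp (-(1 ^ 2 * τ ^ 2) / 2) ≤ 1 := by
    rw [Real.exp_le_one_iff]
    have := sq_nonneg τ
    linarith
  have h3 : 0 < Real.exp (-(1 ^ 2 * τ ^ 2) / 2) := Real.exp_pos _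
  have h4 : 0 ≤ Real.sqrt (2 * Real.pi) := Real.sqrt_nonneg _
  nlinarith

private theorem GaussS_gm_cont (w : ℝ) : Continuous (gm 1 w) := by
  unfold gm
  fun_prop

private theorem GaussS_one (K A : ℝ) : ∃ w0 : ℝ, 1 ≤ w0 ∧ ∀ w τ : ℝ, w0 ≤ w →
    |τ| ≤ Real.exp (K * w) → ‖gp 1 w τ - gm 1 w τ‖ ≤ w ^ (-A) := by
  obtain ⟨w0, hw0, h⟩ := VKZ.prime_gauss K A
  refine ⟨w0, hw0, fun w τ hw hτ => ?_⟩
  have h1 := h w τ hw hτ
  have h2 : gp 1 w τ = VKZ.gs (fun n => vonMangoldt n) w τ := by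
    unfold gp VKZ.gs
    simp
  have h3 : gm 1 w τ = Real.sqrt (2 * Real.pi) * Real.exp (-τ ^ 2 / 2) *
      Complex.exp (-(τ * w * Complex.I)) := by
    unfold gm
    push_cast
    simp
  rw [h2, h3]
  exact h1

private theorem GaussS_small (D κ A : ℝ) (hκ : 0 < κ) :
    ∃ w0 : ℝ, 1 ≤ w0 ∧ ∀ w : ℝ, w0 ≤ w →
      D * w ^ (6 : ℝ) * Real.exp (-κ * w) ≤ w ^ (-A) / 2 := by
  have h1 := tendsto_rpow_mul_exp_neg_mul_atTop_nhds_zero (6 + A) κ hκ
  have h3 := h1.const_mul D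
  rw [mul_zero] at h3
  have h4 := h3.eventually_le_const (show (0 : ℝ) < 1 / 2 by norm_num)
  obtain ⟨w0, hw0⟩ := Filter.eventually_atTop.1 h4
  refine ⟨max 1 w0, le_max_left _ _, fun w hw => ?_⟩
  have hw1 : 1 ≤ w := (le_max_left _ _).trans hw
  have hwp : 0 < w := by linarith
  have h5 := hw0 w ((le_max_right _ _).trans hw)
  rw [Real.rpow_add hwp] at h5
  have h7 : 0 < w ^ A := Real.rpow_pos_of_pos hwp _
  rw [Real.rpow_neg hwp.le, inv_eq_one_div, div_div, le_div_iff₀ (by positivity)]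
  calc D * w ^ (6 : ℝ) * Real.exp (-κ * w) * (w ^ A * 2)
      = D * (w ^ (6 : ℝ) * w ^ A * Real.exp (-κ * w)) * 2 := by ring
    _ ≤ 1 / 2 * 2 := by gcongr
    _ = 1 := by norm_num

theorem gp_gauss {σ : ℝ} (hσ : 0 < σ) (hσ1 : σ ≤ 1) (K A : ℝ) : ∃ w0 : ℝ, 1 ≤ w0 ∧ ∀ w τ : ℝ, w0 ≤ w →
    |τ| ≤ Real.exp (K * w) → ‖gp σ w τ - gm σ w τ‖ ≤ w ^ (-A) := by
  rcases hσ1.eq_or_lt with rfl | hσ1
  · exact GaussS_one K A
  obtain ⟨a, ha⟩ : ∃ a : ℝ, a = 1 / σ ^ 2 - 1 := ⟨_, rfl⟩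
  have ha0 : 0 < a := by
    rw [ha]
    have : 1 < 1 / σ ^ 2 := by
      rw [lt_div_iff₀ (by positivity)]
      nlinarith
    linarith
  obtain ⟨C, hC, hgs⟩ := gp_sum
  obtain ⟨w1, hw1, h1⟩ := GaussS_one (|K| + 2) (|A| + 1)
  obtain ⟨w2, hw2, h2⟩ := GaussS_small ((64 * C + 3) * 2) (1 / (4 * a)) A (by positivity)
  refine ⟨max (max w1 w2) 2, le_trans (by norm_num) (le_max_right _ _), fun w τ hw hτ => ?_⟩
  have hww1 : w1 ≤ w := (le_max_left _ _).trans ((le_max_left _ _).trans hw)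
  have hww2 : w2 ≤ w := (le_max_right _ _).trans ((le_max_left _ _).trans hw)
  have hw2' : 2 ≤ w := (le_max_right _ _).trans hw
  have hw0 : 0 < w := by linarith
  have hw1' : 1 ≤ w := by linarith
  obtain ⟨-, -, hbd⟩ := hgs 1 w one_pos le_rfl hw1'
  obtain ⟨G, hG⟩ : ∃ G : ℝ → ℂ, G = fun ξ => (GaussS_k a ξ : ℂ) *
      Complex.exp (-(ξ * w * Complex.I)) := ⟨_, rfl⟩
  have hGc : Continuous G := by
    rw [hG]
    have := GaussS_k_cont a
    fun_prop
  have hGn : ∀ ξ, ‖G ξ‖ = GaussS_k a ξ := by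
    intro ξ
    rw [hG]
    simp only
    have e1 : ‖Complex.exp (-(ξ * w * Complex.I))‖ = 1 := by
      have : -((ξ : ℂ) * w * Complex.I) = ((-(ξ * w) : ℝ) : ℂ) * Complex.I := by
        push_cast
        ring
      rw [this]
      exact GaussS_norm_I _
    rw [norm_mul, e1, mul_one, Complex.norm_real, Real.norm_of_nonneg (GaussS_k_nonneg a ξ)]
  have hGi : Integrable G := by
    refine Integrable.mono' (GaussS_k_int ha0) hGc.aestronglyMeasurable
      (Filter.Eventually.of_forall fun ξ => (hGn ξ).le)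
  have e1 : gp σ w τ = ∫ ξ : ℝ, G ξ * gp 1 w (τ - ξ) := by
    rw [← GaussS_gp hσ hσ1 hw1' τ, ← ha, hG]
  have e2 : gm σ w τ = ∫ ξ : ℝ, G ξ * gm 1 w (τ - ξ) := by
    rw [← GaussS_gm hσ hσ1 w τ, ← ha, hG]
  have hc1 : Continuous fun ξ : ℝ => gp 1 w (τ - ξ) :=
    (gp_cont one_pos le_rfl hw1').comp (continuous_const.sub continuous_id)
  have hc2 : Continuous fun ξ : ℝ => gm 1 w (τ - ξ) :=
    (GaussS_gm_cont w).comp (continuous_const.sub continuous_id)
  have i1 : Integrable fun ξ : ℝ => G ξ * gp 1 w (τ - ξ) :=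
    hGi.mul_bdd hc1.aestronglyMeasurable (Filter.Eventually.of_forall fun ξ => hbd (τ - ξ))
  have i2 : Integrable fun ξ : ℝ => G ξ * gm 1 w (τ - ξ) :=
    hGi.mul_bdd hc2.aestronglyMeasurable
      (Filter.Eventually.of_forall fun ξ => GaussS_norm_gm w (τ - ξ))
  rw [e1, e2, ← integral_sub i1 i2]
  -- the majorant
  obtain ⟨M, hM⟩ : ∃ M : ℝ, M = C * (1 + w) ^ 6 + 3 := ⟨_, rfl⟩
  have hM0 : 0 ≤ M := by rw [hM]; positivity
  obtain ⟨E, hE⟩ : ∃ E : ℝ, E = Real.exp (-Real.exp (2 * w) / (4 * a)) := ⟨_, rfl⟩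
  have hE0 : 0 < E := by rw [hE]; exact Real.exp_pos _
  obtain ⟨s, hs⟩ : ∃ s : ℝ, s = Real.sqrt 2 := ⟨_, rfl⟩
  have hs0 : 0 ≤ s := by rw [hs]; exact Real.sqrt_nonneg _
  have hmaj : ∀ ξ : ℝ, ‖G ξ * gp 1 w (τ - ξ) - G ξ * gm 1 w (τ - ξ)‖ ≤
      w ^ (-(|A| + 1)) * GaussS_k a ξ + M * E * s * GaussS_k (2 * a) ξ := by
    intro ξ
    rw [← mul_sub, norm_mul, hGn]
    have hk := GaussS_k_nonneg a ξ
    have hk2 := GaussS_k_nonneg (2 * a) ξ
    have hp : 0 < w ^ (-(|A| + 1)) := Real.rpow_pos_of_pos hw0 _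
    rcases le_or_gt |ξ| (Real.exp w) with hξ | hξ
    · have h3 : |τ - ξ| ≤ Real.exp ((|K| + 2) * w) := by
        have h4 : |τ - ξ| ≤ |τ| + |ξ| := abs_sub _ _
        have h5 : Real.exp (K * w) ≤ Real.exp ((|K| + 1) * w) := by
          refine Real.exp_le_exp.2 ?_
          have := le_abs_self K
          nlinarith
        have h6 : Real.exp w ≤ Real.exp ((|K| + 1) * w) := by
          refine Real.exp_le_exp.2 ?_
          have := abs_nonneg K
          nlinarith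
        have h7 : Real.exp ((|K| + 2) * w) = Real.exp ((|K| + 1) * w) * Real.exp w := by
          rw [← Real.exp_add]
          congr 1
          ring
        have h8 : 2 ≤ Real.exp w := by
          have := Real.add_one_le_exp w
          linarith
        have h9 : 0 < Real.exp ((|K| + 1) * w) := Real.exp_pos _
        rw [h7]
        nlinarith
      have h4 := h1 w (τ - ξ) hww1 h3
      have h5 : 0 ≤ M * E * s * GaussS_k (2 * a) ξ := by positivity
      calc GaussS_k a ξ * ‖gp 1 w (τ - ξ) - gm 1 w (τ - ξ)‖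
          ≤ GaussS_k a ξ * w ^ (-(|A| + 1)) := mul_le_mul_of_nonneg_left h4 hk
        _ ≤ _ := by linarith
    · have h3 : ‖gp 1 w (τ - ξ) - gm 1 w (τ - ξ)‖ ≤ M := by
        refine (norm_sub_le _ _).trans ?_
        have := hbd (τ - ξ)
        have := GaussS_norm_gm w (τ - ξ)
        rw [hM]
        linarith
      have h4 : GaussS_k a ξ ≤ E * s * GaussS_k (2 * a) ξ := by
        unfold GaussS_k
        have e3 : Real.sqrt (2 * Real.pi * (2 * a)) = s * Real.sqrt (2 * Real.pi * a) := by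
          rw [hs, ← Real.sqrt_mul (by norm_num)]
          congr 1
          ring
        have hs1 : s ≠ 0 := by
          rw [hs]
          exact (Real.sqrt_pos.2 (by norm_num)).ne'
        have e4 : E * s * ((Real.sqrt (2 * Real.pi * (2 * a)))⁻¹ *
            Real.exp (-ξ ^ 2 / (2 * (2 * a)))) =
            (Real.sqrt (2 * Real.pi * a))⁻¹ * (E * Real.exp (-ξ ^ 2 / (2 * (2 * a)))) := by
          rw [e3]
          have h3 : 0 < Real.sqrt (2 * Real.pi * a) := Real.sqrt_pos.2 (by positivity)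
          field_simp
        rw [e4]
        refine mul_le_mul_of_nonneg_left ?_ (by positivity)
        rw [hE, ← Real.exp_add]
        refine Real.exp_le_exp.2 ?_
        have e5 : Real.exp (2 * w) ≤ ξ ^ 2 := by
          have h5 : Real.exp (2 * w) = Real.exp w ^ 2 := by
            rw [← Real.exp_nat_mul]
            norm_num
          rw [h5, ← sq_abs ξ]
          exact pow_le_pow_left₀ (Real.exp_pos _).le hξ.le 2
        have e6 : -ξ ^ 2 / (2 * a) = -ξ ^ 2 / (4 * a) + -ξ ^ 2 / (2 * (2 * a)) := by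
          field_simp
          ring
        rw [e6]
        have e7 : -ξ ^ 2 / (4 * a) ≤ -Real.exp (2 * w) / (4 * a) := by
          gcongr
        linarith
      have h5 : 0 ≤ w ^ (-(|A| + 1)) * GaussS_k a ξ := by positivity
      calc GaussS_k a ξ * ‖gp 1 w (τ - ξ) - gm 1 w (τ - ξ)‖
          ≤ (E * s * GaussS_k (2 * a) ξ) * M :=
            mul_le_mul h4 h3 (norm_nonneg _) (by positivity)
        _ ≤ _ := by linarith
  have ha2 : 0 < 2 * a := by linarith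
  have hgi : Integrable fun ξ : ℝ =>
      w ^ (-(|A| + 1)) * GaussS_k a ξ + M * E * s * GaussS_k (2 * a) ξ :=
    ((GaussS_k_int ha0).const_mul _).add ((GaussS_k_int ha2).const_mul _)
  refine (norm_integral_le_of_norm_le hgi (Filter.Eventually.of_forall hmaj)).trans ?_
  rw [integral_add ((GaussS_k_int ha0).const_mul _) ((GaussS_k_int ha2).const_mul _),
    integral_const_mul, integral_const_mul, GaussS_k_one ha0, GaussS_k_one ha2, mul_one, mul_one]
  have h3 : w ^ (-(|A| + 1)) ≤ w ^ (-A) / 2 := by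
    rw [neg_add, Real.rpow_add hw0, Real.rpow_neg_one, div_eq_mul_inv]
    refine mul_le_mul ?_ ?_ (by positivity) (by positivity)
    · refine Real.rpow_le_rpow_of_exponent_le hw1' ?_
      have := le_abs_self A
      linarith
    · exact inv_anti₀ (by norm_num) hw2'
  have h4 : M * E * s ≤ w ^ (-A) / 2 := by
    refine le_trans ?_ (h2 w hww2)
    have e1 : M ≤ (64 * C + 3) * w ^ (6 : ℝ) := by
      rw [hM]
      have e2 : w ^ (6 : ℝ) = w ^ 6 := by
        rw [← Real.rpow_natCast]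
        norm_num
      rw [e2]
      have e3 : (1 + w) ^ 6 ≤ (2 * w) ^ 6 := pow_le_pow_left₀ (by linarith) (by linarith) 6
      have e4 : (2 * w) ^ 6 = 64 * w ^ 6 := by ring
      have e5 : 1 ≤ w ^ 6 := one_le_pow₀ hw1'
      rw [e4] at e3
      nlinarith
    have e2 : E ≤ Real.exp (-(1 / (4 * a)) * w) := by
      rw [hE]
      refine Real.exp_le_exp.2 ?_
      have e3 : w ≤ Real.exp (2 * w) := by
        have := Real.add_one_le_exp (2 * w)
        linarith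
      have e4 : -(1 / (4 * a)) * w = -w / (4 * a) := by ring
      rw [e4]
      gcongr
    have e3 : s ≤ 2 := by
      rw [hs, Real.sqrt_le_left (by norm_num)]
      norm_num
    have hp6 : 0 < w ^ (6 : ℝ) := Real.rpow_pos_of_pos hw0 _
    calc M * E * s ≤ ((64 * C + 3) * w ^ (6 : ℝ)) * Real.exp (-(1 / (4 * a)) * w) * 2 := by
          gcongr
      _ = (64 * C + 3) * 2 * w ^ (6 : ℝ) * Real.exp (-(1 / (4 * a)) * w) := by ring
  linarith

end SMC
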