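import Pool.Agent.VKZ.PrimeG
import Pool.Agent.MCC.Defs

/-!
# SMC: exact lengths 1, 2, 3 of Cunningham chains for almost every single multiplier.  Definitions

For real `α > 1` and real `β` let `T q = ⌊α q + β⌋` (Q1 is `α = 2`, `β = 1`). THEOREM: for almost every `α > 1` and
every real `β` there are, for `k = 1, 2, 3`, infinitely many primes which start a `T`-chain of exact length `k`.

METHOD. The chain `p, m = T p, l = T m` is centred at `m`: `p = ⌈(m - β)/α⌉`, `l = ⌊α m + β⌋`.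
(1) First moment: the number of prime triples `(p, m, l)` with `log p + log l - 2 log m` in a window of length
`≍ 1/X`, from `VKZ.prime_gauss` (Fourier transform in the logarithms: `∫ P(τ) L(τ) M(-2τ) dτ`, the supremum of `M`
and the mean squares of `P`, `L`). (2) every such triple gives an interval of `α` of length `≫ 1/X` on which the chain is
`p, m, l, s` with `s` EVEN (as `α > 1`). (3) Second moment: Selberg's sieve for the four numbers `⌊α m + β⌋`, `⌈(m - β)/α⌉`,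
`⌊α m' + β⌋`, `⌈(m' - β)/α⌉`, whose joint distribution modulo small numbers comes from van der Corput's estimate for
`∫ e(uα + v/α) dα`. (4) So the `α` with such a triple have measure `≥ c ρ` in `|α - μ| ≤ ρ`, `c` independent of `ρ`;
Lebesgue's density theorem. All statements have a margin `ε` (`Rob`), which gives all `β` at once.
-/

namespace SMC

open MeasureTheory ArithmeticFunction

/-- `∑ Λ(n) n^(-1-iτ) exp(-(log n - w)²/(2σ²))`. -/
noncomputable def gp (σ w τ : ℝ) : ℂ :=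
  ∑' n : ℕ, ((vonMangoldt n : ℝ) : ℂ) * (n : ℂ) ^ (-(1 + τ * Complex.I)) *
    ((Real.exp (-(Real.log n - w) ^ 2 / (2 * σ ^ 2)) : ℝ) : ℂ)

/-- Its main term `∫ exp(-iτx) exp(-(x-w)²/(2σ²)) dx`. -/
noncomputable def gm (σ w τ : ℝ) : ℂ :=
  ((Real.sqrt (2 * Real.pi) * σ * Real.exp (-(σ ^ 2 * τ ^ 2) / 2) : ℝ) : ℂ) *
    Complex.exp (-(τ * w * Complex.I))

/-- `Λ(n)/n`. -/
noncomputable def tw (n : ℕ) : ℝ := vonMangoldt n / n

/-- The exponent of the weight of a triple. -/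
noncomputable def ex (σ κ w μ h : ℝ) (q : ℕ × ℕ × ℕ) : ℝ :=
  ((Real.log q.1 - w) ^ 2 + (Real.log q.2.1 - w - Real.log μ) ^ 2 +
      (Real.log q.2.2 - w - 2 * Real.log μ) ^ 2) / (2 * σ ^ 2) +
    (Real.exp w * (Real.log q.1 + Real.log q.2.2 - 2 * Real.log q.2.1) - h) ^ 2 / (2 * κ ^ 2)

/-- The weighted number of the triples. -/
noncomputable def T3 (σ κ w μ h : ℝ) : ℝ :=
  ∑' q : ℕ × ℕ × ℕ, tw q.1 * tw q.2.1 * tw q.2.2 * Real.exp (-ex σ κ w μ h q)

/-- The prime triples `(p, m, l)` in the box. -/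
def PT (σ κ w μ h : ℝ) : Set (ℕ × ℕ × ℕ) :=
  {q | q.1.Prime ∧ q.2.1.Prime ∧ q.2.2.Prime ∧ |Real.log q.1 - w| ≤ 4 * σ ∧
    |Real.log q.2.1 - w - Real.log μ| ≤ 4 * σ ∧ |Real.log q.2.2 - w - 2 * Real.log μ| ≤ 4 * σ ∧
    |Real.exp w * (Real.log q.1 + Real.log q.2.2 - 2 * Real.log q.2.1) - h| ≤ 4 * κ}

/-- For this `α` and all `β'` with `|β' - β| < ε` the chain of `p` is `p, m, l, s` with an even `s ≥ 4`. -/
def Ch (ε β α : ℝ) (p m l : ℕ) : Prop :=
  (m : ℝ) + ε ≤ α * p + β ∧ α * p + β ≤ m + 1 - ε ∧ (l : ℝ) + ε ≤ α * m + β ∧ α * m + β ≤ l + 1 - ε ∧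
    ∃ s : ℕ, Even s ∧ 4 ≤ s ∧ (s : ℝ) + ε ≤ α * l + β ∧ α * l + β ≤ s + 1 - ε

/-- The same with primes `p`, `m`, `l`. -/
def Rob (ε β α : ℝ) (p m l : ℕ) : Prop :=
  p.Prime ∧ m.Prime ∧ l.Prime ∧ Ch ε β α p m l

open Classical in
/-- The number of primes `m` in the box for which `⌊t m + β⌋` and `⌈(m - β)/t⌉` are primes. -/
noncomputable def NN (β σ w μ t : ℝ) : ℕ :=
  ((Finset.Icc 1 ⌊Real.exp (w + Real.log μ + 4 * σ)⌋₊).filter fun m : ℕ =>
    m.Prime ∧ |Real.log m - w - Real.log μ| ≤ 4 * σ ∧ (⌊t * m + β⌋₊).Prime ∧ (⌈(m - β) / t⌉₊).Prime).card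

/-- The map `q ↦ ⌊α q + β⌋`. -/
noncomputable def T (α β : ℝ) (q : ℕ) : ℕ := ⌊α * q + β⌋₊

/-- `p` starts a `T`-chain of exact length `k`. -/
def StartsExact (α β : ℝ) (p k : ℕ) : Prop :=
  (∀ i < k, ((T α β)^[i] p).Prime) ∧ 1 < (T α β)^[k] p ∧ ¬ ((T α β)^[k] p).Prime

end SMC
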