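import Mathlib

/-!
# SMC.Osc: van der Corput's estimate for `∫ e(u t + v/t + c) dt`

PROOF. `φ(t) = u t + v/t + c`, `φ' = u - v/t²`. First derivative test by integration by parts
(`osc_fd`); if `u v > 0` split at `t0 ± 1/√U`, `t0 = √(v/u)`.
-/

namespace SMC

open MeasureTheory

/-- the oscillating factor -/
noncomputable def oscE (u v c t : ℝ) : ℂ :=
  Complex.exp (2 * Real.pi * Complex.I * ((u * t + v / t + c : ℝ) : ℂ))

theorem oscE_norm (u v c t : ℝ) : ‖oscE u v c t‖ = 1 := by
  unfold oscE
  have : 2 * (Real.pi : ℂ) * Complex.I * ((u * t + v / t + c : ℝ) : ℂ) =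
      ((2 * Real.pi * (u * t + v / t + c) : ℝ) : ℂ) * Complex.I := by
    push_cast
    ring
  rw [this, Complex.norm_exp_ofReal_mul_I]

theorem oscE_deriv (u v c : ℝ) {t : ℝ} (ht : 0 < t) :
    HasDerivAt (oscE u v c)
      (oscE u v c t * (2 * Real.pi * Complex.I * ((u - v / t ^ 2 : ℝ) : ℂ))) t := by
  have h0 : HasDerivAt (fun t : ℝ => u * t + v / t + c) (u - v / t ^ 2) t := by
    have h1 : HasDerivAt (fun t : ℝ => u * t) u t := by
      simpa using (hasDerivAt_id t).const_mul u
    have h2 : HasDerivAt (fun t : ℝ => v / t) (-(v / t ^ 2)) t := by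
      have := (hasDerivAt_inv ht.ne').const_mul v
      refine (this.congr_of_eventuallyEq ?_).congr_deriv ?_
      · exact Filter.Eventually.of_forall fun x => by simp [div_eq_mul_inv]
      · rw [div_eq_mul_inv]
        ring
    refine ((h1.add h2).add_const c).congr_deriv ?_
    ring
  have h1 := h0.ofReal_comp
  have h2 := (h1.const_mul (2 * (Real.pi : ℂ) * Complex.I)).cexp
  exact h2

theorem osc_psi (u v : ℝ) {t : ℝ} (ht : 0 < t) :
    HasDerivAt (fun t : ℝ => u - v / t ^ 2) (2 * v / t ^ 3) t := by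
  have h1 : HasDerivAt (fun t : ℝ => (t ^ 2)⁻¹) (-(2 * t) / (t ^ 2) ^ 2) t := by
    have := (hasDerivAt_pow 2 t).inv (by positivity)
    refine this.congr_deriv ?_
    simp
  have h2 := (h1.const_mul v).const_sub u
  refine (h2.congr_of_eventuallyEq ?_).congr_deriv ?_
  · exact Filter.Eventually.of_forall fun x => by simp [div_eq_mul_inv]
  · field_simp

theorem osc_fd {a b u v c l : ℝ} (ha : 0 < a) (hab : a ≤ b) (hl : 0 < l)
    (h : ∀ t ∈ Set.Icc a b, l ≤ |u - v / t ^ 2|) :
    ‖∫ t in a..b, oscE u v c t‖ ≤ 1 / l := by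
  have hpos : ∀ t ∈ Set.Icc a b, 0 < t := fun t ht => lt_of_lt_of_le ha ht.1
  have hu : Set.uIcc a b = Set.Icc a b := Set.uIcc_of_le hab
  have hne : ∀ t ∈ Set.Icc a b, u - v / t ^ 2 ≠ 0 := by
    intro t ht h0
    have := h t ht
    rw [h0, abs_zero] at this
    linarith
  have hpi := Real.pi_pos
  have hpi3 := Real.pi_gt_three
  have hcE : ContinuousOn (oscE u v c) (Set.Icc a b) := fun t ht =>
    (oscE_deriv u v c (hpos t ht)).continuousAt.continuousWithinAt
  have hcpsi : ContinuousOn (fun t : ℝ => u - v / t ^ 2) (Set.Icc a b) := fun t ht =>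
    (osc_psi u v (hpos t ht)).continuousAt.continuousWithinAt
  have hcpsi' : ContinuousOn (fun t : ℝ => 2 * v / t ^ 3) (Set.Icc a b) := by
    refine continuousOn_const.div (continuousOn_pow 3) fun t ht => ?_
    have := hpos t ht
    positivity
  have h2pi : (2 * (Real.pi : ℂ) * Complex.I) ≠ 0 := by
    simp [hpi.ne']
  -- the correction term
  set R : ℝ → ℂ := fun t => oscE u v c t * (((2 * v / t ^ 3) / (u - v / t ^ 2) ^ 2 : ℝ) : ℂ) /
    (2 * Real.pi * Complex.I) with hR
  have hcR : ContinuousOn R (Set.Icc a b) := by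
    refine (hcE.mul ?_).div_const _
    refine Complex.continuous_ofReal.comp_continuousOn ?_
    refine hcpsi'.div (hcpsi.pow 2) fun t ht => pow_ne_zero 2 (hne t ht)
  have hG : ∀ t ∈ Set.uIcc a b, HasDerivAt
      (fun t => oscE u v c t * (((u - v / t ^ 2)⁻¹ : ℝ) : ℂ) / (2 * Real.pi * Complex.I))
      (oscE u v c t - R t) t := by
    intro t ht
    rw [hu] at ht
    have h1 := oscE_deriv u v c (hpos t ht)
    have h2 := ((osc_psi u v (hpos t ht)).inv (hne t ht)).ofReal_comp
    have h3 := (h1.mul h2).div_const (2 * (Real.pi : ℂ) * Complex.I)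
    refine h3.congr_deriv ?_
    have hne' : ((u - v / t ^ 2 : ℝ) : ℂ) ≠ 0 := Complex.ofReal_ne_zero.2 (hne t ht)
    have e1 : (((u - v / t ^ 2)⁻¹ : ℝ) : ℂ) = ((u - v / t ^ 2 : ℝ) : ℂ)⁻¹ := by push_cast; rfl
    have e2 : ((-(2 * v / t ^ 3) / (u - v / t ^ 2) ^ 2 : ℝ) : ℂ) =
        -(((2 * v / t ^ 3) / (u - v / t ^ 2) ^ 2 : ℝ) : ℂ) := by
      push_cast
      ring
    simp only [Pi.inv_apply] at *
    rw [hR]
    simp only
    rw [e1, e2]
    generalize ((u - v / t ^ 2 : ℝ) : ℂ) = p at *
    generalize (((2 * v / t ^ 3) / (u - v / t ^ 2) ^ 2 : ℝ) : ℂ) = q at *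
    generalize (2 * (Real.pi : ℂ) * Complex.I) = k at *
    field_simp
    ring
  have hint : IntervalIntegrable (fun t => oscE u v c t - R t) volume a b := by
    refine ContinuousOn.intervalIntegrable ?_
    rw [hu]
    exact hcE.sub hcR
  have hFTC := intervalIntegral.integral_eq_sub_of_hasDerivAt hG hint
  have hiE : IntervalIntegrable (oscE u v c) volume a b := by
    refine ContinuousOn.intervalIntegrable ?_
    rw [hu]
    exact hcE
  have hiR : IntervalIntegrable R volume a b := by
    refine ContinuousOn.intervalIntegrable ?_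
    rw [hu]
    exact hcR
  rw [intervalIntegral.integral_sub hiE hiR] at hFTC
  -- the real comparison
  obtain ⟨s, hs1, hs2⟩ : ∃ s : ℝ, |s| = 1 ∧ |v| = s * v := by
    rcases le_total 0 v with hv | hv
    · exact ⟨1, by simp, by rw [abs_of_nonneg hv, one_mul]⟩
    · exact ⟨-1, by simp, by rw [abs_of_nonpos hv]; ring⟩
  have hK : ∀ t ∈ Set.uIcc a b, HasDerivAt
      (fun t => -(s / (2 * Real.pi)) * (u - v / t ^ 2)⁻¹)
      (s / (2 * Real.pi) * ((2 * v / t ^ 3) / (u - v / t ^ 2) ^ 2)) t := by
    intro t ht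
    rw [hu] at ht
    have h2 := ((osc_psi u v (hpos t ht)).inv (hne t ht)).const_mul (-(s / (2 * Real.pi)))
    refine h2.congr_deriv ?_
    ring
  have hiK : IntervalIntegrable
      (fun t : ℝ => s / (2 * Real.pi) * ((2 * v / t ^ 3) / (u - v / t ^ 2) ^ 2)) volume a b := by
    refine ContinuousOn.intervalIntegrable ?_
    rw [hu]
    refine continuousOn_const.mul ?_
    exact hcpsi'.div (hcpsi.pow 2) fun t ht => pow_ne_zero 2 (hne t ht)
  have hKint := intervalIntegral.integral_eq_sub_of_hasDerivAt hK hiK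
  have hbound : ‖∫ t in a..b, R t‖ ≤
      ∫ t in a..b, s / (2 * Real.pi) * ((2 * v / t ^ 3) / (u - v / t ^ 2) ^ 2) := by
    refine intervalIntegral.norm_integral_le_of_norm_le hab ?_ hiK
    refine Filter.Eventually.of_forall fun t ht => ?_
    have ht' : t ∈ Set.Icc a b := Set.Ioc_subset_Icc_self ht
    have ht0 := hpos t ht'
    rw [hR]
    simp only
    rw [norm_div, norm_mul, oscE_norm, one_mul, Complex.norm_real]
    have e3 : ‖(2 * (Real.pi : ℂ) * Complex.I)‖ = 2 * Real.pi := by
      rw [norm_mul, norm_mul, Complex.norm_I, Complex.norm_real, Real.norm_of_nonneg hpi.le]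
      simp
    rw [e3, Real.norm_eq_abs, abs_div, abs_div, abs_mul, abs_of_pos (show (0 : ℝ) < 2 by norm_num),
      abs_of_pos (show (0 : ℝ) < t ^ 3 by positivity),
      abs_of_nonneg (sq_nonneg (u - v / t ^ 2)), hs2]
    apply le_of_eq
    ring
  have hinv : ∀ t ∈ Set.Icc a b, |(u - v / t ^ 2)⁻¹| ≤ 1 / l := by
    intro t ht
    rw [abs_inv, ← one_div]
    exact one_div_le_one_div_of_le hl (h t ht)
  have hba := hinv a (Set.left_mem_Icc.2 hab)
  have hbb := hinv b (Set.right_mem_Icc.2 hab)
  have hKle : ∫ t in a..b, s / (2 * Real.pi) * ((2 * v / t ^ 3) / (u - v / t ^ 2) ^ 2) ≤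
      1 / (2 * Real.pi) * (2 / l) := by
    rw [hKint]
    have e4 : -(s / (2 * Real.pi)) * (u - v / b ^ 2)⁻¹ - -(s / (2 * Real.pi)) * (u - v / a ^ 2)⁻¹ =
        1 / (2 * Real.pi) * (s * ((u - v / a ^ 2)⁻¹ - (u - v / b ^ 2)⁻¹)) := by ring
    rw [e4]
    refine mul_le_mul_of_nonneg_left ?_ (by positivity)
    calc s * ((u - v / a ^ 2)⁻¹ - (u - v / b ^ 2)⁻¹)
        ≤ |s * ((u - v / a ^ 2)⁻¹ - (u - v / b ^ 2)⁻¹)| := le_abs_self _
      _ = |(u - v / a ^ 2)⁻¹ - (u - v / b ^ 2)⁻¹| := by rw [abs_mul, hs1, one_mul]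
      _ ≤ |(u - v / a ^ 2)⁻¹| + |(u - v / b ^ 2)⁻¹| := abs_sub _ _
      _ ≤ 2 / l := by
        have : 2 / l = 1 / l + 1 / l := by ring
        linarith
  have hGb : ∀ t ∈ Set.Icc a b,
      ‖oscE u v c t * (((u - v / t ^ 2)⁻¹ : ℝ) : ℂ) / (2 * Real.pi * Complex.I)‖ ≤
      1 / (2 * Real.pi) * (1 / l) := by
    intro t ht
    rw [norm_div, norm_mul, oscE_norm, one_mul, Complex.norm_real]
    have e3 : ‖(2 * (Real.pi : ℂ) * Complex.I)‖ = 2 * Real.pi := by
      rw [norm_mul, norm_mul, Complex.norm_I, Complex.norm_real, Real.norm_of_nonneg hpi.le]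
      simp
    rw [e3, Real.norm_eq_abs]
    have := hinv t ht
    calc |(u - v / t ^ 2)⁻¹| / (2 * Real.pi) ≤ 1 / l / (2 * Real.pi) := by gcongr
      _ = 1 / (2 * Real.pi) * (1 / l) := by ring
  have hfin : ∫ t in a..b, oscE u v c t =
      (oscE u v c b * (((u - v / b ^ 2)⁻¹ : ℝ) : ℂ) / (2 * Real.pi * Complex.I) -
      oscE u v c a * (((u - v / a ^ 2)⁻¹ : ℝ) : ℂ) / (2 * Real.pi * Complex.I)) +
      ∫ t in a..b, R t := by
    rw [← hFTC]
    ring
  rw [hfin]
  refine (norm_add_le _ _).trans ?_
  have h7 := norm_sub_le (oscE u v c b * (((u - v / b ^ 2)⁻¹ : ℝ) : ℂ) / (2 * Real.pi * Complex.I))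
      (oscE u v c a * (((u - v / a ^ 2)⁻¹ : ℝ) : ℂ) / (2 * Real.pi * Complex.I))
  have h8 := hGb a (Set.left_mem_Icc.2 hab)
  have h9 := hGb b (Set.right_mem_Icc.2 hab)
  have h10 : 1 / (2 * Real.pi) * (1 / l) + 1 / (2 * Real.pi) * (1 / l) +
      1 / (2 * Real.pi) * (2 / l) ≤ 1 / l := by
    have : 1 / (2 * Real.pi) * (1 / l) + 1 / (2 * Real.pi) * (1 / l) +
      1 / (2 * Real.pi) * (2 / l) = 2 / Real.pi * (1 / l) := by
      field_simp
      ring
    rw [this]
    have h11 : 2 / Real.pi ≤ 1 := by
      rw [div_le_one hpi]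
      linarith
    have h12 : 0 < 1 / l := by positivity
    nlinarith
  linarith

theorem osc_triv {a b u v c : ℝ} (hab : a ≤ b) : ‖∫ t in a..b, oscE u v c t‖ ≤ b - a := by
  have := intervalIntegral.norm_integral_le_of_norm_le_const (a := a) (b := b)
    (f := oscE u v c) (C := 1) fun t _ => (oscE_norm u v c t).le
  rwa [one_mul, abs_of_nonneg (by linarith)] at this

theorem osc {B : ℝ} (hB : 0 < B) : ∃ C : ℝ, 1 ≤ C ∧ ∀ a b u v c U : ℝ, 0 < a → a ≤ b → b ≤ B → 1 ≤ U →
    (u = 0 ∨ U ≤ |u|) → (v = 0 ∨ U ≤ |v|) → (u ≠ 0 ∨ v ≠ 0) →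
    ‖∫ t in a..b, Complex.exp (2 * Real.pi * Complex.I * ((u * t + v / t + c : ℝ) : ℂ))‖ ≤ C / Real.sqrt U := by
  refine ⟨1 + B ^ 2 + (2 * B + 2), by nlinarith, ?_⟩
  intro a b u v c U ha hab hb hU hu hv huv
  have hU0 : 0 < U := by linarith
  have hsU : 1 ≤ Real.sqrt U := by rw [Real.one_le_sqrt]; exact hU
  have hsU0 : 0 < Real.sqrt U := by linarith
  have hsq : Real.sqrt U * Real.sqrt U = U := Real.mul_self_sqrt hU0.le
  have hle : Real.sqrt U ≤ U := by nlinarith
  have hinv : 1 / U ≤ 1 / Real.sqrt U := one_div_le_one_div_of_le hsU0 hle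
  have hi0 : 0 < 1 / Real.sqrt U := by positivity
  have hgoal : ∀ x : ℝ, x ≤ (1 + B ^ 2 + (2 * B + 2)) * (1 / Real.sqrt U) →
      x ≤ (1 + B ^ 2 + (2 * B + 2)) / Real.sqrt U := by
    intro x hx
    rwa [mul_one_div] at hx
  apply hgoal
  change ‖∫ t in a..b, oscE u v c t‖ ≤ _
  rcases eq_or_ne v 0 with hv0 | hv0
  · -- v = 0
    have hu0 : u ≠ 0 := by
      rcases huv with h | h
      · exact h
      · exact absurd hv0 h
    have hUu : U ≤ |u| := by
      rcases hu with h | h
      · exact absurd h hu0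
      · exact h
    have h1 : ‖∫ t in a..b, oscE u v c t‖ ≤ 1 / U := by
      refine osc_fd ha hab hU0 fun t _ => ?_
      rw [hv0]
      simpa using hUu
    nlinarith [sq_nonneg B]
  · have hUv : U ≤ |v| := by
      rcases hv with h | h
      · exact absurd h hv0
      · exact h
    rcases le_or_gt (u * v) 0 with huv0 | huv0
    · -- no stationary point
      have h1 : ‖∫ t in a..b, oscE u v c t‖ ≤ 1 / (U / B ^ 2) := by
        refine osc_fd ha hab (by positivity) fun t ht => ?_
        have ht0 : 0 < t := lt_of_lt_of_le ha ht.1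
        have htB : t ≤ B := ht.2.trans hb
        have h2 : |v| / t ^ 2 ≤ |u - v / t ^ 2| := by
          rw [← abs_of_pos (show (0 : ℝ) < t ^ 2 by positivity), ← abs_div,
            abs_of_pos (show (0 : ℝ) < t ^ 2 by positivity), ← sq_le_sq]
          have h3 : u * (v / t ^ 2) ≤ 0 := by
            rw [← mul_div_assoc]
            exact div_nonpos_of_nonpos_of_nonneg huv0 (by positivity)
          nlinarith [sq_nonneg u]
        have h3 : U / B ^ 2 ≤ |v| / t ^ 2 := by gcongr
        exact h3.trans h2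
      have h2 : 1 / (U / B ^ 2) = B ^ 2 * (1 / U) := by field_simp
      rw [h2] at h1
      nlinarith [sq_nonneg B, mul_le_mul_of_nonneg_left hinv (sq_nonneg B), mul_pos hB hi0]
    · -- a stationary point
      have hu0 : u ≠ 0 := by
        rintro rfl
        simp at huv0
      have hUu : U ≤ |u| := by
        rcases hu with h | h
        · exact absurd h hu0
        · exact h
      have hvu : 0 < v / u := by
        have : v / u = u * v / u ^ 2 := by field_simp
        rw [this]
        positivity
      set t0 := Real.sqrt (v / u) with ht0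
      have ht0p : 0 < t0 := Real.sqrt_pos.2 hvu
      have ht0s : t0 ^ 2 = v / u := Real.sq_sqrt hvu.le
      have hkey : ∀ t : ℝ, 0 < t → t ≤ B → 1 / Real.sqrt U ≤ |t - t0| →
          Real.sqrt U / B ≤ |u - v / t ^ 2| := by
        intro t ht htB htt
        have e1 : u - v / t ^ 2 = u * ((t - t0) * ((t + t0) / t ^ 2)) := by
          have : v = u * t0 ^ 2 := by rw [ht0s]; field_simp
          rw [this]
          field_simp
          ring
        rw [e1, abs_mul, abs_mul, abs_of_pos (show 0 < (t + t0) / t ^ 2 by positivity)]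
        have h4 : 1 / B ≤ (t + t0) / t ^ 2 := by
          rw [div_le_div_iff₀ hB (by positivity)]
          nlinarith [mul_pos ht0p hB, mul_le_mul_of_nonneg_left htB ht.le]
        have h5 : U * (1 / Real.sqrt U) = Real.sqrt U := by
          rw [mul_one_div, div_eq_iff hsU0.ne']
          exact hsq.symm
        calc Real.sqrt U / B = U * (1 / Real.sqrt U * (1 / B)) := by
              rw [← mul_assoc, h5, mul_one_div]
          _ ≤ |u| * (|t - t0| * ((t + t0) / t ^ 2)) := by gcongr
      set d := 1 / Real.sqrt U with hd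
      set p := max a (min b (t0 - d)) with hp
      set q := max a (min b (t0 + d)) with hq
      have hap : a ≤ p := le_max_left _ _
      have hpb : p ≤ b := max_le hab (min_le_left _ _)
      have haq : a ≤ q := le_max_left _ _
      have hqb : q ≤ b := max_le hab (min_le_left _ _)
      have hpq : p ≤ q := max_le_max le_rfl (min_le_min le_rfl (by linarith))
      have hqp : q - p ≤ 2 * d := by
        rcases le_total a (min b (t0 + d)) with h | h
        · rw [hq, max_eq_right h]
          have h5 : min b (t0 + d) ≤ min b (t0 - d) + 2 * d := by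
            rcases le_total b (t0 - d) with h6 | h6
            · rw [min_eq_left h6]
              have := min_le_left b (t0 + d)
              linarith
            · rw [min_eq_right h6]
              have := min_le_right b (t0 + d)
              linarith
          have h7 : min b (t0 - d) ≤ p := le_max_right _ _
          linarith
        · rw [hq, max_eq_left h]
          linarith
      have hcont : ∀ x y : ℝ, 0 < x → x ≤ y → IntervalIntegrable (oscE u v c) volume x y := by
        intro x y hx hxy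
        refine ContinuousOn.intervalIntegrable ?_
        rw [Set.uIcc_of_le hxy]
        exact fun t ht => (oscE_deriv u v c (lt_of_lt_of_le hx ht.1)).continuousAt.continuousWithinAt
      have hp0 : 0 < p := lt_of_lt_of_le ha hap
      have hq0 : 0 < q := lt_of_lt_of_le ha haq
      have hsplit : ∫ t in a..b, oscE u v c t = (∫ t in a..p, oscE u v c t) +
          (∫ t in p..q, oscE u v c t) + ∫ t in q..b, oscE u v c t := by
        rw [intervalIntegral.integral_add_adjacent_intervals (hcont a p ha hap) (hcont p q hp0 hpq),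
          intervalIntegral.integral_add_adjacent_intervals (hcont a q ha haq) (hcont q b hq0 hqb)]
      have h1 : ‖∫ t in a..p, oscE u v c t‖ ≤ 1 / (Real.sqrt U / B) := by
        rcases eq_or_lt_of_le hap with h | h
        · rw [← h, intervalIntegral.integral_same, norm_zero]
          positivity
        · refine osc_fd ha hap (by positivity) fun t ht => ?_
          refine hkey t (lt_of_lt_of_le ha ht.1) (ht.2.trans (hpb.trans hb)) ?_
          have h8 : p ≤ t0 - d := by
            rcases max_choice a (min b (t0 - d)) with h9 | h9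
            · rw [← hp] at h9
              linarith
            · rw [hp, h9]
              exact min_le_right _ _
          rw [abs_sub_comm]
          refine le_trans ?_ (le_abs_self _)
          linarith [ht.2]
      have h3 : ‖∫ t in q..b, oscE u v c t‖ ≤ 1 / (Real.sqrt U / B) := by
        rcases eq_or_lt_of_le hqb with h | h
        · rw [h, intervalIntegral.integral_same, norm_zero]
          positivity
        · refine osc_fd hq0 hqb (by positivity) fun t ht => ?_
          refine hkey t (lt_of_lt_of_le hq0 ht.1) (ht.2.trans hb) ?_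
          have h8 : t0 + d ≤ q := by
            rcases min_choice b (t0 + d) with h9 | h9
            · exfalso
              have : b ≤ q := by
                rw [hq, h9]
                exact le_max_right _ _
              linarith
            · rw [hq, h9]
              exact le_max_right _ _
          refine le_trans ?_ (le_abs_self _)
          linarith [ht.1]
      have h2 : ‖∫ t in p..q, oscE u v c t‖ ≤ q - p := osc_triv hpq
      have h4 : 1 / (Real.sqrt U / B) = B * d := by rw [hd]; field_simp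
      rw [h4] at h1 h3
      rw [hsplit]
      refine (norm_add₃_le).trans ?_
      nlinarith [sq_nonneg B, mul_nonneg (sq_nonneg B) hi0.le]

end SMC
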