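import Pool.Agent.SMC.Defs
import Pool.Agent.SMC.Osc
import Pool.Agent.SMC.EquiF

/-!
# SMC.Equi4: joint distribution of `⌊t m + β⌋`, `⌈(m - β)/t⌉`, `⌊t m' + β⌋`, `⌈(m' - β)/t⌉` modulo small numbers

PROOF. For large `X` all of the four numbers inside the roundings are `≥ 0` for `t ∈ [a,b]`. For a natural `d ≥ 1` and real `y ≥ 0`:
`d ∣ ⌊y⌋₊ ↔ (d:ℤ) ∣ ⌊y⌋ ↔ fract (y/d) < 1/d` (see `Equi_dvd` in `Pool/Agent/MCC/Equi.lean`, copy), and `d ∣ ⌈y⌉₊ ↔ (d:ℤ) ∣ ⌊-y⌋ ↔ fract (-y/d) < 1/d`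
(`Int.ceil y = -⌊-y⌋`). So the set is the one in `equi_fejer` with `r = 4`,
`f = ![(tm+β)/d1, -((m-β)/t)/d2, (tm'+β)/d3, -((m'-β)/t)/d4]`, `θ = ![1/d1, 1/d2, 1/d3, 1/d4]`, and
`∑ h_i f_i = u t + v/t + c` with `u = h1 m/d1 + h3 m'/d3`, `v = -(h2 (m-β)/d2 + h4 (m'-β)/d4)`. Take `n = ⌊X^(η/4)⌋₊`, so `|h_i| ≤ n² ≤ X^(η/2)`,
`|h_i| d_j ≤ X^η`. `U = X^(1-6η)`: if `(h1, h3) ≠ 0`, then `|u| ≥ U`: if one of them is `0` or they have the same sign, `|u| ≥ κ1 X^(1-η/16)`;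
for opposite signs `|u| = ||h1| d3 m - |h3| d1 m'|/(d1 d3) ≥ X^(1-5η)/X^(η/8)` by `NE`; if `(h1,h3) = 0`, `u = 0`. Similarly for `v`, if
`(h2,h4) ≠ 0`: `|h2 m/d2 + h4 m'/d4| ≥ min(κ1 X^(1-η/16), X^(1-5η-η/8))` and the terms with `β` are `≤ 2|β| X^(η/2)`. So `osc` (with `B`) gives
`ω = C X^(-(1-6η)/2)`, and `equi_fejer` the error `C' ((b-a) 2 X^(-η/4) + X^(2η) C X^(-(1-6η)/2)) ≤ X^(-η/5)` for large `X`
(`2η + 3η - 1/2 ≤ -3/8` as `η ≤ 1/40`).
-/

namespace SMC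

open MeasureTheory Filter

private theorem Equi4_dvd {e : ℕ} (he : 1 ≤ e) (y : ℝ) :
    (e : ℤ) ∣ ⌊y⌋ ↔ Int.fract (y / e) < 1 / e := by
  have he' : (0 : ℝ) < e := by exact_mod_cast he
  have he1 : (1 : ℝ) ≤ e := by exact_mod_cast he
  constructor
  · rintro ⟨k, hk⟩
    have h1 : (⌊y⌋ : ℝ) = e * k := by rw [hk]; push_cast; ring
    have h2 := Int.floor_le y
    have h3 := Int.lt_floor_add_one y
    rw [h1] at h2 h3
    have h4 : Int.fract (y / e) = y / e - k := by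
      rw [Int.fract_eq_iff]
      refine ⟨?_, ?_, k, by ring⟩
      · rw [sub_nonneg, le_div_iff₀ he']
        linarith
      · rw [sub_lt_iff_lt_add, div_lt_iff₀ he']
        nlinarith
    rw [h4, sub_lt_iff_lt_add, div_lt_iff₀ he', add_mul, one_div_mul_cancel he'.ne']
    linarith
  · intro h
    refine ⟨⌊y / e⌋, ?_⟩
    rw [← Int.self_sub_floor, sub_lt_iff_lt_add, div_lt_iff₀ he', add_mul,
      one_div_mul_cancel he'.ne'] at h
    have h2 := Int.floor_le (y / e)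
    rw [le_div_iff₀ he'] at h2
    rw [Int.floor_eq_iff]
    push_cast
    constructor
    · linarith
    · linarith

private theorem Equi4_floor {e : ℕ} (he : 1 ≤ e) {y : ℝ} (hy : 0 ≤ y) :
    e ∣ ⌊y⌋₊ ↔ Int.fract (y / e) < 1 / e := by
  rw [← Equi4_dvd he y, ← Int.natCast_floor_eq_floor hy]
  exact Int.natCast_dvd_natCast.symm

private theorem Equi4_ceil {e : ℕ} (he : 1 ≤ e) {y : ℝ} (hy : 0 ≤ y) :
    e ∣ ⌈y⌉₊ ↔ Int.fract (-y / e) < 1 / e := by
  rw [← Equi4_dvd he (-y), Int.floor_neg, dvd_neg, ← Int.natCast_ceil_eq_ceil hy]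
  exact Int.natCast_dvd_natCast.symm

/-- the linear forms are large -/
private theorem Equi4_lin {X η κ1 : ℝ} (hη : 0 < η) (hX : 1 ≤ X)
    (h1 : 1 / κ1 ≤ X ^ (5 * η)) (h2 : 2 ≤ X ^ (7 * η / 8)) (hκ : 0 < κ1) {m m' : ℕ}
    (hm : κ1 * X ≤ (m : ℝ)) (hm' : κ1 * X ≤ (m' : ℝ)) (hNE : MCC.NE X η m m') {d e : ℕ} (hd : 1 ≤ d)
    (he : 1 ≤ e) (hdX : (d : ℝ) ≤ X ^ (η / 16)) (heX : (e : ℝ) ≤ X ^ (η / 16)) {p q : ℤ}
    (hp : |(p : ℝ)| ≤ X ^ (η / 2)) (hq : |(q : ℝ)| ≤ X ^ (η / 2)) (hpq : p ≠ 0 ∨ q ≠ 0) :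
    2 * X ^ (1 - 6 * η) ≤ |(p : ℝ) * m / d + q * m' / e| := by
  have hXp : 0 < X := by linarith
  have hd' : (1 : ℝ) ≤ d := by exact_mod_cast hd
  have he' : (1 : ℝ) ≤ e := by exact_mod_cast he
  have hκX : X ^ (1 - 5 * η) ≤ κ1 * X := by
    have h3 : X ^ (1 - 5 * η) * X ^ (5 * η) = X := by
      rw [← Real.rpow_add hXp]
      have : 1 - 5 * η + 5 * η = 1 := by ring
      rw [this, Real.rpow_one]
    have h4 : X ^ (1 - 5 * η) * (1 / κ1) ≤ X := by
      calc X ^ (1 - 5 * η) * (1 / κ1) ≤ X ^ (1 - 5 * η) * X ^ (5 * η) := by gcongr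
        _ = X := h3
    rw [mul_one_div, div_le_iff₀ hκ] at h4
    linarith
  have hmpos : (0 : ℝ) ≤ m := Nat.cast_nonneg m
  have hmpos' : (0 : ℝ) ≤ m' := Nat.cast_nonneg m'
  -- the numerator
  have hA : X ^ (1 - 5 * η) ≤ |(p : ℝ) * e * m + q * d * m'| := by
    refine le_trans ?_ (le_refl _)
    have key : ∀ x : ℤ, x ≠ 0 → (1 : ℝ) ≤ |(x : ℝ)| := by
      intro x hx
      have := Int.one_le_abs hx
      exact_mod_cast this
    have hbig : ∀ (x : ℤ) (k : ℕ) (l : ℝ), x ≠ 0 → 1 ≤ k → κ1 * X ≤ l →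
        X ^ (1 - 5 * η) ≤ |(x : ℝ)| * k * l := by
      intro x k l hx hk hl
      have h3 := key x hx
      have h4 : (1 : ℝ) ≤ k := by exact_mod_cast hk
      have h5 : 0 ≤ l := le_trans (by positivity) hl
      calc X ^ (1 - 5 * η) ≤ κ1 * X := hκX
        _ ≤ l := hl
        _ = 1 * 1 * l := by ring
        _ ≤ |(x : ℝ)| * k * l := by gcongr
    by_cases hp0 : p = 0
    · have hq0 : q ≠ 0 := by
        rcases hpq with h | h
        · exact absurd hp0 h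
        · exact h
      rw [hp0]
      have h3 : |((0 : ℤ) : ℝ) * e * m + q * d * m'| = |(q : ℝ)| * d * m' := by
        rw [Int.cast_zero, zero_mul, zero_mul, zero_add, abs_mul, abs_mul, abs_of_nonneg hmpos',
          abs_of_nonneg (by linarith : (0 : ℝ) ≤ d)]
      rw [h3]
      exact hbig q d m' hq0 hd hm'
    by_cases hq0 : q = 0
    · rw [hq0]
      have h3 : |(p : ℝ) * e * m + ((0 : ℤ) : ℝ) * d * m'| = |(p : ℝ)| * e * m := by
        rw [Int.cast_zero, zero_mul, zero_mul, add_zero, abs_mul, abs_mul, abs_of_nonneg hmpos,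
          abs_of_nonneg (by linarith : (0 : ℝ) ≤ e)]
      rw [h3]
      exact hbig p e m hp0 he hm
    have hP : (p.natAbs : ℝ) = |(p : ℝ)| := by
      rw [Nat.cast_natAbs, Int.cast_abs]
    have hQ : (q.natAbs : ℝ) = |(q : ℝ)| := by
      rw [Nat.cast_natAbs, Int.cast_abs]
    have hmul : ∀ k : ℕ, (k : ℝ) ≤ X ^ (η / 16) → ∀ x : ℝ, 0 ≤ x → x ≤ X ^ (η / 2) → x * k ≤ X ^ η := by
      intro k hk x hx0 hx
      calc x * k ≤ X ^ (η / 2) * X ^ (η / 16) := by gcongr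
        _ = X ^ (η / 2 + η / 16) := (Real.rpow_add hXp _ _).symm
        _ ≤ X ^ η := Real.rpow_le_rpow_of_exponent_le hX (by linarith)
    have hne := hNE (p.natAbs * e) (q.natAbs * d)
      (Nat.mul_pos (Int.natAbs_pos.2 hp0) he) (Nat.mul_pos (Int.natAbs_pos.2 hq0) hd)
      (by
        push_cast
        rw [hP]
        exact hmul e heX _ (abs_nonneg _) hp)
      (by
        push_cast
        rw [hQ]
        exact hmul d hdX _ (abs_nonneg _) hq)
    push_cast at hne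
    rw [hP, hQ] at hne
    rcases lt_or_gt_of_ne hp0 with hp1 | hp1 <;> rcases lt_or_gt_of_ne hq0 with hq1 | hq1
    · have hp2 : (p : ℝ) < 0 := by exact_mod_cast hp1
      have hq2 : (q : ℝ) < 0 := by exact_mod_cast hq1
      have h3 := hbig p e m hp0 he hm
      have h4 : 0 ≤ |(q : ℝ)| * d * m' := by positivity
      rw [abs_of_neg hp2] at h3
      rw [abs_of_neg hq2] at h4
      have h5 := neg_le_abs ((p : ℝ) * e * m + q * d * m')
      linarith
    · have hp2 : (p : ℝ) < 0 := by exact_mod_cast hp1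
      have hq2 : 0 < (q : ℝ) := by exact_mod_cast hq1
      rw [abs_of_neg hp2, abs_of_pos hq2] at hne
      have h5 : |-(p : ℝ) * e * m - q * d * m'| = |(p : ℝ) * e * m + q * d * m'| := by
        rw [← abs_neg]
        congr 1
        ring
      rw [← h5]
      exact hne
    · have hp2 : 0 < (p : ℝ) := by exact_mod_cast hp1
      have hq2 : (q : ℝ) < 0 := by exact_mod_cast hq1
      rw [abs_of_pos hp2, abs_of_neg hq2] at hne
      have h5 : |(p : ℝ) * e * m - -(q : ℝ) * d * m'| = |(p : ℝ) * e * m + q * d * m'| := by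
        congr 1
        ring
      rw [← h5]
      exact hne
    · have hp2 : 0 < (p : ℝ) := by exact_mod_cast hp1
      have hq2 : 0 < (q : ℝ) := by exact_mod_cast hq1
      have h3 := hbig p e m hp0 he hm
      have h4 : 0 ≤ |(q : ℝ)| * d * m' := by positivity
      rw [abs_of_pos hp2] at h3
      rw [abs_of_pos hq2] at h4
      have h5 := le_abs_self ((p : ℝ) * e * m + q * d * m')
      linarith
  have h3 : (p : ℝ) * m / d + q * m' / e = ((p : ℝ) * e * m + q * d * m') / (d * e) := by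
    have hd0 : (d : ℝ) ≠ 0 := by linarith
    have he0 : (e : ℝ) ≠ 0 := by linarith
    field_simp
  have hde : (0 : ℝ) < d * e := by positivity
  rw [h3, abs_div, abs_of_pos hde, le_div_iff₀ hde]
  refine le_trans ?_ hA
  have h4 : (d : ℝ) * e ≤ X ^ (η / 8) := by
    calc (d : ℝ) * e ≤ X ^ (η / 16) * X ^ (η / 16) := by gcongr
      _ = X ^ (η / 8) := by
        rw [← Real.rpow_add hXp]
        congr 1
        ring
  calc 2 * X ^ (1 - 6 * η) * (d * e) ≤ X ^ (7 * η / 8) * X ^ (1 - 6 * η) * X ^ (η / 8) := by gcongr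
    _ = X ^ (1 - 5 * η) := by
      rw [← Real.rpow_add hXp, ← Real.rpow_add hXp]
      congr 1
      ring

theorem equi4 {η : ℝ} (hη : 0 < η) (hη1 : η ≤ 1 / 40) {a b κ1 κ2 : ℝ} (β : ℝ) (ha : 0 < a) (hab : a < b)
    (hκ : 0 < κ1) :
    ∃ X0 : ℝ, ∀ X : ℝ, X0 ≤ X → ∀ m m' : ℕ, κ1 * X ≤ (m : ℝ) → (m : ℝ) ≤ κ2 * X →
      κ1 * X ≤ (m' : ℝ) → (m' : ℝ) ≤ κ2 * X → MCC.NE X η m m' → ∀ d1 d2 d3 d4 : ℕ, 1 ≤ d1 → 1 ≤ d2 → 1 ≤ d3 →
      1 ≤ d4 → (d1 : ℝ) ≤ X ^ (η / 16) → (d2 : ℝ) ≤ X ^ (η / 16) → (d3 : ℝ) ≤ X ^ (η / 16) →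
      (d4 : ℝ) ≤ X ^ (η / 16) →
      |(volume {t : ℝ | t ∈ Set.Icc a b ∧ d1 ∣ ⌊t * m + β⌋₊ ∧ d2 ∣ ⌈(m - β) / t⌉₊ ∧
          d3 ∣ ⌊t * m' + β⌋₊ ∧ d4 ∣ ⌈(m' - β) / t⌉₊}).toReal - (b - a) / ((d1 : ℝ) * d2 * d3 * d4)| ≤
        X ^ (-(η / 5)) := by
  obtain ⟨C1, hC1, hF⟩ := equi_fejer 4
  have hb : 0 < b := ha.trans hab
  obtain ⟨C2, hC2, hO⟩ := osc hb
  have hev : ∀ (c s : ℝ), 0 < s → ∀ᶠ X : ℝ in atTop, c ≤ X ^ s := fun c s hs =>
    (tendsto_rpow_atTop hs).eventually_ge_atTop c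
  have e1 : ∀ᶠ X : ℝ in atTop, 1 ≤ X := eventually_ge_atTop 1
  have e2 : ∀ᶠ X : ℝ in atTop, |β| / (a * κ1) ≤ X := eventually_ge_atTop _
  have e2' : ∀ᶠ X : ℝ in atTop, |β| / κ1 ≤ X := eventually_ge_atTop _
  have e3 := hev (1 / κ1) (5 * η) (by positivity)
  have e4 := hev 2 (7 * η / 8) (by positivity)
  have e5 := hev (2 * |β|) (1 - 6 * η - η / 2) (by linarith)
  have e6 := hev 2 (η / 4) (by positivity)
  have e7 := hev (4 * (C1 * (b - a))) (η / 20) (by positivity)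
  have e8 := hev (2 * (C1 * C2)) (1 / 2 - 5 * η - η / 5) (by linarith)
  obtain ⟨X0, hX0⟩ := eventually_atTop.1 (e1.and (e2.and (e2'.and (e3.and (e4.and (e5.and (e6.and
    (e7.and e8))))))))
  refine ⟨X0, fun X hX m m' hm1 hm2 hm1' hm2' hNE d1 d2 d3 d4 hd1 hd2 hd3 hd4 hD1 hD2 hD3 hD4 => ?_⟩
  obtain ⟨g1, g2, g2', g3, g4, g5, g6, g7, g8⟩ := hX0 X hX
  have hXp : 0 < X := by linarith
  have hκX : 0 < κ1 * X := by positivity
  have hβ : |β| ≤ a * (κ1 * X) := by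
    have h6 : |β| ≤ X * (a * κ1) := (div_le_iff₀ (by positivity)).1 g2
    linarith
  have hβ' : |β| ≤ κ1 * X := by
    have h6 : |β| ≤ X * κ1 := (div_le_iff₀ (by positivity)).1 g2'
    linarith
  have hpos : ∀ n : ℕ, κ1 * X ≤ (n : ℝ) → ∀ t, a ≤ t → 0 ≤ t * n + β := by
    intro n hn t ht
    have h6 : a * (κ1 * X) ≤ t * n := mul_le_mul ht hn hκX.le (by linarith)
    have h7 := neg_abs_le β
    linarith
  have hpos' : ∀ n : ℕ, κ1 * X ≤ (n : ℝ) → ∀ t, a ≤ t → 0 ≤ ((n : ℝ) - β) / t := by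
    intro n hn t ht
    have h7 := le_abs_self β
    exact div_nonneg (by linarith) (by linarith)
  -- the set
  obtain ⟨f, hf⟩ : ∃ f : Fin 4 → ℝ → ℝ, f = ![fun t => (t * m + β) / d1, fun t => -(((m : ℝ) - β) / t) / d2,
    fun t => (t * m' + β) / d3, fun t => -(((m' : ℝ) - β) / t) / d4] := ⟨_, rfl⟩
  obtain ⟨θ, hθ⟩ : ∃ θ : Fin 4 → ℝ, θ = ![1 / (d1 : ℝ), 1 / (d2 : ℝ), 1 / (d3 : ℝ), 1 / (d4 : ℝ)] :=
    ⟨_, rfl⟩
  have f0 : f 0 = fun t => (t * m + β) / d1 := by rw [hf]; rfl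
  have f1 : f 1 = fun t => -(((m : ℝ) - β) / t) / d2 := by rw [hf]; rfl
  have f2 : f 2 = fun t => (t * m' + β) / d3 := by rw [hf]; rfl
  have f3 : f 3 = fun t => -(((m' : ℝ) - β) / t) / d4 := by rw [hf]; rfl
  have t0 : θ 0 = 1 / (d1 : ℝ) := by rw [hθ]; rfl
  have t1 : θ 1 = 1 / (d2 : ℝ) := by rw [hθ]; rfl
  have t2 : θ 2 = 1 / (d3 : ℝ) := by rw [hθ]; rfl
  have t3 : θ 3 = 1 / (d4 : ℝ) := by rw [hθ]; rfl
  have hset : {t : ℝ | t ∈ Set.Icc a b ∧ d1 ∣ ⌊t * m + β⌋₊ ∧ d2 ∣ ⌈(m - β) / t⌉₊ ∧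
      d3 ∣ ⌊t * m' + β⌋₊ ∧ d4 ∣ ⌈(m' - β) / t⌉₊} =
      {t : ℝ | t ∈ Set.Icc a b ∧ ∀ i, Int.fract (f i t) < θ i} := by
    ext t
    simp only [Set.mem_ofPred_eq]
    refine and_congr_right fun ht => ?_
    rw [Equi4_floor hd1 (hpos m hm1 t ht.1), Equi4_ceil hd2 (hpos' m hm1 t ht.1),
      Equi4_floor hd3 (hpos m' hm1' t ht.1), Equi4_ceil hd4 (hpos' m' hm1' t ht.1)]
    constructor
    · rintro ⟨h1, h2, h3, h4⟩ i
      fin_cases i
      · show Int.fract (f 0 t) < θ 0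
        rw [f0, t0]
        exact h1
      · show Int.fract (f 1 t) < θ 1
        rw [f1, t1]
        exact h2
      · show Int.fract (f 2 t) < θ 2
        rw [f2, t2]
        exact h3
      · show Int.fract (f 3 t) < θ 3
        rw [f3, t3]
        exact h4
    · intro h
      refine ⟨?_, ?_, ?_, ?_⟩
      · have := h 0
        rw [f0, t0] at this
        exact this
      · have := h 1
        rw [f1, t1] at this
        exact this
      · have := h 2
        rw [f2, t2] at this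
        exact this
      · have := h 3
        rw [f3, t3] at this
        exact this
  have hd1' : (1 : ℝ) ≤ d1 := by exact_mod_cast hd1
  have hd2' : (1 : ℝ) ≤ d2 := by exact_mod_cast hd2
  have hd3' : (1 : ℝ) ≤ d3 := by exact_mod_cast hd3
  have hd4' : (1 : ℝ) ≤ d4 := by exact_mod_cast hd4
  obtain ⟨n, hn⟩ : ∃ n : ℕ, n = ⌊X ^ (η / 4)⌋₊ := ⟨_, rfl⟩
  have hY1 : (1 : ℝ) ≤ X ^ (η / 4) := by linarith
  have hn0 : 1 ≤ n := by
    rw [hn]
    exact Nat.floor_pos.2 hY1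
  have hn1 : (n : ℝ) ≤ X ^ (η / 4) := by
    rw [hn]
    exact Nat.floor_le (by positivity)
  have hn2 : X ^ (η / 4) / 2 ≤ n := by
    have h1 : X ^ (η / 4) < n + 1 := by
      rw [hn]
      exact Nat.lt_floor_add_one _
    linarith
  have hnr : (0 : ℝ) < n := by exact_mod_cast hn0
  have hnsq : (n : ℝ) ^ 2 ≤ X ^ (η / 2) := by
    calc (n : ℝ) ^ 2 ≤ (X ^ (η / 4)) ^ 2 := by gcongr
      _ = X ^ (η / 2) := by
        rw [← Real.rpow_natCast, ← Real.rpow_mul hXp.le]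
        congr 1
        push_cast
        ring
  have hU1 : (1 : ℝ) ≤ X ^ (1 - 6 * η) := Real.one_le_rpow g1 (by linarith)
  have hU0 : (0 : ℝ) < X ^ (1 - 6 * η) := by positivity
  have hmain := hF n a b (C2 / Real.sqrt (X ^ (1 - 6 * η))) f θ hn0 hab.le (by positivity)
    (by
      intro i
      fin_cases i
      · show Measurable (f 0)
        rw [f0]
        fun_prop
      · show Measurable (f 1)
        rw [f1]
        fun_prop
      · show Measurable (f 2)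
        rw [f2]
        fun_prop
      · show Measurable (f 3)
        rw [f3]
        fun_prop)
    (by
      intro i
      fin_cases i
      · show 0 ≤ θ 0
        rw [t0]
        positivity
      · show 0 ≤ θ 1
        rw [t1]
        positivity
      · show 0 ≤ θ 2
        rw [t2]
        positivity
      · show 0 ≤ θ 3
        rw [t3]
        positivity)
    (by
      have hle : ∀ x : ℝ, 1 ≤ x → 1 / x ≤ 1 := fun x hx =>
        (div_le_one (by linarith)).2 hx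
      intro i
      fin_cases i
      · show θ 0 ≤ 1
        rw [t0]
        exact hle _ hd1'
      · show θ 1 ≤ 1
        rw [t1]
        exact hle _ hd2'
      · show θ 2 ≤ 1
        rw [t2]
        exact hle _ hd3'
      · show θ 3 ≤ 1
        rw [t3]
        exact hle _ hd4')
    (by
      intro h hh0 hhn
      have hh : ∀ i, |(h i : ℝ)| ≤ X ^ (η / 2) := fun i => (hhn i).trans hnsq
      obtain ⟨u, hu⟩ : ∃ u : ℝ, u = (h 0 : ℝ) * m / d1 + h 2 * m' / d3 := ⟨_, rfl⟩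
      obtain ⟨v, hv⟩ : ∃ v : ℝ, v = -((h 1 : ℝ) * m / d2 + h 3 * m' / d4) +
        (h 1 * β / d2 + h 3 * β / d4) := ⟨_, rfl⟩
      obtain ⟨c, hc⟩ : ∃ c : ℝ, c = (h 0 : ℝ) * β / d1 + h 2 * β / d3 := ⟨_, rfl⟩
      have hsum : ∀ t : ℝ, ∑ i, (h i : ℝ) * f i t = u * t + v / t + c := by
        intro t
        rw [Fin.sum_univ_four, f0, f1, f2, f3, hu, hv, hc]
        ring
      have hu1 : (h 0 ≠ 0 ∨ h 2 ≠ 0) → X ^ (1 - 6 * η) ≤ |u| := by
        intro h1
        have h2 := Equi4_lin hη g1 g3 g4 hκ hm1 hm1' hNE hd1 hd3 hD1 hD3 (hh 0) (hh 2) h1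
        rw [hu]
        linarith
      have hv1 : (h 1 ≠ 0 ∨ h 3 ≠ 0) → X ^ (1 - 6 * η) ≤ |v| := by
        intro h1
        have h2 := Equi4_lin hη g1 g3 g4 hκ hm1 hm1' hNE hd2 hd4 hD2 hD4 (hh 1) (hh 3) h1
        have h3 : |(h 1 : ℝ) * β / d2 + h 3 * β / d4| ≤ X ^ (1 - 6 * η) := by
          have h4 : ∀ (x : ℝ) (k : ℕ), |x| ≤ X ^ (η / 2) → 1 ≤ k → |x * β / k| ≤ X ^ (η / 2) * |β| := by
            intro x k hx hk
            have hk' : (1 : ℝ) ≤ k := by exact_mod_cast hk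
            rw [abs_div, abs_mul, abs_of_nonneg (by linarith : (0 : ℝ) ≤ k)]
            calc |x| * |β| / k ≤ |x| * |β| := div_le_self (by positivity) hk'
              _ ≤ X ^ (η / 2) * |β| := by gcongr
          calc |(h 1 : ℝ) * β / d2 + h 3 * β / d4| ≤ |(h 1 : ℝ) * β / d2| + |(h 3 : ℝ) * β / d4| :=
                abs_add_le _ _
            _ ≤ X ^ (η / 2) * |β| + X ^ (η / 2) * |β| :=
                add_le_add (h4 _ _ (hh 1) hd2) (h4 _ _ (hh 3) hd4)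
            _ = X ^ (η / 2) * (2 * |β|) := by ring
            _ ≤ X ^ (η / 2) * X ^ (1 - 6 * η - η / 2) := by gcongr
            _ = X ^ (1 - 6 * η) := by
                rw [← Real.rpow_add hXp]
                congr 1
                ring
        have h5 : |(h 1 : ℝ) * m / d2 + h 3 * m' / d4| ≤ |v| + |(h 1 : ℝ) * β / d2 + h 3 * β / d4| := by
          have h6 : (h 1 : ℝ) * m / d2 + h 3 * m' / d4 = -v + (h 1 * β / d2 + h 3 * β / d4) := by
            rw [hv]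
            ring
          rw [h6]
          refine (abs_add_le _ _).trans ?_
          rw [abs_neg]
        linarith
      have hor : (h 0 ≠ 0 ∨ h 2 ≠ 0) ∨ (h 1 ≠ 0 ∨ h 3 ≠ 0) := by
        by_contra hno
        push Not at hno
        obtain ⟨⟨q0, q2⟩, q1, q3⟩ := hno
        apply hh0
        funext i
        fin_cases i
        · exact q0
        · exact q1
        · exact q2
        · exact q3
      have hfin := hO a b u v c (X ^ (1 - 6 * η)) ha hab.le le_rfl hU1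
        (by
          by_cases h1 : h 0 ≠ 0 ∨ h 2 ≠ 0
          · exact Or.inr (hu1 h1)
          · push Not at h1
            left
            rw [hu, h1.1, h1.2]
            simp)
        (by
          by_cases h1 : h 1 ≠ 0 ∨ h 3 ≠ 0
          · exact Or.inr (hv1 h1)
          · push Not at h1
            left
            rw [hv, h1.1, h1.2]
            simp)
        (by
          rcases hor with h1 | h1
          · left
            intro h2
            have h3 := hu1 h1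
            rw [h2, abs_zero] at h3
            linarith
          · right
            intro h2
            have h3 := hv1 h1
            rw [h2, abs_zero] at h3
            linarith)
      refine le_trans (le_of_eq ?_) hfin
      congr 1
      refine intervalIntegral.integral_congr fun t _ => ?_
      rw [hsum t])
  rw [hset]
  have hprod : (b - a) * ∏ i, θ i = (b - a) / ((d1 : ℝ) * d2 * d3 * d4) := by
    rw [Fin.prod_univ_four, t0, t1, t2, t3]
    field_simp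
  rw [hprod] at hmain
  refine hmain.trans ?_
  have hX5 : 0 < X ^ (-(η / 5)) := by positivity
  have h1 : C1 * ((b - a) / n) ≤ X ^ (-(η / 5)) / 2 := by
    have h3 : (b - a) / n ≤ (b - a) / (X ^ (η / 4) / 2) := by
      have : 0 ≤ b - a := by linarith
      gcongr
    have h4 : X ^ (η / 20) * X ^ (-(η / 4)) = X ^ (-(η / 5)) := by
      rw [← Real.rpow_add hXp]
      congr 1
      ring
    have h5 : (b - a) / (X ^ (η / 4) / 2) = 2 * (b - a) * X ^ (-(η / 4)) := by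
      rw [Real.rpow_neg hXp.le]
      field_simp
    calc C1 * ((b - a) / n) ≤ C1 * (2 * (b - a) * X ^ (-(η / 4))) := by
          rw [← h5]
          gcongr
      _ = 4 * (C1 * (b - a)) * X ^ (-(η / 4)) / 2 := by ring
      _ ≤ X ^ (η / 20) * X ^ (-(η / 4)) / 2 := by gcongr
      _ = X ^ (-(η / 5)) / 2 := by rw [h4]
  have h2 : C1 * ((n : ℝ) ^ (2 * 4) * (C2 / Real.sqrt (X ^ (1 - 6 * η)))) ≤ X ^ (-(η / 5)) / 2 := by
    have h3 : Real.sqrt (X ^ (1 - 6 * η)) = X ^ (1 / 2 - 3 * η) := by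
      rw [Real.sqrt_eq_rpow, ← Real.rpow_mul hXp.le]
      congr 1
      ring
    have h4 : (n : ℝ) ^ (2 * 4) ≤ X ^ (2 * η) := by
      calc (n : ℝ) ^ (2 * 4) ≤ (X ^ (η / 4)) ^ (2 * 4) := by gcongr
        _ = X ^ (2 * η) := by
          rw [← Real.rpow_natCast, ← Real.rpow_mul hXp.le]
          congr 1
          push_cast
          ring
    rw [h3]
    have h5 : C2 / X ^ (1 / 2 - 3 * η) = C2 * X ^ (-(1 / 2 - 3 * η)) := by
      rw [Real.rpow_neg hXp.le]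
      rfl
    rw [h5]
    have h6 : X ^ (1 / 2 - 5 * η - η / 5) * (X ^ (2 * η) * X ^ (-(1 / 2 - 3 * η))) = X ^ (-(η / 5)) := by
      rw [← Real.rpow_add hXp, ← Real.rpow_add hXp]
      congr 1
      ring
    calc C1 * ((n : ℝ) ^ (2 * 4) * (C2 * X ^ (-(1 / 2 - 3 * η))))
        ≤ C1 * (X ^ (2 * η) * (C2 * X ^ (-(1 / 2 - 3 * η)))) := by gcongr
      _ = 2 * (C1 * C2) * (X ^ (2 * η) * X ^ (-(1 / 2 - 3 * η))) / 2 := by ring
      _ ≤ X ^ (1 / 2 - 5 * η - η / 5) * (X ^ (2 * η) * X ^ (-(1 / 2 - 3 * η))) / 2 := by gcongr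
      _ = X ^ (-(η / 5)) / 2 := by rw [h6]
  rw [mul_add]
  linarith

end SMC
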