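import Pool.Agent.SMC.MainP

/-!
# SMC.Fin: the theorem

PROOF. `Rob_starts`: from `Ch`: `T α β' p = m`, `T α β' m = l`, `T α β' l = s` (floors: `m ≤ αp + β' < m + 1` because `|β' - β| < ε`), `s` even
and `≥ 4`. Lebesgue: for fixed `A < B`, `ε`, `β` let `E n = {t : ∃ p m l, n ≤ p ∧ Rob ε β t p m l}` (measurable, decreasing in `n`), `S = ⋂ E n`. For
`μ ∈ [A, B]` and small `ρ`: `volume (E n ∩ closedBall μ ρ) ≥ c ρ` for all `n`, so `volume (S ∩ closedBall μ ρ) ≥ c ρ = (c/2) volume (closedBall μ ρ)`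
(continuity from above). By `Besicovitch.ae_tendsto_measure_inter_div_of_measurableSet` (see `Pool/Agent/MCC/Dens.lean`) almost every
`t ∈ [A, B]` is in `S`. Take all `A = 1 + 1/(k+1)`, `B = k + 3`, `ε = min (1/4) ((A-1)/(8(A+1)))`, `β ∈ (ε/2) ℤ`: almost every `α > 1` is in all of these
`S` with `α ∈ [A,B]`. For `α > 1` choose `k`, and for real `β'` choose `β` with `|β' - β| < ε`. Infinitely many `p` (arbitrarily large ones) start
chains of exact length `3`; for `k = 2` take the `m = T p ≥ p`, for `k = 1` the `l = T m ≥ m` (for large `p`: `m > αp + β' - 1 ≥ p/2`, say; the sets of the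
`m`, `l` are unbounded).
-/

namespace SMC

open MeasureTheory Filter

/-- One step of the map, with a margin. -/
private theorem T_eq {ε β β' α : ℝ} {q m : ℕ} (hβ : |β' - β| < ε) (h1 : (m : ℝ) + ε ≤ α * q + β)
    (h2 : α * q + β ≤ m + 1 - ε) : T α β' q = m ∧ α * q + β' < m + 1 := by
  have h3 := abs_lt.1 hβ
  have h4 : (m : ℝ) ≤ α * q + β' := by linarith [h3.1]
  have h5 : α * q + β' < m + 1 := by linarith [h3.2]
  have h0 : (0 : ℝ) ≤ α * q + β' := le_trans (Nat.cast_nonneg m) h4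
  exact ⟨(Nat.floor_eq_iff h0).2 ⟨h4, h5⟩, h5⟩

private theorem rob_meas (ε β : ℝ) (p m l : ℕ) : MeasurableSet {t : ℝ | Rob ε β t p m l} := by
  have e : {t : ℝ | Rob ε β t p m l} = {t : ℝ | p.Prime} ∩ ({t : ℝ | m.Prime} ∩ ({t : ℝ | l.Prime} ∩
      ({t : ℝ | (m : ℝ) + ε ≤ t * p + β} ∩ ({t : ℝ | t * p + β ≤ m + 1 - ε} ∩
      ({t : ℝ | (l : ℝ) + ε ≤ t * m + β} ∩ ({t : ℝ | t * m + β ≤ l + 1 - ε} ∩
      ⋃ s : ℕ, ({t : ℝ | Even s} ∩ ({t : ℝ | 4 ≤ s} ∩ ({t : ℝ | (s : ℝ) + ε ≤ t * l + β} ∩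
        {t : ℝ | t * l + β ≤ s + 1 - ε})))))))))  := by
    ext t
    simp only [Set.mem_ofPred_eq, Rob, Ch, Set.mem_inter_iff, Set.mem_iUnion]
  rw [e]
  have m1 : ∀ (a b c : ℝ), MeasurableSet {t : ℝ | c ≤ t * a + b} := fun a b c =>
    measurableSet_le measurable_const (by fun_prop)
  have m2 : ∀ (a b c : ℝ), MeasurableSet {t : ℝ | t * a + b ≤ c} := fun a b c =>
    measurableSet_le (by fun_prop) measurable_const
  refine (MeasurableSet.const _).inter ((MeasurableSet.const _).inter ((MeasurableSet.const _).inter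
    ((m1 _ _ _).inter ((m2 _ _ _).inter ((m1 _ _ _).inter ((m2 _ _ _).inter
      (MeasurableSet.iUnion fun s => ?_)))))))
  exact (MeasurableSet.const _).inter ((MeasurableSet.const _).inter ((m1 _ _ _).inter (m2 _ _ _)))

private theorem ae_one {A B ε : ℝ} (hA : 1 < A) (hAB : A < B) (hε : 0 < ε) (hε1 : ε ≤ 1 / 4)
    (hε2 : ε ≤ (A - 1) / (8 * (A + 1))) (β : ℝ) :
    ∀ᵐ α : ℝ, A ≤ α → α ≤ B → ∀ n : ℕ, ∃ p m l : ℕ, n ≤ p ∧ Rob ε β α p m l := by
  obtain ⟨c, hc, hmain⟩ := main_pos hA hAB hε hε1 hε2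
  obtain ⟨ρ0, hρ0, hpos⟩ := hmain β
  let E : ℕ → Set ℝ := fun n => {t : ℝ | ∃ p m l : ℕ, n ≤ p ∧ Rob ε β t p m l}
  have hE : ∀ n, MeasurableSet (E n) := by
    intro n
    have e : E n = ⋃ p : ℕ, ⋃ m : ℕ, ⋃ l : ℕ, ({t : ℝ | n ≤ p} ∩ {t : ℝ | Rob ε β t p m l}) := by
      ext t
      simp only [E, Set.mem_ofPred_eq, Set.mem_iUnion, Set.mem_inter_iff]
    rw [e]
    exact MeasurableSet.iUnion fun p => MeasurableSet.iUnion fun m => MeasurableSet.iUnion fun l =>
      (MeasurableSet.const _).inter (rob_meas ε β p m l)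
  have hanti : Antitone E := by
    intro n n' hnn t ht
    obtain ⟨p, m, l, h1, h2⟩ := ht
    exact ⟨p, m, l, hnn.trans h1, h2⟩
  have hS : MeasurableSet (⋂ n, E n) := MeasurableSet.iInter hE
  have hball : ∀ μ ρ : ℝ, A ≤ μ → μ ≤ B → 0 < ρ → ρ ≤ ρ0 →
      ENNReal.ofReal (c * ρ) ≤ volume ((⋂ n, E n) ∩ Metric.closedBall μ ρ) := by
    intro μ ρ h1 h2 h3 h4
    have e1 : (⋂ n, E n) ∩ Metric.closedBall μ ρ = ⋂ n, (E n ∩ Metric.closedBall μ ρ) := by
      rw [Set.iInter_inter]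
    have e2 : volume (⋂ n, (E n ∩ Metric.closedBall μ ρ)) =
        ⨅ n, volume (E n ∩ Metric.closedBall μ ρ) := by
      refine Antitone.measure_iInter ?_ ?_ ?_
      · intro n n' hnn
        exact Set.inter_subset_inter_left _ (hanti hnn)
      · intro n
        exact ((hE n).inter measurableSet_closedBall).nullMeasurableSet
      · refine ⟨0, ((measure_mono Set.inter_subset_right).trans_lt ?_).ne⟩
        exact measure_closedBall_lt_top
    rw [e1, e2]
    refine le_iInf fun n => (hpos μ ρ h1 h2 h3 h4 n).trans (measure_mono ?_)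
    rintro t ⟨h5, h6⟩
    refine ⟨h6, ?_⟩
    rw [Metric.mem_closedBall, Real.dist_eq]
    exact h5
  filter_upwards [Besicovitch.ae_tendsto_measure_inter_div_of_measurableSet
    (volume : Measure ℝ) hS] with x hx hxA hxB
  by_contra hcon
  have hxS : x ∉ ⋂ n, E n := by
    intro hmem
    apply hcon
    intro n
    exact Set.mem_iInter.1 hmem n
  rw [Set.indicator_of_notMem hxS] at hx
  have hev : ∀ᶠ r : ℝ in nhdsWithin 0 (Set.Ioi 0), ENNReal.ofReal (c / 2) ≤
      volume ((⋂ n, E n) ∩ Metric.closedBall x r) / volume (Metric.closedBall x r) := by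
    have h1 : ∀ᶠ r : ℝ in nhdsWithin 0 (Set.Ioi 0), r < ρ0 := nhdsWithin_le_nhds (Iio_mem_nhds hρ0)
    filter_upwards [h1, self_mem_nhdsWithin] with r hr hr0
    have hr0' : 0 < r := hr0
    have hh := hball x r hxA hxB hr0' hr.le
    rw [Real.volume_closedBall]
    rw [ENNReal.le_div_iff_mul_le]
    · rw [← ENNReal.ofReal_mul (by positivity)]
      have e : c / 2 * (2 * r) = c * r := by ring
      rw [e]
      exact hh
    · left
      exact (ENNReal.ofReal_pos.2 (by linarith)).ne'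
    · left
      exact ENNReal.ofReal_ne_top
  have hle : ENNReal.ofReal (c / 2) ≤ 0 := ge_of_tendsto hx hev
  exact absurd hle (not_le.2 (ENNReal.ofReal_pos.2 (by linarith)))

private theorem starts {ε β β' α : ℝ} (hα : 1 < α) (hβ : |β' - β| < ε)
    (h : ∀ n : ℕ, ∃ p m l : ℕ, n ≤ p ∧ Rob ε β α p m l) {k : ℕ} (hk1 : 1 ≤ k) (hk3 : k ≤ 3) :
    {p : ℕ | StartsExact α β' p k}.Infinite := by
  refine Set.infinite_of_forall_exists_gt fun N => ?_
  obtain ⟨K, hK⟩ := exists_nat_gt |β'|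
  obtain ⟨p, m, l, hp, hpp, hmp, hlp, hc⟩ := h (N + 2 * (K + 1) + 1)
  obtain ⟨h1, h2, h3, h4, s, hs, hs4, h5, h6⟩ := hc
  obtain ⟨t1, u1⟩ := T_eq hβ h1 h2
  obtain ⟨t2, u2⟩ := T_eq hβ h3 h4
  obtain ⟨t3, -⟩ := T_eq hβ h5 h6
  have hb := abs_lt.1 hK
  have hpr : ((N + 2 * (K + 1) + 1 : ℕ) : ℝ) ≤ p := by exact_mod_cast hp
  push_cast at hpr
  have hp0 : (0 : ℝ) ≤ p := Nat.cast_nonneg p
  have hm0 : (0 : ℝ) ≤ m := Nat.cast_nonneg m
  have hmr : ((N + (K + 1) + 1 : ℕ) : ℝ) ≤ m := by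
    push_cast
    nlinarith [hb.1]
  have hlr : (N : ℝ) < l := by
    push_cast at hmr
    nlinarith [hb.1]
  have hsn : ¬ s.Prime := by
    intro hsp
    have := (hsp.even_iff).1 hs
    omega
  have hNm : N < m := by
    have : ((N + (K + 1) + 1 : ℕ) : ℝ) ≤ (m : ℝ) := hmr
    have := Nat.cast_le.1 this
    omega
  have hNl : N < l := by exact_mod_cast hlr
  have hk : k = 1 ∨ k = 2 ∨ k = 3 := by omega
  rcases hk with rfl | rfl | rfl
  · refine ⟨l, ⟨?_, ?_, ?_⟩, hNl⟩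
    · intro i hi
      have : i = 0 := by omega
      subst this
      exact hlp
    · rw [Function.iterate_one, t3]; omega
    · rw [Function.iterate_one, t3]; exact hsn
  · have e2 : (T α β')^[2] m = s := by
      rw [Function.iterate_succ_apply, Function.iterate_one, t2, t3]
    refine ⟨m, ⟨?_, ?_, ?_⟩, hNm⟩
    · intro i hi
      have : i = 0 ∨ i = 1 := by omega
      rcases this with rfl | rfl
      · exact hmp
      · rw [Function.iterate_one, t2]; exact hlp
    · rw [e2]; omega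
    · rw [e2]; exact hsn
  · have e3 : (T α β')^[3] p = s := by
      rw [Function.iterate_succ_apply, Function.iterate_succ_apply, Function.iterate_one, t1, t2, t3]
    refine ⟨p, ⟨?_, ?_, ?_⟩, by omega⟩
    · intro i hi
      have : i = 0 ∨ i = 1 ∨ i = 2 := by omega
      rcases this with rfl | rfl | rfl
      · exact hpp
      · rw [Function.iterate_one, t1]; exact hmp
      · rw [Function.iterate_succ_apply, Function.iterate_one, t1, t2]; exact hlp
    · rw [e3]; omega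
    · rw [e3]; exact hsn

theorem final : ∀ᵐ α : ℝ, 1 < α → ∀ β : ℝ, ∀ k : ℕ, 1 ≤ k → k ≤ 3 →
    {p : ℕ | StartsExact α β p k}.Infinite := by
  let A : ℕ → ℝ := fun k => 1 + 1 / ((k : ℝ) + 1)
  let B : ℕ → ℝ := fun k => (k : ℝ) + 3
  let e : ℕ → ℝ := fun k => min (1 / 4) ((A k - 1) / (8 * (A k + 1)))
  have hA : ∀ k, 1 < A k := fun k => by
    have : (0 : ℝ) < 1 / ((k : ℝ) + 1) := by positivity
    simp only [A]; linarith
  have hAB : ∀ k, A k < B k := fun k => by
    have h1 : (1 : ℝ) / ((k : ℝ) + 1) ≤ 1 := by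
      rw [div_le_one (by positivity)]
      have : (0 : ℝ) ≤ k := Nat.cast_nonneg k
      linarith
    have : (0 : ℝ) ≤ k := Nat.cast_nonneg k
    simp only [A, B]; linarith
  have he : ∀ k, 0 < e k := fun k => by
    have h1 := hA k
    refine lt_min (by norm_num) (div_pos (by linarith) (by linarith))
  have key : ∀ᵐ α : ℝ, ∀ (k : ℕ) (j : ℤ), A k ≤ α → α ≤ B k →
      ∀ n : ℕ, ∃ p m l : ℕ, n ≤ p ∧ Rob (e k) (e k / 2 * j) α p m l := by
    rw [ae_all_iff]
    intro k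
    rw [ae_all_iff]
    intro j
    exact ae_one (hA k) (hAB k) (he k) (min_le_left _ _) (min_le_right _ _) _
  filter_upwards [key] with α hα h1 β' r hr1 hr3
  obtain ⟨k1, hk1⟩ := exists_nat_gt (1 / (α - 1))
  obtain ⟨k2, hk2⟩ := exists_nat_gt α
  let k := max k1 k2
  have hk1' : (k1 : ℝ) ≤ k := by exact_mod_cast le_max_left k1 k2
  have hk2' : (k2 : ℝ) ≤ k := by exact_mod_cast le_max_right k1 k2
  have hAk : A k ≤ α := by
    have h2 : 0 < α - 1 := by linarith
    have h3 : 1 / (α - 1) < (k : ℝ) + 1 := by linarith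
    have h4 : 1 / ((k : ℝ) + 1) < α - 1 := by
      rw [div_lt_comm₀ (by positivity) h2]
      exact h3
    simp only [A]; linarith
  have hBk : α ≤ B k := by simp only [B]; linarith
  have hek := he k
  let j : ℤ := round (β' / (e k / 2))
  have hj : |β' - e k / 2 * j| < e k := by
    have h2 := abs_sub_round (β' / (e k / 2))
    have h3 : β' - e k / 2 * j = (e k / 2) * (β' / (e k / 2) - j) := by
      field_simp
    rw [h3, abs_mul, abs_of_pos (by linarith : (0 : ℝ) < e k / 2)]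
    have h4 : (e k / 2) * |β' / (e k / 2) - j| ≤ (e k / 2) * (1 / 2) :=
      mul_le_mul_of_nonneg_left h2 (by linarith)
    linarith
  exact starts h1 hj (hα k j hAk hBk) hr1 hr3

end SMC
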