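import Pool.Agent.SMC.Defs
import Pool.Agent.ASI.MeanV
import Pool.Agent.ASI.Div

/-!
# SMC.GMean: trivial bound, continuity and mean square of `gp`

PROOF. `0 ≤ Λ(n) ≤ log n ≤ d(n)² (1 + log n)²`, and for `0 < σ ≤ 1`: `exp(-x²/(2σ²)) ≤ exp(-x²/2) ≤ exp(-x²/16)`, so
`ASI.div_gauss` (with `y = w`) gives the summability and the bound of `gp_sum`; the norm of `(n:ℂ)^(-(1+iτ))` is `1/n` for
`n ≥ 1` and `Λ 0 = 0`. `gp_cont`: `continuous_tsum` with the same majorant. `gp_ms`: `ASI.mean_value` with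
`b n = Λ(n)/n exp(-(log n-w)²/(2σ²))` (`n^(-(1+iτ)) = n^(-1) n^(-iτ)`):
`∑ (T+n) |b n|² = T ∑ Λ²/n² exp(-x²/σ²) + ∑ Λ²/n exp(-x²/σ²)`, `exp(-x²/σ²) ≤ exp(-x²/2) ≤ exp(-x²/16)`, so the first
sum is at most `C (1+w)^6 e^(-w)`, the second one at most `C (1+w)^6` (both from `ASI.div_gauss`).
-/

namespace SMC

open MeasureTheory ArithmeticFunction

theorem tw_nonneg (n : ℕ) : 0 ≤ tw n := div_nonneg vonMangoldt_nonneg (Nat.cast_nonneg n)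

theorem vm_le (n : ℕ) : vonMangoldt n ≤ (n.divisors.card : ℝ) ^ 2 * (1 + Real.log n) ^ 2 := by
  rcases Nat.eq_zero_or_pos n with h | h
  · subst h
    simp
  · have h1 : vonMangoldt n ≤ Real.log n := vonMangoldt_le_log
    have h2 : 0 ≤ Real.log n := Real.log_natCast_nonneg n
    have h3 : (1 : ℝ) ≤ (n.divisors.card : ℝ) := by
      have : 0 < n.divisors.card := Finset.card_pos.mpr ⟨1, Nat.one_mem_divisors.mpr h.ne'⟩
      exact_mod_cast this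
    have h4 : (1 : ℝ) ≤ (n.divisors.card : ℝ) ^ 2 := one_le_pow₀ h3
    nlinarith [mul_le_mul_of_nonneg_right h4 (sq_nonneg (1 + Real.log n))]

theorem vm_sq_le (n : ℕ) :
    vonMangoldt n ^ 2 ≤ (n.divisors.card : ℝ) ^ 2 * (1 + Real.log n) ^ 2 := by
  rcases Nat.eq_zero_or_pos n with h | h
  · subst h
    simp
  · have h0 : 0 ≤ vonMangoldt n := vonMangoldt_nonneg
    have h1 : vonMangoldt n ≤ Real.log n := vonMangoldt_le_log
    have h2 : 0 ≤ Real.log n := Real.log_natCast_nonneg n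
    have h3 : (1 : ℝ) ≤ (n.divisors.card : ℝ) := by
      have : 0 < n.divisors.card := Finset.card_pos.mpr ⟨1, Nat.one_mem_divisors.mpr h.ne'⟩
      exact_mod_cast this
    have h4 : (1 : ℝ) ≤ (n.divisors.card : ℝ) ^ 2 := one_le_pow₀ h3
    have h5 : vonMangoldt n ^ 2 ≤ (1 + Real.log n) ^ 2 :=
      pow_le_pow_left₀ h0 (by linarith) 2
    nlinarith [mul_le_mul_of_nonneg_right h4 (sq_nonneg (1 + Real.log n))]

theorem exp_le16 {σ : ℝ} (hσ : 0 < σ) (hσ1 : σ ≤ 1) (x : ℝ) :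
    Real.exp (-x ^ 2 / (2 * σ ^ 2)) ≤ Real.exp (-x ^ 2 / 16) := by
  apply Real.exp_le_exp.mpr
  have h1 : σ ^ 2 ≤ 1 := pow_le_one₀ hσ.le hσ1
  have h2 : 0 < σ ^ 2 := by positivity
  rw [neg_div, neg_div]
  apply neg_le_neg
  apply div_le_div_of_nonneg_left (sq_nonneg x) (by positivity)
  linarith

theorem exp_sq_le {σ : ℝ} (hσ : 0 < σ) (hσ1 : σ ≤ 1) (x : ℝ) :
    Real.exp (-x ^ 2 / (2 * σ ^ 2)) ^ 2 ≤ Real.exp (-x ^ 2 / 2) := by
  rw [← Real.exp_nat_mul]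
  apply Real.exp_le_exp.mpr
  have h1 : σ ^ 2 ≤ 1 := pow_le_one₀ hσ.le hσ1
  have h2 : 0 < σ ^ 2 := by positivity
  have h3 : ((2 : ℕ) : ℝ) * (-x ^ 2 / (2 * σ ^ 2)) = -(x ^ 2 / σ ^ 2) := by
    push_cast
    field_simp
  rw [h3, neg_div]
  apply neg_le_neg
  apply div_le_div_of_nonneg_left (sq_nonneg x) h2
  linarith

theorem exp_2_le_16 (x : ℝ) : Real.exp (-x ^ 2 / 2) ≤ Real.exp (-x ^ 2 / 16) := by
  apply Real.exp_le_exp.mpr
  nlinarith [sq_nonneg x]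

/-- the coefficients -/
noncomputable def bb (σ w : ℝ) (n : ℕ) : ℝ :=
  tw n * Real.exp (-(Real.log n - w) ^ 2 / (2 * σ ^ 2))

theorem bb_nonneg (σ w : ℝ) (n : ℕ) : 0 ≤ bb σ w n := mul_nonneg (tw_nonneg n) (Real.exp_pos _).le

theorem bb_le {σ w : ℝ} (hσ : 0 < σ) (hσ1 : σ ≤ 1) (n : ℕ) :
    bb σ w n ≤ (n.divisors.card : ℝ) ^ 2 * (1 + Real.log n) ^ 2 / n *
      Real.exp (-(Real.log n - w) ^ 2 / 16) := by
  unfold bb tw
  apply mul_le_mul _ (exp_le16 hσ hσ1 _) (Real.exp_pos _).le (by positivity)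
  exact div_le_div_of_nonneg_right (vm_le n) (Nat.cast_nonneg n)

theorem bb_sq_le {σ w : ℝ} (hσ : 0 < σ) (hσ1 : σ ≤ 1) (n : ℕ) :
    bb σ w n ^ 2 ≤ (n.divisors.card : ℝ) ^ 2 * (1 + Real.log n) ^ 2 / (n : ℝ) ^ 2 *
      Real.exp (-(Real.log n - w) ^ 2 / 2) := by
  unfold bb tw
  rw [mul_pow, div_pow]
  apply mul_le_mul _ (exp_sq_le hσ hσ1 _) (by positivity) (by positivity)
  exact div_le_div_of_nonneg_right (vm_sq_le n) (by positivity)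

theorem n_bb_sq_le {σ w : ℝ} (hσ : 0 < σ) (hσ1 : σ ≤ 1) (n : ℕ) :
    (n : ℝ) * bb σ w n ^ 2 ≤ (n.divisors.card : ℝ) ^ 2 * (1 + Real.log n) ^ 2 / n *
      Real.exp (-(Real.log n - w) ^ 2 / 16) := by
  rcases Nat.eq_zero_or_pos n with h | h
  · subst h
    simp
  · have hn : (0 : ℝ) < n := by exact_mod_cast h
    calc (n : ℝ) * bb σ w n ^ 2
        ≤ (n : ℝ) * ((n.divisors.card : ℝ) ^ 2 * (1 + Real.log n) ^ 2 / (n : ℝ) ^ 2 *
            Real.exp (-(Real.log n - w) ^ 2 / 2)) :=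
          mul_le_mul_of_nonneg_left (bb_sq_le hσ hσ1 n) hn.le
      _ = (n.divisors.card : ℝ) ^ 2 * (1 + Real.log n) ^ 2 / n *
            Real.exp (-(Real.log n - w) ^ 2 / 2) := by
          field_simp
      _ ≤ _ := mul_le_mul_of_nonneg_left (exp_2_le_16 _) (by positivity)

theorem cpow_split (n : ℕ) (τ : ℝ) (h : 0 < n) :
    (n : ℂ) ^ (-(1 + τ * Complex.I)) = ((n : ℂ))⁻¹ * (n : ℂ) ^ (-(τ * Complex.I)) := by
  have hn : (n : ℂ) ≠ 0 := by exact_mod_cast h.ne'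
  rw [neg_add, Complex.cpow_add _ _ hn, Complex.cpow_neg_one]

theorem norm_cpow_it (n : ℕ) (τ : ℝ) (h : 0 < n) : ‖(n : ℂ) ^ (-(τ * Complex.I))‖ = 1 := by
  have h1 := Complex.norm_natCast_cpow_of_pos h (-(τ * Complex.I))
  rw [h1]
  simp

/-- the summand of `gp` -/
theorem gp_term (σ w τ : ℝ) (n : ℕ) :
    ((vonMangoldt n : ℝ) : ℂ) * (n : ℂ) ^ (-(1 + τ * Complex.I)) *
      ((Real.exp (-(Real.log n - w) ^ 2 / (2 * σ ^ 2)) : ℝ) : ℂ) =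
    ((bb σ w n : ℝ) : ℂ) * (n : ℂ) ^ (-(τ * Complex.I)) := by
  rcases Nat.eq_zero_or_pos n with h | h
  · subst h
    simp [bb, tw]
  · rw [cpow_split n τ h]
    unfold bb tw
    push_cast
    ring

theorem gp_eq (σ w τ : ℝ) :
    gp σ w τ = ∑' n : ℕ, ((bb σ w n : ℝ) : ℂ) * (n : ℂ) ^ (-(τ * Complex.I)) := by
  unfold gp
  exact tsum_congr fun n => gp_term σ w τ n

theorem norm_term (σ w τ : ℝ) (n : ℕ) :
    ‖((bb σ w n : ℝ) : ℂ) * (n : ℂ) ^ (-(τ * Complex.I))‖ = bb σ w n := by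
  rcases Nat.eq_zero_or_pos n with h | h
  · subst h
    simp [bb, tw]
  · rw [norm_mul, norm_cpow_it n τ h, mul_one, Complex.norm_real, Real.norm_eq_abs,
      abs_of_nonneg (bb_nonneg σ w n)]

theorem gp_sum : ∃ C : ℝ, 1 ≤ C ∧ ∀ σ w : ℝ, 0 < σ → σ ≤ 1 → 1 ≤ w →
    Summable (fun n : ℕ => tw n * Real.exp (-(Real.log n - w) ^ 2 / (2 * σ ^ 2))) ∧
    ∑' n : ℕ, tw n * Real.exp (-(Real.log n - w) ^ 2 / (2 * σ ^ 2)) ≤ C * (1 + w) ^ 6 ∧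
    ∀ τ : ℝ, ‖gp σ w τ‖ ≤ C * (1 + w) ^ 6 := by
  obtain ⟨C, hC, H⟩ := ASI.div_gauss
  refine ⟨C, hC, fun σ w hσ hσ1 hw => ?_⟩
  obtain ⟨hs, hb, -⟩ := H w
  rw [abs_of_nonneg (by linarith : (0:ℝ) ≤ w)] at hb
  have hsum : Summable (fun n : ℕ => bb σ w n) :=
    Summable.of_nonneg_of_le (fun n => bb_nonneg σ w n) (fun n => bb_le hσ hσ1 n) hs
  have hle : ∑' n : ℕ, bb σ w n ≤ C * (1 + w) ^ 6 :=
    (hsum.tsum_le_tsum (fun n => bb_le hσ hσ1 n) hs).trans hb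
  refine ⟨hsum, hle, fun τ => ?_⟩
  rw [gp_eq]
  have hn : Summable (fun n : ℕ => ‖((bb σ w n : ℝ) : ℂ) * (n : ℂ) ^ (-(τ * Complex.I))‖) := by
    simpa only [norm_term] using hsum
  refine (norm_tsum_le_tsum_norm hn).trans ?_
  simpa only [norm_term] using hle

theorem bb_summable {σ w : ℝ} (hσ : 0 < σ) (hσ1 : σ ≤ 1) (hw : 1 ≤ w) :
    Summable (fun n : ℕ => bb σ w n) := by
  obtain ⟨C, -, H⟩ := gp_sum
  exact (H σ w hσ hσ1 hw).1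

theorem gp_cont {σ w : ℝ} (hσ : 0 < σ) (hσ1 : σ ≤ 1) (hw : 1 ≤ w) : Continuous (gp σ w) := by
  have he : gp σ w = fun τ : ℝ => ∑' n : ℕ, ((bb σ w n : ℝ) : ℂ) * (n : ℂ) ^ (-(τ * Complex.I)) := by
    funext τ
    exact gp_eq σ w τ
  rw [he]
  apply continuous_tsum _ (bb_summable hσ hσ1 hw) (fun n τ => (norm_term σ w τ n).le)
  intro n
  rcases Nat.eq_zero_or_pos n with h | h
  · subst h
    simp only [bb, tw, ArithmeticFunction.map_zero, zero_div, zero_mul, Complex.ofReal_zero]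
    exact continuous_const
  · have hn : (n : ℂ) ≠ 0 := by exact_mod_cast h.ne'
    refine continuous_const.mul ?_
    refine Continuous.const_cpow ?_ (Or.inl hn)
    fun_prop

theorem gp_ms : ∃ C : ℝ, 1 ≤ C ∧ ∀ σ w T : ℝ, 0 < σ → σ ≤ 1 → 1 ≤ w → 3 ≤ T →
    ∫ τ in Set.Icc (-T) T, ‖gp σ w τ‖ ^ 2 ≤ C * (1 + w) ^ 6 * (T * Real.exp (-w) + 1) := by
  obtain ⟨C1, hC1, H1⟩ := ASI.mean_value
  obtain ⟨C2, hC2, H2⟩ := ASI.div_gauss
  refine ⟨C1 * C2, by nlinarith, fun σ w T hσ hσ1 hw hT => ?_⟩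
  obtain ⟨hs, hb, hb2⟩ := H2 w
  rw [abs_of_nonneg (by linarith : (0:ℝ) ≤ w)] at hb hb2
  have hnb : ∀ n : ℕ, ‖((bb σ w n : ℝ) : ℂ)‖ = bb σ w n := fun n => by
    rw [Complex.norm_real, Real.norm_eq_abs, abs_of_nonneg (bb_nonneg σ w n)]
  have h0 : ((bb σ w 0 : ℝ) : ℂ) = 0 := by simp [bb, tw]
  have hsn : Summable (fun n : ℕ => (n : ℝ) * bb σ w n ^ 2) :=
    Summable.of_nonneg_of_le (fun n => by positivity) (fun n => n_bb_sq_le hσ hσ1 n) hs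
  have hmv := H1 (fun n => ((bb σ w n : ℝ) : ℂ)) T hT h0
    (by simpa only [hnb] using bb_summable hσ hσ1 hw) (by simpa only [hnb] using hsn)
  simp only [hnb] at hmv
  have he : ∀ τ : ℝ, ‖gp σ w τ‖ ^ 2 =
      ‖∑' n : ℕ, ((bb σ w n : ℝ) : ℂ) * (n : ℂ) ^ (-(τ * Complex.I))‖ ^ 2 := fun τ => by
    rw [gp_eq]
  simp only [he]
  refine hmv.trans ?_
  have hs2a : Summable (fun n : ℕ => (n.divisors.card : ℝ) ^ 2 * (1 + Real.log n) ^ 2 / (n : ℝ) ^ 2 *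
      Real.exp (-(Real.log n - w) ^ 2 / 2)) := by
    refine Summable.of_nonneg_of_le (fun n => by positivity) (fun n => ?_) hs
    rcases Nat.eq_zero_or_pos n with h | h
    · subst h
      simp
    · have hn : (1 : ℝ) ≤ n := by exact_mod_cast h
      apply mul_le_mul _ (exp_2_le_16 _) (Real.exp_pos _).le (by positivity)
      apply div_le_div_of_nonneg_left (by positivity) (by positivity)
      nlinarith
  have hs2 : Summable (fun n : ℕ => bb σ w n ^ 2) :=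
    Summable.of_nonneg_of_le (fun n => sq_nonneg _) (fun n => bb_sq_le hσ hσ1 n) hs2a
  have hA : ∑' n : ℕ, bb σ w n ^ 2 ≤ C2 * (1 + w) ^ 6 * Real.exp (-w) :=
    (hs2.tsum_le_tsum (fun n => bb_sq_le hσ hσ1 n) hs2a).trans hb2
  have hB : ∑' n : ℕ, (n : ℝ) * bb σ w n ^ 2 ≤ C2 * (1 + w) ^ 6 :=
    (hsn.tsum_le_tsum (fun n => n_bb_sq_le hσ hσ1 n) hs).trans hb
  have hsplit : ∑' n : ℕ, (T + (n : ℝ)) * bb σ w n ^ 2 =
      T * ∑' n : ℕ, bb σ w n ^ 2 + ∑' n : ℕ, (n : ℝ) * bb σ w n ^ 2 := by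
    rw [← tsum_mul_left, ← (hs2.mul_left T).tsum_add hsn]
    exact tsum_congr fun n => by ring
  rw [hsplit]
  have hT0 : 0 ≤ T := by linarith
  have hC10 : 0 ≤ C1 := by linarith
  calc C1 * (T * ∑' n : ℕ, bb σ w n ^ 2 + ∑' n : ℕ, (n : ℝ) * bb σ w n ^ 2)
      ≤ C1 * (T * (C2 * (1 + w) ^ 6 * Real.exp (-w)) + C2 * (1 + w) ^ 6) := by
        apply mul_le_mul_of_nonneg_left _ hC10
        exact add_le_add (mul_le_mul_of_nonneg_left hA hT0) hB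
    _ = C1 * C2 * (1 + w) ^ 6 * (T * Real.exp (-w) + 1) := by ring

end SMC
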