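import Pool.Agent.SMC.Defs

/-!
# SMC.Geo: the interval of multipliers of a triple

PROOF. `H = 1/2 - β`. Let `I2 = [(l + ε - β)/m, (l + 1 - ε - β)/m]`, centre `c2 = (l + H)/m`, half length `(1/2 - ε)/m`. For `α ∈ I2`:
`l + ε ≤ αm + β ≤ l + 1 - ε`, and `|αp + β - (m + 1/2)| = |(α - (m+H)/p)| p ≤ |c2 - (m+H)/p| p + (1/2 - ε) p/m ≤ 1/2 - ε` by `h1`.
When `α` runs through `I2`, `y = αl + β` runs through an interval `[y0, y0 + L]`, `L = (1 - 2ε) l/m ≥ 1 + 2ε + η0` (`h2`). Let `s` be the least even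
integer with `s + 1 - ε ≥ y0`, so `s < y0 + 1 + ε`. If `s + 1 - ε - y0 ≥ η0/2`, take the `y` between `max (s + ε) y0` and
`min (s + 1 - ε) (y0 + L)`: its length is at least `min(1 - 2ε, η0, η0/2) ≥ η0/2` (note `s + ε < y0 + 1 + 2ε ≤ y0 + L - η0`).
Otherwise `s + 1 - ε < y0 + η0/2`; take `s + 2`: the `y` between `s + 2 + ε` (`< y0 + η0/2 + 1 + 2ε ≤ y0 + L - η0/2`) and
`min (s + 3 - ε) (y0 + L)`: length at least `min(1 - 2ε, η0/2) ≥ η0/2` (`ε ≤ 1/4`, `η0 ≤ 1`). In `α` the length is `≥ (η0/2)/l`.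
`s ≥ 4` as a natural number: `y ≥ y0 = (l + ε - β) l/m + β ≥ (l - |β|) - |β| ≥ 8` (`h3`, and `l ≥ m` by `h2`) and
`s > y - 1`. All the `α` satisfy `|α - c2| ≤ 1/(2m)`.
-/

namespace SMC

theorem geo {ε η0 β : ℝ} (hε : 0 < ε) (hε4 : ε ≤ 1 / 4) (hη : 0 < η0) (hη1 : η0 ≤ 1) {p m l : ℕ} (hp : 0 < p)
    (hpm : p < m)
    (h1 : |((l : ℝ) + (1 / 2 - β)) / m - ((m : ℝ) + (1 / 2 - β)) / p| * p ≤ (1 / 2 - ε) * (1 - (p : ℝ) / m))
    (h2 : 1 + 2 * ε + η0 ≤ (1 - 2 * ε) * ((l : ℝ) / m)) (h3 : 2 * |β| + 8 ≤ l) :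
    ∃ α1 α2 : ℝ, η0 / (4 * l) ≤ α2 - α1 ∧ ∀ α ∈ Set.Icc α1 α2,
      |α - ((l : ℝ) + (1 / 2 - β)) / m| ≤ 1 / (2 * m) ∧ Ch ε β α p m l := by
  have hP : (0 : ℝ) < p := by exact_mod_cast hp
  have hM : (0 : ℝ) < m := by exact_mod_cast (lt_trans hp hpm)
  have hb := abs_nonneg β
  have hb1 := le_abs_self β
  have hb2 := neg_abs_le β
  have hL : (0 : ℝ) < l := by linarith
  -- y0
  obtain ⟨r, hr⟩ : ∃ r : ℝ, r = (l : ℝ) / m := ⟨_, rfl⟩
  rw [← hr] at h2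
  have hrm : r * m = l := by rw [hr]; field_simp
  have hr1 : 1 < r := by nlinarith
  obtain ⟨y0, hy0⟩ : ∃ y0 : ℝ, y0 = ((l : ℝ) + ε - β) * r + β := ⟨_, rfl⟩
  have hy8 : 8 ≤ y0 := by
    have h : (l : ℝ) + ε - β ≤ ((l : ℝ) + ε - β) * r := by
      have h' : 0 ≤ (l : ℝ) + ε - β := by linarith
      nlinarith
    linarith
  -- the general lemma
  have key : ∀ (ylo yhi : ℝ) (s : ℕ), y0 ≤ ylo → yhi ≤ y0 + (1 - 2 * ε) * r → (s : ℝ) + ε ≤ ylo →
      yhi ≤ s + 1 - ε → η0 / 2 ≤ yhi - ylo → Even s → 4 ≤ s →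
      ∃ α1 α2 : ℝ, η0 / (4 * l) ≤ α2 - α1 ∧ ∀ α ∈ Set.Icc α1 α2,
      |α - ((l : ℝ) + (1 / 2 - β)) / m| ≤ 1 / (2 * m) ∧ Ch ε β α p m l := by
    intro ylo yhi s hlo hhi hs1 hs2 hlen hev hs4
    refine ⟨(ylo - β) / l, (yhi - β) / l, ?_, ?_⟩
    · have e : (yhi - β) / l - (ylo - β) / l = (yhi - ylo) / l := by ring
      rw [e, div_le_div_iff₀ (by positivity) hL]
      nlinarith
    · intro α hα
      obtain ⟨ha1, ha2⟩ := hα
      rw [div_le_iff₀ hL] at ha1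
      rw [le_div_iff₀ hL] at ha2
      -- α m in the right range
      have hA : (l : ℝ) + ε - β ≤ α * m := by
        have h : ((l : ℝ) + ε - β) * r ≤ α * m * r := by
          have : α * m * r = α * l := by rw [← hrm]; ring
          rw [this]; linarith
        exact le_of_mul_le_mul_right h (by linarith)
      have hB : α * m ≤ (l : ℝ) + 1 - ε - β := by
        have h : α * m * r ≤ ((l : ℝ) + 1 - ε - β) * r := by
          have : α * m * r = α * l := by rw [← hrm]; ring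
          rw [this]; nlinarith
        exact le_of_mul_le_mul_right h (by linarith)
      have hc : |α - ((l : ℝ) + (1 / 2 - β)) / m| ≤ (1 / 2 - ε) / m := by
        have e : α - ((l : ℝ) + (1 / 2 - β)) / m = (α * m - ((l : ℝ) + (1 / 2 - β))) / m := by
          field_simp
        rw [e, abs_div, abs_of_pos hM]
        apply div_le_div_of_nonneg_right _ hM.le
        rw [abs_le]
        constructor <;> linarith
      have hpm' : |α * p + β - (m + 1 / 2)| ≤ 1 / 2 - ε := by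
        have e : α * p + β - (m + 1 / 2) = (α - ((m : ℝ) + (1 / 2 - β)) / p) * p := by
          field_simp; ring
        rw [e, abs_mul, abs_of_pos hP]
        have ht := abs_sub_le α (((l : ℝ) + (1 / 2 - β)) / m) (((m : ℝ) + (1 / 2 - β)) / p)
        have h4 : |α - ((m : ℝ) + (1 / 2 - β)) / p| * p ≤ (1 / 2 - ε) / m * p +
            |((l : ℝ) + (1 / 2 - β)) / m - ((m : ℝ) + (1 / 2 - β)) / p| * p := by
          rw [← add_mul]
          apply mul_le_mul_of_nonneg_right _ hP.le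
          linarith
        have e2 : (1 / 2 - ε) / m * p = (1 / 2 - ε) * ((p : ℝ) / m) := by ring
        rw [e2] at h4
        have e3 : (1 / 2 - ε) * (1 - (p : ℝ) / m) = (1 / 2 - ε) - (1 / 2 - ε) * ((p : ℝ) / m) := by ring
        rw [e3] at h1
        linarith
      rw [abs_le] at hpm'
      refine ⟨hc.trans ?_, ?_, ?_, ?_, ?_, s, hev, hs4, ?_, ?_⟩
      · rw [div_le_div_iff₀ hM (by positivity)]
        nlinarith
      · linarith [hpm'.1]
      · linarith [hpm'.2]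
      · linarith
      · linarith
      · linarith
      · linarith
  -- the choice of s
  obtain ⟨n0, hn0⟩ : ∃ n0 : ℕ, n0 = ⌈(y0 - 1 + ε) / 2⌉₊ := ⟨_, rfl⟩
  have hn1 : (y0 - 1 + ε) / 2 ≤ n0 := by rw [hn0]; exact Nat.le_ceil _
  have hn2 : (n0 : ℝ) < (y0 - 1 + ε) / 2 + 1 := by
    rw [hn0]; exact Nat.ceil_lt_add_one (by linarith)
  have hs4 : 4 ≤ 2 * n0 := by
    have : (4 : ℝ) ≤ ((2 * n0 : ℕ) : ℝ) := by push_cast; linarith
    exact_mod_cast this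
  have hsc : ((2 * n0 : ℕ) : ℝ) = 2 * n0 := by push_cast; ring
  rcases le_or_gt (η0 / 2) (2 * (n0 : ℝ) + 1 - ε - y0) with hA | hB
  · refine key (max (2 * n0 + ε) y0) (min (2 * n0 + 1 - ε) (y0 + (1 - 2 * ε) * r)) (2 * n0)
      (le_max_right _ _) (min_le_right _ _) ?_ ?_ ?_ (even_two_mul n0) hs4
    · rw [hsc]; exact le_max_left _ _
    · rw [hsc]; exact min_le_left _ _
    · rcases max_cases (2 * (n0 : ℝ) + ε) y0 with ⟨e1, _⟩ | ⟨e1, _⟩ <;>
      rcases min_cases (2 * (n0 : ℝ) + 1 - ε) (y0 + (1 - 2 * ε) * r) with ⟨e2, _⟩ | ⟨e2, _⟩ <;>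
      rw [e1, e2] <;> linarith
  · have hsc2 : ((2 * n0 + 2 : ℕ) : ℝ) = 2 * n0 + 2 := by push_cast; ring
    refine key (2 * n0 + 2 + ε) (min (2 * n0 + 2 + 1 - ε) (y0 + (1 - 2 * ε) * r)) (2 * n0 + 2)
      ?_ (min_le_right _ _) ?_ ?_ ?_ ?_ (by omega)
    · linarith
    · rw [hsc2]
    · rw [hsc2]; exact min_le_left _ _
    · rcases min_cases (2 * (n0 : ℝ) + 2 + 1 - ε) (y0 + (1 - 2 * ε) * r) with ⟨e2, _⟩ | ⟨e2, _⟩ <;>
      rw [e2] <;> linarith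
    · exact ⟨n0 + 1, by ring⟩

end SMC
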