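import Pool.Agent.SMC.TripB

/-!
# SMC.LocA: localization

`BX` is the box of `PT` without the condition that the numbers are primes.

PROOF. If `q ∉ BX`, then one of the four normalised deviations is `> 4`, so `ex σ κ w μ h q > 8`, and
`ex σ κ w μ h q = 2 ex (√2 σ) (√2 κ) w μ h q`, so `exp(-ex σ κ ..) ≤ e^(-4) exp(-ex (√2σ) (√2κ) ..)`. Hence
`∑_{q∈BX} ≥ T3 σ κ - e^(-4) T3 (√2σ) (√2κ)` (`T3_summable`), and by `trip` (`√2 σ ≤ 1`) `e^w` times this tends to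
`c0 κ σ² (1 - e^(-4) 2√2) > c0 κ σ²/2`, `c0 = 2π √(π/3)`, and `c0/2 ≥ 3` (`π > 3.14`, `√(π/3) ≥ 1`). Finally `exp(-ex) ≤ 1`.
-/

namespace SMC

open MeasureTheory ArithmeticFunction Filter

/-- The box. -/
def BX (σ κ w μ h : ℝ) : Set (ℕ × ℕ × ℕ) :=
  {q | 1 ≤ q.1 ∧ 1 ≤ q.2.1 ∧ 1 ≤ q.2.2 ∧ |Real.log q.1 - w| ≤ 4 * σ ∧
    |Real.log q.2.1 - w - Real.log μ| ≤ 4 * σ ∧ |Real.log q.2.2 - w - 2 * Real.log μ| ≤ 4 * σ ∧
    |Real.exp w * (Real.log q.1 + Real.log q.2.2 - 2 * Real.log q.2.1) - h| ≤ 4 * κ}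

private theorem le_of_log {n : ℕ} (hn : 1 ≤ n) {z : ℝ} (h : Real.log n ≤ z) : n ≤ ⌊Real.exp z⌋₊ := by
  apply Nat.le_floor
  have hn0 : (0 : ℝ) < n := by exact_mod_cast hn
  exact (Real.log_le_iff_le_exp hn0).1 h

theorem BX_finite (σ κ w μ h : ℝ) : (BX σ κ w μ h).Finite := by
  refine Set.Finite.subset (((Finset.range (⌊Real.exp (w + 4 * σ)⌋₊ + 1)) ×ˢ
    ((Finset.range (⌊Real.exp (w + Real.log μ + 4 * σ)⌋₊ + 1)) ×ˢ
      (Finset.range (⌊Real.exp (w + 2 * Real.log μ + 4 * σ)⌋₊ + 1)))).finite_toSet) ?_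
  rintro ⟨a, b, c⟩ ⟨h1, h2, h3, h4, h5, h6, -⟩
  simp only at h1 h2 h3 h4 h5 h6
  have e1 := le_of_log h1 (z := w + 4 * σ) (by linarith [(abs_le.1 h4).2])
  have e2 := le_of_log h2 (z := w + Real.log μ + 4 * σ) (by linarith [(abs_le.1 h5).2])
  have e3 := le_of_log h3 (z := w + 2 * Real.log μ + 4 * σ) (by linarith [(abs_le.1 h6).2])
  simp only [Finset.coe_product, Set.mem_prod, Finset.mem_coe, Finset.mem_range]
  exact ⟨by omega, by omega, by omega⟩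

private theorem twLA_nonneg (n : ℕ) : 0 ≤ tw n := by
  unfold tw
  exact div_nonneg vonMangoldt_nonneg (Nat.cast_nonneg n)

private theorem tw_zero : tw 0 = 0 := by
  simp [tw]

private theorem ex_half {σ κ : ℝ} (w μ h : ℝ) (q : ℕ × ℕ × ℕ) :
    ex (Real.sqrt 2 * σ) (Real.sqrt 2 * κ) w μ h q = ex σ κ w μ h q / 2 := by
  unfold ex
  have h2 : Real.sqrt 2 ^ 2 = 2 := Real.sq_sqrt (by norm_num)
  rw [mul_pow, mul_pow, h2]
  have e1 : 2 * (2 * σ ^ 2) = 2 * σ ^ 2 * 2 := by ring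
  have e2 : 2 * (2 * κ ^ 2) = 2 * κ ^ 2 * 2 := by ring
  rw [e1, e2, ← div_div, ← div_div]
  ring

private theorem sq_big {x s : ℝ} (hs : 0 < s) (hx : 4 * s < |x|) : 8 < x ^ 2 / (2 * s ^ 2) := by
  rw [lt_div_iff₀ (by positivity)]
  have h1 : (4 * s) ^ 2 < x ^ 2 := by
    rw [← sq_abs x]
    exact pow_lt_pow_left₀ hx (by positivity) (by norm_num)
  nlinarith

private theorem ex_big {σ κ w μ h : ℝ} (hσ : 0 < σ) (hκ : 0 < κ) {q : ℕ × ℕ × ℕ}
    (h1 : 1 ≤ q.1) (h2 : 1 ≤ q.2.1) (h3 : 1 ≤ q.2.2) (hq : q ∉ BX σ κ w μ h) :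
    8 < ex σ κ w μ h q := by
  have key : ex σ κ w μ h q = (Real.log q.1 - w) ^ 2 / (2 * σ ^ 2) +
      (Real.log q.2.1 - w - Real.log μ) ^ 2 / (2 * σ ^ 2) +
      (Real.log q.2.2 - w - 2 * Real.log μ) ^ 2 / (2 * σ ^ 2) +
      (Real.exp w * (Real.log q.1 + Real.log q.2.2 - 2 * Real.log q.2.1) - h) ^ 2 / (2 * κ ^ 2) := by
    unfold ex
    rw [add_div, add_div]
  have n1 : 0 ≤ (Real.log q.1 - w) ^ 2 / (2 * σ ^ 2) := by positivity
  have n2 : 0 ≤ (Real.log q.2.1 - w - Real.log μ) ^ 2 / (2 * σ ^ 2) := by positivity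
  have n3 : 0 ≤ (Real.log q.2.2 - w - 2 * Real.log μ) ^ 2 / (2 * σ ^ 2) := by positivity
  have n4 : 0 ≤ (Real.exp w * (Real.log q.1 + Real.log q.2.2 - 2 * Real.log q.2.1) - h) ^ 2 /
      (2 * κ ^ 2) := by positivity
  rw [key]
  by_cases c1 : |Real.log q.1 - w| ≤ 4 * σ
  · by_cases c2 : |Real.log q.2.1 - w - Real.log μ| ≤ 4 * σ
    · by_cases c3 : |Real.log q.2.2 - w - 2 * Real.log μ| ≤ 4 * σ
      · by_cases c4 : |Real.exp w * (Real.log q.1 + Real.log q.2.2 - 2 * Real.log q.2.1) - h| ≤ 4 * κ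
        · exact absurd ⟨h1, h2, h3, c1, c2, c3, c4⟩ hq
        · have := sq_big hκ (not_le.1 c4)
          linarith
      · have := sq_big hσ (not_le.1 c3)
        linarith
    · have := sq_big hσ (not_le.1 c2)
      linarith
  · have := sq_big hσ (not_le.1 c1)
    linarith

private theorem ex_nonneg (σ κ w μ h : ℝ) (q : ℕ × ℕ × ℕ) : 0 ≤ ex σ κ w μ h q := by
  unfold ex
  positivity

private theorem loc_term {σ κ w μ h : ℝ} (hσ : 0 < σ) (hκ : 0 < κ) (q : ℕ × ℕ × ℕ) :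
    tw q.1 * tw q.2.1 * tw q.2.2 * Real.exp (-ex σ κ w μ h q) ≤
      (if q ∈ (BX_finite σ κ w μ h).toFinset then tw q.1 * tw q.2.1 * tw q.2.2 else 0) +
      Real.exp (-4) * (tw q.1 * tw q.2.1 * tw q.2.2 *
        Real.exp (-ex (Real.sqrt 2 * σ) (Real.sqrt 2 * κ) w μ h q)) := by
  have ht : 0 ≤ tw q.1 * tw q.2.1 * tw q.2.2 :=
    mul_nonneg (mul_nonneg (twLA_nonneg _) (twLA_nonneg _)) (twLA_nonneg _)
  rw [ex_half]
  by_cases hq : q ∈ BX σ κ w μ h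
  · rw [if_pos ((BX_finite σ κ w μ h).mem_toFinset.2 hq)]
    have h1 : Real.exp (-ex σ κ w μ h q) ≤ 1 := by
      rw [Real.exp_le_one_iff]
      linarith [ex_nonneg σ κ w μ h q]
    have h2 : 0 ≤ Real.exp (-4) * (tw q.1 * tw q.2.1 * tw q.2.2 *
        Real.exp (-(ex σ κ w μ h q / 2))) :=
      mul_nonneg (Real.exp_pos _).le (mul_nonneg ht (Real.exp_pos _).le)
    have h3 := mul_le_mul_of_nonneg_left h1 ht
    linarith
  · rw [if_neg (fun h' => hq ((BX_finite σ κ w μ h).mem_toFinset.1 h')), zero_add]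
    by_cases z1 : q.1 = 0
    · rw [z1, tw_zero]; simp
    by_cases z2 : q.2.1 = 0
    · rw [z2, tw_zero]; simp
    by_cases z3 : q.2.2 = 0
    · rw [z3, tw_zero]; simp
    have hb := ex_big hσ hκ (Nat.one_le_iff_ne_zero.2 z1) (Nat.one_le_iff_ne_zero.2 z2)
      (Nat.one_le_iff_ne_zero.2 z3) hq
    have h1 : Real.exp (-ex σ κ w μ h q) ≤ Real.exp (-4) * Real.exp (-(ex σ κ w μ h q / 2)) := by
      rw [← Real.exp_add]
      apply Real.exp_le_exp.2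
      linarith
    calc tw q.1 * tw q.2.1 * tw q.2.2 * Real.exp (-ex σ κ w μ h q)
        ≤ tw q.1 * tw q.2.1 * tw q.2.2 * (Real.exp (-4) * Real.exp (-(ex σ κ w μ h q / 2))) :=
          mul_le_mul_of_nonneg_left h1 ht
      _ = _ := by ring

private theorem loc_sum {σ κ w μ h : ℝ} (hσ : 0 < σ) (hσ1 : σ ≤ 1 / 2) (hκ : 0 < κ) (hw : 1 ≤ w)
    (hμ : 1 ≤ μ) :
    T3 σ κ w μ h ≤ (∑ q ∈ (BX_finite σ κ w μ h).toFinset, tw q.1 * tw q.2.1 * tw q.2.2) +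
      Real.exp (-4) * T3 (Real.sqrt 2 * σ) (Real.sqrt 2 * κ) w μ h := by
  have h2 : (0 : ℝ) < Real.sqrt 2 := by positivity
  have h2' : Real.sqrt 2 ≤ 2 := by
    rw [Real.sqrt_le_left (by norm_num)]
    norm_num
  have s1 := T3_summable (h := h) hσ (by linarith) hκ hw hμ
  have s2 := T3_summable (σ := Real.sqrt 2 * σ) (κ := Real.sqrt 2 * κ) (h := h) (by positivity)
    (by nlinarith) (by positivity) hw hμ
  have s3 : HasSum (fun q : ℕ × ℕ × ℕ =>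
      if q ∈ (BX_finite σ κ w μ h).toFinset then tw q.1 * tw q.2.1 * tw q.2.2 else 0)
      (∑ q ∈ (BX_finite σ κ w μ h).toFinset, tw q.1 * tw q.2.1 * tw q.2.2) := by
    have e : (∑ q ∈ (BX_finite σ κ w μ h).toFinset, tw q.1 * tw q.2.1 * tw q.2.2) =
        ∑ q ∈ (BX_finite σ κ w μ h).toFinset,
          (if q ∈ (BX_finite σ κ w μ h).toFinset then tw q.1 * tw q.2.1 * tw q.2.2 else 0) :=
      Finset.sum_congr rfl (fun q hq => (if_pos hq).symm)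
    rw [e]
    exact hasSum_sum_of_ne_finset_zero (fun b hb => if_neg hb)
  have s4 := s3.add (s2.hasSum.mul_left (Real.exp (-4)))
  exact hasSum_le (fun q => loc_term hσ hκ q) s1.hasSum s4

private theorem cst {σ κ : ℝ} (hσ : 0 < σ) (hκ : 0 < κ) :
    3 * κ * σ ^ 2 < 2 * Real.pi * Real.sqrt (Real.pi / 3) * κ * σ ^ 2 -
      Real.exp (-4) * (2 * Real.pi * Real.sqrt (Real.pi / 3) * (Real.sqrt 2 * κ) *
        (Real.sqrt 2 * σ) ^ 2) := by
  have h2 : Real.sqrt 2 ^ 2 = 2 := Real.sq_sqrt (by norm_num)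
  have hs2 : Real.sqrt 2 ≤ 3 / 2 := by
    rw [Real.sqrt_le_left (by norm_num)]
    norm_num
  have hs0 : 0 < Real.sqrt 2 := by positivity
  have he : Real.exp (-4) ≤ 1 / 16 := by
    have h1 : (2 : ℝ) ≤ Real.exp 1 := by
      have := Real.add_one_le_exp (1 : ℝ)
      linarith
    have h4 : Real.exp 4 = Real.exp 1 ^ 4 := by
      rw [← Real.exp_nat_mul]
      norm_num
    rw [Real.exp_neg, h4, inv_le_comm₀ (by positivity) (by norm_num)]
    have := pow_le_pow_left₀ (by norm_num) h1 4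
    norm_num at this ⊢
    exact this
  have he0 : 0 < Real.exp (-4) := Real.exp_pos _
  have hpi : (3 : ℝ) < Real.pi := Real.pi_gt_three
  have hs : 1 ≤ Real.sqrt (Real.pi / 3) := by
    rw [Real.one_le_sqrt]
    linarith
  set c := 2 * Real.pi * Real.sqrt (Real.pi / 3) with hc
  have hc6 : 6 ≤ c := by nlinarith
  have hks : 0 < κ * σ ^ 2 := by positivity
  have e1 : Real.exp (-4) * (c * (Real.sqrt 2 * κ) * (Real.sqrt 2 * σ) ^ 2) =
      c * (κ * σ ^ 2) * (Real.exp (-4) * (2 * Real.sqrt 2)) := by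
    rw [mul_pow, h2]; ring
  have e2 : Real.exp (-4) * (2 * Real.sqrt 2) ≤ 3 / 16 := by nlinarith
  have e3 : c * (κ * σ ^ 2) * (Real.exp (-4) * (2 * Real.sqrt 2)) ≤ c * (κ * σ ^ 2) * (3 / 16) :=
    mul_le_mul_of_nonneg_left e2 (by positivity)
  rw [e1]
  nlinarith

theorem box_sum {σ κ μ h : ℝ} (hσ : 0 < σ) (hσ1 : σ ≤ 1 / 2) (hκ : 0 < κ) (hμ : 1 ≤ μ) :
    ∀ᶠ w : ℝ in atTop, 3 * κ * σ ^ 2 ≤ Real.exp w *
      ∑ q ∈ (BX_finite σ κ w μ h).toFinset, tw q.1 * tw q.2.1 * tw q.2.2 := by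
  have h2 : (0 : ℝ) < Real.sqrt 2 := by positivity
  have h2' : Real.sqrt 2 ≤ 2 := by
    rw [Real.sqrt_le_left (by norm_num)]
    norm_num
  have t1 := trip (h := h) hσ (by linarith : σ ≤ 1) hκ hμ
  have t2 := trip (σ := Real.sqrt 2 * σ) (κ := Real.sqrt 2 * κ) (h := h) (by positivity)
    (by nlinarith) (by positivity) hμ
  have t3 := t1.sub (t2.const_mul (Real.exp (-4)))
  have t4 := t3.eventually (lt_mem_nhds (cst hσ hκ))
  filter_upwards [t4, eventually_ge_atTop 1] with w hw hw1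
  have hl := loc_sum (h := h) hσ hσ1 hκ hw1 hμ
  have hl' := mul_le_mul_of_nonneg_left hl (Real.exp_pos w).le
  have e : Real.exp w * ((∑ q ∈ (BX_finite σ κ w μ h).toFinset, tw q.1 * tw q.2.1 * tw q.2.2) +
      Real.exp (-4) * T3 (Real.sqrt 2 * σ) (Real.sqrt 2 * κ) w μ h) =
      Real.exp w * (∑ q ∈ (BX_finite σ κ w μ h).toFinset, tw q.1 * tw q.2.1 * tw q.2.2) +
      Real.exp (-4) * (Real.exp w * T3 (Real.sqrt 2 * σ) (Real.sqrt 2 * κ) w μ h) := by ring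
  rw [e] at hl'
  linarith

end SMC
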