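import Pool.Agent.SMC.LocA

/-!
# SMC.LocB: the number of the prime triples

PROOF. In the box `p ≥ e^(w-4σ)`, `m ≥ μ e^(w-4σ)`, `l ≥ μ² e^(w-4σ)` and `Λ ≤ log ≤ w + 2 log μ + 4σ ≤ 2w` for large `w`, so
`tw p tw m tw l ≤ 8 w³ e^(-3w) μ^(-3) e^(12σ)`, `e^(12σ) ≤ e`. The triples of the box which are not in `PT` and have
`Λ(p) Λ(m) Λ(l) ≠ 0` contain a proper prime power. Their number is `≤ C w e^(3w/2)`: two of the three numbers determine the third one up to
`C(κ, μ, h)` possibilities (e.g. `log l` lies in an interval of length `8κ e^(-w)` and `l ≤ μ² e^(w+4σ)`, so `l` lies in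
an interval of length `≤ C`), choose them such that the proper prime power is among the two; the number of proper prime powers `≤ Y` is
at most `√Y log Y + ..` (e.g. from `Chebyshev.psi - Chebyshev.theta`, `Chebyshev.abs_psi_sub_theta_le_sqrt_mul_log`; each one
contributes at least `log 2` to `ψ - θ`; or directly: `p^k` with `k ≥ 2` is determined by `p ≤ √Y` and `k ≤ log₂ Y`). So they contribute at most
`8 w³ e^(-3w) e · C w e^(3w/2)`, which is `≤ κσ² e^(-w)` for large `w`. Then `box_sum` gives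
`2κσ² e^(-w) ≤ #PT · 8 e w³ e^(-3w) μ^(-3)`. (`PT ⊆ BX`; `PT` is finite.)
-/

namespace SMC

open MeasureTheory ArithmeticFunction Filter

/-- The proper prime powers up to `Y`. -/
private noncomputable def LPP (Y : ℝ) : Finset ℕ :=
  open Classical in (Finset.Ioc 0 ⌊Y⌋₊).filter fun n => ¬ n.Prime ∧ vonMangoldt n ≠ 0

private theorem LPP_card {Y : ℝ} (hY : 1 ≤ Y) : ((LPP Y).card : ℝ) ≤ 4 * √Y * Real.log Y := by
  classical
  have h1 : ((LPP Y).card : ℝ) * Real.log 2 ≤ Chebyshev.psi Y - Chebyshev.theta Y := by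
    rw [Chebyshev.psi_sub_theta_eq_sum_not_prime, ← nsmul_eq_mul]
    calc (LPP Y).card • Real.log 2 ≤ ∑ n ∈ LPP Y, vonMangoldt n := by
          refine Finset.card_nsmul_le_sum _ _ _ fun n hn => ?_
          have h2 : ¬ n.Prime ∧ vonMangoldt n ≠ 0 := (Finset.mem_filter.1 hn).2
          have h3 : IsPrimePow n := vonMangoldt_ne_zero_iff.1 h2.2
          rw [vonMangoldt_apply, if_pos h3]
          have h4 : 2 ≤ n.minFac := (Nat.minFac_prime h3.ne_one).two_le
          exact Real.log_le_log (by norm_num) (by exact_mod_cast h4)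
      _ ≤ _ := by
          refine Finset.sum_le_sum_of_subset_of_nonneg ?_ fun _ _ _ => vonMangoldt_nonneg
          intro n hn
          obtain ⟨h2, h3, -⟩ := Finset.mem_filter.1 hn
          exact Finset.mem_filter.2 ⟨h2, h3⟩
  have h2 := Chebyshev.psi_sub_theta_le hY
  have h3 : (1 : ℝ) / 2 ≤ Real.log 2 := by
    have := Real.log_two_gt_d9; linarith
  have h4 : (0 : ℝ) ≤ (LPP Y).card := by positivity
  nlinarith

/-- A finite set of natural numbers of small diameter. -/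
private theorem card_of_diam {S : Finset ℕ} {D : ℕ} (h : ∀ x ∈ S, ∀ y ∈ S, (y : ℝ) - x ≤ D) :
    S.card ≤ D + 1 := by
  rcases S.eq_empty_or_nonempty with rfl | hne
  · simp
  · have h1 : S ⊆ Finset.Icc (S.min' hne) (S.min' hne + D) := by
      intro y hy
      rw [Finset.mem_Icc]
      refine ⟨S.min'_le y hy, ?_⟩
      have h2 := h _ (S.min'_mem hne) y hy
      have h3 : (y : ℝ) ≤ ((S.min' hne + D : ℕ) : ℝ) := by push_cast; linarith
      exact_mod_cast h3
    refine (Finset.card_le_card h1).trans ?_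
    rw [Nat.card_Icc]; omega

private theorem sub_le_of_log {x y : ℕ} {Y E : ℝ} (hx : 1 ≤ x) (hy : 1 ≤ y) (hyY : (y : ℝ) ≤ Y)
    (hE : 0 ≤ E) (h : Real.log y - Real.log x ≤ E) : (y : ℝ) - x ≤ Y * E := by
  have hx0 : (0 : ℝ) < x := by exact_mod_cast hx
  have hy0 : (0 : ℝ) < y := by exact_mod_cast hy
  have h1 : 1 - (x : ℝ) / y ≤ Real.log y - Real.log x := by
    have h2 := Real.one_sub_inv_le_log_of_pos (x := (y : ℝ) / x) (by positivity)
    rw [inv_div, Real.log_div hy0.ne' hx0.ne'] at h2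
    exact h2
  have h3 : (y : ℝ) - x = y * (1 - (x : ℝ) / y) := by field_simp
  rw [h3]
  by_cases h4 : 0 ≤ 1 - (x : ℝ) / y
  · exact mul_le_mul hyY (h1.trans h) h4 (hy0.le.trans hyY)
  · have : y * (1 - (x : ℝ) / y) ≤ 0 := mul_nonpos_of_nonneg_of_nonpos hy0.le (not_le.1 h4).le
    exact this.trans (mul_nonneg (hy0.le.trans hyY) hE)

private theorem PT_sub (σ κ w μ h : ℝ) : PT σ κ w μ h ⊆ BX σ κ w μ h := by
  rintro q ⟨h1, h2, h3, h4⟩
  exact ⟨h1.one_lt.le, h2.one_lt.le, h3.one_lt.le, h4⟩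

private theorem le_exp_of_log {n : ℕ} (hn : 1 ≤ n) {a : ℝ} (h : Real.log n ≤ a) :
    (n : ℝ) ≤ Real.exp a := by
  have h0 : (0 : ℝ) < n := by exact_mod_cast hn
  rw [← Real.exp_log h0]
  exact Real.exp_le_exp.2 h

private theorem tw_le {n : ℕ} (hn : 1 ≤ n) {a b : ℝ} (h1 : a ≤ Real.log n) (h2 : Real.log n ≤ b) :
    tw n ≤ b * Real.exp (-a) := by
  have h0 : (0 : ℝ) < n := by exact_mod_cast hn
  have hl : 0 ≤ Real.log n := Real.log_nonneg (by exact_mod_cast hn)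
  unfold tw
  rw [div_eq_mul_inv]
  have h3 : ((n : ℝ))⁻¹ ≤ Real.exp (-a) := by
    rw [Real.exp_neg]
    refine inv_anti₀ (Real.exp_pos a) ?_
    rw [← Real.exp_log h0]
    exact Real.exp_le_exp.2 h1
  exact mul_le_mul (vonMangoldt_le_log.trans h2) h3 (by positivity) (hl.trans h2)

private theorem twLB_nonneg (n : ℕ) : 0 ≤ tw n := by
  unfold tw
  exact div_nonneg vonMangoldt_nonneg (Nat.cast_nonneg n)

private theorem tendsto_aux (C : ℝ) :
    Tendsto (fun w : ℝ => C * (w ^ 4 * Real.exp (-(w / 2)))) atTop (nhds 0) := by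
  have h1 := Real.tendsto_pow_mul_exp_neg_atTop_nhds_zero 4
  have h2 : Tendsto (fun w : ℝ => w / 2) atTop atTop := tendsto_id.atTop_div_const (by norm_num)
  have h3 := (h1.comp h2).const_mul (C * 16)
  rw [mul_zero] at h3
  refine h3.congr fun w => ?_
  simp only [Function.comp_apply]
  ring

theorem pt_count : ∃ c : ℝ, 0 < c ∧ ∀ σ κ μ h : ℝ, 0 < σ → σ ≤ 1 / 12 → 0 < κ → 1 ≤ μ →
    ∀ᶠ w : ℝ in atTop, (PT σ κ w μ h).Finite ∧
      c * κ * σ ^ 2 * Real.exp (2 * w) / w ^ 3 ≤ ((PT σ κ w μ h).ncard : ℝ) := by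
  classical
  refine ⟨1 / (4 * Real.exp 1), by positivity, fun σ κ μ h hσ hσ1 hκ hμ => ?_⟩
  have hlμ : 0 ≤ Real.log μ := Real.log_nonneg hμ
  have hμ0 : 0 < μ := lt_of_lt_of_le one_pos hμ
  set D : ℕ := ⌈μ ^ 2 * Real.exp 1 * (8 * κ)⌉₊ with hD
  set C1 : ℝ := 3 * ((D + 1 : ℕ) : ℝ) * 8 * (μ ^ 2 * Real.exp 1 * √(μ ^ 2 * Real.exp 1)) with hC1
  have hC1p : 0 ≤ C1 := by positivity
  have hev1 : ∀ᶠ w : ℝ in atTop, 8 * Real.exp 1 * C1 * (w ^ 4 * Real.exp (-(w / 2))) < κ * σ ^ 2 :=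
    (tendsto_aux _).eventually_lt_const (by positivity)
  filter_upwards [box_sum (h := h) hσ (by linarith) hκ hμ, hev1,
    eventually_ge_atTop (2 * Real.log μ + 1), eventually_ge_atTop (1 : ℝ)] with w hbox hw1 hw2 hw3
  have hfin : (PT σ κ w μ h).Finite := (BX_finite σ κ w μ h).subset (PT_sub σ κ w μ h)
  refine ⟨hfin, ?_⟩
  set Y : ℝ := μ ^ 2 * Real.exp 1 * Real.exp w with hY
  have hYexp : Real.exp (w + 2 * Real.log μ + 1) = Y := by
    rw [hY, Real.exp_add, Real.exp_add, two_mul, Real.exp_add, Real.exp_log hμ0]; ring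
  have hY1 : 1 ≤ Y := by
    rw [← hYexp]; exact Real.one_le_exp (by linarith)
  have hY0 : 0 < Y := lt_of_lt_of_le one_pos hY1
  have hlogY : Real.log Y ≤ 2 * w := by
    rw [← hYexp, Real.log_exp]; linarith
  -- bounds in the box
  have hbx : ∀ q ∈ BX σ κ w μ h, (q.1 : ℝ) ≤ Y ∧ (q.2.1 : ℝ) ≤ Y ∧ (q.2.2 : ℝ) ≤ Y := by
    rintro q ⟨a1, a2, a3, a4, a5, a6, -⟩
    rw [abs_le] at a4 a5 a6
    refine ⟨?_, ?_, ?_⟩
    · rw [← hYexp]; exact le_exp_of_log a1 (by linarith [a4.2])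
    · rw [← hYexp]; exact le_exp_of_log a2 (by linarith [a5.2])
    · rw [← hYexp]; exact le_exp_of_log a3 (by linarith [a6.2])
  set M : ℝ := 8 * Real.exp 1 * w ^ 3 * Real.exp (-(3 * w)) with hM
  have hM0 : 0 < M := by positivity
  have htw : ∀ q ∈ BX σ κ w μ h, tw q.1 * tw q.2.1 * tw q.2.2 ≤ M := by
    rintro q ⟨a1, a2, a3, a4, a5, a6, -⟩
    rw [abs_le] at a4 a5 a6
    have e1 : tw q.1 ≤ 2 * w * Real.exp (-(w - 1 / 3)) :=
      tw_le a1 (by linarith [a4.1]) (by linarith [a4.2])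
    have e2 : tw q.2.1 ≤ 2 * w * Real.exp (-(w - 1 / 3)) :=
      tw_le a2 (by linarith [a5.1]) (by linarith [a5.2])
    have e3 : tw q.2.2 ≤ 2 * w * Real.exp (-(w - 1 / 3)) :=
      tw_le a3 (by linarith [a6.1]) (by linarith [a6.2])
    have hb : 0 ≤ 2 * w * Real.exp (-(w - 1 / 3)) := by positivity
    calc tw q.1 * tw q.2.1 * tw q.2.2 ≤ 2 * w * Real.exp (-(w - 1 / 3)) *
          (2 * w * Real.exp (-(w - 1 / 3))) * (2 * w * Real.exp (-(w - 1 / 3))) := by
          refine mul_le_mul (mul_le_mul e1 e2 (twLB_nonneg _) hb) e3 (twLB_nonneg _) ?_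
          positivity
      _ = M := by
          rw [hM]
          have : Real.exp (-(w - 1 / 3)) * Real.exp (-(w - 1 / 3)) * Real.exp (-(w - 1 / 3)) =
              Real.exp 1 * Real.exp (-(3 * w)) := by
            rw [← Real.exp_add, ← Real.exp_add, ← Real.exp_add]; congr 1; ring
          calc _ = 8 * w ^ 3 * (Real.exp (-(w - 1 / 3)) * Real.exp (-(w - 1 / 3)) *
                Real.exp (-(w - 1 / 3))) := by ring
            _ = _ := by rw [this]; ring
  -- the bad triples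
  set BF := (BX_finite σ κ w μ h).toFinset with hBF
  set Bad := BF.filter fun q => q ∉ PT σ κ w μ h ∧ tw q.1 * tw q.2.1 * tw q.2.2 ≠ 0 with hBad
  have hmemBF : ∀ q, q ∈ BF ↔ q ∈ BX σ κ w μ h := fun q => Set.Finite.mem_toFinset _
  set A := Finset.Ioc 0 ⌊Y⌋₊ with hA
  have hmemA : ∀ n : ℕ, 1 ≤ n → (n : ℝ) ≤ Y → n ∈ A := fun n h1 h2 =>
    Finset.mem_Ioc.2 ⟨h1, Nat.le_floor h2⟩
  have hcardA : (A.card : ℝ) ≤ Y := by
    rw [hA, Nat.card_Ioc, Nat.sub_zero]; exact Nat.floor_le hY0.le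
  have hmemP : ∀ n : ℕ, n ∈ A → ¬ n.Prime → tw n ≠ 0 → n ∈ LPP Y := by
    intro n h1 h2 h3
    refine Finset.mem_filter.2 ⟨h1, h2, fun h4 => h3 ?_⟩
    unfold tw; rw [h4, zero_div]
  have hDle : Y * (8 * κ * Real.exp (-w)) ≤ D := by
    have e1 : Y * (8 * κ * Real.exp (-w)) = μ ^ 2 * Real.exp 1 * (8 * κ) := by
      have : Real.exp w * Real.exp (-w) = 1 := by rw [← Real.exp_add, add_neg_cancel, Real.exp_zero]
      calc _ = μ ^ 2 * Real.exp 1 * (8 * κ) * (Real.exp w * Real.exp (-w)) := by rw [hY]; ring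
        _ = _ := by rw [this, mul_one]
    rw [e1]; exact Nat.le_ceil _
  have hE0 : 0 ≤ 8 * κ * Real.exp (-w) := by positivity
  -- the third number
  have hwin : ∀ q ∈ BX σ κ w μ h, ∀ q' ∈ BX σ κ w μ h,
      (Real.log q'.1 + Real.log q'.2.2 - 2 * Real.log q'.2.1) -
        (Real.log q.1 + Real.log q.2.2 - 2 * Real.log q.2.1) ≤ 8 * κ * Real.exp (-w) := by
    rintro q ⟨-, -, -, -, -, -, b1⟩ q' ⟨-, -, -, -, -, -, b2⟩
    rw [abs_le] at b1 b2
    have e1 : Real.exp w * ((Real.log q'.1 + Real.log q'.2.2 - 2 * Real.log q'.2.1) -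
        (Real.log q.1 + Real.log q.2.2 - 2 * Real.log q.2.1)) ≤ 8 * κ := by
      rw [mul_sub]; linarith [b1.1, b2.2]
    have e2 : Real.exp w * Real.exp (-w) = 1 := by
      rw [← Real.exp_add, add_neg_cancel, Real.exp_zero]
    have e3 := mul_le_mul_of_nonneg_left e1 (Real.exp_pos (-w)).le
    rw [← mul_assoc, mul_comm (Real.exp (-w)) (Real.exp w), e2, one_mul] at e3
    linarith
  have hmemB : ∀ q ∈ Bad, q ∈ BX σ κ w μ h := fun q hq =>
    (hmemBF q).1 (Finset.mem_filter.1 hq).1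
  -- three parts
  set B1 := Bad.filter fun q => q.1 ∈ LPP Y with hB1
  set B2 := Bad.filter fun q => q.2.1 ∈ LPP Y with hB2
  set B3 := Bad.filter fun q => q.2.2 ∈ LPP Y with hB3
  have hcov : Bad ⊆ B1 ∪ B2 ∪ B3 := by
    intro q hq
    obtain ⟨hq1, hq2, hq3⟩ := Finset.mem_filter.1 hq
    have hqB := (hmemBF q).1 hq1
    obtain ⟨y1, y2, y3⟩ := hbx q hqB
    obtain ⟨a1, a2, a3, a4⟩ := hqB
    have t1 : tw q.1 ≠ 0 := fun h0 => hq3 (by rw [h0]; ring)
    have t2 : tw q.2.1 ≠ 0 := fun h0 => hq3 (by rw [h0]; ring)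
    have t3 : tw q.2.2 ≠ 0 := fun h0 => hq3 (by rw [h0]; ring)
    by_cases p1 : q.1.Prime
    · by_cases p2 : q.2.1.Prime
      · by_cases p3 : q.2.2.Prime
        · exact absurd ⟨p1, p2, p3, a4⟩ hq2
        · refine Finset.mem_union_right _ (Finset.mem_filter.2 ⟨hq, ?_⟩)
          exact hmemP _ (hmemA _ a3 y3) p3 t3
      · refine Finset.mem_union_left _ (Finset.mem_union_right _ (Finset.mem_filter.2 ⟨hq, ?_⟩))
        exact hmemP _ (hmemA _ a2 y2) p2 t2
    · refine Finset.mem_union_left _ (Finset.mem_union_left _ (Finset.mem_filter.2 ⟨hq, ?_⟩))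
      exact hmemP _ (hmemA _ a1 y1) p1 t1
  have fib12 : ∀ (S : Finset (ℕ × ℕ × ℕ)), (∀ q ∈ S, q ∈ BX σ κ w μ h) → ∀ b : ℕ × ℕ,
      (S.filter fun q => (q.1, q.2.1) = b).card ≤ D + 1 := by
    intro S hS b
    have hinj : Set.InjOn (fun q : ℕ × ℕ × ℕ => q.2.2)
        (S.filter fun q => (q.1, q.2.1) = b : Finset (ℕ × ℕ × ℕ)) := by
      intro q hq q' hq' hqq
      have e1 := (Finset.mem_filter.1 hq).2
      have e2 := (Finset.mem_filter.1 hq').2
      have e3 : (q.1, q.2.1) = (q'.1, q'.2.1) := e1.trans e2.symm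
      rw [Prod.mk.injEq] at e3
      exact Prod.ext e3.1 (Prod.ext e3.2 hqq)
    rw [← Finset.card_image_of_injOn hinj]
    refine card_of_diam ?_
    intro x hx y hy
    obtain ⟨q, hq, rfl⟩ := Finset.mem_image.1 hx
    obtain ⟨q', hq', rfl⟩ := Finset.mem_image.1 hy
    obtain ⟨hq1, hq2⟩ := Finset.mem_filter.1 hq
    obtain ⟨hq1', hq2'⟩ := Finset.mem_filter.1 hq'
    have e3 : (q.1, q.2.1) = (q'.1, q'.2.1) := hq2.trans hq2'.symm
    rw [Prod.mk.injEq] at e3
    have hb := hS q hq1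
    have hb' := hS q' hq1'
    have hw := hwin q hb q' hb'
    rw [e3.1, e3.2] at hw
    refine (sub_le_of_log hb.2.2.1 hb'.2.2.1 (hbx q' hb').2.2 hE0 (by linarith)).trans hDle
  have fib23 : ∀ (S : Finset (ℕ × ℕ × ℕ)), (∀ q ∈ S, q ∈ BX σ κ w μ h) → ∀ b : ℕ × ℕ,
      (S.filter fun q => q.2 = b).card ≤ D + 1 := by
    intro S hS b
    have hinj : Set.InjOn (fun q : ℕ × ℕ × ℕ => q.1)
        (S.filter fun q => q.2 = b : Finset (ℕ × ℕ × ℕ)) := by
      intro q hq q' hq' hqq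
      have e1 := (Finset.mem_filter.1 hq).2
      have e2 := (Finset.mem_filter.1 hq').2
      exact Prod.ext hqq (e1.trans e2.symm)
    rw [← Finset.card_image_of_injOn hinj]
    refine card_of_diam ?_
    intro x hx y hy
    obtain ⟨q, hq, rfl⟩ := Finset.mem_image.1 hx
    obtain ⟨q', hq', rfl⟩ := Finset.mem_image.1 hy
    obtain ⟨hq1, hq2⟩ := Finset.mem_filter.1 hq
    obtain ⟨hq1', hq2'⟩ := Finset.mem_filter.1 hq'
    have e3 : q.2 = q'.2 := hq2.trans hq2'.symm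
    have hb := hS q hq1
    have hb' := hS q' hq1'
    have hw := hwin q hb q' hb'
    rw [e3] at hw
    refine (sub_le_of_log hb.1 hb'.1 (hbx q' hb').1 hE0 (by linarith)).trans hDle
  set P := LPP Y with hP
  have hsub : ∀ q ∈ Bad, q.1 ∈ A ∧ q.2.1 ∈ A ∧ q.2.2 ∈ A := by
    intro q hq
    have hb := hmemB q hq
    obtain ⟨y1, y2, y3⟩ := hbx q hb
    exact ⟨hmemA _ hb.1 y1, hmemA _ hb.2.1 y2, hmemA _ hb.2.2.1 y3⟩
  have c1 : B1.card ≤ (D + 1) * (P ×ˢ A).card :=
    Finset.card_le_mul_card_image_of_maps_to (f := fun q => (q.1, q.2.1)) (fun q hq =>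
      Finset.mem_product.2 ⟨(Finset.mem_filter.1 hq).2, (hsub q (Finset.mem_filter.1 hq).1).2.1⟩)
      _ fun b _ => fib12 B1 (fun q hq => hmemB q (Finset.mem_filter.1 hq).1) b
  have c2 : B2.card ≤ (D + 1) * (A ×ˢ P).card :=
    Finset.card_le_mul_card_image_of_maps_to (f := fun q => (q.1, q.2.1)) (fun q hq =>
      Finset.mem_product.2 ⟨(hsub q (Finset.mem_filter.1 hq).1).1, (Finset.mem_filter.1 hq).2⟩)
      _ fun b _ => fib12 B2 (fun q hq => hmemB q (Finset.mem_filter.1 hq).1) b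
  have c3 : B3.card ≤ (D + 1) * (A ×ˢ P).card :=
    Finset.card_le_mul_card_image_of_maps_to (f := fun q => q.2) (fun q hq =>
      Finset.mem_product.2 ⟨(hsub q (Finset.mem_filter.1 hq).1).2.1, (Finset.mem_filter.1 hq).2⟩)
      _ fun b _ => fib23 B3 (fun q hq => hmemB q (Finset.mem_filter.1 hq).1) b
  have hBadcard : (Bad.card : ℝ) ≤ C1 * w * (Real.exp w * Real.exp (w / 2)) := by
    have e1 : Bad.card ≤ 3 * ((D + 1) * (A.card * P.card)) := by
      refine (Finset.card_le_card hcov).trans ?_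
      have u1 := Finset.card_union_le (B1 ∪ B2) B3
      have u2 := Finset.card_union_le B1 B2
      rw [Finset.card_product] at c1 c2 c3
      rw [mul_comm P.card A.card] at c1
      omega
    have e2 : (Bad.card : ℝ) ≤ 3 * (((D + 1 : ℕ) : ℝ) * ((A.card : ℝ) * P.card)) := by
      exact_mod_cast e1
    have e3 : (P.card : ℝ) ≤ 4 * √Y * (2 * w) :=
      (LPP_card hY1).trans (mul_le_mul_of_nonneg_left hlogY (by positivity))
    have e4 : √Y = √(μ ^ 2 * Real.exp 1) * Real.exp (w / 2) := by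
      rw [hY, Real.sqrt_mul (by positivity), ← Real.exp_half]
    have e5 : (A.card : ℝ) * P.card ≤ Y * (4 * √Y * (2 * w)) :=
      mul_le_mul hcardA e3 (Nat.cast_nonneg _) hY0.le
    have e6 : 3 * (((D + 1 : ℕ) : ℝ) * ((A.card : ℝ) * P.card)) ≤
        3 * (((D + 1 : ℕ) : ℝ) * (Y * (4 * √Y * (2 * w)))) := by gcongr
    refine e2.trans (e6.trans (le_of_eq ?_))
    rw [e4, hY, hC1]; ring
  -- the contribution of the bad triples
  have hbad : ∑ q ∈ Bad, tw q.1 * tw q.2.1 * tw q.2.2 ≤ κ * σ ^ 2 * Real.exp (-w) := by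
    have e1 : ∑ q ∈ Bad, tw q.1 * tw q.2.1 * tw q.2.2 ≤ (Bad.card : ℝ) * M := by
      rw [← nsmul_eq_mul]
      exact Finset.sum_le_card_nsmul _ _ _ fun q hq => htw q (hmemB q hq)
    have e2 : (Bad.card : ℝ) * M ≤ C1 * w * (Real.exp w * Real.exp (w / 2)) * M :=
      mul_le_mul_of_nonneg_right hBadcard hM0.le
    have e3 : C1 * w * (Real.exp w * Real.exp (w / 2)) * M =
        8 * Real.exp 1 * C1 * (w ^ 4 * Real.exp (-(w / 2))) * Real.exp (-w) := by
      have e4 : Real.exp w * Real.exp (w / 2) * Real.exp (-(3 * w)) =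
          Real.exp (-(w / 2)) * Real.exp (-w) := by
        rw [← Real.exp_add, ← Real.exp_add, ← Real.exp_add]; congr 1; ring
      rw [hM]
      calc _ = 8 * Real.exp 1 * C1 * w ^ 4 *
            (Real.exp w * Real.exp (w / 2) * Real.exp (-(3 * w))) := by ring
        _ = _ := by rw [e4]; ring
    rw [e3] at e2
    exact e1.trans (e2.trans (mul_le_mul_of_nonneg_right hw1.le (Real.exp_pos _).le))
  -- the good triples
  set G := BF.filter fun q => q ∈ PT σ κ w μ h with hG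
  have hsplit : ∑ q ∈ BF, tw q.1 * tw q.2.1 * tw q.2.2 ≤
      ∑ q ∈ G, tw q.1 * tw q.2.1 * tw q.2.2 + ∑ q ∈ Bad, tw q.1 * tw q.2.1 * tw q.2.2 := by
    rw [← Finset.sum_filter_add_sum_filter_not BF fun q => q ∈ PT σ κ w μ h]
    refine add_le_add le_rfl (le_of_eq ?_)
    symm
    refine Finset.sum_subset ?_ ?_
    · intro q hq
      obtain ⟨h1, h2, -⟩ := Finset.mem_filter.1 hq
      exact Finset.mem_filter.2 ⟨h1, h2⟩
    · intro q hq hq'
      obtain ⟨h1, h2⟩ := Finset.mem_filter.1 hq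
      by_contra h3
      exact hq' (Finset.mem_filter.2 ⟨h1, h2, h3⟩)
  have hgood : ∑ q ∈ G, tw q.1 * tw q.2.1 * tw q.2.2 ≤ ((PT σ κ w μ h).ncard : ℝ) * M := by
    have e1 : ∑ q ∈ G, tw q.1 * tw q.2.1 * tw q.2.2 ≤ (G.card : ℝ) * M := by
      rw [← nsmul_eq_mul]
      exact Finset.sum_le_card_nsmul _ _ _ fun q hq =>
        htw q ((hmemBF q).1 (Finset.mem_filter.1 hq).1)
    have e2 : (G.card : ℝ) ≤ ((PT σ κ w μ h).ncard : ℝ) := by
      rw [Set.ncard_eq_toFinset_card _ hfin]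
      have : G ⊆ hfin.toFinset := fun q hq => by
        rw [Set.Finite.mem_toFinset]; exact (Finset.mem_filter.1 hq).2
      exact_mod_cast Finset.card_le_card this
    exact e1.trans (mul_le_mul_of_nonneg_right e2 hM0.le)
  have hfinal : 2 * κ * σ ^ 2 * Real.exp (-w) ≤ ((PT σ κ w μ h).ncard : ℝ) * M := by
    have e1 : 3 * κ * σ ^ 2 * Real.exp (-w) ≤ ∑ q ∈ BF, tw q.1 * tw q.2.1 * tw q.2.2 := by
      have e2 := mul_le_mul_of_nonneg_left hbox (Real.exp_pos (-w)).le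
      have e4 : Real.exp (-w) * Real.exp w = 1 := by
        rw [← Real.exp_add, neg_add_cancel, Real.exp_zero]
      calc 3 * κ * σ ^ 2 * Real.exp (-w) = Real.exp (-w) * (3 * κ * σ ^ 2) := by ring
        _ ≤ _ := e2
        _ = (Real.exp (-w) * Real.exp w) * ∑ q ∈ BF, tw q.1 * tw q.2.1 * tw q.2.2 := by
            rw [mul_assoc]
        _ = _ := by rw [e4, one_mul]
    have e3 := e1.trans hsplit
    nlinarith [hgood, hbad]
  -- conclusion
  have hw0 : 0 < w := by linarith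
  have hM' : M = 8 * Real.exp 1 * w ^ 3 / Real.exp (3 * w) := by
    rw [hM, Real.exp_neg]; rfl
  have e1 : 1 / (4 * Real.exp 1) * κ * σ ^ 2 * Real.exp (2 * w) / w ^ 3 =
      2 * κ * σ ^ 2 * Real.exp (-w) / M := by
    have e2 : Real.exp (2 * w) = Real.exp (-w) * Real.exp (3 * w) := by
      rw [← Real.exp_add]; congr 1; ring
    rw [hM', e2]
    have := (Real.exp_pos (3 * w)).ne'
    have h9 := (Real.exp_pos 1).ne'
    field_simp
    ring
  rw [e1, div_le_iff₀ hM0]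
  exact hfinal

end SMC
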