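import Pool.Agent.SMC.LocB
import Pool.Agent.SMC.GeoB
import Pool.Agent.SMC.SecM

/-!
# SMC.MainP: the multipliers with a chain have positive density in every interval

PROOF. `κ, η0` from `geoB`, `σ0` for `β`; `σ = ρ/(40 B)`, `ρ0 = min (40 B σ0) ((A-1)/2)`, `h = (1/2 - β)(1 - 1/μ)/μ`; `w` large. For every
`q = (p, m, l) ∈ PT σ κ w μ h` let `I_q = [α1, α2]` be the interval of `geoB`: `|α - μ| ≤ 20Bσ ≤ ρ` and `Rob ε β α p m l` for `α ∈ I_q`, and
`p ≥ e^(w-4σ) ≥ n`. So `I_q ⊆ E`, `E` = the set in the statement; `E` is measurable (countable union of sets defined by inequalities in `α`; it is a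
countable union over `p, m, l` of intersections of closed sets). Let `G(t) = ∑_{q ∈ PT} 1[t ∈ I_q]`. Then `G(t) ≤ NN β σ w μ t`: for fixed
`t ∈ I_q` the numbers `l = ⌊tm + β⌋₊` and `p = ⌈(m-β)/t⌉₊` are determined by `m` (from `Ch`: `(m - β)/t < p` and
`(p - 1) t + β < m` as `tp + β ≤ m + 1 - ε` and `t > 1`; `m - β > 0` since `tp > 0`..., `m ≥ 2|β| + ..` for large `w`), so different
`q` with `t ∈ I_q` have different `m`, and these `m` are counted by `NN` (`|log m - w - log μ| ≤ 4σ`, `m ≤ exp(w + log μ + 4σ)`). Hence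
`#PT · η0/(4 B² e^(w+1)) ≤ ∑_q vol I_q = ∫_E G ≤ (vol E)^(1/2) (∫_{|t-μ|≤ρ} NN²)^(1/2)` (`l ≤ μ² e^(w+4σ)`; Cauchy-Schwarz,
`ENNReal.lintegral_mul_le_Lp_mul_Lq` or as in the proof of `MCC.box_pos`), and with `pt_count` and `sec_m` (`a = μ - ρ ≥ (1+A)/2`, `b = μ + ρ`):
`vol E ≥ (c κ σ² e^(2w) w^(-3) η0/(12 B² e^w))² / (C σ² 2ρ e^(2w) w^(-6)) = c' σ⁴/(σ² ρ) = c'' ρ`.
-/

namespace SMC

open MeasureTheory Filter

private lemma exp_third : Real.exp (1 / 3) ≤ 2 := by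
  by_contra hcon
  push Not at hcon
  have h1 : (2 : ℝ) ^ 3 < Real.exp (1 / 3) ^ 3 := pow_lt_pow_left₀ hcon (by norm_num) (by norm_num)
  rw [← Real.exp_nat_mul] at h1
  have h2 : Real.exp ((3 : ℕ) * (1 / 3)) = Real.exp 1 := by norm_num
  rw [h2] at h1
  have h3 := Real.exp_one_lt_d9
  norm_num at h1
  linarith

/-- Chain data determine `l` and `p` from `m`. -/
private lemma ch_det {ε β t : ℝ} {p m l : ℕ} (hε : 0 < ε) (ht : 1 < t) (hp : p ≠ 0)
    (h : Ch ε β t p m l) : ⌊t * m + β⌋₊ = l ∧ ⌈((m : ℝ) - β) / t⌉₊ = p := by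
  obtain ⟨h1, h2, h3, h4, -⟩ := h
  have ht0 : 0 < t := by linarith
  constructor
  · rw [Nat.floor_eq_iff (by
      have : (0 : ℝ) ≤ l := Nat.cast_nonneg l
      linarith)]
    constructor <;> linarith
  · rw [Nat.ceil_eq_iff hp]
    have hp1 : 1 ≤ p := Nat.one_le_iff_ne_zero.mpr hp
    constructor
    · rw [Nat.cast_sub hp1, Nat.cast_one, lt_div_iff₀ ht0]
      nlinarith
    · rw [div_le_iff₀ ht0]
      nlinarith

private lemma cs (f : ℝ → ENNReal) (hf : Measurable f) (U : Set ℝ) (hU : MeasurableSet U)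
    (h0 : ∀ t, t ∉ U → f t = 0) :
    (∫⁻ t, f t) ^ 2 ≤ (∫⁻ t, f t ^ 2) * volume U := by
  have h1 : ∫⁻ t, f t = ∫⁻ t, (f * U.indicator (fun _ => (1 : ENNReal))) t := by
    congr 1
    funext t
    simp only [Pi.mul_apply]
    by_cases ht : t ∈ U
    · simp [ht]
    · simp [ht, h0 t ht]
  have h2 := ENNReal.lintegral_mul_le_Lp_mul_Lq (volume : Measure ℝ)
    (p := 2) (q := 2) (by
      rw [Real.holderConjugate_iff]
      norm_num) (f := f) (g := U.indicator (fun _ => (1 : ENNReal))) hf.aemeasurable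
    ((measurable_const.indicator hU).aemeasurable)
  rw [← h1] at h2
  have h3 : ∫⁻ t, (U.indicator (fun _ => (1 : ENNReal)) t) ^ (2 : ℝ) = volume U := by
    have : (fun t => (U.indicator (fun _ => (1 : ENNReal)) t) ^ (2 : ℝ)) =
        U.indicator (fun _ => (1 : ENNReal)) := by
      funext t
      by_cases ht : t ∈ U <;> simp [ht]
    rw [this, lintegral_indicator hU]
    simp
  rw [h3] at h2
  have h4 : (∫⁻ t, f t ^ (2 : ℝ)) = ∫⁻ t, f t ^ 2 := by
    congr 1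
    funext t
    exact_mod_cast ENNReal.rpow_natCast (f t) 2
  rw [h4] at h2
  calc (∫⁻ t, f t) ^ 2 ≤ ((∫⁻ t, f t ^ 2) ^ ((1 : ℝ) / 2) * (volume U) ^ ((1 : ℝ) / 2)) ^ 2 :=
        pow_le_pow_left' h2 2
    _ = (∫⁻ t, f t ^ 2) * volume U := by
        rw [mul_pow, ← ENNReal.rpow_natCast, ← ENNReal.rpow_natCast, ← ENNReal.rpow_mul,
          ← ENNReal.rpow_mul]
        norm_num

theorem main_pos {A B ε : ℝ} (hA : 1 < A) (hAB : A < B) (hε : 0 < ε) (hε1 : ε ≤ 1 / 4)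
    (hε2 : ε ≤ (A - 1) / (8 * (A + 1))) : ∃ c : ℝ, 0 < c ∧ ∀ β : ℝ, ∃ ρ0 : ℝ, 0 < ρ0 ∧
    ∀ μ ρ : ℝ, A ≤ μ → μ ≤ B → 0 < ρ → ρ ≤ ρ0 → ∀ n : ℕ,
      ENNReal.ofReal (c * ρ) ≤ volume {t : ℝ | |t - μ| ≤ ρ ∧ ∃ p m l : ℕ, n ≤ p ∧ Rob ε β t p m l} := by
  classical
  obtain ⟨κ, η0, hκ, hη0, hgeo⟩ := geoB hA hAB hε hε1 hε2
  obtain ⟨c0, hc0, hcount⟩ := pt_count
  have hB1 : 1 ≤ B := by linarith
  have hB0 : 0 < B := by linarith
  obtain ⟨C, hC, hsec⟩ := sec_m hB1
  refine ⟨c0 ^ 2 * κ ^ 2 * η0 ^ 2 / (51200 * B ^ 6 * C), by positivity, fun β => ?_⟩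
  obtain ⟨σ0, hσ0, hσ12, hg⟩ := hgeo β
  refine ⟨min (20 * B * σ0) ((A - 1) / 2), lt_min (by positivity) (by linarith),
    fun μ ρ hAμ hμB hρ hρ0 n => ?_⟩
  have hρ1 : ρ ≤ 20 * B * σ0 := hρ0.trans (min_le_left _ _)
  have hρ2 : ρ ≤ (A - 1) / 2 := hρ0.trans (min_le_right _ _)
  obtain ⟨σ, hσdef⟩ : ∃ σ : ℝ, σ = ρ / (20 * B) := ⟨_, rfl⟩
  have hσρ : 20 * B * σ = ρ := by
    rw [hσdef]
    field_simp
  have hσ : 0 < σ := by
    rw [hσdef]
    positivity
  have hσσ0 : σ ≤ σ0 := by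
    by_contra hcon
    push Not at hcon
    have : 20 * B * σ0 < 20 * B * σ := by
      apply mul_lt_mul_of_pos_left hcon
      positivity
    linarith
  have hσ12' : σ ≤ 1 / 12 := hσσ0.trans hσ12
  have hμ1 : 1 ≤ μ := by linarith
  have hμ0 : 0 < μ := by linarith
  obtain ⟨h, hh⟩ : ∃ h : ℝ, h = (1 / 2 - β) * (1 - 1 / μ) / μ := ⟨_, rfl⟩
  have ev1 := hg μ σ hAμ hμB hσ hσσ0
  have ev2 := hcount σ κ μ h hσ hσ12' hκ hμ1
  have ev3 := hsec β (μ - ρ) (μ + ρ) μ σ (by linarith) (by linarith) hμ1 hμB hσ hσ12'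
  have ev4 : ∀ᶠ w : ℝ in atTop, Real.log (n + 1) + 4 * σ ≤ w := eventually_ge_atTop _
  obtain ⟨w, hw1, hw2, hw3, hw4, hw0⟩ :=
    (ev1.and (ev2.and (ev3.and (ev4.and (eventually_gt_atTop (0 : ℝ)))))).exists
  obtain ⟨hfin, hcard⟩ := hw2
  -- the intervals
  have key : ∀ q : ℕ × ℕ × ℕ, q ∈ PT σ κ w μ h → ∃ α1 α2 : ℝ, η0 / (4 * q.2.2) ≤ α2 - α1 ∧
      ∀ α ∈ Set.Icc α1 α2, |α - μ| ≤ 20 * B * σ ∧ Ch ε β α q.1 q.2.1 q.2.2 := by
    rintro ⟨p, m, l⟩ ⟨hp, hm, hl, h1, h2, h3, h4⟩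
    refine hw1 p m l hp.pos hm.pos hl.pos h1 h2 h3 ?_
    rw [← hh]
    exact h4
  choose! a1 a2 hlen hin using key
  obtain ⟨S, hS⟩ : ∃ S : Finset (ℕ × ℕ × ℕ), S = hfin.toFinset := ⟨_, rfl⟩
  have hSmem : ∀ q, q ∈ S ↔ q ∈ PT σ κ w μ h := by
    intro q
    rw [hS]
    exact hfin.mem_toFinset
  have hScard : (S.card : ℝ) = ((PT σ κ w μ h).ncard : ℝ) := by
    rw [hS, Set.ncard_eq_toFinset_card _ hfin]
  obtain ⟨G, hG⟩ : ∃ G : ℝ → ENNReal, G = fun t =>
      ∑ q ∈ S, (Set.Icc (a1 q) (a2 q)).indicator (fun _ => (1 : ENNReal)) t := ⟨_, rfl⟩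
  obtain ⟨U, hU⟩ : ∃ U : Set ℝ, U = ⋃ q ∈ S, Set.Icc (a1 q) (a2 q) := ⟨_, rfl⟩
  have hUm : MeasurableSet U := by
    rw [hU]
    exact Finset.measurableSet_biUnion _ (fun q _ => measurableSet_Icc)
  have hGm : Measurable G := by
    rw [hG]
    exact Finset.measurable_sum _ (fun q _ => measurable_const.indicator measurableSet_Icc)
  have hG0 : ∀ t, t ∉ U → G t = 0 := by
    intro t ht
    rw [hG]
    refine Finset.sum_eq_zero (fun q hq => ?_)
    refine Set.indicator_of_notMem (fun hmem => ht ?_) _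
    rw [hU]
    exact Set.mem_biUnion hq hmem
  have hcs := cs G hGm U hUm hG0
  -- `U` is contained in the set of the statement
  have hUE : U ⊆ {t : ℝ | |t - μ| ≤ ρ ∧ ∃ p m l : ℕ, n ≤ p ∧ Rob ε β t p m l} := by
    intro t ht
    rw [hU] at ht
    simp only [Set.mem_iUnion] at ht
    obtain ⟨q, hq, htq⟩ := ht
    have hq' := (hSmem q).mp hq
    obtain ⟨h1, h2⟩ := hin q hq' t htq
    rw [hσρ] at h1
    obtain ⟨hp, hm, hl, h3, h4, h5, h6⟩ := hq'
    refine ⟨h1, q.1, q.2.1, q.2.2, ?_, hp, hm, hl, h2⟩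
    have h7 : Real.log (n + 1) ≤ Real.log q.1 := by
      have := (abs_le.mp h3).1
      linarith
    have hpp : (0 : ℝ) < q.1 := by exact_mod_cast hp.pos
    have h8 : (n : ℝ) + 1 ≤ q.1 := (Real.log_le_log_iff (by positivity) hpp).mp h7
    have h9 : (n : ℝ) ≤ q.1 := by linarith
    exact_mod_cast h9
  -- `G ≤ NN`
  have hGNN : ∀ t, G t ^ 2 ≤ (Set.Icc (μ - ρ) (μ + ρ)).indicator
      (fun t => (NN β σ w μ t : ENNReal) ^ 2) t := by
    intro t
    by_cases htU : t ∈ U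
    · have htE := hUE htU
      have htI : t ∈ Set.Icc (μ - ρ) (μ + ρ) := by
        have := abs_le.mp htE.1
        constructor <;> linarith [this.1, this.2]
      rw [Set.indicator_of_mem htI]
      have ht1 : 1 < t := by linarith [htI.1]
      refine pow_le_pow_left' ?_ 2
      have hGc : G t = ((S.filter (fun q => t ∈ Set.Icc (a1 q) (a2 q))).card : ENNReal) := by
        rw [hG]
        simp only [Set.indicator_apply]
        rw [Finset.sum_boole]
      rw [hGc]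
      have : (S.filter (fun q => t ∈ Set.Icc (a1 q) (a2 q))).card ≤ NN β σ w μ t := by
        unfold NN
        refine Finset.card_le_card_of_injOn (fun q => q.2.1) ?_ ?_
        · intro q hq
          simp only [Finset.coe_filter, Set.mem_ofPred_eq] at hq
          obtain ⟨hqS, hqt⟩ := hq
          have hq' := (hSmem q).mp hqS
          obtain ⟨-, h2⟩ := hin q hq' t hqt
          obtain ⟨hp, hm, hl, h3, h4, h5, h6⟩ := hq'
          obtain ⟨h7, h8⟩ := ch_det hε ht1 hp.ne_zero h2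
          simp only [Finset.coe_filter, Set.mem_ofPred_eq, Finset.mem_Icc]
          refine ⟨⟨hm.one_le, ?_⟩, hm, h4, ?_, ?_⟩
          · rw [Nat.le_floor_iff (Real.exp_pos _).le]
            have hmp : (0 : ℝ) < q.2.1 := by exact_mod_cast hm.pos
            rw [← Real.exp_log hmp]
            apply Real.exp_le_exp.mpr
            have := (abs_le.mp h4).2
            linarith
          · rw [h7]
            exact hl
          · rw [h8]
            exact hp
        · intro q hq q' hq' hqq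
          simp only [Finset.coe_filter, Set.mem_ofPred_eq] at hq hq'
          obtain ⟨hqS, hqt⟩ := hq
          obtain ⟨hqS', hqt'⟩ := hq'
          have hq1 := (hSmem q).mp hqS
          have hq2 := (hSmem q').mp hqS'
          obtain ⟨-, h2⟩ := hin q hq1 t hqt
          obtain ⟨-, h2'⟩ := hin q' hq2 t hqt'
          obtain ⟨h7, h8⟩ := ch_det hε ht1 hq1.1.ne_zero h2
          obtain ⟨h7', h8'⟩ := ch_det hε ht1 hq2.1.ne_zero h2'
          have hm : q.2.1 = q'.2.1 := hqq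
          rw [← hm] at h7' h8'
          refine Prod.ext (h8.symm.trans h8') (Prod.ext hm (h7.symm.trans h7'))
      exact_mod_cast this
    · rw [hG0 t htU]
      simp
  have hG2 : ∫⁻ t, G t ^ 2 ≤ ENNReal.ofReal (C * σ ^ 2 * (2 * ρ) * Real.exp (2 * w) / w ^ 6) := by
    calc ∫⁻ t, G t ^ 2 ≤ ∫⁻ t, (Set.Icc (μ - ρ) (μ + ρ)).indicator
          (fun t => (NN β σ w μ t : ENNReal) ^ 2) t := lintegral_mono hGNN
      _ = ∫⁻ t in Set.Icc (μ - ρ) (μ + ρ), (NN β σ w μ t : ENNReal) ^ 2 :=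
          lintegral_indicator measurableSet_Icc _
      _ ≤ _ := by
          have : (μ + ρ) - (μ - ρ) = 2 * ρ := by ring
          rw [this] at hw3
          exact hw3
  -- the first moment
  obtain ⟨δ, hδ⟩ : ∃ δ : ℝ, δ = η0 / (8 * B ^ 2 * Real.exp w) := ⟨_, rfl⟩
  have hδ0 : 0 < δ := by
    rw [hδ]
    positivity
  have hlen' : ∀ q ∈ S, δ ≤ a2 q - a1 q := by
    intro q hq
    have hq' := (hSmem q).mp hq
    refine le_trans ?_ (hlen q hq')
    obtain ⟨hp, hm, hl, h3, h4, h5, h6⟩ := hq'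
    have hlp : (0 : ℝ) < q.2.2 := by exact_mod_cast hl.pos
    have hle : (q.2.2 : ℝ) ≤ 2 * B ^ 2 * Real.exp w := by
      have h7 : Real.log q.2.2 ≤ w + 2 * Real.log μ + 1 / 3 := by
        have := (abs_le.mp h5).2
        linarith
      calc (q.2.2 : ℝ) = Real.exp (Real.log q.2.2) := (Real.exp_log hlp).symm
        _ ≤ Real.exp (w + 2 * Real.log μ + 1 / 3) := Real.exp_le_exp.mpr h7
        _ = Real.exp w * μ ^ 2 * Real.exp (1 / 3) := by
            rw [Real.exp_add, Real.exp_add]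
            congr 2
            rw [mul_comm, Real.exp_mul, Real.exp_log hμ0]
            norm_num
        _ ≤ Real.exp w * B ^ 2 * 2 := by
            have := exp_third
            have hμB2 : μ ^ 2 ≤ B ^ 2 := pow_le_pow_left₀ hμ0.le hμB 2
            gcongr
        _ = 2 * B ^ 2 * Real.exp w := by ring
    rw [hδ]
    apply div_le_div_of_nonneg_left hη0.le (by positivity)
    linarith
  have hG1 : ENNReal.ofReal (S.card * δ) ≤ ∫⁻ t, G t := by
    have h1 : ∫⁻ t, G t = ∑ q ∈ S, volume (Set.Icc (a1 q) (a2 q)) := by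
      rw [hG]
      rw [lintegral_finsetSum _ (fun q _ => measurable_const.indicator measurableSet_Icc)]
      refine Finset.sum_congr rfl (fun q _ => ?_)
      rw [lintegral_indicator measurableSet_Icc]
      simp
    rw [h1]
    have h2 : ENNReal.ofReal (S.card * δ) = ∑ q ∈ S, ENNReal.ofReal δ := by
      rw [Finset.sum_const, nsmul_eq_mul, ENNReal.ofReal_mul (by positivity),
        ENNReal.ofReal_natCast]
    rw [h2]
    refine Finset.sum_le_sum (fun q hq => ?_)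
    rw [Real.volume_Icc]
    exact ENNReal.ofReal_le_ofReal (hlen' q hq)
  -- conclusion
  obtain ⟨F, hF⟩ : ∃ F : ℝ, F = C * σ ^ 2 * (2 * ρ) * Real.exp (2 * w) / w ^ 6 := ⟨_, rfl⟩
  have hF0 : 0 < F := by
    rw [hF]
    positivity
  have h1 : ENNReal.ofReal ((S.card * δ) ^ 2) ≤ ENNReal.ofReal F * volume U := by
    calc ENNReal.ofReal ((S.card * δ) ^ 2) = (ENNReal.ofReal (S.card * δ)) ^ 2 := by
          rw [ENNReal.ofReal_pow (by positivity)]
      _ ≤ (∫⁻ t, G t) ^ 2 := pow_le_pow_left' hG1 2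
      _ ≤ (∫⁻ t, G t ^ 2) * volume U := hcs
      _ ≤ ENNReal.ofReal F * volume U := by
          rw [hF]
          exact mul_le_mul_left hG2 _
  have h2 : ENNReal.ofReal ((S.card * δ) ^ 2 / F) ≤ volume U := by
    rw [ENNReal.ofReal_div_of_pos hF0]
    exact ENNReal.div_le_of_le_mul' h1
  refine le_trans (ENNReal.ofReal_le_ofReal ?_) (h2.trans (measure_mono hUE))
  -- the numerical inequality
  have hN : c0 * κ * σ ^ 2 * Real.exp (2 * w) / w ^ 3 ≤ S.card := by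
    rw [hScard]
    exact hcard
  have hN' : (c0 * κ * σ ^ 2 * Real.exp (2 * w) / w ^ 3 * δ) ^ 2 ≤ (S.card * δ) ^ 2 := by
    apply pow_le_pow_left₀ (by positivity)
    exact mul_le_mul_of_nonneg_right hN hδ0.le
  calc c0 ^ 2 * κ ^ 2 * η0 ^ 2 / (51200 * B ^ 6 * C) * ρ
      = (c0 * κ * σ ^ 2 * Real.exp (2 * w) / w ^ 3 * δ) ^ 2 / F := by
        rw [hF, hδ]
        have he : Real.exp (2 * w) = Real.exp w ^ 2 := by
          rw [← Real.exp_nat_mul]
          norm_num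
        rw [he]
        have hρ' : ρ = 20 * B * σ := hσρ.symm
        rw [hρ']
        have := Real.exp_pos w
        field_simp
        ring
    _ ≤ (S.card * δ) ^ 2 / F := div_le_div_of_nonneg_right hN' hF0.le

end SMC
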