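import Pool.Agent.SMC.LocB
import Pool.Agent.SMC.GeoB
import Pool.Agent.SMC.SecM

/-!
# SMC.MainQ: many chains for a positive proportion of the multipliers in every interval

The quantitative form of `MainP` (see there; a proof of `MainP.main_pos` may be on main already, its parts can be copied).

PROOF. `κ, η0` from `geoB`, `σ0` for `β`; `σ = ρ/(40 B)`, `ρ0 = min (40 B σ0) ((A-1)/2)`, `h = (1/2 - β)(1 - 1/μ)/μ`; `w` large. `J = ⌊1/(9σ)⌋₊ ≥ 1`,
centres `w_j = w + 9σj`, `j < J` (so `w_j ≤ w + 1`). The sets `PT σ κ w_j μ h` are pairwise disjoint (`|log p - w_j| ≤ 4σ`). For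
`q = (p, m, l)` in one of them let `I_q = [α1, α2]` be the interval of `geoB` (for `w_j`): `|α - μ| ≤ 20Bσ ≤ ρ` and
`Rob ε β α p m l` for `α ∈ I_q`. `G(t) = ∑_q 1[t ∈ I_q]` (all `q`, all `j`). Then
(1) `∫ G = ∑ vol I_q ≥ J · c κ σ² e^(2w)/(w+1)^3 · η0/(4 B² e^(w+2)) ≥ c' σ e^w/w^3` (`pt_count`, for each of the finitely many `j` and large `w`; `J ≥ 1/(18σ)`).
(2) `G(t) ≤ NN β (1/12) w μ t + NN β (1/12) (w + 1/2) μ t + NN β (1/12) (w+1) μ t`: for fixed `t ∈ I_q` the numbers `l = ⌊tm + β⌋₊` and `p = ⌈(m-β)/t⌉₊` are determined by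
`m` (see `MainP`), so different `q` with `t ∈ I_q` have different `m`, and `log m - log μ ∈ [w - 4σ, w + 1 + 4σ]`
is covered by the three windows of half width `1/3` (`4σ ≤ 1/3`). So by `sec_m` (`σ = 1/12`, `a = μ - ρ ≥ (1+A)/2`, `b = μ + ρ`; `(x+y+z)² ≤ 3(x²+y²+z²)`)
`∫_{|t-μ|≤ρ} G² ≤ C ρ e^(2w)/w^6`.
(3) `G` vanishes outside `|t-μ| ≤ ρ`. Let `θ = (∫G)/(4ρ) ≥ c1 e^w/w^3`, `A1 = {t : |t-μ| ≤ ρ, G(t) ≥ θ}`. `∫ G ≤ 2ρθ + ∫_{A1} G ≤ (∫G)/2 + (vol A1)^(1/2) (∫ G²)^(1/2)`, so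
`vol A1 ≥ (∫G)²/(4 ∫G²) ≥ c'² σ² e^(2w) w^(-6)/(4 C ρ e^(2w) w^(-6)) = c2 ρ`.
(4) `G(t)` is at most the number of the `p ≤ e^(w+2)` with `Rob ε β t p m l` for some `m`, `l` (`p` determines `m = ⌊tp+β⌋₊` and `l`, so different `q`
with `t ∈ I_q` have different `p`).
-/

namespace SMC

open MeasureTheory Filter

open Classical in
/-- The number of the `p ≤ e^(w+2)` with a robust chain. -/
noncomputable def cntR (ε β w t : ℝ) : ℕ :=
  ((Finset.Icc 1 ⌊Real.exp (w + 2)⌋₊).filter fun p : ℕ => ∃ m l : ℕ, Rob ε β t p m l).card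

/-- Chain data determine `l` and `p` from `m`. -/
private theorem MainQ_ch_det {ε β t : ℝ} {p m l : ℕ} (hε : 0 < ε) (ht : 1 < t) (hp : p ≠ 0)
    (h : Ch ε β t p m l) : ⌊t * m + β⌋₊ = l ∧ ⌈((m : ℝ) - β) / t⌉₊ = p ∧ ⌊t * p + β⌋₊ = m := by
  obtain ⟨h1, h2, h3, h4, -⟩ := h
  have ht0 : 0 < t := by linarith
  refine ⟨?_, ?_, ?_⟩
  · rw [Nat.floor_eq_iff (by
      have : (0 : ℝ) ≤ l := Nat.cast_nonneg l
      linarith)]
    constructor <;> linarith
  · rw [Nat.ceil_eq_iff hp]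
    have hp1 : 1 ≤ p := Nat.one_le_iff_ne_zero.mpr hp
    constructor
    · rw [Nat.cast_sub hp1, Nat.cast_one, lt_div_iff₀ ht0]
      nlinarith
    · rw [div_le_iff₀ ht0]
      nlinarith
  · rw [Nat.floor_eq_iff (by
      have : (0 : ℝ) ≤ m := Nat.cast_nonneg m
      linarith)]
    constructor <;> linarith

private theorem MainQ_cs (f : ℝ → ENNReal) (hf : Measurable f) (U : Set ℝ) (hU : MeasurableSet U)
    (h0 : ∀ t, t ∉ U → f t = 0) :
    (∫⁻ t, f t) ^ 2 ≤ (∫⁻ t, f t ^ 2) * volume U := by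
  have h1 : ∫⁻ t, f t = ∫⁻ t, (f * U.indicator (fun _ => (1 : ENNReal))) t := by
    congr 1
    funext t
    simp only [Pi.mul_apply]
    by_cases ht : t ∈ U
    · simp [ht]
    · simp [ht, h0 t ht]
  have h2 := ENNReal.lintegral_mul_le_Lp_mul_Lq (volume : Measure ℝ)
    (p := 2) (q := 2) (by
      rw [Real.holderConjugate_iff]
      norm_num) (f := f) (g := U.indicator (fun _ => (1 : ENNReal))) hf.aemeasurable
    ((measurable_const.indicator hU).aemeasurable)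
  rw [← h1] at h2
  have h3 : ∫⁻ t, (U.indicator (fun _ => (1 : ENNReal)) t) ^ (2 : ℝ) = volume U := by
    have : (fun t => (U.indicator (fun _ => (1 : ENNReal)) t) ^ (2 : ℝ)) =
        U.indicator (fun _ => (1 : ENNReal)) := by
      funext t
      by_cases ht : t ∈ U <;> simp [ht]
    rw [this, lintegral_indicator hU]
    simp
  rw [h3] at h2
  have h4 : (∫⁻ t, f t ^ (2 : ℝ)) = ∫⁻ t, f t ^ 2 := by
    congr 1
    funext t
    exact_mod_cast ENNReal.rpow_natCast (f t) 2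
  rw [h4] at h2
  calc (∫⁻ t, f t) ^ 2 ≤ ((∫⁻ t, f t ^ 2) ^ ((1 : ℝ) / 2) * (volume U) ^ ((1 : ℝ) / 2)) ^ 2 :=
        pow_le_pow_left' h2 2
    _ = (∫⁻ t, f t ^ 2) * volume U := by
        rw [mul_pow, ← ENNReal.rpow_natCast, ← ENNReal.rpow_natCast, ← ENNReal.rpow_mul,
          ← ENNReal.rpow_mul]
        norm_num

private theorem MainQ_meas (β σ w μ : ℝ) : Measurable (fun t => (NN β σ w μ t : ENNReal)) := by
  classical
  unfold NN
  simp only [Finset.card_filter, Nat.cast_sum, Nat.cast_ite, Nat.cast_one, Nat.cast_zero]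
  refine Finset.measurable_sum _ (fun m _ => ?_)
  refine Measurable.ite ?_ measurable_const measurable_const
  have hA : MeasurableSet {t : ℝ | (⌊t * m + β⌋₊).Prime} := by
    have h1 : Measurable (fun t : ℝ => ⌊t * m + β⌋₊) := Nat.measurable_floor.comp (by fun_prop)
    exact h1 (MeasurableSet.of_discrete (s := {n : ℕ | n.Prime}))
  have hB : MeasurableSet {t : ℝ | (⌈((m : ℝ) - β) / t⌉₊).Prime} := by
    have h1 : Measurable (fun t : ℝ => ⌈((m : ℝ) - β) / t⌉₊) :=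
      Nat.measurable_ceil.comp (measurable_const.div measurable_id)
    exact h1 (MeasurableSet.of_discrete (s := {n : ℕ | n.Prime}))
  exact (MeasurableSet.const _).inter ((MeasurableSet.const _).inter (hA.inter hB))

private theorem MainQ_int3 (U : Set ℝ) (f g h : ℝ → ENNReal) (hf : Measurable f) (hg : Measurable g)
    (hh : Measurable h) : ∫⁻ t in U, 3 * (f t ^ 2 + g t ^ 2 + h t ^ 2) =
      3 * ((∫⁻ t in U, f t ^ 2) + (∫⁻ t in U, g t ^ 2) + (∫⁻ t in U, h t ^ 2)) := by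
  have m1 : Measurable (fun t => f t ^ 2) := hf.pow_const 2
  have m2 : Measurable (fun t => g t ^ 2) := hg.pow_const 2
  have m3 : Measurable (fun t => h t ^ 2) := hh.pow_const 2
  have m12 : Measurable (fun t => f t ^ 2 + g t ^ 2) := m1.add m2
  have m123 : Measurable (fun t => f t ^ 2 + g t ^ 2 + h t ^ 2) := m12.add m3
  rw [lintegral_const_mul _ m123, lintegral_add_left m12, lintegral_add_left m1]

private theorem MainQ_sq3 (x y z : ENNReal) : (x + y + z) ^ 2 ≤ 3 * (x ^ 2 + y ^ 2 + z ^ 2) := by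
  rcases eq_or_ne x ⊤ with hx | hx
  · simp [hx]
  rcases eq_or_ne y ⊤ with hy | hy
  · simp [hy]
  rcases eq_or_ne z ⊤ with hz | hz
  · simp [hz]
  lift x to NNReal using hx
  lift y to NNReal using hy
  lift z to NNReal using hz
  norm_cast
  rw [← NNReal.coe_le_coe]
  push_cast
  nlinarith [sq_nonneg ((x : ℝ) - y), sq_nonneg ((x : ℝ) - z), sq_nonneg ((y : ℝ) - z)]

theorem main_pos2 {A B ε : ℝ} (hA : 1 < A) (hAB : A < B) (hε : 0 < ε) (hε1 : ε ≤ 1 / 4)
    (hε2 : ε ≤ (A - 1) / (8 * (A + 1))) : ∃ c1 c2 : ℝ, 0 < c1 ∧ 0 < c2 ∧ ∀ β : ℝ, ∃ ρ0 : ℝ, 0 < ρ0 ∧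
    ∀ μ ρ : ℝ, A ≤ μ → μ ≤ B → 0 < ρ → ρ ≤ ρ0 → ∀ᶠ w : ℝ in atTop,
      ENNReal.ofReal (c2 * ρ) ≤
        volume {t : ℝ | |t - μ| ≤ ρ ∧ c1 * (Real.exp w / w ^ 3) ≤ (cntR ε β w t : ℝ)} := by
  classical
  obtain ⟨κ, η0, hκ, hη0, hgeo⟩ := geoB hA hAB hε hε1 hε2
  obtain ⟨c0, hc0, hcount⟩ := pt_count
  have hB1 : 1 ≤ B := by linarith
  have hB0 : 0 < B := by linarith
  obtain ⟨C, hC, hsec⟩ := sec_m hB1
  refine ⟨c0 * κ * η0 / (138240 * B ^ 3), (c0 * κ * η0) ^ 2 / (34560 ^ 2 * 4 * B ^ 6 * C),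
    by positivity, by positivity, fun β => ?_⟩
  obtain ⟨σ0, hσ0, hσ12, hg⟩ := hgeo β
  refine ⟨min (20 * B * σ0) ((A - 1) / 2), lt_min (by positivity) (by linarith),
    fun μ ρ hAμ hμB hρ hρ0 => ?_⟩
  have hρ1 : ρ ≤ 20 * B * σ0 := hρ0.trans (min_le_left _ _)
  have hρ2 : ρ ≤ (A - 1) / 2 := hρ0.trans (min_le_right _ _)
  obtain ⟨σ, hσdef⟩ : ∃ σ : ℝ, σ = ρ / (20 * B) := ⟨_, rfl⟩
  have hσρ : 20 * B * σ = ρ := by
    rw [hσdef]
    field_simp
  have hσ : 0 < σ := by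
    rw [hσdef]
    positivity
  have hσσ0 : σ ≤ σ0 := by
    by_contra hcon
    push Not at hcon
    have : 20 * B * σ0 < 20 * B * σ := by
      apply mul_lt_mul_of_pos_left hcon
      positivity
    linarith
  have hσ12' : σ ≤ 1 / 12 := hσσ0.trans hσ12
  have hμ1 : 1 ≤ μ := by linarith
  have hμ0 : 0 < μ := by linarith
  obtain ⟨h, hh⟩ : ∃ h : ℝ, h = (1 / 2 - β) * (1 - 1 / μ) / μ := ⟨_, rfl⟩
  obtain ⟨J, hJ⟩ : ∃ J : ℕ, J = ⌊1 / (9 * σ)⌋₊ := ⟨_, rfl⟩
  have hx1 : 1 ≤ 1 / (9 * σ) := by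
    rw [le_div_iff₀ (by positivity)]
    linarith
  have hJ1 : (J : ℝ) ≤ 1 / (9 * σ) := by
    rw [hJ]
    exact Nat.floor_le (by linarith)
  have hJ0 : (1 : ℝ) ≤ J := by
    rw [hJ]
    exact_mod_cast (Nat.one_le_floor_iff _).2 hx1
  have hJ2 : 1 / (18 * σ) ≤ J := by
    have h1 : 1 / (9 * σ) < (J : ℝ) + 1 := by
      rw [hJ]
      exact Nat.lt_floor_add_one _
    have h2 : 1 / (18 * σ) = (1 / (9 * σ)) / 2 := by
      field_simp
      ring
    rw [h2]
    linarith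
  have hJ3 : 9 * σ * J ≤ 1 := by
    rw [le_div_iff₀ (by positivity)] at hJ1
    linarith
  have hshift : ∀ (P : ℝ → Prop) (c : ℝ), (∀ᶠ w in atTop, P w) → ∀ᶠ w in atTop, P (w + c) :=
    fun P c hP => (tendsto_atTop_add_const_right atTop c tendsto_id).eventually hP
  have ev1 := (Filter.eventually_all_finset (Finset.range J)).2
    (fun j _ => hshift _ (9 * σ * (j : ℝ)) (hg μ σ hAμ hμB hσ hσσ0))
  have ev2 := (Filter.eventually_all_finset (Finset.range J)).2
    (fun j _ => hshift _ (9 * σ * (j : ℝ)) (hcount σ κ μ h hσ hσ12' hκ hμ1))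
  have ev3 := hsec β (μ - ρ) (μ + ρ) μ (1 / 12) (by linarith) (by linarith) hμ1 hμB (by norm_num)
    le_rfl
  have ev4 := hshift _ (1 / 2) ev3
  have ev5 := hshift _ 1 ev3
  filter_upwards [ev1, ev2, ev3, ev4, ev5, eventually_ge_atTop (1 : ℝ)] with w hw1 hw2 hw3 hw4 hw5
    hw0
  have hwp : 0 < w := by linarith
  have hj1 : ∀ j ∈ Finset.range J, 9 * σ * (j : ℝ) + 9 * σ ≤ 1 := by
    intro j hj
    have h1 : (j : ℝ) + 1 ≤ J := by exact_mod_cast Finset.mem_range.1 hj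
    have h2 : 9 * σ * ((j : ℝ) + 1) ≤ 9 * σ * J := mul_le_mul_of_nonneg_left h1 (by positivity)
    linarith
  have hj0 : ∀ j : ℕ, 0 ≤ 9 * σ * (j : ℝ) := fun j => by positivity
  -- the intervals
  have key : ∀ j : ℕ, j ∈ Finset.range J → ∀ q : ℕ × ℕ × ℕ, q ∈ PT σ κ (w + 9 * σ * (j : ℝ)) μ h →
      ∃ α1 α2 : ℝ, η0 / (4 * q.2.2) ≤ α2 - α1 ∧
      ∀ α ∈ Set.Icc α1 α2, |α - μ| ≤ 20 * B * σ ∧ Ch ε β α q.1 q.2.1 q.2.2 := by
    rintro j hj ⟨p, m, l⟩ ⟨hp, hm, hl, h1, h2, h3, h4⟩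
    refine hw1 j hj p m l hp.pos hm.pos hl.pos h1 h2 h3 ?_
    rw [← hh]
    exact h4
  choose! a1 a2 hlen hin using key
  have hSf : ∀ j : ℕ, ∃ S : Finset (ℕ × ℕ × ℕ), j ∈ Finset.range J →
      (∀ q, q ∈ S ↔ q ∈ PT σ κ (w + 9 * σ * (j : ℝ)) μ h) ∧
      (S.card : ℝ) = ((PT σ κ (w + 9 * σ * (j : ℝ)) μ h).ncard : ℝ) := by
    intro j
    by_cases hj : j ∈ Finset.range J
    · obtain ⟨hfin, -⟩ := hw2 j hj
      refine ⟨hfin.toFinset, fun _ => ⟨fun q => hfin.mem_toFinset, ?_⟩⟩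
      rw [Set.ncard_eq_toFinset_card _ hfin]
    · exact ⟨∅, fun hj' => absurd hj' hj⟩
  choose Sf hSf using hSf
  obtain ⟨S, hS⟩ : ∃ S : Finset (Sigma fun _ : ℕ => ℕ × ℕ × ℕ), S = (Finset.range J).sigma Sf :=
    ⟨_, rfl⟩
  have hSmem : ∀ x, x ∈ S → x.1 ∈ Finset.range J ∧ x.2 ∈ PT σ κ (w + 9 * σ * (x.1 : ℝ)) μ h := by
    intro x hx
    rw [hS, Finset.mem_sigma] at hx
    exact ⟨hx.1, ((hSf x.1 hx.1).1 x.2).1 hx.2⟩
  have hSj : ∀ x ∈ S, ∀ x' ∈ S, x.2.1 = x'.2.1 → x.1 = x'.1 := by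
    intro x hx x' hx' hxx
    obtain ⟨-, hq⟩ := hSmem x hx
    obtain ⟨-, hq'⟩ := hSmem x' hx'
    have h1 := abs_le.1 hq.2.2.2.1
    have h2 := abs_le.1 hq'.2.2.2.1
    rw [hxx] at h1
    have h3 : 9 * σ * (x.1 : ℝ) - 9 * σ * (x'.1 : ℝ) ≤ 8 * σ := by linarith [h1.1, h2.2]
    have h4 : 9 * σ * (x'.1 : ℝ) - 9 * σ * (x.1 : ℝ) ≤ 8 * σ := by linarith [h1.2, h2.1]
    have h5 : (x.1 : ℝ) - x'.1 < 1 := by nlinarith
    have h6 : (x'.1 : ℝ) - x.1 < 1 := by nlinarith
    have h7 : x.1 < x'.1 + 1 := by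
      have : (x.1 : ℝ) < x'.1 + 1 := by linarith
      exact_mod_cast this
    have h8 : x'.1 < x.1 + 1 := by
      have : (x'.1 : ℝ) < x.1 + 1 := by linarith
      exact_mod_cast this
    omega
  obtain ⟨G, hG⟩ : ∃ G : ℝ → ENNReal, G = fun t =>
      ∑ x ∈ S, (Set.Icc (a1 x.1 x.2) (a2 x.1 x.2)).indicator (fun _ => (1 : ENNReal)) t :=
    ⟨_, rfl⟩
  have hGm : Measurable G := by
    rw [hG]
    exact Finset.measurable_sum _ (fun q _ => measurable_const.indicator measurableSet_Icc)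
  have hGc : ∀ t, G t =
      ((S.filter (fun x => t ∈ Set.Icc (a1 x.1 x.2) (a2 x.1 x.2))).card : ENNReal) := by
    intro t
    rw [hG]
    simp only [Set.indicator_apply]
    rw [Finset.sum_boole]
  have hG0 : ∀ t, t ∉ Set.Icc (μ - ρ) (μ + ρ) → G t = 0 := by
    intro t ht
    rw [hG]
    refine Finset.sum_eq_zero (fun x hx => ?_)
    refine Set.indicator_of_notMem (fun hmem => ht ?_) _
    obtain ⟨hj, hq⟩ := hSmem x hx
    have h1 := (hin x.1 hj x.2 hq t hmem).1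
    rw [hσρ] at h1
    have h2 := abs_le.1 h1
    constructor <;> linarith [h2.1, h2.2]
  -- (4) `G ≤ cntR`
  have hGR : ∀ t, t ∈ Set.Icc (μ - ρ) (μ + ρ) → G t ≤ (cntR ε β w t : ENNReal) := by
    intro t htI
    have ht1 : 1 < t := by linarith [htI.1]
    rw [hGc t]
    have : (S.filter (fun x => t ∈ Set.Icc (a1 x.1 x.2) (a2 x.1 x.2))).card ≤ cntR ε β w t := by
      unfold cntR
      refine Finset.card_le_card_of_injOn (fun x => x.2.1) ?_ ?_
      · intro x hx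
        simp only [Finset.coe_filter, Set.mem_ofPred_eq] at hx
        obtain ⟨hxS, hxt⟩ := hx
        obtain ⟨hj, hq⟩ := hSmem x hxS
        obtain ⟨-, h2⟩ := hin x.1 hj x.2 hq t hxt
        obtain ⟨hp, hm, hl, h3, h4, h5, h6⟩ := hq
        simp only [Finset.coe_filter, Set.mem_ofPred_eq, Finset.mem_Icc]
        refine ⟨⟨hp.one_le, ?_⟩, x.2.2.1, x.2.2.2, hp, hm, hl, h2⟩
        rw [Nat.le_floor_iff (Real.exp_pos _).le]
        have hpp : (0 : ℝ) < x.2.1 := by exact_mod_cast hp.pos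
        rw [← Real.exp_log hpp]
        apply Real.exp_le_exp.mpr
        have := (abs_le.mp h3).2
        have := hj1 x.1 hj
        linarith
      · intro x hx x' hx' hxx
        simp only [Finset.coe_filter, Set.mem_ofPred_eq] at hx hx'
        obtain ⟨hxS, hxt⟩ := hx
        obtain ⟨hxS', hxt'⟩ := hx'
        obtain ⟨hj, hq1⟩ := hSmem x hxS
        obtain ⟨hj', hq2⟩ := hSmem x' hxS'
        obtain ⟨-, h2⟩ := hin x.1 hj x.2 hq1 t hxt
        obtain ⟨-, h2'⟩ := hin x'.1 hj' x'.2 hq2 t hxt'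
        obtain ⟨h7, -, h9⟩ := MainQ_ch_det hε ht1 hq1.1.ne_zero h2
        obtain ⟨h7', -, h9'⟩ := MainQ_ch_det hε ht1 hq2.1.ne_zero h2'
        have hpp : x.2.1 = x'.2.1 := hxx
        rw [← hpp] at h9'
        have hm : x.2.2.1 = x'.2.2.1 := h9.symm.trans h9'
        rw [← hm] at h7'
        have hjj := hSj x hxS x' hxS' hpp
        obtain ⟨j, q⟩ := x
        obtain ⟨j', q'⟩ := x'
        simp only at hjj hpp hm h7 h7'
        subst hjj
        have hqq : q = q' := Prod.ext hpp (Prod.ext hm (h7.symm.trans h7'))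
        rw [hqq]
    exact_mod_cast this
  -- (2) `G ≤ NN + NN + NN`
  have hGNN : ∀ t, G t ^ 2 ≤ (Set.Icc (μ - ρ) (μ + ρ)).indicator
      (fun t => 3 * ((NN β (1 / 12) w μ t : ENNReal) ^ 2 + (NN β (1 / 12) (w + 1 / 2) μ t : ENNReal) ^ 2
        + (NN β (1 / 12) (w + 1) μ t : ENNReal) ^ 2)) t := by
    intro t
    by_cases htI : t ∈ Set.Icc (μ - ρ) (μ + ρ)
    · rw [Set.indicator_of_mem htI]
      have ht1 : 1 < t := by linarith [htI.1]
      refine le_trans (pow_le_pow_left' ?_ 2) (MainQ_sq3 _ _ _)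
      rw [hGc t]
      have : (S.filter (fun x => t ∈ Set.Icc (a1 x.1 x.2) (a2 x.1 x.2))).card ≤
          NN β (1 / 12) w μ t + NN β (1 / 12) (w + 1 / 2) μ t + NN β (1 / 12) (w + 1) μ t := by
        unfold NN
        refine le_trans ?_ (le_trans (Finset.card_union_le _ _)
          (Nat.add_le_add_right (Finset.card_union_le _ _) _))
        refine Finset.card_le_card_of_injOn (fun x => x.2.2.1) ?_ ?_
        · intro x hx
          simp only [Finset.coe_filter, Set.mem_ofPred_eq] at hx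
          obtain ⟨hxS, hxt⟩ := hx
          obtain ⟨hj, hq⟩ := hSmem x hxS
          obtain ⟨-, h2⟩ := hin x.1 hj x.2 hq t hxt
          obtain ⟨hp, hm, hl, h3, h4, h5, h6⟩ := hq
          obtain ⟨h7, h8, -⟩ := MainQ_ch_det hε ht1 hp.ne_zero h2
          have hmp : (0 : ℝ) < x.2.2.1 := by exact_mod_cast hm.pos
          have hcl : ∀ w' : ℝ, |Real.log x.2.2.1 - w' - Real.log μ| ≤ 4 * (1 / 12) →
              x.2.2.1 ∈ (Finset.Icc 1 ⌊Real.exp (w' + Real.log μ + 4 * (1 / 12))⌋₊).filter fun m : ℕ =>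
                m.Prime ∧ |Real.log m - w' - Real.log μ| ≤ 4 * (1 / 12) ∧ (⌊t * m + β⌋₊).Prime ∧
                (⌈(m - β) / t⌉₊).Prime := by
            intro w' hw'
            rw [Finset.mem_filter, Finset.mem_Icc]
            refine ⟨⟨hm.one_le, ?_⟩, hm, hw', ?_, ?_⟩
            · rw [Nat.le_floor_iff (Real.exp_pos _).le, ← Real.exp_log hmp]
              apply Real.exp_le_exp.mpr
              have := (abs_le.mp hw').2
              linarith
            · rw [h7]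
              exact hl
            · rw [h8]
              exact hp
          have e1 := abs_le.1 h4
          have e2 := hj1 x.1 hj
          have e3 := hj0 x.1
          simp only [Finset.coe_union, Set.mem_union, Finset.mem_coe]
          rcases le_total (Real.log x.2.2.1 - Real.log μ) (w + 1 / 3) with h9 | h9
          · left; left
            refine hcl w ?_
            rw [abs_le]
            constructor <;> linarith [e1.1, e1.2]
          · rcases le_total (Real.log x.2.2.1 - Real.log μ) (w + 5 / 6) with h10 | h10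
            · left; right
              refine hcl (w + 1 / 2) ?_
              rw [abs_le]
              constructor <;> linarith [e1.1, e1.2]
            · right
              refine hcl (w + 1) ?_
              rw [abs_le]
              constructor <;> linarith [e1.1, e1.2]
        · intro x hx x' hx' hxx
          simp only [Finset.coe_filter, Set.mem_ofPred_eq] at hx hx'
          obtain ⟨hxS, hxt⟩ := hx
          obtain ⟨hxS', hxt'⟩ := hx'
          obtain ⟨hj, hq1⟩ := hSmem x hxS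
          obtain ⟨hj', hq2⟩ := hSmem x' hxS'
          obtain ⟨-, h2⟩ := hin x.1 hj x.2 hq1 t hxt
          obtain ⟨-, h2'⟩ := hin x'.1 hj' x'.2 hq2 t hxt'
          obtain ⟨h7, h8, -⟩ := MainQ_ch_det hε ht1 hq1.1.ne_zero h2
          obtain ⟨h7', h8', -⟩ := MainQ_ch_det hε ht1 hq2.1.ne_zero h2'
          have hm : x.2.2.1 = x'.2.2.1 := hxx
          rw [← hm] at h7' h8'
          have hpp : x.2.1 = x'.2.1 := h8.symm.trans h8'
          have hjj := hSj x hxS x' hxS' hpp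
          obtain ⟨j, q⟩ := x
          obtain ⟨j', q'⟩ := x'
          simp only at hjj hpp hm h7 h7'
          subst hjj
          have hqq : q = q' := Prod.ext hpp (Prod.ext hm (h7.symm.trans h7'))
          rw [hqq]
      exact_mod_cast this
    · rw [hG0 t htI]
      simp
  -- the second moment
  obtain ⟨F, hF⟩ : ∃ F : ℝ, F = C * ρ * Real.exp (2 * w) / w ^ 6 := ⟨_, rfl⟩
  have hF0 : 0 < F := by
    rw [hF]
    positivity
  have hsecb : ∀ w' : ℝ, w ≤ w' → w' ≤ w + 1 →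
      ∫⁻ t in Set.Icc (μ - ρ) (μ + ρ), (NN β (1 / 12) w' μ t : ENNReal) ^ 2 ≤
        ENNReal.ofReal (C * (1 / 12) ^ 2 * ((μ + ρ) - (μ - ρ)) * Real.exp (2 * w') / w' ^ 6) →
      ∫⁻ t in Set.Icc (μ - ρ) (μ + ρ), (NN β (1 / 12) w' μ t : ENNReal) ^ 2 ≤
        ENNReal.ofReal (F / 9) := by
    intro w' h1 h2 h3
    refine h3.trans (ENNReal.ofReal_le_ofReal ?_)
    have e1 : Real.exp (2 * w') ≤ 8 * Real.exp (2 * w) := by
      have e2 : Real.exp (2 * w') ≤ Real.exp (2 * w) * Real.exp 2 := by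
        rw [← Real.exp_add]
        exact Real.exp_le_exp.2 (by linarith)
      have e3 : Real.exp 2 ≤ 8 := by
        have e4 : Real.exp 2 = Real.exp 1 * Real.exp 1 := by
          rw [← Real.exp_add]; norm_num
        have e5 := Real.exp_one_lt_d9
        have e6 := Real.exp_pos 1
        rw [e4]
        nlinarith
      have e7 := Real.exp_pos (2 * w)
      nlinarith
    have e8 : w ^ 6 ≤ w' ^ 6 := pow_le_pow_left₀ hwp.le h1 6
    have e9 : (μ + ρ) - (μ - ρ) = 2 * ρ := by ring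
    rw [e9, hF]
    calc C * (1 / 12) ^ 2 * (2 * ρ) * Real.exp (2 * w') / w' ^ 6
        ≤ C * (1 / 12) ^ 2 * (2 * ρ) * (8 * Real.exp (2 * w)) / w ^ 6 := by
          gcongr
      _ = C * ρ * Real.exp (2 * w) / w ^ 6 / 9 := by ring
  have hG2 : ∫⁻ t, G t ^ 2 ≤ ENNReal.ofReal F := by
    calc ∫⁻ t, G t ^ 2 ≤ ∫⁻ t, (Set.Icc (μ - ρ) (μ + ρ)).indicator
          (fun t => 3 * ((NN β (1 / 12) w μ t : ENNReal) ^ 2 +
            (NN β (1 / 12) (w + 1 / 2) μ t : ENNReal) ^ 2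
            + (NN β (1 / 12) (w + 1) μ t : ENNReal) ^ 2)) t := lintegral_mono hGNN
      _ = ∫⁻ t in Set.Icc (μ - ρ) (μ + ρ), 3 * ((NN β (1 / 12) w μ t : ENNReal) ^ 2 +
            (NN β (1 / 12) (w + 1 / 2) μ t : ENNReal) ^ 2
            + (NN β (1 / 12) (w + 1) μ t : ENNReal) ^ 2) := lintegral_indicator measurableSet_Icc _
      _ = 3 * ((∫⁻ t in Set.Icc (μ - ρ) (μ + ρ), (NN β (1 / 12) w μ t : ENNReal) ^ 2) +
            (∫⁻ t in Set.Icc (μ - ρ) (μ + ρ), (NN β (1 / 12) (w + 1 / 2) μ t : ENNReal) ^ 2) +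
            (∫⁻ t in Set.Icc (μ - ρ) (μ + ρ), (NN β (1 / 12) (w + 1) μ t : ENNReal) ^ 2)) := by
          exact MainQ_int3 _ _ _ _ (MainQ_meas β (1 / 12) w μ) (MainQ_meas β (1 / 12) (w + 1 / 2) μ)
            (MainQ_meas β (1 / 12) (w + 1) μ)
      _ ≤ 3 * (ENNReal.ofReal (F / 9) + ENNReal.ofReal (F / 9) + ENNReal.ofReal (F / 9)) := by
          gcongr
          · exact hsecb w le_rfl (by linarith) hw3
          · exact hsecb (w + 1 / 2) (by linarith) (by linarith) hw4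
          · exact hsecb (w + 1) (by linarith) le_rfl hw5
      _ = ENNReal.ofReal F := by
          rw [← ENNReal.ofReal_add (by positivity) (by positivity),
            ← ENNReal.ofReal_add (by positivity) (by positivity),
            show (3 : ENNReal) = ENNReal.ofReal 3 by norm_num,
            ← ENNReal.ofReal_mul (by norm_num)]
          congr 1
          ring
  -- the first moment
  obtain ⟨δ, hδ⟩ : ∃ δ : ℝ, δ = η0 / (12 * B ^ 2 * Real.exp w) := ⟨_, rfl⟩
  have hδ0 : 0 < δ := by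
    rw [hδ]
    positivity
  have hlen' : ∀ x ∈ S, δ ≤ a2 x.1 x.2 - a1 x.1 x.2 := by
    intro x hx
    obtain ⟨hj, hq⟩ := hSmem x hx
    refine le_trans ?_ (hlen x.1 hj x.2 hq)
    obtain ⟨hp, hm, hl, h3, h4, h5, h6⟩ := hq
    have hlp : (0 : ℝ) < x.2.2.2 := by exact_mod_cast hl.pos
    have hle : (x.2.2.2 : ℝ) ≤ 3 * B ^ 2 * Real.exp w := by
      have h7 : Real.log x.2.2.2 ≤ w + 2 * Real.log μ + 1 := by
        have := (abs_le.mp h5).2
        have := hj1 x.1 hj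
        linarith
      calc (x.2.2.2 : ℝ) = Real.exp (Real.log x.2.2.2) := (Real.exp_log hlp).symm
        _ ≤ Real.exp (w + 2 * Real.log μ + 1) := Real.exp_le_exp.mpr h7
        _ = Real.exp w * μ ^ 2 * Real.exp 1 := by
            rw [Real.exp_add, Real.exp_add]
            congr 2
            rw [mul_comm, Real.exp_mul, Real.exp_log hμ0]
            norm_num
        _ ≤ Real.exp w * B ^ 2 * 3 := by
            have h8 : Real.exp 1 ≤ 3 := by
              have := Real.exp_one_lt_d9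
              linarith
            have hμB2 : μ ^ 2 ≤ B ^ 2 := pow_le_pow_left₀ hμ0.le hμB 2
            gcongr
        _ = 3 * B ^ 2 * Real.exp w := by ring
    rw [hδ]
    apply div_le_div_of_nonneg_left hη0.le (by positivity)
    linarith
  have hG1 : ENNReal.ofReal (S.card * δ) ≤ ∫⁻ t, G t := by
    have h1 : ∫⁻ t, G t = ∑ x ∈ S, volume (Set.Icc (a1 x.1 x.2) (a2 x.1 x.2)) := by
      rw [hG]
      rw [lintegral_finsetSum _ (fun q _ => measurable_const.indicator measurableSet_Icc)]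
      refine Finset.sum_congr rfl (fun q _ => ?_)
      rw [lintegral_indicator measurableSet_Icc]
      simp
    rw [h1]
    have h2 : ENNReal.ofReal (S.card * δ) = ∑ x ∈ S, ENNReal.ofReal δ := by
      rw [Finset.sum_const, nsmul_eq_mul, ENNReal.ofReal_mul (by positivity),
        ENNReal.ofReal_natCast]
    rw [h2]
    refine Finset.sum_le_sum (fun q hq => ?_)
    rw [Real.volume_Icc]
    exact ENNReal.ofReal_le_ofReal (hlen' q hq)
  obtain ⟨N0, hN0⟩ : ∃ N0 : ℝ, N0 = c0 * κ * σ ^ 2 * Real.exp (2 * w) / (8 * w ^ 3) := ⟨_, rfl⟩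
  have hN0p : 0 < N0 := by
    rw [hN0]
    positivity
  have hScard : (J : ℝ) * N0 ≤ S.card := by
    rw [hS, Finset.card_sigma, Nat.cast_sum]
    have h1 : (J : ℝ) * N0 = ∑ j ∈ Finset.range J, N0 := by
      rw [Finset.sum_const, Finset.card_range, nsmul_eq_mul]
    rw [h1]
    refine Finset.sum_le_sum (fun j hj => ?_)
    rw [(hSf j hj).2]
    refine le_trans ?_ (hw2 j hj).2
    have e1 := hj1 j hj
    have e2 := hj0 j
    have e3 : (w + 9 * σ * (j : ℝ)) ^ 3 ≤ 8 * w ^ 3 := by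
      have : (w + 9 * σ * (j : ℝ)) ^ 3 ≤ (2 * w) ^ 3 :=
        pow_le_pow_left₀ (by linarith) (by linarith) 3
      calc (w + 9 * σ * (j : ℝ)) ^ 3 ≤ (2 * w) ^ 3 := this
        _ = 8 * w ^ 3 := by ring
    have e4 : 0 < w + 9 * σ * (j : ℝ) := by linarith
    have e5 : Real.exp (2 * w) ≤ Real.exp (2 * (w + 9 * σ * (j : ℝ))) :=
      Real.exp_le_exp.2 (by linarith)
    rw [hN0]
    gcongr
  obtain ⟨M1, hM1⟩ : ∃ M1 : ℝ, M1 = c0 * κ * η0 * ρ * Real.exp w / (34560 * B ^ 3 * w ^ 3) :=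
    ⟨_, rfl⟩
  have hM1p : 0 < M1 := by
    rw [hM1]
    positivity
  have hM1S : M1 ≤ S.card * δ := by
    have h1 : M1 = 1 / (18 * σ) * N0 * δ := by
      rw [hM1, hN0, hδ]
      have he : Real.exp (2 * w) = Real.exp w ^ 2 := by
        rw [← Real.exp_nat_mul]
        norm_num
      rw [he, ← hσρ]
      have := Real.exp_pos w
      field_simp
      ring
    rw [h1]
    refine mul_le_mul_of_nonneg_right (le_trans ?_ hScard) hδ0.le
    exact mul_le_mul_of_nonneg_right hJ2 hN0p.le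
  -- (3)
  obtain ⟨θ, hθ⟩ : ∃ θ : ℝ, θ = c0 * κ * η0 / (138240 * B ^ 3) * (Real.exp w / w ^ 3) := ⟨_, rfl⟩
  have hθ0 : 0 < θ := by
    rw [hθ]
    positivity
  have hθM : θ * (2 * ρ) = M1 / 2 := by
    rw [hθ, hM1]
    field_simp
    ring
  rw [← hθ]
  obtain ⟨A1, hA1⟩ : ∃ A1 : Set ℝ, A1 = Set.Icc (μ - ρ) (μ + ρ) ∩ {t | ENNReal.ofReal θ ≤ G t} :=
    ⟨_, rfl⟩
  have hA1m : MeasurableSet A1 := by
    rw [hA1]
    exact measurableSet_Icc.inter (measurableSet_le measurable_const hGm)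
  have hsplit : ∀ t, G t ≤ (Set.Icc (μ - ρ) (μ + ρ)).indicator (fun _ => ENNReal.ofReal θ) t +
      A1.indicator G t := by
    intro t
    by_cases htI : t ∈ Set.Icc (μ - ρ) (μ + ρ)
    · by_cases htA : ENNReal.ofReal θ ≤ G t
      · have : t ∈ A1 := by
          rw [hA1]
          exact ⟨htI, htA⟩
        rw [Set.indicator_of_mem this]
        exact le_add_self
      · rw [Set.indicator_of_mem htI]
        exact (not_le.1 htA).le.trans le_self_add
    · rw [hG0 t htI]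
      exact bot_le
  have hI1 : ENNReal.ofReal (M1 / 2) ≤ ∫⁻ t, A1.indicator G t := by
    have h1 : ∫⁻ t, G t ≤ ENNReal.ofReal (M1 / 2) + ∫⁻ t, A1.indicator G t := by
      refine (lintegral_mono hsplit).trans ?_
      rw [lintegral_add_left (measurable_const.indicator measurableSet_Icc),
        lintegral_indicator measurableSet_Icc]
      refine add_le_add_left (le_of_eq ?_) _
      rw [setLIntegral_const, Real.volume_Icc, ← ENNReal.ofReal_mul hθ0.le, ← hθM]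
      congr 1
      ring
    have h2 : ENNReal.ofReal M1 = ENNReal.ofReal (M1 / 2) + ENNReal.ofReal (M1 / 2) := by
      rw [← ENNReal.ofReal_add (by positivity) (by positivity)]
      congr 1
      ring
    have h3 : ENNReal.ofReal (M1 / 2) + ENNReal.ofReal (M1 / 2) ≤
        ENNReal.ofReal (M1 / 2) + ∫⁻ t, A1.indicator G t := by
      rw [← h2]
      exact (ENNReal.ofReal_le_ofReal hM1S).trans (hG1.trans h1)
    exact (ENNReal.add_le_add_iff_left ENNReal.ofReal_ne_top).1 h3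
  have hcs := MainQ_cs (A1.indicator G) (hGm.indicator hA1m) A1 hA1m
    (fun t ht => Set.indicator_of_notMem ht _)
  have hI2 : ∫⁻ t, (A1.indicator G t) ^ 2 ≤ ENNReal.ofReal F := by
    refine (lintegral_mono (fun t => ?_)).trans hG2
    refine pow_le_pow_left' ?_ 2
    exact Set.indicator_le_self' (fun _ _ => bot_le) t
  have h1 : ENNReal.ofReal ((M1 / 2) ^ 2) ≤ ENNReal.ofReal F * volume A1 := by
    calc ENNReal.ofReal ((M1 / 2) ^ 2) = (ENNReal.ofReal (M1 / 2)) ^ 2 := by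
          rw [ENNReal.ofReal_pow (by positivity)]
      _ ≤ (∫⁻ t, A1.indicator G t) ^ 2 := pow_le_pow_left' hI1 2
      _ ≤ (∫⁻ t, (A1.indicator G t) ^ 2) * volume A1 := hcs
      _ ≤ ENNReal.ofReal F * volume A1 := by
          gcongr
  have h2 : ENNReal.ofReal ((M1 / 2) ^ 2 / F) ≤ volume A1 := by
    rw [ENNReal.ofReal_div_of_pos hF0]
    exact ENNReal.div_le_of_le_mul' h1
  have h3 : A1 ⊆ {t : ℝ | |t - μ| ≤ ρ ∧ θ ≤ (cntR ε β w t : ℝ)} := by
    intro t ht
    rw [hA1] at ht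
    obtain ⟨htI, htG⟩ := ht
    refine ⟨?_, ?_⟩
    · rw [abs_le]
      constructor <;> linarith [htI.1, htI.2]
    · have h4 : ENNReal.ofReal θ ≤ ENNReal.ofReal (cntR ε β w t : ℝ) := by
        rw [ENNReal.ofReal_natCast]
        exact le_trans htG (hGR t htI)
      exact (ENNReal.ofReal_le_ofReal_iff (Nat.cast_nonneg _)).1 h4
  refine le_trans (ENNReal.ofReal_le_ofReal (le_of_eq ?_)) (h2.trans (measure_mono h3))
  rw [hM1, hF]
  have he : Real.exp (2 * w) = Real.exp w ^ 2 := by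
    rw [← Real.exp_nat_mul]
    norm_num
  rw [he]
  have := Real.exp_pos w
  field_simp
  ring

end SMC
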