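import Pool.Agent.SMC.Equi4
import Pool.Agent.MRZ.SelMaj

/-!
# SMC.Pair4: the sieve bound

PROOF. As `Pool/Agent/MCC/Pair.lean` (`Pair_core`, `pair_bound`), with four factors instead of two: let `l` be Selberg's weights from
`Pool.MRZ.sel_maj` with `D = ⌊X^(η/k)⌋₊` for a large constant `k` (e.g. `k = 1000`; `D² ≤ X^(η/16)` and `D^24 ≤ X^(η/10)` are needed). The four numbers are `> D` and
`≥ 1` on `[a,b]` for large `X`, so the indicator of the set is at most `∏ (∑_{d ∣ n_i} l_d)`; integrate, expand into a sum over `d1,..,d4 ≤ D²`, replace the measures by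
`(b-a)/(d1 d2 d3 d4)` (`equi4`): the main term is `(b-a) (∑ l_d/d)^4 ≤ (b-a) (C0/log D)^4`, the error is at most
`(∑_{d≤D²} |l_d|)^4 X^(-η/5) ≤ (D^6)^4 X^(-η/5) ≤ X^(-η/10)`, which is `≤ (b-a)/(log X)^4` for large `X`. `C` depends on `η` only.
-/

namespace SMC

open MeasureTheory Filter

private theorem Pair4_meas_floor (m : ℕ) (β : ℝ) :
    Measurable fun t : ℝ => ⌊t * (m : ℝ) + β⌋₊ :=
  Nat.measurable_floor.comp ((measurable_id.mul_const _).add_const _)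

private theorem Pair4_meas_ceil (m : ℕ) (β : ℝ) :
    Measurable fun t : ℝ => ⌈((m : ℝ) - β) / t⌉₊ :=
  Nat.measurable_ceil.comp (measurable_const.div measurable_id)

/-- the analytic part: integration of the majorant -/
private theorem Pair4_core {a b : ℝ} (N : Fin 4 → ℝ → ℕ) (hN : ∀ i, Measurable (N i)) (D : ℕ)
    (l : ℕ → ℝ)
    (hl1 : ∀ n, 1 ≤ n → 0 ≤ ∑ d ∈ (Finset.Icc 1 (D ^ 2)).filter (· ∣ n), l d)
    (hl2 : ∀ p, p.Prime → D < p → 1 ≤ ∑ d ∈ (Finset.Icc 1 (D ^ 2)).filter (· ∣ p), l d)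
    (hc : ∀ i, ∀ t ∈ Set.Icc a b, D < N i t) :
    (volume {t : ℝ | t ∈ Set.Icc a b ∧ ∀ i, (N i t).Prime}).toReal ≤
      ∑ x ∈ Fintype.piFinset (fun _ : Fin 4 => Finset.Icc 1 (D ^ 2)), (∏ i, l (x i)) *
        (volume {t : ℝ | t ∈ Set.Icc a b ∧ ∀ i, x i ∣ N i t}).toReal := by
  classical
  set E : (Fin 4 → ℕ) → Set ℝ := fun x => {t : ℝ | t ∈ Set.Icc a b ∧ ∀ i, x i ∣ N i t} with hE
  set A : Set ℝ := {t : ℝ | t ∈ Set.Icc a b ∧ ∀ i, (N i t).Prime} with hA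
  have hmeas : ∀ P : Fin 4 → ℕ → Prop, MeasurableSet {t : ℝ | ∀ i, P i (N i t)} := by
    intro P
    have h1 : {t : ℝ | ∀ i, P i (N i t)} = ⋂ i, (N i) ⁻¹' {n | P i n} := by
      ext t
      simp only [Set.mem_setOf_eq, Set.mem_iInter, Set.mem_preimage]
    rw [h1]
    exact MeasurableSet.iInter fun i => hN i MeasurableSet.of_discrete
  have hEm : ∀ x, MeasurableSet (E x) := fun x =>
    measurableSet_Icc.inter (hmeas fun i n => x i ∣ n)
  have hAm : MeasurableSet A := measurableSet_Icc.inter (hmeas fun _ n => n.Prime)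
  have hfin : volume (Set.Icc a b) < ⊤ := by
    rw [Real.volume_Icc]; exact ENNReal.ofReal_lt_top
  have hEf : ∀ x, volume (E x) < ⊤ := fun x =>
    lt_of_le_of_lt (measure_mono fun t ht => ht.1) hfin
  have hAf : volume A < ⊤ := lt_of_le_of_lt (measure_mono fun t ht => ht.1) hfin
  have hint : ∀ x, Integrable ((E x).indicator (1 : ℝ → ℝ)) volume := fun x =>
    (integrable_indicator_iff (hEm x)).2 (integrableOn_const (hEf x).ne)
  have hintA : Integrable (A.indicator (1 : ℝ → ℝ)) volume :=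
    (integrable_indicator_iff hAm).2 (integrableOn_const hAf.ne)
  have hval : ∀ x, ∫ t, (E x).indicator (1 : ℝ → ℝ) t = (volume (E x)).toReal := by
    intro x
    rw [integral_indicator_one (hEm x)]
    rfl
  have hvalA : ∫ t, A.indicator (1 : ℝ → ℝ) t = (volume A).toReal := by
    rw [integral_indicator_one hAm]
    rfl
  have hF : Integrable (fun t => ∑ x ∈ Fintype.piFinset (fun _ : Fin 4 => Finset.Icc 1 (D ^ 2)),
      (∏ i, l (x i)) * (E x).indicator (1 : ℝ → ℝ) t) volume :=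
    integrable_finsetSum _ fun x _ => (hint x).const_mul _
  have hle : ∀ t, A.indicator (1 : ℝ → ℝ) t ≤
      ∑ x ∈ Fintype.piFinset (fun _ : Fin 4 => Finset.Icc 1 (D ^ 2)),
      (∏ i, l (x i)) * (E x).indicator (1 : ℝ → ℝ) t := by
    intro t
    by_cases ht : t ∈ Set.Icc a b
    · have h1 : ∑ x ∈ Fintype.piFinset (fun _ : Fin 4 => Finset.Icc 1 (D ^ 2)),
          (∏ i, l (x i)) * (E x).indicator (1 : ℝ → ℝ) t =
          ∏ i, ∑ d ∈ (Finset.Icc 1 (D ^ 2)).filter (· ∣ N i t), l d := by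
        simp_rw [Finset.sum_filter]
        rw [Finset.prod_univ_sum]
        refine Finset.sum_congr rfl fun x _ => ?_
        by_cases hx : ∀ i, x i ∣ N i t
        · rw [Set.indicator_of_mem (show t ∈ E x from ⟨ht, hx⟩), Pi.one_apply, mul_one]
          exact Finset.prod_congr rfl fun i _ => (if_pos (hx i)).symm
        · rw [Set.indicator_of_notMem (fun h : t ∈ E x => hx h.2), mul_zero]
          push Not at hx
          obtain ⟨i, hi⟩ := hx
          exact (Finset.prod_eq_zero (Finset.mem_univ i) (if_neg hi)).symm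
      rw [h1]
      by_cases hA' : t ∈ A
      · rw [Set.indicator_of_mem hA']
        have h2 : ∏ _i : Fin 4, (1 : ℝ) ≤
            ∏ i, ∑ d ∈ (Finset.Icc 1 (D ^ 2)).filter (· ∣ N i t), l d :=
          Finset.prod_le_prod (fun _ _ => zero_le_one) fun i _ => hl2 _ (hA'.2 i) (hc i t ht)
        simpa using h2
      · rw [Set.indicator_of_notMem hA']
        exact Finset.prod_nonneg fun i _ => hl1 _ (by have := hc i t ht; omega)
    · rw [Set.indicator_of_notMem (fun h : t ∈ A => ht h.1)]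
      refine (Finset.sum_eq_zero fun x _ => ?_).ge
      rw [Set.indicator_of_notMem (fun h : t ∈ E x => ht h.1), mul_zero]
  calc (volume A).toReal = ∫ t, A.indicator (1 : ℝ → ℝ) t := hvalA.symm
    _ ≤ ∫ t, ∑ x ∈ Fintype.piFinset (fun _ : Fin 4 => Finset.Icc 1 (D ^ 2)),
      (∏ i, l (x i)) * (E x).indicator (1 : ℝ → ℝ) t := integral_mono hintA hF hle
    _ = _ := by
      rw [integral_finsetSum _ fun x _ => (hint x).const_mul _]
      refine Finset.sum_congr rfl fun x _ => ?_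
      rw [integral_const_mul, hval]

/-- the arithmetic part -/
private theorem Pair4_sum {D : ℕ} {l : ℕ → ℝ} {V : (Fin 4 → ℕ) → ℝ} {w ε : ℝ}
    (hε : 0 ≤ ε) (hl : ∀ d, |l d| ≤ (d : ℝ) ^ 2)
    (hV : ∀ x ∈ Fintype.piFinset (fun _ : Fin 4 => Finset.Icc 1 (D ^ 2)),
      |V x - w / ∏ i, (x i : ℝ)| ≤ ε) :
    ∑ x ∈ Fintype.piFinset (fun _ : Fin 4 => Finset.Icc 1 (D ^ 2)), (∏ i, l (x i)) * V x ≤
      w * |∑ d ∈ Finset.Icc 1 (D ^ 2), l d / d| ^ 4 + (D : ℝ) ^ 24 * ε := by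
  have h1 : ∀ x ∈ Fintype.piFinset (fun _ : Fin 4 => Finset.Icc 1 (D ^ 2)),
      (∏ i, l (x i)) * V x ≤ w * (∏ i, l (x i) / (x i : ℝ)) + (D : ℝ) ^ 16 * ε := by
    intro x hx
    have hx' : ∀ i, 1 ≤ x i ∧ x i ≤ D ^ 2 := fun i =>
      Finset.mem_Icc.1 (Fintype.mem_piFinset.1 hx i)
    have hbd : ∀ d : ℕ, d ≤ D ^ 2 → |l d| ≤ (D : ℝ) ^ 4 := by
      intro d hd
      refine (hl d).trans ?_
      have : (d : ℝ) ≤ (D : ℝ) ^ 2 := by exact_mod_cast hd
      calc (d : ℝ) ^ 2 ≤ ((D : ℝ) ^ 2) ^ 2 := by gcongr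
        _ = (D : ℝ) ^ 4 := by ring
    have h2 : (∏ i, l (x i)) * (V x - w / ∏ i, (x i : ℝ)) ≤ (D : ℝ) ^ 16 * ε := by
      refine (le_abs_self _).trans ?_
      rw [abs_mul, Finset.abs_prod]
      have h3 : ∏ i, |l (x i)| ≤ (D : ℝ) ^ 16 := by
        calc ∏ i, |l (x i)| ≤ ∏ _i : Fin 4, (D : ℝ) ^ 4 :=
              Finset.prod_le_prod (fun _ _ => abs_nonneg _) fun i _ => hbd _ (hx' i).2
          _ = (D : ℝ) ^ 16 := by
              rw [Finset.prod_const, Finset.card_univ, Fintype.card_fin]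
              ring
      exact mul_le_mul h3 (hV x hx) (abs_nonneg _) (by positivity)
    have h3 : (∏ i, l (x i)) * V x = (∏ i, l (x i)) * (V x - w / ∏ i, (x i : ℝ)) +
        w * (∏ i, l (x i) / (x i : ℝ)) := by
      rw [Finset.prod_div_distrib]
      ring
    rw [h3]
    linarith
  calc ∑ x ∈ Fintype.piFinset (fun _ : Fin 4 => Finset.Icc 1 (D ^ 2)), (∏ i, l (x i)) * V x
      ≤ ∑ x ∈ Fintype.piFinset (fun _ : Fin 4 => Finset.Icc 1 (D ^ 2)),
        (w * (∏ i, l (x i) / (x i : ℝ)) + (D : ℝ) ^ 16 * ε) := Finset.sum_le_sum h1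
    _ = w * |∑ d ∈ Finset.Icc 1 (D ^ 2), l d / d| ^ 4 + (D : ℝ) ^ 24 * ε := by
      have h4 : |∑ d ∈ Finset.Icc 1 (D ^ 2), l d / (d : ℝ)| ^ 4 =
          ∏ _i : Fin 4, ∑ d ∈ Finset.Icc 1 (D ^ 2), l d / (d : ℝ) := by
        rw [Finset.prod_const, Finset.card_univ, Fintype.card_fin]
        exact (even_iff_two_dvd.2 (by norm_num)).pow_abs _
      rw [h4, Finset.prod_univ_sum, Finset.sum_add_distrib, ← Finset.mul_sum, Finset.sum_const,
        Fintype.card_piFinset]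
      simp only [Nat.card_Icc, Nat.add_sub_cancel, Finset.prod_const, Finset.card_univ,
        Fintype.card_fin, nsmul_eq_mul]
      push_cast
      ring

private theorem Pair4_all (P : Fin 4 → Prop) : (∀ i, P i) ↔ P 0 ∧ P 1 ∧ P 2 ∧ P 3 := by
  constructor
  · intro h
    exact ⟨h 0, h 1, h 2, h 3⟩
  · rintro ⟨h0, h1, h2, h3⟩ i
    fin_cases i
    exacts [h0, h1, h2, h3]

theorem pair4 {η : ℝ} (hη : 0 < η) (hη1 : η ≤ 1 / 40) : ∃ C : ℝ, 0 < C ∧ ∀ a b κ1 κ2 β : ℝ, 0 < a → a < b →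
    0 < κ1 → ∃ X0 : ℝ, ∀ X : ℝ, X0 ≤ X → ∀ m m' : ℕ, κ1 * X ≤ (m : ℝ) → (m : ℝ) ≤ κ2 * X →
      κ1 * X ≤ (m' : ℝ) → (m' : ℝ) ≤ κ2 * X → MCC.NE X η m m' →
      volume {t : ℝ | t ∈ Set.Icc a b ∧ (⌊t * m + β⌋₊).Prime ∧ (⌈(m - β) / t⌉₊).Prime ∧
          (⌊t * m' + β⌋₊).Prime ∧ (⌈(m' - β) / t⌉₊).Prime} ≤ ENNReal.ofReal (C * (b - a) / Real.log X ^ 4) := by
  obtain ⟨C0, hC0, hsel⟩ := Pool.MRZ.sel_maj
  refine ⟨2 * (480 * C0 / η) ^ 4, by positivity, ?_⟩
  intro a b κ1 κ2 β ha hab hκ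
  have hb : 0 < b := ha.trans hab
  obtain ⟨X1, hX1⟩ := equi4 (κ2 := κ2) hη hη1 β ha hab hκ
  -- eventual inequalities
  have e1 : ∀ᶠ X : ℝ in atTop, 2 ≤ X ^ (η / 480) :=
    (tendsto_rpow_atTop (by positivity)).eventually_ge_atTop 2
  have e2g : ∀ c : ℝ, 0 < c → ∀ᶠ X : ℝ in atTop, X ^ (η / 240) ≤ c * X := by
    intro c hc
    have h : ∀ᶠ X : ℝ in atTop, 1 / c ≤ X ^ (1 - η / 240) :=
      (tendsto_rpow_atTop (by linarith)).eventually_ge_atTop _
    filter_upwards [h, eventually_gt_atTop (0 : ℝ)] with X hX hX0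
    have h1 : X = X ^ (η / 240) * X ^ (1 - η / 240) := by
      rw [← Real.rpow_add hX0]
      simp
    have h2 : 1 ≤ c * X ^ (1 - η / 240) := by
      rw [div_le_iff₀ hc] at hX
      linarith
    have h3 : 0 ≤ X ^ (η / 240) := by positivity
    calc X ^ (η / 240) = X ^ (η / 240) * 1 := (mul_one _).symm
      _ ≤ X ^ (η / 240) * (c * X ^ (1 - η / 240)) := by gcongr
      _ = c * (X ^ (η / 240) * X ^ (1 - η / 240)) := by ring
      _ = c * X := by rw [← h1]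
  have e2 := e2g (a * κ1 / 2) (by positivity)
  have e2' := e2g (κ1 / (2 * b)) (by positivity)
  have e3 : ∀ᶠ X : ℝ in atTop, 1 - β < (a * κ1 / 2) * X :=
    (tendsto_id.const_mul_atTop (by positivity)).eventually_gt_atTop _
  have e3' : ∀ᶠ X : ℝ in atTop, β < (κ1 / 2) * X :=
    (tendsto_id.const_mul_atTop (by positivity)).eventually_gt_atTop _
  have e4 : ∀ᶠ X : ℝ in atTop, X ^ (-(η / 10)) * Real.log X ^ 4 ≤
      (480 * C0 / η) ^ 4 * (b - a) := by
    have h : Tendsto (fun X : ℝ => Real.log X ^ 4 / X ^ (η / 10)) atTop (nhds 0) := by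
      have h := (isLittleO_log_rpow_rpow_atTop (s := η / 10) (4 : ℝ)
        (by positivity)).tendsto_div_nhds_zero
      refine h.congr fun X => ?_
      rw [show (4 : ℝ) = ((4 : ℕ) : ℝ) by norm_num, Real.rpow_natCast]
    have hpos : 0 < (480 * C0 / η) ^ 4 * (b - a) := by
      have : 0 < b - a := by linarith
      positivity
    filter_upwards [h.eventually_le_const hpos, eventually_gt_atTop (0 : ℝ)] with X hX hX0
    rw [Real.rpow_neg hX0.le, inv_mul_eq_div]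
    exact hX
  obtain ⟨X2, hX2⟩ := (((e1.and e2).and (e3.and e4)).and ((eventually_gt_atTop (1 : ℝ)).and
    (e2'.and e3'))).exists_forall_of_atTop
  refine ⟨max X1 X2, fun X hX m m' hm1 hm2 hm1' hm2' hNE => ?_⟩
  obtain ⟨⟨⟨f1, f2⟩, f3, f4⟩, f5, f2', f3'⟩ := hX2 X ((le_max_right _ _).trans hX)
  have hXpos : 0 < X := by linarith
  set D : ℕ := ⌊X ^ (η / 240)⌋₊ with hD
  have hsq : X ^ (η / 240) = (X ^ (η / 480)) ^ 2 := by
    rw [← Real.rpow_natCast, ← Real.rpow_mul hXpos.le]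
    congr 1
    push_cast
    ring
  have hDle : (D : ℝ) ≤ X ^ (η / 240) := Nat.floor_le (by positivity)
  have hDge : X ^ (η / 480) ≤ (D : ℝ) := by
    have h1 : X ^ (η / 240) < (D : ℝ) + 1 := Nat.lt_floor_add_one _
    rw [hsq] at h1
    nlinarith
  have hD2 : 2 ≤ D := by
    have : (2 : ℝ) ≤ D := f1.trans hDge
    exact_mod_cast this
  obtain ⟨l, hl0, hl1, hl2, hl3⟩ := hsel D hD2
  have hbig : ∀ n : ℕ, κ1 * X ≤ (n : ℝ) → ∀ t ∈ Set.Icc a b, D < ⌊t * (n : ℝ) + β⌋₊ := by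
    intro n hn t ht
    rw [Nat.lt_iff_add_one_le]
    refine Nat.le_floor ?_
    push_cast
    have h1 : a * (κ1 * X) ≤ t * (n : ℝ) := by
      have : 0 ≤ κ1 * X := by positivity
      exact mul_le_mul ht.1 hn this (ha.le.trans ht.1)
    nlinarith
  have hbig' : ∀ n : ℕ, κ1 * X ≤ (n : ℝ) → ∀ t ∈ Set.Icc a b, D < ⌈((n : ℝ) - β) / t⌉₊ := by
    intro n hn t ht
    rw [Nat.lt_ceil]
    have ht0 : 0 < t := ha.trans_le ht.1
    rw [lt_div_iff₀ ht0]
    have h1 : (D : ℝ) * t ≤ κ1 / (2 * b) * X * b := by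
      have : (0 : ℝ) ≤ D := Nat.cast_nonneg _
      exact mul_le_mul (hDle.trans f2') ht.2 ht0.le (by positivity)
    have h2 : κ1 / (2 * b) * X * b = κ1 / 2 * X := by
      field_simp
    rw [h2] at h1
    linarith
  set N : Fin 4 → ℝ → ℕ := ![fun t => ⌊t * (m : ℝ) + β⌋₊, fun t => ⌈((m : ℝ) - β) / t⌉₊,
    fun t => ⌊t * (m' : ℝ) + β⌋₊, fun t => ⌈((m' : ℝ) - β) / t⌉₊] with hNdef
  have hNm : ∀ i, Measurable (N i) := by
    rw [Pair4_all]
    exact ⟨Pair4_meas_floor m β, Pair4_meas_ceil m β, Pair4_meas_floor m' β,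
      Pair4_meas_ceil m' β⟩
  have hNc : ∀ i, ∀ t ∈ Set.Icc a b, D < N i t := by
    rw [Pair4_all]
    exact ⟨hbig m hm1, hbig' m hm1, hbig m' hm1', hbig' m' hm1'⟩
  have hset : {t : ℝ | t ∈ Set.Icc a b ∧ (⌊t * m + β⌋₊).Prime ∧ (⌈(m - β) / t⌉₊).Prime ∧
          (⌊t * m' + β⌋₊).Prime ∧ (⌈(m' - β) / t⌉₊).Prime} =
      {t : ℝ | t ∈ Set.Icc a b ∧ ∀ i, (N i t).Prime} := by
    ext t
    exact and_congr_right fun _ => (Pair4_all fun i => (N i t).Prime).symm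
  have hcore := Pair4_core (a := a) (b := b) N hNm D l hl1 hl2 hNc
  have hDX : ∀ d : ℕ, d ≤ D ^ 2 → (d : ℝ) ≤ X ^ (η / 16) := by
    intro d hd
    have h1 : (d : ℝ) ≤ (D : ℝ) ^ 2 := by exact_mod_cast hd
    refine h1.trans ?_
    calc (D : ℝ) ^ 2 ≤ (X ^ (η / 240)) ^ 2 := by gcongr
      _ = X ^ (η / 120) := by
        rw [← Real.rpow_natCast, ← Real.rpow_mul hXpos.le]
        congr 1
        push_cast
        ring
      _ ≤ X ^ (η / 16) := Real.rpow_le_rpow_of_exponent_le f5.le (by linarith)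
  have hsum := Pair4_sum (D := D) (l := l)
    (V := fun x => (volume {t : ℝ | t ∈ Set.Icc a b ∧ ∀ i, x i ∣ N i t}).toReal)
    (w := b - a) (ε := X ^ (-(η / 5))) (by positivity) hl0 (by
      intro x hx
      have hx' : ∀ i, 1 ≤ x i ∧ x i ≤ D ^ 2 := fun i =>
        Finset.mem_Icc.1 (Fintype.mem_piFinset.1 hx i)
      have hs : {t : ℝ | t ∈ Set.Icc a b ∧ ∀ i, x i ∣ N i t} =
          {t : ℝ | t ∈ Set.Icc a b ∧ x 0 ∣ ⌊t * m + β⌋₊ ∧ x 1 ∣ ⌈(m - β) / t⌉₊ ∧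
            x 2 ∣ ⌊t * m' + β⌋₊ ∧ x 3 ∣ ⌈(m' - β) / t⌉₊} := by
        ext t
        exact and_congr_right fun _ => (Pair4_all fun i => x i ∣ N i t)
      show |(volume {t : ℝ | t ∈ Set.Icc a b ∧ ∀ i, x i ∣ N i t}).toReal -
        (b - a) / ∏ i, (x i : ℝ)| ≤ _
      rw [hs, Fin.prod_univ_four]
      exact hX1 X ((le_max_left _ _).trans hX) m m' hm1 hm2 hm1' hm2' hNE (x 0) (x 1) (x 2) (x 3)
        (hx' 0).1 (hx' 1).1 (hx' 2).1 (hx' 3).1 (hDX _ (hx' 0).2) (hDX _ (hx' 1).2)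
        (hDX _ (hx' 2).2) (hDX _ (hx' 3).2))
  have hlogX : 0 < Real.log X := Real.log_pos f5
  have hlogD : η / 480 * Real.log X ≤ Real.log D := by
    rw [← Real.log_rpow hXpos]
    exact Real.log_le_log (by positivity) hDge
  have hmain : |∑ d ∈ Finset.Icc 1 (D ^ 2), l d / d| ≤ (480 * C0 / η) / Real.log X := by
    refine hl3.trans ?_
    calc C0 / Real.log D ≤ C0 / (η / 480 * Real.log X) := by
          gcongr
      _ = (480 * C0 / η) / Real.log X := by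
          field_simp
  have hD12 : (D : ℝ) ^ 24 * X ^ (-(η / 5)) ≤ X ^ (-(η / 10)) := by
    calc (D : ℝ) ^ 24 * X ^ (-(η / 5)) ≤ (X ^ (η / 240)) ^ 24 * X ^ (-(η / 5)) := by gcongr
      _ = X ^ (-(η / 10)) := by
        rw [← Real.rpow_natCast, ← Real.rpow_mul hXpos.le, ← Real.rpow_add hXpos]
        congr 1
        push_cast
        ring
  rw [hset]
  have hfin : volume {t : ℝ | t ∈ Set.Icc a b ∧ ∀ i, (N i t).Prime} ≠ ⊤ := by
    refine ne_top_of_le_ne_top ?_ (measure_mono (fun t ht => ht.1 : _ ⊆ Set.Icc a b))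
    rw [Real.volume_Icc]
    exact ENNReal.ofReal_ne_top
  rw [← ENNReal.ofReal_toReal hfin]
  refine ENNReal.ofReal_le_ofReal ?_
  refine (hcore.trans hsum).trans ?_
  have h1 : (b - a) * |∑ d ∈ Finset.Icc 1 (D ^ 2), l d / d| ^ 4 ≤
      (b - a) * ((480 * C0 / η) / Real.log X) ^ 4 := by
    have : 0 ≤ b - a := by linarith
    gcongr
  have h2 : X ^ (-(η / 10)) ≤ (480 * C0 / η) ^ 4 * (b - a) / Real.log X ^ 4 := by
    rw [le_div_iff₀ (by positivity)]
    exact f4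
  calc (b - a) * |∑ d ∈ Finset.Icc 1 (D ^ 2), l d / d| ^ 4 + (D : ℝ) ^ 24 * X ^ (-(η / 5))
      ≤ (b - a) * ((480 * C0 / η) / Real.log X) ^ 4 +
        (480 * C0 / η) ^ 4 * (b - a) / Real.log X ^ 4 := by
        linarith [hD12.trans h2]
    _ = 2 * (480 * C0 / η) ^ 4 * (b - a) / Real.log X ^ 4 := by
        field_simp
        ring

end SMC
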