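import Pool.Agent.SMC.GMean

/-!
# SMC.TripA: the weighted number of the triples as an integral

PROOF. `T3_summable`: the terms are at most the products of three terms as in `gp_sum` (centres `w`, `w + log μ`,
`w + 2 log μ`, all `≥ 1`; the last factor of the exponential is `≤ 1`); `Summable.mul_of_nonneg` twice.
`trip_fourier`: for real `y`: `exp(-y²/(2κ²)) = (κ/√(2π)) ∫ exp(-κ²ξ²/2) exp(iξy) dξ` (`fourierIntegral_gaussian`); with
`y = e^w v - h`, `v = log p + log l - 2 log m`, and `ξ = τ e^(-w)`: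
`e^w exp(-(e^w v - h)²/(2κ²)) = (κ/√(2π)) ∫ exp(-κ²τ²/(2e^(2w))) exp(iτv) exp(-iτh/e^w) dτ`. Multiply by the
other factors, sum over the triples, interchange (`integral_tsum` or `hasSum_integral_of_summable_norm`: the norm of the
terms is (summable) × (integrable Gaussian)) and use `exp(iτ log p)/p = p^(-(1 + i(-τ)))`,
`exp(-2iτ log m)/m = m^(-(1 + i 2τ))` and `tsum_mul_tsum`.
-/

namespace SMC

open MeasureTheory ArithmeticFunction

/-- The real weight of one number. -/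
private noncomputable def fw (σ c : ℝ) (n : ℕ) : ℝ :=
  tw n * Real.exp (-(Real.log n - c) ^ 2 / (2 * σ ^ 2))

private theorem twA_nonneg (n : ℕ) : 0 ≤ tw n := by
  unfold tw
  exact div_nonneg vonMangoldt_nonneg (Nat.cast_nonneg n)

private theorem fw_nonneg (σ c : ℝ) (n : ℕ) : 0 ≤ fw σ c n :=
  mul_nonneg (twA_nonneg n) (Real.exp_pos _).le

private theorem fw_summable {σ c : ℝ} (hσ : 0 < σ) (hσ1 : σ ≤ 1) (hc : 1 ≤ c) : Summable (fw σ c) := by
  obtain ⟨C, _, hC⟩ := gp_sum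
  exact (hC σ c hσ hσ1 hc).1

/-- The product of the three weights. -/
private noncomputable def cw (σ w μ : ℝ) (q : ℕ × ℕ × ℕ) : ℝ :=
  fw σ w q.1 * (fw σ (w + Real.log μ) q.2.1 * fw σ (w + 2 * Real.log μ) q.2.2)

private theorem cw_nonneg (σ w μ : ℝ) (q : ℕ × ℕ × ℕ) : 0 ≤ cw σ w μ q :=
  mul_nonneg (fw_nonneg _ _ _) (mul_nonneg (fw_nonneg _ _ _) (fw_nonneg _ _ _))

private theorem cw_summable {σ w μ : ℝ} (hσ : 0 < σ) (hσ1 : σ ≤ 1) (hw : 1 ≤ w) (hμ : 1 ≤ μ) :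
    Summable (cw σ w μ) := by
  have hl : 0 ≤ Real.log μ := Real.log_nonneg hμ
  have h1 := fw_summable hσ hσ1 hw
  have h2 := fw_summable (c := w + Real.log μ) hσ hσ1 (by linarith)
  have h3 := fw_summable (c := w + 2 * Real.log μ) hσ hσ1 (by linarith)
  have h23 : Summable (fun q : ℕ × ℕ => fw σ (w + Real.log μ) q.1 * fw σ (w + 2 * Real.log μ) q.2) :=
    h2.mul_of_nonneg h3 (fun n => fw_nonneg _ _ n) (fun n => fw_nonneg _ _ n)
  exact h1.mul_of_nonneg h23 (fun n => fw_nonneg _ _ n)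
    (fun q => mul_nonneg (fw_nonneg _ _ _) (fw_nonneg _ _ _))

/-- The value of the phase. -/
private noncomputable def ph (q : ℕ × ℕ × ℕ) : ℝ :=
  Real.log q.1 + Real.log q.2.2 - 2 * Real.log q.2.1

private theorem term_eq (σ κ w μ h : ℝ) (q : ℕ × ℕ × ℕ) :
    tw q.1 * tw q.2.1 * tw q.2.2 * Real.exp (-ex σ κ w μ h q) =
      cw σ w μ q * Real.exp (-(Real.exp w * ph q - h) ^ 2 / (2 * κ ^ 2)) := by
  unfold cw fw ex ph
  have e : -(((Real.log q.1 - w) ^ 2 + (Real.log q.2.1 - w - Real.log μ) ^ 2 +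
      (Real.log q.2.2 - w - 2 * Real.log μ) ^ 2) / (2 * σ ^ 2) +
      (Real.exp w * (Real.log q.1 + Real.log q.2.2 - 2 * Real.log q.2.1) - h) ^ 2 / (2 * κ ^ 2)) =
      -(Real.log q.1 - w) ^ 2 / (2 * σ ^ 2) + (-(Real.log q.2.1 - (w + Real.log μ)) ^ 2 / (2 * σ ^ 2) +
        -(Real.log q.2.2 - (w + 2 * Real.log μ)) ^ 2 / (2 * σ ^ 2)) +
      -(Real.exp w * (Real.log q.1 + Real.log q.2.2 - 2 * Real.log q.2.1) - h) ^ 2 / (2 * κ ^ 2) := by
    ring
  rw [e, Real.exp_add, Real.exp_add, Real.exp_add]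
  ring

theorem T3_summable {σ κ w μ h : ℝ} (hσ : 0 < σ) (hσ1 : σ ≤ 1) (hκ : 0 < κ) (hw : 1 ≤ w) (hμ : 1 ≤ μ) :
    Summable (fun q : ℕ × ℕ × ℕ => tw q.1 * tw q.2.1 * tw q.2.2 * Real.exp (-ex σ κ w μ h q)) := by
  refine Summable.of_nonneg_of_le (fun q => ?_) (fun q => ?_) (cw_summable hσ hσ1 hw hμ)
  · exact mul_nonneg (mul_nonneg (mul_nonneg (twA_nonneg _) (twA_nonneg _)) (twA_nonneg _)) (Real.exp_pos _).le
  · rw [term_eq]
    have h1 : Real.exp (-(Real.exp w * ph q - h) ^ 2 / (2 * κ ^ 2)) ≤ 1 := by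
      rw [Real.exp_le_one_iff, neg_div]
      have : 0 ≤ (Real.exp w * ph q - h) ^ 2 / (2 * κ ^ 2) := by positivity
      linarith
    calc cw σ w μ q * Real.exp (-(Real.exp w * ph q - h) ^ 2 / (2 * κ ^ 2)) ≤ cw σ w μ q * 1 :=
          mul_le_mul_of_nonneg_left h1 (cw_nonneg _ _ _ _)
      _ = cw σ w μ q := mul_one _

private theorem gpA_term (σ c τ : ℝ) (n : ℕ) :
    ((vonMangoldt n : ℝ) : ℂ) * (n : ℂ) ^ (-(1 + τ * Complex.I)) *
      ((Real.exp (-(Real.log n - c) ^ 2 / (2 * σ ^ 2)) : ℝ) : ℂ) =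
      (fw σ c n : ℂ) * Complex.exp (-(τ * Real.log n * Complex.I)) := by
  rcases Nat.eq_zero_or_pos n with hn | hn
  · subst hn
    simp [fw, tw]
  · have hn' : (n : ℂ) ≠ 0 := by exact_mod_cast hn.ne'
    have e1 : (n : ℂ) ^ (-(1 + (τ : ℂ) * Complex.I)) =
        (n : ℂ)⁻¹ * Complex.exp (-(τ * Real.log n * Complex.I)) := by
      rw [Complex.cpow_def_of_ne_zero hn', ← Complex.natCast_log]
      have : (Real.log n : ℂ) * (-(1 + (τ : ℂ) * Complex.I)) =
          -(Real.log n : ℂ) + -(τ * Real.log n * Complex.I) := by ring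
      rw [this, Complex.exp_add]
      congr 1
      rw [Complex.exp_neg, Complex.natCast_log, Complex.exp_log hn']
    rw [e1]
    unfold fw tw
    push_cast
    rw [div_eq_mul_inv]
    ring

private theorem gpA_eq (σ c τ : ℝ) :
    gp σ c τ = ∑' n : ℕ, (fw σ c n : ℂ) * Complex.exp (-(τ * Real.log n * Complex.I)) := by
  unfold gp
  exact tsum_congr fun n => gpA_term σ c τ n

private theorem norm_ph (x : ℝ) : ‖Complex.exp (-((x : ℂ) * Complex.I))‖ = 1 := by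
  have : -((x : ℂ) * Complex.I) = ((-x : ℝ) : ℂ) * Complex.I := by push_cast; ring
  rw [this, Complex.norm_exp_ofReal_mul_I]

private theorem norm_fterm (σ c τ : ℝ) (n : ℕ) :
    ‖(fw σ c n : ℂ) * Complex.exp (-(τ * Real.log n * Complex.I))‖ = fw σ c n := by
  have : ((τ : ℂ) * Real.log n * Complex.I) = (((τ * Real.log n : ℝ) : ℂ) * Complex.I) := by push_cast; ring
  rw [norm_mul, this, norm_ph, mul_one, Complex.norm_real, Real.norm_of_nonneg (fw_nonneg _ _ _)]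

private theorem prod_eq {σ w μ : ℝ} (hσ : 0 < σ) (hσ1 : σ ≤ 1) (hw : 1 ≤ w) (hμ : 1 ≤ μ) (τ : ℝ) :
    gp σ w (-τ) * gp σ (w + 2 * Real.log μ) (-τ) * gp σ (w + Real.log μ) (2 * τ) =
      ∑' q : ℕ × ℕ × ℕ, (cw σ w μ q : ℂ) * Complex.exp (τ * ph q * Complex.I) := by
  have hl : 0 ≤ Real.log μ := Real.log_nonneg hμ
  have n1 : Summable (fun n : ℕ => ‖(fw σ w n : ℂ) * Complex.exp (-(((-τ : ℝ) : ℂ) * Real.log n * Complex.I))‖) := by
    simp_rw [norm_fterm]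
    exact fw_summable hσ hσ1 hw
  have n2 : Summable (fun n : ℕ => ‖(fw σ (w + Real.log μ) n : ℂ) *
      Complex.exp (-(((2 * τ : ℝ) : ℂ) * Real.log n * Complex.I))‖) := by
    simp_rw [norm_fterm]
    exact fw_summable hσ hσ1 (by linarith)
  have n3 : Summable (fun n : ℕ => ‖(fw σ (w + 2 * Real.log μ) n : ℂ) *
      Complex.exp (-(((-τ : ℝ) : ℂ) * Real.log n * Complex.I))‖) := by
    simp_rw [norm_fterm]
    exact fw_summable hσ hσ1 (by linarith)
  have n23 := n2.mul_norm n3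
  have e1 : gp σ w (-τ) * gp σ (w + 2 * Real.log μ) (-τ) * gp σ (w + Real.log μ) (2 * τ) =
      gp σ w (-τ) * (gp σ (w + Real.log μ) (2 * τ) * gp σ (w + 2 * Real.log μ) (-τ)) := by ring
  rw [e1, gpA_eq, gpA_eq, gpA_eq, tsum_mul_tsum_of_summable_norm n2 n3, tsum_mul_tsum_of_summable_norm n1 n23]
  refine tsum_congr fun q => ?_
  have e2 : ((τ : ℂ) * ph q * Complex.I) = -(((-τ : ℝ) : ℂ) * Real.log q.1 * Complex.I) +
      (-(((2 * τ : ℝ) : ℂ) * Real.log q.2.1 * Complex.I) + -(((-τ : ℝ) : ℂ) * Real.log q.2.2 * Complex.I)) := by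
    unfold ph
    push_cast
    ring
  rw [e2, Complex.exp_add, Complex.exp_add]
  unfold cw
  push_cast
  ring

/-- The Gaussian factor. -/
private noncomputable def gf (κ w h τ : ℝ) : ℂ :=
  ((Real.exp (-(κ ^ 2 * τ ^ 2 / (2 * Real.exp w ^ 2))) : ℝ) : ℂ) *
    Complex.exp (-(τ * (h / Real.exp w : ℝ) * Complex.I))

private theorem norm_gf (κ w h τ : ℝ) : ‖gf κ w h τ‖ = Real.exp (-(κ ^ 2 / (2 * Real.exp w ^ 2)) * τ ^ 2) := by
  unfold gf
  have : ((τ : ℂ) * ((h / Real.exp w : ℝ) : ℂ) * Complex.I) =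
      (((τ * (h / Real.exp w) : ℝ) : ℂ) * Complex.I) := by push_cast; ring
  rw [norm_mul, this, norm_ph, mul_one, Complex.norm_real, Real.norm_of_nonneg (Real.exp_pos _).le]
  congr 1
  ring

private theorem gf_cont (κ w h : ℝ) : Continuous (gf κ w h) := by
  unfold gf
  fun_prop

private theorem norm_pq (τ v : ℝ) : ‖Complex.exp ((τ : ℂ) * v * Complex.I)‖ = 1 := by
  have : ((τ : ℂ) * v * Complex.I) = (((τ * v : ℝ) : ℂ) * Complex.I) := by push_cast; ring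
  rw [this, Complex.norm_exp_ofReal_mul_I]

private theorem gauss_int {κ : ℝ} (hκ : 0 < κ) (w h v : ℝ) :
    ((κ / Real.sqrt (2 * Real.pi) : ℝ) : ℂ) * ∫ τ : ℝ, gf κ w h τ * Complex.exp (τ * v * Complex.I) =
      ((Real.exp w * Real.exp (-(Real.exp w * v - h) ^ 2 / (2 * κ ^ 2)) : ℝ) : ℂ) := by
  have hw0 : 0 < Real.exp w := Real.exp_pos w
  set b : ℝ := κ ^ 2 / (2 * Real.exp w ^ 2) with hb
  have hb0 : 0 < b := by positivity
  set t : ℝ := v - h / Real.exp w with ht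
  have e1 : ∀ τ : ℝ, gf κ w h τ * Complex.exp (τ * v * Complex.I) =
      Complex.exp (Complex.I * (t : ℂ) * τ) * Complex.exp (-(b : ℂ) * (τ : ℂ) ^ 2) := by
    intro τ
    unfold gf
    rw [Complex.ofReal_exp, mul_assoc, ← Complex.exp_add, ← Complex.exp_add, ← Complex.exp_add]
    congr 1
    rw [hb, ht]
    push_cast
    have : (Complex.exp (w : ℂ)) ≠ 0 := Complex.exp_ne_zero _
    field_simp
    ring
  simp_rw [e1]
  have hbre : 0 < ((b : ℂ)).re := by simpa using hb0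
  rw [fourierIntegral_gaussian hbre (t : ℂ)]
  have e2 : ((Real.pi : ℂ) / (b : ℂ)) ^ (1 / 2 : ℂ) = ((Real.sqrt (Real.pi / b) : ℝ) : ℂ) := by
    rw [Real.sqrt_eq_rpow, Complex.ofReal_cpow (by positivity)]
    push_cast
    rfl
  have e3 : Complex.exp (-(t : ℂ) ^ 2 / (4 * (b : ℂ))) =
      ((Real.exp (-(Real.exp w * v - h) ^ 2 / (2 * κ ^ 2)) : ℝ) : ℂ) := by
    rw [Complex.ofReal_exp]
    congr 1
    have : -t ^ 2 / (4 * b) = -(Real.exp w * v - h) ^ 2 / (2 * κ ^ 2) := by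
      rw [hb, ht]
      field_simp
      ring
    rw [← this]
    push_cast
    ring
  have e4 : κ / Real.sqrt (2 * Real.pi) * Real.sqrt (Real.pi / b) = Real.exp w := by
    have : Real.pi / b = 2 * Real.pi * (Real.exp w / κ) ^ 2 := by
      rw [hb]
      field_simp
    rw [this, Real.sqrt_mul (show (0:ℝ) ≤ 2 * Real.pi by positivity) ((Real.exp w / κ) ^ 2),
      Real.sqrt_sq (by positivity)]
    have hs : Real.sqrt (2 * Real.pi) ≠ 0 := by positivity
    field_simp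
  rw [e2, e3, ← mul_assoc, ← Complex.ofReal_mul, e4]
  push_cast
  ring

theorem trip_fourier {σ κ w μ h : ℝ} (hσ : 0 < σ) (hσ1 : σ ≤ 1) (hκ : 0 < κ) (hw : 1 ≤ w) (hμ : 1 ≤ μ) :
    ((Real.exp w * T3 σ κ w μ h : ℝ) : ℂ) = ((κ / Real.sqrt (2 * Real.pi) : ℝ) : ℂ) *
      ∫ τ : ℝ, ((Real.exp (-(κ ^ 2 * τ ^ 2 / (2 * Real.exp w ^ 2))) : ℝ) : ℂ) *
        Complex.exp (-(τ * (h / Real.exp w : ℝ) * Complex.I)) *
        (gp σ w (-τ) * gp σ (w + 2 * Real.log μ) (-τ) * gp σ (w + Real.log μ) (2 * τ)) := by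
  have hw0 : 0 < Real.exp w := Real.exp_pos w
  have hb0 : 0 < κ ^ 2 / (2 * Real.exp w ^ 2) := by positivity
  have hcs := cw_summable (σ := σ) (w := w) (μ := μ) hσ hσ1 hw hμ
  have e1 : ∀ τ : ℝ, ((Real.exp (-(κ ^ 2 * τ ^ 2 / (2 * Real.exp w ^ 2))) : ℝ) : ℂ) *
        Complex.exp (-(τ * (h / Real.exp w : ℝ) * Complex.I)) *
        (gp σ w (-τ) * gp σ (w + 2 * Real.log μ) (-τ) * gp σ (w + Real.log μ) (2 * τ)) =
      ∑' q : ℕ × ℕ × ℕ, (cw σ w μ q : ℂ) * (gf κ w h τ * Complex.exp (τ * ph q * Complex.I)) := by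
    intro τ
    rw [prod_eq hσ hσ1 hw hμ τ, ← tsum_mul_left]
    refine tsum_congr fun q => ?_
    unfold gf
    ring
  simp_rw [e1]
  have hnorm : ∀ (q : ℕ × ℕ × ℕ) (τ : ℝ),
      ‖(cw σ w μ q : ℂ) * (gf κ w h τ * Complex.exp (τ * ph q * Complex.I))‖ =
        cw σ w μ q * Real.exp (-(κ ^ 2 / (2 * Real.exp w ^ 2)) * τ ^ 2) := by
    intro q τ
    rw [norm_mul, norm_mul, norm_pq, mul_one, norm_gf, Complex.norm_real,
      Real.norm_of_nonneg (cw_nonneg _ _ _ _)]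
  have hgi : Integrable (fun τ : ℝ => Real.exp (-(κ ^ 2 / (2 * Real.exp w ^ 2)) * τ ^ 2)) :=
    integrable_exp_neg_mul_sq hb0
  have hint : ∀ q : ℕ × ℕ × ℕ, Integrable (fun τ : ℝ =>
      (cw σ w μ q : ℂ) * (gf κ w h τ * Complex.exp (τ * ph q * Complex.I))) := by
    intro q
    refine Integrable.mono' (hgi.const_mul (cw σ w μ q)) ?_ ?_
    · have : Continuous (fun τ : ℝ =>
          (cw σ w μ q : ℂ) * (gf κ w h τ * Complex.exp (τ * ph q * Complex.I))) := by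
        have := gf_cont κ w h
        fun_prop
      exact this.aestronglyMeasurable
    · filter_upwards with τ
      rw [hnorm]
  have hsum : Summable (fun q : ℕ × ℕ × ℕ => ∫ τ : ℝ,
      ‖(cw σ w μ q : ℂ) * (gf κ w h τ * Complex.exp (τ * ph q * Complex.I))‖) := by
    simp_rw [hnorm, integral_const_mul]
    exact hcs.mul_right _
  have hs := hasSum_integral_of_summable_integral_norm hint hsum
  rw [← hs.tsum_eq, ← tsum_mul_left]
  unfold T3
  rw [← tsum_mul_left, Complex.ofReal_tsum]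
  refine tsum_congr fun q => ?_
  have hg := gauss_int hκ w h (ph q)
  rw [integral_const_mul, term_eq, mul_left_comm ((κ / Real.sqrt (2 * Real.pi) : ℝ) : ℂ), hg]
  push_cast
  ring

end SMC
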