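import Pool.Agent.SMC.TripA
import Pool.Agent.SMC.GaussS

/-!
# SMC.TripB: the asymptotic formula for the weighted number of the triples

PROOF. `X = e^w`. Write `P = gp σ w (-τ)`, `L = gp σ (w + 2 log μ) (-τ)`, `M = gp σ (w + log μ) (2τ)`, and `P0, L0, M0` for the
corresponding `gm`. The phases cancel: `P0 L0 M0 = (√(2π) σ)³ exp(-3σ²τ²)`. The main part
`(κ/√(2π)) ∫ exp(-κ²τ²/(2X²)) exp(-iτh/X) P0 L0 M0 dτ` tends by dominated convergence to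
`(κ/√(2π)) (2π)^(3/2) σ³ ∫ exp(-3σ²τ²) dτ = κ 2π σ³ √(π/(3σ²)) = 2π √(π/3) κ σ²`. The difference: let `S = X w`. For `|τ| > S`:
`|P L M|`, `|P0 L0 M0| ≤ C (1+w)^20`, and `∫_{|τ|>S} exp(-κ²τ²/(2X²)) dτ ≤ exp(-κ²w²/4) ∫ exp(-κ²τ²/(4X²)) dτ
= exp(-κ²w²/4) X √(4π)/κ`, and `(1+w)^20 exp(w - κ²w²/4) → 0`. For `|τ| ≤ S`:
`PLM - P0L0M0 = PL(M - M0) + M0 (P - P0) L + M0 P0 (L - L0)`; `|2τ| ≤ 2 S ≤ exp(2 (w + log μ))` for large `w`, so by `gp_gauss` with `K = 2`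
(arguments `w`, `w + log μ`, `w + 2 log μ ≥ w`, `y^(-A) ≤ w^(-A)` for `y ≥ w`) all differences are `≤ w^(-A)`, `A = 20`. By Cauchy-Schwarz
and `gp_ms` (`T = S`; `S e^(-w) = w`): `∫_{|τ|≤S} |P L| |M - M0| ≤ w^(-20) C (1 + w + 2 log μ)^7`; and `|M0| ≤ C exp(-2σ²τ²)`, `|L|`, `|P0| ≤ C (1+w+2 log μ)^6`,
so the other two parts are at most `C w^(-20) (1+w+2 log μ)^6 ∫ exp(-2σ²τ²) dτ`. Everything tends to `0`.
(Take real parts at the end, or `Complex.ofReal_injective`/`tendsto_ofReal_iff`.)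
-/

namespace SMC

open MeasureTheory ArithmeticFunction Filter

theorem tripB_gm_norm {σ : ℝ} (hσ : 0 < σ) (w τ : ℝ) :
    ‖gm σ w τ‖ = Real.sqrt (2 * Real.pi) * σ * Real.exp (-(σ ^ 2 * τ ^ 2) / 2) := by
  unfold gm
  rw [norm_mul, Complex.norm_real, Real.norm_of_nonneg (by positivity)]
  have h1 : Complex.exp (-(τ * w * Complex.I)) = Complex.exp (((-(τ * w) : ℝ) : ℂ) * Complex.I) := by
    congr 1
    push_cast
    ring
  rw [h1, Complex.norm_exp_ofReal_mul_I, mul_one]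

theorem tripB_sqrt : Real.sqrt (2 * Real.pi) ≤ 3 := by
  rw [Real.sqrt_le_left (by norm_num)]
  nlinarith [Real.pi_lt_d2]

theorem tripB_gm_le {σ : ℝ} (hσ : 0 < σ) (hσ1 : σ ≤ 1) (w τ : ℝ) :
    ‖gm σ w τ‖ ≤ 3 * Real.exp (-(σ ^ 2 * τ ^ 2) / 2) := by
  rw [tripB_gm_norm hσ]
  have h1 := tripB_sqrt
  have h2 : 0 ≤ Real.sqrt (2 * Real.pi) := Real.sqrt_nonneg _
  have h3 := Real.exp_pos (-(σ ^ 2 * τ ^ 2) / 2)
  have h4 : Real.sqrt (2 * Real.pi) * σ ≤ 3 := by nlinarith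
  exact mul_le_mul_of_nonneg_right h4 h3.le

theorem tripB_gm_le3 {σ : ℝ} (hσ : 0 < σ) (hσ1 : σ ≤ 1) (w τ : ℝ) : ‖gm σ w τ‖ ≤ 3 := by
  refine (tripB_gm_le hσ hσ1 w τ).trans ?_
  have : Real.exp (-(σ ^ 2 * τ ^ 2) / 2) ≤ 1 := by
    rw [Real.exp_le_one_iff]
    have : 0 ≤ σ ^ 2 * τ ^ 2 := by positivity
    linarith
  linarith

theorem tripB_gm_cont (σ w : ℝ) : Continuous (gm σ w) := by
  unfold gm
  fun_prop

/-- The kernel. -/
noncomputable def tripBA (κ h w τ : ℝ) : ℂ :=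
  ((Real.exp (-(κ ^ 2 * τ ^ 2 / (2 * Real.exp w ^ 2))) : ℝ) : ℂ) *
    Complex.exp (-(τ * (h / Real.exp w : ℝ) * Complex.I))

/-- The product of the three sums. -/
noncomputable def tripBR (σ μ w τ : ℝ) : ℂ :=
  gp σ w (-τ) * gp σ (w + 2 * Real.log μ) (-τ) * gp σ (w + Real.log μ) (2 * τ)

/-- The product of the main terms. -/
noncomputable def tripBR0 (σ μ w τ : ℝ) : ℂ :=
  gm σ w (-τ) * gm σ (w + 2 * Real.log μ) (-τ) * gm σ (w + Real.log μ) (2 * τ)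

theorem tripBA_norm (κ h w τ : ℝ) :
    ‖tripBA κ h w τ‖ = Real.exp (-(κ ^ 2 * τ ^ 2 / (2 * Real.exp w ^ 2))) := by
  unfold tripBA
  rw [norm_mul, Complex.norm_real, Real.norm_of_nonneg (by positivity)]
  have h1 : Complex.exp (-(τ * (h / Real.exp w : ℝ) * Complex.I)) =
      Complex.exp (((-(τ * (h / Real.exp w)) : ℝ) : ℂ) * Complex.I) := by
    congr 1
    push_cast
    ring
  rw [h1, Complex.norm_exp_ofReal_mul_I, mul_one]

theorem tripBA_cont (κ h w : ℝ) : Continuous (tripBA κ h w) := by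
  unfold tripBA
  fun_prop

theorem tripBR0_eq (σ μ w τ : ℝ) :
    tripBR0 σ μ w τ = (((Real.sqrt (2 * Real.pi) * σ) ^ 3 * Real.exp (-(3 * σ ^ 2) * τ ^ 2) : ℝ) : ℂ) := by
  unfold tripBR0 gm
  have h1 : Complex.exp (-(((-τ : ℝ) : ℂ) * w * Complex.I)) *
      Complex.exp (-(((-τ : ℝ) : ℂ) * ((w + 2 * Real.log μ : ℝ) : ℂ) * Complex.I)) *
      Complex.exp (-(((2 * τ : ℝ) : ℂ) * ((w + Real.log μ : ℝ) : ℂ) * Complex.I)) = 1 := by
    rw [← Complex.exp_add, ← Complex.exp_add, Complex.exp_eq_one_iff]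
    refine ⟨0, ?_⟩
    push_cast
    ring
  have h2 : Real.exp (-(3 * σ ^ 2) * τ ^ 2) = Real.exp (-(σ ^ 2 * (-τ) ^ 2) / 2) *
      Real.exp (-(σ ^ 2 * (-τ) ^ 2) / 2) * Real.exp (-(σ ^ 2 * (2 * τ) ^ 2) / 2) := by
    rw [← Real.exp_add, ← Real.exp_add]
    congr 1
    ring
  rw [h2]
  calc _ = ((Real.sqrt (2 * Real.pi) * σ * Real.exp (-(σ ^ 2 * (-τ) ^ 2) / 2) : ℝ) : ℂ) *
      ((Real.sqrt (2 * Real.pi) * σ * Real.exp (-(σ ^ 2 * (-τ) ^ 2) / 2) : ℝ) : ℂ) *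
      ((Real.sqrt (2 * Real.pi) * σ * Real.exp (-(σ ^ 2 * (2 * τ) ^ 2) / 2) : ℝ) : ℂ) *
      (Complex.exp (-(((-τ : ℝ) : ℂ) * w * Complex.I)) *
      Complex.exp (-(((-τ : ℝ) : ℂ) * ((w + 2 * Real.log μ : ℝ) : ℂ) * Complex.I)) *
      Complex.exp (-(((2 * τ : ℝ) : ℂ) * ((w + Real.log μ : ℝ) : ℂ) * Complex.I))) := by ring
    _ = _ := by
      rw [h1]
      push_cast
      ring

theorem tripBR0_cont (σ μ w : ℝ) : Continuous (tripBR0 σ μ w) := by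
  unfold tripBR0
  exact (((tripB_gm_cont σ w).comp continuous_neg).mul
    ((tripB_gm_cont σ _).comp continuous_neg)).mul ((tripB_gm_cont σ _).comp (by fun_prop))

theorem tripBR_cont {σ : ℝ} (hσ : 0 < σ) (hσ1 : σ ≤ 1) {μ w : ℝ} (hw : 1 ≤ w) (hμ : 1 ≤ μ) :
    Continuous (tripBR σ μ w) := by
  have hl := Real.log_nonneg hμ
  unfold tripBR
  exact (((gp_cont hσ hσ1 hw).comp continuous_neg).mul
    ((gp_cont hσ hσ1 (by linarith)).comp continuous_neg)).mul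
    ((gp_cont hσ hσ1 (by linarith)).comp (by fun_prop))

theorem tripB_gauss {a : ℝ} (ha : 0 < a) : Integrable (fun τ : ℝ => Real.exp (-a * τ ^ 2)) :=
  integrable_exp_neg_mul_sq ha

/-- The main part. -/
theorem tripB_main {σ κ μ h : ℝ} (hσ : 0 < σ) :
    Tendsto (fun w : ℝ => ∫ τ : ℝ, tripBA κ h w τ * tripBR0 σ μ w τ) atTop
      (nhds ((((Real.sqrt (2 * Real.pi) * σ) ^ 3 * Real.sqrt (Real.pi / (3 * σ ^ 2)) : ℝ) : ℂ))) := by
  have hval : ∫ τ : ℝ, (((Real.sqrt (2 * Real.pi) * σ) ^ 3 * Real.exp (-(3 * σ ^ 2) * τ ^ 2) : ℝ) : ℂ) =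
      (((Real.sqrt (2 * Real.pi) * σ) ^ 3 * Real.sqrt (Real.pi / (3 * σ ^ 2)) : ℝ) : ℂ) := by
    refine (integral_ofReal (𝕜 := ℂ)
      (f := fun τ : ℝ => (Real.sqrt (2 * Real.pi) * σ) ^ 3 * Real.exp (-(3 * σ ^ 2) * τ ^ 2))).trans ?_
    rw [integral_const_mul, integral_gaussian]
    rfl
  rw [← hval]
  refine tendsto_integral_filter_of_dominated_convergence
    (fun τ => (Real.sqrt (2 * Real.pi) * σ) ^ 3 * Real.exp (-(3 * σ ^ 2) * τ ^ 2)) ?_ ?_ ?_ ?_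
  · filter_upwards with w
    exact ((tripBA_cont κ h w).mul (tripBR0_cont σ μ w)).aestronglyMeasurable
  · filter_upwards with w
    filter_upwards with τ
    rw [norm_mul, tripBA_norm, tripBR0_eq, Complex.norm_real, Real.norm_of_nonneg (by positivity)]
    have h1 : Real.exp (-(κ ^ 2 * τ ^ 2 / (2 * Real.exp w ^ 2))) ≤ 1 := by
      rw [Real.exp_le_one_iff]
      have : 0 ≤ κ ^ 2 * τ ^ 2 / (2 * Real.exp w ^ 2) := by positivity
      linarith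
    exact mul_le_of_le_one_left (by positivity) h1
  · exact (tripB_gauss (by positivity)).const_mul _
  · filter_upwards with τ
    have hX : Tendsto (fun w : ℝ => (Real.exp w)⁻¹) atTop (nhds 0) :=
      tendsto_inv_atTop_zero.comp Real.tendsto_exp_atTop
    have h1 : Tendsto (fun w : ℝ => Real.exp (-(κ ^ 2 * τ ^ 2 / (2 * Real.exp w ^ 2)))) atTop (nhds 1) := by
      have : Tendsto (fun w : ℝ => -(κ ^ 2 * τ ^ 2 / 2) * ((Real.exp w)⁻¹) ^ 2) atTop (nhds 0) := by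
        have := (hX.pow 2).const_mul (-(κ ^ 2 * τ ^ 2 / 2))
        simpa using this
      have h2 := (Real.continuous_exp.tendsto 0).comp this
      rw [Real.exp_zero] at h2
      refine h2.congr fun w => ?_
      simp only [Function.comp]
      congr 1
      field_simp
    have h3 : Tendsto (fun w : ℝ => Complex.exp (-(τ * (h / Real.exp w : ℝ) * Complex.I))) atTop (nhds 1) := by
      have : Tendsto (fun w : ℝ => h / Real.exp w) atTop (nhds 0) := by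
        have := hX.const_mul h
        simpa [div_eq_mul_inv] using this
      have h4 : Tendsto (fun w : ℝ => -((τ : ℂ) * ((h / Real.exp w : ℝ) : ℂ) * Complex.I)) atTop (nhds 0) := by
        have h5 := (Complex.continuous_ofReal.tendsto 0).comp this
        have h6 := ((h5.const_mul (τ : ℂ)).mul_const Complex.I).neg
        simpa [Function.comp] using h6
      have h5 := (Complex.continuous_exp.tendsto 0).comp h4
      rw [Complex.exp_zero] at h5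
      exact h5
    have h6 : Tendsto (fun w : ℝ => tripBA κ h w τ) atTop (nhds 1) := by
      unfold tripBA
      have h7 := ((Complex.continuous_ofReal.tendsto 1).comp h1).mul h3
      simpa [Function.comp] using h7
    have h8 := h6.mul_const ((((Real.sqrt (2 * Real.pi) * σ) ^ 3 * Real.exp (-(3 * σ ^ 2) * τ ^ 2) : ℝ) : ℂ))
    rw [one_mul] at h8
    refine h8.congr fun w => ?_
    rw [tripBR0_eq]

theorem tripB_pw {δ C : ℝ} {a b c a0 b0 c0 : ℂ} (hδ : 0 ≤ δ) (h1 : ‖a - a0‖ ≤ δ) (h2 : ‖b - b0‖ ≤ δ)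
    (h3 : ‖c - c0‖ ≤ δ) (hb : ‖b‖ ≤ C) (ha0 : ‖a0‖ ≤ 3) {g : ℝ} (hc0 : ‖c0‖ ≤ 3 * g) (hg : 0 ≤ g) :
    ‖a * b * c - a0 * b0 * c0‖ ≤ δ * ((‖a‖ ^ 2 + ‖b‖ ^ 2) / 2) + δ * (3 * C + 9) * g := by
  have e1 : a * b * c - a0 * b0 * c0 = a * b * (c - c0) + c0 * (a - a0) * b + c0 * a0 * (b - b0) := by ring
  rw [e1]
  refine (norm_add₃_le).trans ?_
  rw [norm_mul, norm_mul, norm_mul, norm_mul, norm_mul, norm_mul]
  have n1 := norm_nonneg a
  have n2 := norm_nonneg b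
  have n3 := norm_nonneg c0
  have n4 := norm_nonneg a0
  have k1 : ‖a‖ * ‖b‖ * ‖c - c0‖ ≤ δ * ((‖a‖ ^ 2 + ‖b‖ ^ 2) / 2) := by
    have : ‖a‖ * ‖b‖ ≤ (‖a‖ ^ 2 + ‖b‖ ^ 2) / 2 := by nlinarith [sq_nonneg (‖a‖ - ‖b‖)]
    calc ‖a‖ * ‖b‖ * ‖c - c0‖ ≤ ((‖a‖ ^ 2 + ‖b‖ ^ 2) / 2) * δ :=
          mul_le_mul this h3 (norm_nonneg _) (by positivity)
      _ = _ := by ring
  have k2 : ‖c0‖ * ‖a - a0‖ * ‖b‖ ≤ (3 * g) * δ * C :=
    mul_le_mul (mul_le_mul hc0 h1 (norm_nonneg _) (by positivity)) hb n2 (by positivity)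
  have k3 : ‖c0‖ * ‖a0‖ * ‖b - b0‖ ≤ (3 * g) * 3 * δ :=
    mul_le_mul (mul_le_mul hc0 ha0 n4 (by positivity)) h2 (norm_nonneg _) (by positivity)
  nlinarith

theorem tripB_neg_int {S : ℝ} (hS : 0 ≤ S) (f : ℝ → ℝ) :
    ∫ τ in Set.Icc (-S) S, f (-τ) = ∫ τ in Set.Icc (-S) S, f τ := by
  rw [integral_Icc_eq_integral_Ioc, integral_Icc_eq_integral_Ioc,
    ← intervalIntegral.integral_of_le (by linarith), ← intervalIntegral.integral_of_le (by linarith),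
    intervalIntegral.integral_comp_neg, neg_neg]

/-- The error for one `w`. -/
theorem tripB_one {σ κ μ h C D w δ : ℝ} (hσ : 0 < σ) (hσ1 : σ ≤ 1) (hκ : 0 < κ) (hμ : 1 ≤ μ) (hC : 1 ≤ C) (hD : 1 ≤ D)
    (hδ : 0 ≤ δ) (hw2 : 2 ≤ w) (hwμ : 1 + 2 * Real.log μ ≤ w)
    (hgp : ∀ σ w : ℝ, 0 < σ → σ ≤ 1 → 1 ≤ w →
      Summable (fun n : ℕ => tw n * Real.exp (-(Real.log n - w) ^ 2 / (2 * σ ^ 2))) ∧
      ∑' n : ℕ, tw n * Real.exp (-(Real.log n - w) ^ 2 / (2 * σ ^ 2)) ≤ C * (1 + w) ^ 6 ∧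
      ∀ τ : ℝ, ‖gp σ w τ‖ ≤ C * (1 + w) ^ 6)
    (hms : ∀ σ w T : ℝ, 0 < σ → σ ≤ 1 → 1 ≤ w → 3 ≤ T →
      ∫ τ in Set.Icc (-T) T, ‖gp σ w τ‖ ^ 2 ≤ D * (1 + w) ^ 6 * (T * Real.exp (-w) + 1))
    (hgg : ∀ y τ : ℝ, w ≤ y → |τ| ≤ Real.exp (2 * y) → ‖gp σ y τ - gm σ y τ‖ ≤ δ) :
    ‖∫ τ : ℝ, tripBA κ h w τ * (tripBR σ μ w τ - tripBR0 σ μ w τ)‖ ≤
      δ * (128 * D * w ^ 7) + δ * (3 * (64 * C * w ^ 6) + 9) * Real.sqrt (Real.pi / (2 * σ ^ 2)) +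
      28 * (64 * C * w ^ 6) ^ 3 * Real.exp (-(κ ^ 2 * w ^ 2 / 4)) * (4 * Real.exp w / κ) := by
  have hl := Real.log_nonneg hμ
  have hw1 : 1 ≤ w := by linarith
  set ℓ := Real.log μ with hℓ
  set Q : ℝ := 64 * C * w ^ 6 with hQ
  have hw6 : 1 ≤ w ^ 6 := one_le_pow₀ hw1
  have hQ1 : 1 ≤ Q := by
    rw [hQ]
    nlinarith
  have hX := Real.exp_pos w
  set S : ℝ := w * Real.exp w with hS
  have hSX : 0 < S := by positivity
  have hS3 : 3 ≤ S := by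
    have := Real.add_one_le_exp w
    nlinarith
  have h2w : 2 * S ≤ Real.exp (2 * w) := by
    have h1 : 2 * w ≤ Real.exp w := by
      have := Real.quadratic_le_exp_of_nonneg (by linarith : (0:ℝ) ≤ w)
      nlinarith [sq_nonneg (w - 1)]
    rw [show 2 * w = w + w by ring, Real.exp_add, hS]
    nlinarith
  have hgpQ : ∀ y τ : ℝ, w ≤ y → y ≤ w + 2 * ℓ → ‖gp σ y τ‖ ≤ Q := by
    intro y τ hy hy2
    refine ((hgp σ y hσ hσ1 (by linarith)).2.2 τ).trans ?_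
    have h1 : (1 + y) ^ 6 ≤ (2 * w) ^ 6 := pow_le_pow_left₀ (by linarith) (by linarith) 6
    rw [hQ]
    calc C * (1 + y) ^ 6 ≤ C * (2 * w) ^ 6 := mul_le_mul_of_nonneg_left h1 (by linarith)
      _ = 64 * C * w ^ 6 := by ring
  have hmsQ : ∀ y : ℝ, w ≤ y → y ≤ w + 2 * ℓ →
      ∫ τ in Set.Icc (-S) S, ‖gp σ y (-τ)‖ ^ 2 ≤ 128 * D * w ^ 7 := by
    intro y hy hy2
    rw [tripB_neg_int hSX.le (fun τ => ‖gp σ y τ‖ ^ 2)]
    refine (hms σ y S hσ hσ1 (by linarith) hS3).trans ?_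
    have h1 : (1 + y) ^ 6 ≤ (2 * w) ^ 6 := pow_le_pow_left₀ (by linarith) (by linarith) 6
    have h2 : S * Real.exp (-y) + 1 ≤ 2 * w := by
      have h3 : Real.exp (-y) ≤ Real.exp (-w) := Real.exp_le_exp.mpr (by linarith)
      have h4 : S * Real.exp (-w) = w := by
        rw [hS, mul_assoc, ← Real.exp_add]
        simp
      nlinarith
    calc D * (1 + y) ^ 6 * (S * Real.exp (-y) + 1) ≤ D * (2 * w) ^ 6 * (2 * w) := by
          refine mul_le_mul (mul_le_mul_of_nonneg_left h1 (by linarith)) h2 (by positivity) (by positivity)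
      _ = 128 * D * w ^ 7 := by ring
  -- the majorant
  set B : ℝ → ℝ := fun τ =>
    Set.indicator (Set.Icc (-S) S) (fun τ => δ * ((‖gp σ w (-τ)‖ ^ 2 + ‖gp σ (w + 2 * ℓ) (-τ)‖ ^ 2) / 2)) τ +
      δ * (3 * Q + 9) * Real.exp (-(2 * σ ^ 2) * τ ^ 2) +
      28 * Q ^ 3 * Real.exp (-(κ ^ 2 * w ^ 2 / 4)) * Real.exp (-(κ ^ 2 / (4 * Real.exp w ^ 2)) * τ ^ 2) with hB
  have c1 : Continuous (fun τ : ℝ => ‖gp σ w (-τ)‖ ^ 2) :=
    ((gp_cont hσ hσ1 hw1).comp continuous_neg).norm.pow 2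
  have c2 : Continuous (fun τ : ℝ => ‖gp σ (w + 2 * ℓ) (-τ)‖ ^ 2) :=
    ((gp_cont hσ hσ1 (by linarith)).comp continuous_neg).norm.pow 2
  have i1 : IntegrableOn (fun τ : ℝ => ‖gp σ w (-τ)‖ ^ 2) (Set.Icc (-S) S) :=
    c1.continuousOn.integrableOn_compact isCompact_Icc
  have i2 : IntegrableOn (fun τ : ℝ => ‖gp σ (w + 2 * ℓ) (-τ)‖ ^ 2) (Set.Icc (-S) S) :=
    c2.continuousOn.integrableOn_compact isCompact_Icc
  have i3 : Integrable (Set.indicator (Set.Icc (-S) S)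
      (fun τ => δ * ((‖gp σ w (-τ)‖ ^ 2 + ‖gp σ (w + 2 * ℓ) (-τ)‖ ^ 2) / 2))) := by
    rw [integrable_indicator_iff measurableSet_Icc]
    exact ((i1.add i2).div_const 2).const_mul δ
  have i4 : Integrable (fun τ : ℝ => δ * (3 * Q + 9) * Real.exp (-(2 * σ ^ 2) * τ ^ 2)) :=
    (tripB_gauss (by positivity)).const_mul _
  have i5 : Integrable (fun τ : ℝ => 28 * Q ^ 3 * Real.exp (-(κ ^ 2 * w ^ 2 / 4)) *
      Real.exp (-(κ ^ 2 / (4 * Real.exp w ^ 2)) * τ ^ 2)) :=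
    (tripB_gauss (by positivity)).const_mul _
  have hBi : Integrable B := (i3.add i4).add i5
  have hpt : ∀ τ : ℝ, ‖tripBA κ h w τ * (tripBR σ μ w τ - tripBR0 σ μ w τ)‖ ≤ B τ := by
    intro τ
    rw [norm_mul, tripBA_norm, hB]
    simp only
    have b1 := hgpQ w (-τ) le_rfl (by linarith)
    have b2 := hgpQ (w + 2 * ℓ) (-τ) (by linarith) le_rfl
    have b3 := hgpQ (w + ℓ) (2 * τ) (by linarith) (by linarith)
    have g1 := tripB_gm_le3 hσ hσ1 w (-τ)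
    have g2 := tripB_gm_le3 hσ hσ1 (w + 2 * ℓ) (-τ)
    have g3 := tripB_gm_le3 hσ hσ1 (w + ℓ) (2 * τ)
    have g4 : ‖gm σ (w + ℓ) (2 * τ)‖ ≤ 3 * Real.exp (-(2 * σ ^ 2) * τ ^ 2) := by
      refine (tripB_gm_le hσ hσ1 (w + ℓ) (2 * τ)).trans_eq ?_
      congr 2
      ring
    have p4 : 0 ≤ δ * (3 * Q + 9) * Real.exp (-(2 * σ ^ 2) * τ ^ 2) := by positivity
    have p5 : 0 ≤ 28 * Q ^ 3 * Real.exp (-(κ ^ 2 * w ^ 2 / 4)) *
      Real.exp (-(κ ^ 2 / (4 * Real.exp w ^ 2)) * τ ^ 2) := by positivity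
    by_cases hτ : |τ| ≤ S
    · have hmem : τ ∈ Set.Icc (-S) S := abs_le.mp hτ
      rw [Set.indicator_of_mem hmem]
      have a1 := hgg w (-τ) le_rfl (by rw [abs_neg]; linarith)
      have hmono1 : Real.exp (2 * w) ≤ Real.exp (2 * (w + 2 * ℓ)) := Real.exp_le_exp.mpr (by linarith)
      have hmono2 : Real.exp (2 * w) ≤ Real.exp (2 * (w + ℓ)) := Real.exp_le_exp.mpr (by linarith)
      have a2 := hgg (w + 2 * ℓ) (-τ) (by linarith) (by rw [abs_neg]; linarith)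
      have a3 := hgg (w + ℓ) (2 * τ) (by linarith) (by
        rw [abs_mul, abs_two]; linarith)
      have key := tripB_pw hδ a1 a2 a3 b2 g1 g4 (Real.exp_pos _).le
      have hA1 : Real.exp (-(κ ^ 2 * τ ^ 2 / (2 * Real.exp w ^ 2))) ≤ 1 := by
        rw [Real.exp_le_one_iff]
        have : 0 ≤ κ ^ 2 * τ ^ 2 / (2 * Real.exp w ^ 2) := by positivity
        linarith
      calc _ ≤ ‖tripBR σ μ w τ - tripBR0 σ μ w τ‖ := mul_le_of_le_one_left (norm_nonneg _) hA1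
        _ ≤ _ := key
        _ ≤ _ := by linarith
    · have hmem : τ ∉ Set.Icc (-S) S := fun hm => hτ (abs_le.mpr hm)
      rw [Set.indicator_of_notMem hmem, zero_add]
      push Not at hτ
      have r1 : ‖tripBR σ μ w τ - tripBR0 σ μ w τ‖ ≤ 28 * Q ^ 3 := by
        refine (norm_sub_le _ _).trans ?_
        unfold tripBR tripBR0
        rw [norm_mul, norm_mul, norm_mul, norm_mul]
        have q1 : ‖gp σ w (-τ)‖ * ‖gp σ (w + 2 * Real.log μ) (-τ)‖ * ‖gp σ (w + Real.log μ) (2 * τ)‖ ≤ Q * Q * Q :=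
          mul_le_mul (mul_le_mul b1 b2 (norm_nonneg _) (by linarith)) b3 (norm_nonneg _) (by positivity)
        have q2 : ‖gm σ w (-τ)‖ * ‖gm σ (w + 2 * Real.log μ) (-τ)‖ * ‖gm σ (w + Real.log μ) (2 * τ)‖ ≤ 3 * 3 * 3 :=
          mul_le_mul (mul_le_mul g1 g2 (norm_nonneg _) (by norm_num)) g3 (norm_nonneg _) (by norm_num)
        have q3 : 1 ≤ Q ^ 3 := one_le_pow₀ hQ1
        nlinarith
      have r2 : Real.exp (-(κ ^ 2 * τ ^ 2 / (2 * Real.exp w ^ 2))) ≤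
          Real.exp (-(κ ^ 2 * w ^ 2 / 4)) * Real.exp (-(κ ^ 2 / (4 * Real.exp w ^ 2)) * τ ^ 2) := by
        rw [← Real.exp_add, Real.exp_le_exp]
        have hτ2 : S ^ 2 ≤ τ ^ 2 := by
          rw [← sq_abs τ]
          exact pow_le_pow_left₀ hSX.le hτ.le 2
        have : κ ^ 2 * w ^ 2 / 4 ≤ κ ^ 2 * τ ^ 2 / (4 * Real.exp w ^ 2) := by
          rw [div_le_div_iff₀ (by norm_num) (by positivity)]
          have h5 : S ^ 2 = w ^ 2 * Real.exp w ^ 2 := by rw [hS]; ring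
          have h6 : 0 ≤ κ ^ 2 := by positivity
          nlinarith
        have h7 : κ ^ 2 * τ ^ 2 / (2 * Real.exp w ^ 2) =
            κ ^ 2 * τ ^ 2 / (4 * Real.exp w ^ 2) + κ ^ 2 / (4 * Real.exp w ^ 2) * τ ^ 2 := by
          field_simp
          ring
        rw [h7]
        linarith
      calc _ ≤ (Real.exp (-(κ ^ 2 * w ^ 2 / 4)) * Real.exp (-(κ ^ 2 / (4 * Real.exp w ^ 2)) * τ ^ 2)) * (28 * Q ^ 3) :=
            mul_le_mul r2 r1 (norm_nonneg _) (by positivity)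
        _ = 28 * Q ^ 3 * Real.exp (-(κ ^ 2 * w ^ 2 / 4)) *
            Real.exp (-(κ ^ 2 / (4 * Real.exp w ^ 2)) * τ ^ 2) := by ring
        _ ≤ _ := by linarith
  refine (norm_integral_le_of_norm_le hBi (Eventually.of_forall hpt)).trans ?_
  have v1 : ∫ τ, B τ = (∫ τ in Set.Icc (-S) S, δ * ((‖gp σ w (-τ)‖ ^ 2 + ‖gp σ (w + 2 * ℓ) (-τ)‖ ^ 2) / 2)) +
      δ * (3 * Q + 9) * Real.sqrt (Real.pi / (2 * σ ^ 2)) +
      28 * Q ^ 3 * Real.exp (-(κ ^ 2 * w ^ 2 / 4)) * Real.sqrt (Real.pi / (κ ^ 2 / (4 * Real.exp w ^ 2))) := by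
    have e1 := integral_add (i3.add i4) i5
    have e2 := integral_add i3 i4
    simp only [Pi.add_apply] at e1 e2
    have e3 : ∫ τ : ℝ, δ * (3 * Q + 9) * Real.exp (-(2 * σ ^ 2) * τ ^ 2) =
        δ * (3 * Q + 9) * Real.sqrt (Real.pi / (2 * σ ^ 2)) := by
      rw [integral_const_mul, integral_gaussian]
    have e4 : ∫ τ : ℝ, 28 * Q ^ 3 * Real.exp (-(κ ^ 2 * w ^ 2 / 4)) *
        Real.exp (-(κ ^ 2 / (4 * Real.exp w ^ 2)) * τ ^ 2) =
        28 * Q ^ 3 * Real.exp (-(κ ^ 2 * w ^ 2 / 4)) * Real.sqrt (Real.pi / (κ ^ 2 / (4 * Real.exp w ^ 2))) := by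
      rw [integral_const_mul, integral_gaussian]
    rw [hB]
    refine e1.trans ?_
    rw [e2, integral_indicator measurableSet_Icc, e3, e4]
  rw [v1]
  have v2 : ∫ τ in Set.Icc (-S) S, δ * ((‖gp σ w (-τ)‖ ^ 2 + ‖gp σ (w + 2 * ℓ) (-τ)‖ ^ 2) / 2) ≤
      δ * (128 * D * w ^ 7) := by
    rw [integral_const_mul, integral_div, integral_add i1 i2]
    refine mul_le_mul_of_nonneg_left ?_ hδ
    have m1 := hmsQ w le_rfl (by linarith)
    have m2 := hmsQ (w + 2 * ℓ) (by linarith) le_rfl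
    linarith
  have v3 : Real.sqrt (Real.pi / (κ ^ 2 / (4 * Real.exp w ^ 2))) ≤ 4 * Real.exp w / κ := by
    rw [Real.sqrt_le_left (by positivity)]
    rw [div_div_eq_mul_div, div_pow, div_le_div_iff_of_pos_right (by positivity)]
    have := Real.pi_le_four
    have h5 : 0 < Real.exp w ^ 2 := by positivity
    nlinarith
  have v4 : 28 * Q ^ 3 * Real.exp (-(κ ^ 2 * w ^ 2 / 4)) * Real.sqrt (Real.pi / (κ ^ 2 / (4 * Real.exp w ^ 2))) ≤
      28 * Q ^ 3 * Real.exp (-(κ ^ 2 * w ^ 2 / 4)) * (4 * Real.exp w / κ) :=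
    mul_le_mul_of_nonneg_left v3 (by positivity)
  linarith

/-- The error tends to zero. -/
theorem tripB_err {σ κ μ h : ℝ} (hσ : 0 < σ) (hσ1 : σ ≤ 1) (hκ : 0 < κ) (hμ : 1 ≤ μ) :
    Tendsto (fun w : ℝ => ∫ τ : ℝ, tripBA κ h w τ * (tripBR σ μ w τ - tripBR0 σ μ w τ)) atTop (nhds 0) := by
  obtain ⟨C, hC, hgp⟩ := gp_sum
  obtain ⟨D, hD, hms⟩ := gp_ms
  obtain ⟨w0, hw0, hgg⟩ := gp_gauss hσ hσ1 2 20
  set s0 := Real.sqrt (Real.pi / (2 * σ ^ 2)) with hs0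
  have hs0' : 0 ≤ s0 := Real.sqrt_nonneg _
  set K1 : ℝ := 128 * D + (192 * C + 9) * s0 with hK1
  set K2 : ℝ := 28 * (64 * C) ^ 3 * (4 / κ) with hK2
  have hlim : Tendsto (fun w : ℝ => K1 * w⁻¹ + K2 * (w ^ 18 * Real.exp (-w))) atTop (nhds 0) := by
    have h1 : Tendsto (fun w : ℝ => K1 * w⁻¹) atTop (nhds 0) := by
      simpa using (tendsto_inv_atTop_zero (𝕜 := ℝ)).const_mul K1
    have h2 : Tendsto (fun w : ℝ => K2 * (w ^ 18 * Real.exp (-w))) atTop (nhds 0) := by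
      simpa using (Real.tendsto_pow_mul_exp_neg_atTop_nhds_zero 18).const_mul K2
    simpa using h1.add h2
  refine squeeze_zero_norm' ?_ hlim
  filter_upwards [eventually_ge_atTop 2, eventually_ge_atTop w0, eventually_ge_atTop (1 + 2 * Real.log μ),
    eventually_ge_atTop (8 / κ ^ 2)] with w hw2 hww0 hwμ hwκ
  have hw1 : 1 ≤ w := by linarith
  have hwpos : 0 < w := by linarith
  set δ : ℝ := w ^ (-(20 : ℝ)) with hδ
  have hδ20 : δ = (w ^ 20)⁻¹ := by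
    rw [hδ, Real.rpow_neg hwpos.le]
    congr 1
    exact_mod_cast Real.rpow_natCast w 20
  have hδ0 : 0 ≤ δ := by rw [hδ20]; positivity
  have hgg' : ∀ y τ : ℝ, w ≤ y → |τ| ≤ Real.exp (2 * y) → ‖gp σ y τ - gm σ y τ‖ ≤ δ := by
    intro y τ hy hτ
    refine (hgg y τ (by linarith) hτ).trans ?_
    exact Real.rpow_le_rpow_of_nonpos hwpos hy (by norm_num)
  have main := tripB_one (h := h) hσ hσ1 hκ hμ hC hD hδ0 hw2 hwμ hgp hms hgg'
  refine main.trans ?_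
  have f : ∀ k : ℕ, k ≤ 19 → δ * w ^ k ≤ w⁻¹ := by
    intro k hk
    rw [hδ20, inv_mul_le_iff₀ (by positivity)]
    have : w ^ k ≤ w ^ 19 := pow_le_pow_right₀ hw1 hk
    have h2 : w ^ 20 * w⁻¹ = w ^ 19 := by
      field_simp
    rw [h2]
    exact this
  have f7 := f 7 (by norm_num)
  have f6 := f 6 (by norm_num)
  have f0 := f 0 (by norm_num)
  rw [pow_zero, mul_one] at f0
  have t1 : δ * (128 * D * w ^ 7) ≤ 128 * D * w⁻¹ := by nlinarith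
  have t2 : δ * (3 * (64 * C * w ^ 6) + 9) * s0 ≤ (192 * C + 9) * s0 * w⁻¹ := by
    have : δ * (3 * (64 * C * w ^ 6) + 9) ≤ (192 * C + 9) * w⁻¹ := by nlinarith
    calc _ ≤ ((192 * C + 9) * w⁻¹) * s0 := mul_le_mul_of_nonneg_right this hs0'
      _ = _ := by ring
  have t3 : 28 * (64 * C * w ^ 6) ^ 3 * Real.exp (-(κ ^ 2 * w ^ 2 / 4)) * (4 * Real.exp w / κ) ≤
      K2 * (w ^ 18 * Real.exp (-w)) := by
    have e1 : Real.exp (-(κ ^ 2 * w ^ 2 / 4)) * Real.exp w ≤ Real.exp (-w) := by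
      rw [← Real.exp_add, Real.exp_le_exp]
      rw [div_le_iff₀ (by positivity)] at hwκ
      nlinarith
    calc _ = K2 * w ^ 18 * (Real.exp (-(κ ^ 2 * w ^ 2 / 4)) * Real.exp w) := by
          rw [hK2]
          ring
      _ ≤ K2 * w ^ 18 * Real.exp (-w) := mul_le_mul_of_nonneg_left e1 (by positivity)
      _ = _ := by ring
  have t4 : K1 * w⁻¹ = 128 * D * w⁻¹ + (192 * C + 9) * s0 * w⁻¹ := by
    rw [hK1]
    ring
  rw [t4]
  linarith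

theorem trip {σ κ μ h : ℝ} (hσ : 0 < σ) (hσ1 : σ ≤ 1) (hκ : 0 < κ) (hμ : 1 ≤ μ) :
    Tendsto (fun w : ℝ => Real.exp w * T3 σ κ w μ h) atTop
      (nhds (2 * Real.pi * Real.sqrt (Real.pi / 3) * κ * σ ^ 2)) := by
  have hc : Tendsto (fun w : ℝ => ((κ / Real.sqrt (2 * Real.pi) : ℝ) : ℂ) *
      ((∫ τ : ℝ, tripBA κ h w τ * tripBR0 σ μ w τ) +
        ∫ τ : ℝ, tripBA κ h w τ * (tripBR σ μ w τ - tripBR0 σ μ w τ))) atTop
      (nhds (((κ / Real.sqrt (2 * Real.pi) : ℝ) : ℂ) *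
        ((((Real.sqrt (2 * Real.pi) * σ) ^ 3 * Real.sqrt (Real.pi / (3 * σ ^ 2)) : ℝ) : ℂ) + 0))) :=
    ((tripB_main (h := h) hσ).add (tripB_err hσ hσ1 hκ hμ)).const_mul _
  have hval : ((κ / Real.sqrt (2 * Real.pi) : ℝ) : ℂ) *
        ((((Real.sqrt (2 * Real.pi) * σ) ^ 3 * Real.sqrt (Real.pi / (3 * σ ^ 2)) : ℝ) : ℂ) + 0) =
      ((2 * Real.pi * Real.sqrt (Real.pi / 3) * κ * σ ^ 2 : ℝ) : ℂ) := by
    rw [add_zero, ← Complex.ofReal_mul]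
    congr 1
    have h1 : Real.sqrt (Real.pi / (3 * σ ^ 2)) = Real.sqrt (Real.pi / 3) / σ := by
      rw [show Real.pi / (3 * σ ^ 2) = (Real.pi / 3) / σ ^ 2 by field_simp, Real.sqrt_div (by positivity),
        Real.sqrt_sq hσ.le]
    have h2 : Real.sqrt (2 * Real.pi) ^ 2 = 2 * Real.pi := Real.sq_sqrt (by positivity)
    have h3 : Real.sqrt (2 * Real.pi) ≠ 0 := by positivity
    rw [h1]
    field_simp
    rw [h2]
  rw [hval] at hc
  have hre := (Complex.continuous_re.tendsto _).comp hc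
  rw [Complex.ofReal_re] at hre
  refine hre.congr' ?_
  filter_upwards [eventually_ge_atTop 1] with w hw
  have hl := Real.log_nonneg hμ
  simp only [Function.comp]
  have hfou := trip_fourier (h := h) hσ hσ1 hκ hw hμ
  obtain ⟨C, hC, hgp⟩ := gp_sum
  have iA : Integrable (fun τ : ℝ => Real.exp (-(κ ^ 2 * τ ^ 2 / (2 * Real.exp w ^ 2)))) := by
    have := tripB_gauss (a := κ ^ 2 / (2 * Real.exp w ^ 2)) (by positivity)
    refine this.congr (Eventually.of_forall fun τ => ?_)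
    simp only
    congr 1
    ring
  have iR0 : Integrable (fun τ : ℝ => tripBA κ h w τ * tripBR0 σ μ w τ) := by
    refine (iA.mul_const 27).mono' ((tripBA_cont κ h w).mul (tripBR0_cont σ μ w)).aestronglyMeasurable
      (Eventually.of_forall fun τ => ?_)
    rw [norm_mul, tripBA_norm]
    refine mul_le_mul_of_nonneg_left ?_ (Real.exp_pos _).le
    unfold tripBR0
    rw [norm_mul, norm_mul]
    calc _ ≤ (3 : ℝ) * 3 * 3 := mul_le_mul (mul_le_mul (tripB_gm_le3 hσ hσ1 _ _) (tripB_gm_le3 hσ hσ1 _ _)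
          (norm_nonneg _) (by norm_num)) (tripB_gm_le3 hσ hσ1 _ _) (norm_nonneg _) (by norm_num)
      _ = 27 := by norm_num
  have iR : Integrable (fun τ : ℝ => tripBA κ h w τ * tripBR σ μ w τ) := by
    refine (iA.mul_const (C * (1 + w) ^ 6 * (C * (1 + (w + 2 * Real.log μ)) ^ 6) *
      (C * (1 + (w + Real.log μ)) ^ 6))).mono'
      ((tripBA_cont κ h w).mul (tripBR_cont hσ hσ1 hw hμ)).aestronglyMeasurable
      (Eventually.of_forall fun τ => ?_)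
    rw [norm_mul, tripBA_norm]
    refine mul_le_mul_of_nonneg_left ?_ (Real.exp_pos _).le
    unfold tripBR
    rw [norm_mul, norm_mul]
    exact mul_le_mul (mul_le_mul ((hgp σ _ hσ hσ1 hw).2.2 _) ((hgp σ _ hσ hσ1 (by linarith)).2.2 _)
          (norm_nonneg _) (by positivity)) ((hgp σ _ hσ hσ1 (by linarith)).2.2 _) (norm_nonneg _) (by positivity)
  have hsplit : (∫ τ : ℝ, tripBA κ h w τ * tripBR0 σ μ w τ) +
        ∫ τ : ℝ, tripBA κ h w τ * (tripBR σ μ w τ - tripBR0 σ μ w τ) =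
      ∫ τ : ℝ, tripBA κ h w τ * tripBR σ μ w τ := by
    have : (fun τ : ℝ => tripBA κ h w τ * (tripBR σ μ w τ - tripBR0 σ μ w τ)) =
        fun τ : ℝ => tripBA κ h w τ * tripBR σ μ w τ - tripBA κ h w τ * tripBR0 σ μ w τ := by
      funext τ
      ring
    rw [this, integral_sub iR iR0]
    ring
  rw [hsplit]
  have : ((κ / Real.sqrt (2 * Real.pi) : ℝ) : ℂ) * ∫ τ : ℝ, tripBA κ h w τ * tripBR σ μ w τ =
      ((Real.exp w * T3 σ κ w μ h : ℝ) : ℂ) := hfou.symm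
  rw [this, Complex.ofReal_re]

end SMC
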